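import Pool.Agent.Work.MP_ee7661_gt.Defs
import Pool.Agent.Work.MP_63c7e0_lc.Basic
import Pool.Agent.Lib.ZFModel.DefsZFC

/-! The external description of the generic objects, and elementary set theory in the model. -/

namespace Pool.Agent.Work.MP_ee7661_gt
open Pool.Agent.Lib.ZFModel Pool.Agent.Work.MP_63c7e0_lc Pool.Agent.Work.MP_3181e1_lc

variable {M : Type 1} {E : M → M → Prop}

set_option synthInstance.maxSize 100000

/-- The quadruple `((a, b), (c, d))` belongs to `A`. -/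
def Quad (E : M → M → Prop) (A a b c d : M) : Prop :=
  ∃ p q, IsPair E p a b ∧ IsPair E q c d ∧ App E A p q

/-- The natural numbers of the model are standard. -/
structure ND (E : M → M → Prop) where
  nat : ℕ → M
  w : M
  mem_nat : ∀ a n, E a (nat n) ↔ ∃ m < n, a = nat m
  mem_w : ∀ a, E a w ↔ ∃ n, a = nat n

/-- The external description of the generic objects. -/
structure KD (E : M → M → Prop) (J : Type) [LinearOrder J] extends ND E where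
  o : J → M
  mem_o : ∀ a j, E a (o j) ↔ ∃ i < j, a = o i
  θ : M
  mem_θ : ∀ a, E a θ ↔ ∃ j, a = o j
  R : J → J → Prop
  Cl : J → J → J → J → Prop
  cl : M
  mem_cl : ∀ a b c d, Quad E cl a b c d ↔
    ∃ i j k l, Cl i j k l ∧ a = o i ∧ b = o j ∧ c = o k ∧ d = o l
  r1 : ∀ s t, R s t → Cl s s t t
  r2 : ∀ s t t', s ≤ t → R t t' → Cl s t' t t
  clique : ∀ y α k, ∃ t : ℕ → J, ∀ i < k, α ≤ t i ∧ R y (t i) ∧
    ∀ j < k, i ≠ j → Cl (t i) (t j) y y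
  cover : ∀ α, ∃ s t, ∀ u ≤ α, Cl u u s t
  pt : ∀ β, ∃ x, E (o β) x ∧ (∀ j, E (o j) x → β ≤ j) ∧
    ∀ a b c d, Cl a b c d → E (o a) x → E (o b) x → E (o c) x ∨ E (o d) x
  ne : Nonempty J
  nomax : ∀ j : J, ∃ i, j < i
  cnt : ∀ δ, ∃ f, IsInj E f (o δ) w
  refl : ∀ Q : M → M → M → Prop, Dfn E (fun v => Q (v 0) (v 1) (v 2)) → ∃ δ, ∀ k j u', δ ≤ j →
    Q (o u') (nat k) (nat 0) → R j u' ∨ j = u' → ∃ u < δ, Q (o u) (nat k) (nat 0) ∧ R u j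

instance [Nonempty M] (a b c d e : (ℕ → M) → M) [Trm a] [Trm b] [Trm c] [Trm d] [Trm e] :
    Dfn E (fun v => Quad E (a v) (b v) (c v) (d v) (e v)) := by unfold Quad; infer_instance

section zf
variable (zf : IsZF E)
include zf

theorem exists_funs (A B : M) : ∃ Z, ∀ e, IsFun E e A B → E e Z := by
  have := zf.nonempty
  obtain ⟨g, -, hg⟩ := exists_rel zf A B fun a _ => a = a
  obtain ⟨Z, hZ⟩ := zf.powerset g
  refine ⟨Z, fun e he => (hZ e).2 fun p hp => ?_⟩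
  obtain ⟨x, y, hx, hy, h⟩ := he.1 p hp
  obtain ⟨q, hq, h'⟩ := (hg x y).2 ⟨hx, hy, rfl⟩
  exact pair_unique zf h' h ▸ hq

theorem fun_ext {f g A B : M} (hf : IsFun E f A B) (hg : IsFun E g A B)
    (h : ∀ x y, App E f x y → App E g x y) : f = g := by
  have key : ∀ {f g : M}, IsFun E f A B → (∀ x y, App E f x y → App E g x y) → Sub E f g := by
    intro f g hf h p hp
    obtain ⟨x, y, -, -, h1⟩ := hf.1 p hp
    obtain ⟨q, hq, h2⟩ := h x y ⟨p, hp, h1⟩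
    exact pair_unique zf h2 h1 ▸ hq
  refine zf.extensionality _ _ fun p => ⟨key hf h p, key hg (fun x y hxy => ?_) p⟩
  obtain ⟨z, hz⟩ := hf.2.1 x (hg.mem zf hxy).1
  exact hg.2.2 _ _ _ (h _ _ hz) hxy ▸ hz

variable (nd : ND E)

theorem nat_inj {m n : ℕ} (h : nd.nat m = nd.nat n) : m = n := by
  rcases lt_trichotomy m n with h1 | h1 | h1
  · exact absurd ((nd.mem_nat _ n).2 ⟨m, h1, h.symm⟩) (not_mem_self zf (nd.nat n))
  · exact h1
  · exact absurd ((nd.mem_nat _ m).2 ⟨n, h1, h⟩) (not_mem_self zf (nd.nat m))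

omit zf in
theorem nat_succ (n : ℕ) (z : M) : E z (nd.nat (n + 1)) ↔ E z (nd.nat n) ∨ z = nd.nat n := by
  rw [nd.mem_nat, nd.mem_nat]
  constructor
  · rintro ⟨m, hm, rfl⟩
    rcases Nat.lt_succ_iff_lt_or_eq.1 hm with h | rfl
    · exact Or.inl ⟨m, h, rfl⟩
    · exact Or.inr rfl
  · rintro (⟨m, hm, rfl⟩ | rfl)
    · exact ⟨m, by omega, rfl⟩
    · exact ⟨n, by omega, rfl⟩

omit zf in
theorem nat_zero : IsEmptySet E (nd.nat 0) := fun x hx => by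
  obtain ⟨m, hm, _⟩ := (nd.mem_nat _ _).1 hx
  omega

theorem isOmega_w : IsOmega E nd.w := by
  refine ⟨⟨⟨_, (nd.mem_w _).2 ⟨0, rfl⟩, nat_zero nd⟩, fun x hx => ?_⟩, fun w' hw' x hx => ?_⟩
  · obtain ⟨n, rfl⟩ := (nd.mem_w _).1 hx
    exact ⟨_, (nd.mem_w _).2 ⟨n + 1, rfl⟩, nat_succ nd n⟩
  · obtain ⟨n, rfl⟩ := (nd.mem_w _).1 hx
    clear hx
    induction n with
    | zero =>
      obtain ⟨e, he, he'⟩ := hw'.1
      exact empty_unique zf he' (nat_zero nd) ▸ he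
    | succ n ih =>
      obtain ⟨y, hy, h⟩ := hw'.2 _ ih
      have : y = nd.nat (n + 1) := zf.extensionality _ _ fun z => (h z).trans (nat_succ nd n z).symm
      exact this ▸ hy

theorem omega_eq {w : M} (h : IsOmega E w) : w = nd.w :=
  zf.extensionality _ _ fun x => ⟨h.2 _ (isOmega_w zf nd).1 x, (isOmega_w zf nd).2 _ h.1 x⟩

theorem isTwo : IsTwo E (nd.nat 2) := by
  have h1 : IsSing E (nd.nat 1) (nd.nat 0) := fun x =>
    (nat_succ nd 0 x).trans (or_iff_right (nat_zero nd x))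
  intro z
  rw [nat_succ nd 1 z, h1 z]
  refine or_congr ⟨fun h => h ▸ nat_zero nd, fun h => empty_unique zf h (nat_zero nd)⟩
    ⟨fun h => ⟨_, nat_zero nd, h ▸ h1⟩, fun ⟨e, he, h⟩ => ?_⟩
  rw [empty_unique zf he (nat_zero nd)] at h
  exact sing_unique zf h h1

include nd in
theorem isFin_iff (F : M) : IsFin E F ↔ {x | E x F}.Finite := by
  constructor
  · rintro ⟨w, n, f, hw, hn, hf⟩
    rw [omega_eq zf nd hw] at hn
    obtain ⟨k, rfl⟩ := (nd.mem_w _).1 hn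
    refine ((Set.finite_lt_nat k).biUnion (t := fun m => {y | App E f (nd.nat m) y})
      fun m _ => Set.Subsingleton.finite fun y hy y' hy' => hf.1.2.2 _ _ _ hy hy').subset ?_
    intro y hy
    obtain ⟨x, hx⟩ := hf.2.2 y hy
    obtain ⟨m, hm, rfl⟩ := (nd.mem_nat _ _).1 (hf.1.mem zf hx).1
    exact Set.mem_biUnion hm hx
  · intro h
    have := h.to_subtype
    obtain ⟨k, ⟨e⟩⟩ := Finite.exists_equiv_fin {x | E x F}
    choose p hp using fun i : Fin k => exists_pair zf (nd.nat i) (e.symm i).1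
    obtain ⟨f, hf⟩ := exists_finite_set zf (Set.finite_range p)
    have hA : ∀ x y, App E f x y ↔ ∃ i : Fin k, x = nd.nat i ∧ y = (e.symm i).1 := by
      intro x y
      constructor
      · rintro ⟨q, hq, h1⟩
        obtain ⟨i, rfl⟩ := (hf q).1 hq
        exact ⟨i, pair_inj zf h1 (hp i)⟩
      · rintro ⟨i, rfl, rfl⟩
        exact ⟨p i, (hf _).2 ⟨i, rfl⟩, hp i⟩
    refine ⟨nd.w, nd.nat k, f, isOmega_w zf nd, (nd.mem_w _).2 ⟨k, rfl⟩, ⟨?_, ?_, ?_⟩, ?_, ?_⟩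
    · intro q hq
      obtain ⟨i, rfl⟩ := (hf q).1 hq
      exact ⟨_, _, (nd.mem_nat _ _).2 ⟨i, i.2, rfl⟩, (e.symm i).2, hp i⟩
    · intro x hx
      obtain ⟨m, hm, rfl⟩ := (nd.mem_nat _ _).1 hx
      exact ⟨_, (hA _ _).2 ⟨⟨m, hm⟩, rfl, rfl⟩⟩
    · intro x y y' h1 h2
      obtain ⟨i, rfl, rfl⟩ := (hA _ _).1 h1
      obtain ⟨j, h3, rfl⟩ := (hA _ _).1 h2
      rw [Fin.ext (nat_inj zf nd h3)]
    · intro x x' y h1 h2
      obtain ⟨i, rfl, rfl⟩ := (hA _ _).1 h1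
      obtain ⟨j, rfl, h3⟩ := (hA _ _).1 h2
      rw [e.symm.injective (Subtype.ext h3)]
    · intro y hy
      exact ⟨_, (hA _ _).2 ⟨e ⟨y, hy⟩, rfl, by simp⟩⟩

include nd in
theorem exists_fin {S : Set M} (hS : S.Finite) : ∃ F, IsFin E F ∧ ∀ x, E x F ↔ x ∈ S := by
  obtain ⟨F, hF⟩ := exists_finite_set zf hS
  exact ⟨F, (isFin_iff zf nd F).2 (hS.subset fun x hx => (hF x).1 hx), hF⟩

end zf

section zfc
variable (zfc : IsZFC E)
include zfc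

theorem choice_rel (A B g : M) : ∃ f, (∀ x y, App E f x y → App E g x y ∧ E x A ∧ E y B) ∧
    (∀ x y y', App E f x y → App E f x y' → y = y') ∧
    ∀ x y, E x A → E y B → App E g x y → ∃ y', App E f x y' := by
  have zf := zfc.zf
  have := zf.nonempty
  obtain ⟨W, hW⟩ := zf.powerset g
  obtain ⟨a, ha⟩ := zf.sep W fun z => ∃ x, (∃ y, E y B ∧ App E g x y) ∧
    ∀ p, E p z ↔ E p g ∧ ∃ y, E y B ∧ IsPair E p x y
  obtain ⟨c, hc⟩ := zfc.choice a (by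
      intro z hz
      obtain ⟨-, x, ⟨y, hy, p, hp, h2⟩, h1⟩ := (ha z).1 hz
      exact ⟨p, (h1 p).2 ⟨hp, y, hy, h2⟩⟩)
    (by
      intro z z' p hz hz' h1 h2
      obtain ⟨-, x, -, h3⟩ := (ha z).1 hz
      obtain ⟨-, x', -, h4⟩ := (ha z').1 hz'
      obtain ⟨-, y, -, h5⟩ := (h3 p).1 h1
      obtain ⟨-, y', -, h6⟩ := (h4 p).1 h2
      obtain rfl := (pair_inj zf h5 h6).1
      exact zf.extensionality _ _ fun q => (h3 q).trans (h4 q).symm)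
  obtain ⟨f, -, h2⟩ := exists_rel zf A B fun x y => ∃ p, E p g ∧ E p c ∧ IsPair E p x y
  have key : ∀ x, (∃ y, E y B ∧ App E g x y) →
      ∃! p, (E p g ∧ ∃ y, E y B ∧ IsPair E p x y) ∧ E p c := by
    intro x hx
    obtain ⟨z, hz⟩ := zf.sep g fun p => ∃ y, E y B ∧ IsPair E p x y
    have := hc z ((ha z).2 ⟨(hW z).2 fun p hp => ((hz p).1 hp).1, x, hx, hz⟩)
    simpa only [hz] using this
  refine ⟨f, fun x y h3 => ?_, fun x y y' h3 h4 => ?_, fun x y hx hy h3 => ?_⟩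
  · obtain ⟨hx, hy, p, a1, -, a3⟩ := (h2 _ _).1 h3
    exact ⟨⟨p, a1, a3⟩, hx, hy⟩
  · obtain ⟨hx, hy, p, a1, a2, a3⟩ := (h2 _ _).1 h3
    obtain ⟨-, hy', p', b1, b2, b3⟩ := (h2 _ _).1 h4
    obtain rfl := (key x ⟨y, hy, p, a1, a3⟩).unique ⟨⟨a1, y, hy, a3⟩, a2⟩ ⟨⟨b1, y', hy', b3⟩, b2⟩
    exact (pair_inj zf a3 b3).2
  · obtain ⟨p, ⟨⟨h3, y, h4, h5⟩, h6⟩, -⟩ := key x ⟨y, hy, h3⟩
    exact ⟨y, (h2 x y).2 ⟨hx, h4, p, h3, h6, h5⟩⟩

/-- Countably many requirements are met by a countable subfamily. -/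
theorem countable_select (nd : ND E) {ι A : M} (hι : IsInj E ι A nd.w) (B : M) (S : M → M → Prop)
    [Dfn E fun v => ∃ x y, E x nd.w ∧ E y B ∧ IsPair E (v 0) x y ∧ ∃ a, App E ι a x ∧ S a y] :
    ∃ C, Sub E C B ∧ IsCountable E C ∧
      ∀ a, E a A → (∃ U, E U B ∧ S a U) → ∃ U, E U C ∧ S a U := by
  classical
  have zf := zfc.zf
  have := zf.nonempty
  obtain ⟨g, -, hg⟩ := exists_rel zf nd.w B fun x y => ∃ a, App E ι a x ∧ S a y
  obtain ⟨f, h1, h2, h3⟩ := choice_rel zfc nd.w B g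
  obtain ⟨C, hC⟩ := zf.sep B fun U => ∃ n, App E f n U
  obtain ⟨h, h4, h5⟩ := exists_rel zf C nd.w fun U n => App E f n U ∧ ∀ m, E m n → ¬ App E f m U
  refine ⟨C, fun U hU => ((hC U).1 hU).1, ⟨nd.w, h, isOmega_w zf nd, ⟨h4, fun U hU => ?_,
    fun U a b ha hb => ?_⟩, fun U V n hU hV => ?_⟩, fun a ha ⟨U, hU, hS⟩ => ?_⟩
  · obtain ⟨-, n, hn⟩ := (hC U).1 hU
    obtain ⟨k, rfl⟩ := (nd.mem_w _).1 (h1 _ _ hn).2.1
    have hex : ∃ k, App E f (nd.nat k) U := ⟨k, hn⟩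
    refine ⟨_, (h5 _ _).2 ⟨hU, (nd.mem_w _).2 ⟨Nat.find hex, rfl⟩, Nat.find_spec hex,
      fun m hm => ?_⟩⟩
    obtain ⟨j, hj, rfl⟩ := (nd.mem_nat _ _).1 hm
    exact Nat.find_min hex hj
  · obtain ⟨-, a1, a2, a3⟩ := (h5 _ _).1 ha
    obtain ⟨-, b1, b2, b3⟩ := (h5 _ _).1 hb
    obtain ⟨m, rfl⟩ := (nd.mem_w _).1 a1
    obtain ⟨n, rfl⟩ := (nd.mem_w _).1 b1
    rcases lt_trichotomy m n with h | rfl | h
    · exact absurd a2 (b3 _ ((nd.mem_nat _ _).2 ⟨m, h, rfl⟩))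
    · rfl
    · exact absurd b2 (a3 _ ((nd.mem_nat _ _).2 ⟨n, h, rfl⟩))
  · exact h2 _ _ _ ((h5 _ _).1 hU).2.2.1 ((h5 _ _).1 hV).2.2.1
  · obtain ⟨n, hn⟩ := hι.1.2.1 a ha
    have hw := (hι.1.mem zf hn).2
    obtain ⟨V, hV⟩ := h3 n U hw hU ((hg _ _).2 ⟨hw, hU, a, hn, hS⟩)
    obtain ⟨-, b1, a', b2, b3⟩ := (hg _ _).1 (h1 _ _ hV).1
    exact ⟨V, (hC V).2 ⟨b1, n, hV⟩, hι.2 _ _ _ b2 hn ▸ b3⟩

end zfc

end Pool.Agent.Work.MP_ee7661_gt
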