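import Pool.Agent.Lib.ZFModel.Generic
import Mathlib.Order.Interval.Set.Basic
import Mathlib.Data.Set.Finite.Lattice
import Mathlib.Data.Finite.Prod
import Mathlib.Data.Fintype.Powerset
import Mathlib.Data.Finset.Max
import Mathlib.Data.Set.Finite.Lemmas

/-! Finite conditions: a cone relation, cliques, covering pairs and distinguished points on an
uncountable linear order with countable initial segments. -/

namespace Pool.Agent.Work.MP_ee7661_gt
open Pool.Agent.Lib.ZFModel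

/-- Atomic pieces of information. -/
inductive Atom (L : Type) : Type
  | r (s t : L) | d (y s t : L) | c (s t : L) | x (β v : L) (b : Prop)

open Atom

variable {L : Type}

def Atom.pts : Atom L → Set L
  | r s t => {s, t}
  | d y s t => {y, s, t}
  | c s t => {s, t}
  | x β v _ => {β, v}

theorem Atom.pts_finite (a : Atom L) : a.pts.Finite := by
  cases a <;> simp [Atom.pts]

def supp (p : Set (Atom L)) : Set L := ⋃ a ∈ p, a.pts

theorem supp_finite {p : Set (Atom L)} (h : p.Finite) : (supp p).Finite :=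
  h.biUnion fun a _ => a.pts_finite

theorem mem_supp {p : Set (Atom L)} {a : Atom L} (h : a ∈ p) {t : L} (ht : t ∈ a.pts) :
    t ∈ supp p := Set.mem_biUnion h ht

variable [LinearOrder L]

/-- `z` is a point of level at least `β` as far as `p` can see. -/
structure Sol (p : Set (Atom L)) (β : L) (z : L → Prop) : Prop where
  low : ∀ t, z t → β ≤ t
  r : ∀ s t, r s t ∈ p → β ≤ s → (z s ↔ z t)
  d : ∀ y s t, d y s t ∈ p → z s → z t → z y
  c : ∀ s t, c s t ∈ p → β ≤ s → β ≤ t → z s ∨ z t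

def XSol (p : Set (Atom L)) (β : L) (z : L → Prop) : Prop :=
  z β ∧ ∀ v b, x β v b ∈ p → (z v ↔ b)

structure Valid (p : Set (Atom L)) : Prop where
  fin : p.Finite
  both : ∀ β v (ε : Prop), β ≤ v → ∃ z, Sol p β z ∧ (z v ↔ ε)
  pt : ∀ β, ∃ z, Sol p β z ∧ XSol p β z

theorem Sol.transfer {p : Set (Atom L)} {β β' : L} {z z' : L → Prop} (h : Sol p β z)
    (h1 : ∀ t ∈ supp p, β' ≤ t → β ≤ t) (h2 : ∀ t ∈ supp p, z' t ↔ z t)
    (h3 : ∀ t, z' t → β' ≤ t) : Sol p β' z' where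
  low := h3
  r s t hst hs := by
    have a1 : s ∈ supp p := mem_supp hst (by simp [pts])
    rw [h2 s a1, h2 t (mem_supp hst (by simp [pts]))]
    exact h.r s t hst (h1 s a1 hs)
  d y s t hst := by
    rw [h2 s (mem_supp hst (by simp [pts])), h2 t (mem_supp hst (by simp [pts])),
      h2 y (mem_supp hst (by simp [pts]))]
    exact h.d y s t hst
  c s t hst hs ht := by
    have a1 : s ∈ supp p := mem_supp hst (by simp [pts])
    have a2 : t ∈ supp p := mem_supp hst (by simp [pts])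
    rw [h2 s a1, h2 t a2]
    exact h.c s t hst (h1 s a1 hs) (h1 t a2 ht)

theorem Sol.union {p q : Set (Atom L)} {β : L} {z : L → Prop} (h : Sol p β z) (h' : Sol q β z) :
    Sol (p ∪ q) β z where
  low := h.low
  r s t hst := hst.elim (h.r s t) (h'.r s t)
  d y s t hst := hst.elim (h.d y s t) (h'.d y s t)
  c s t hst := hst.elim (h.c s t) (h'.c s t)

theorem valid_empty : Valid (∅ : Set (Atom L)) where
  fin := Set.finite_empty
  both β v ε h := ⟨fun t => t = v ∧ ε, ⟨fun _ ht => ht.1 ▸ h, fun _ _ h => h.elim,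
    fun _ _ _ h => h.elim, fun _ _ h => h.elim⟩, by simp⟩
  pt β := ⟨fun t => t = β, ⟨fun _ ht => ht.ge, fun _ _ h => h.elim,
    fun _ _ _ h => h.elim, fun _ _ h => h.elim⟩, rfl, fun _ _ h => h.elim⟩

theorem Valid.decide {p : Set (Atom L)} (hp : Valid p) (β v : L) :
    ∃ b, Valid (p ∪ {x β v b}) := by
  obtain ⟨z, h1, h2⟩ := hp.pt β
  have key : ∀ {γ w}, Sol p γ w → Sol (p ∪ {x β v (z v)}) γ w := fun h =>
    h.union ⟨h.low, fun _ _ h => (nomatch h), fun _ _ _ h => (nomatch h), fun _ _ h => (nomatch h)⟩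
  refine ⟨z v, hp.fin.union (Set.finite_singleton _), fun γ u ε h => ?_, fun γ => ?_⟩
  · obtain ⟨w, h3, h4⟩ := hp.both γ u ε h
    exact ⟨w, key h3, h4⟩
  · by_cases h : γ = β
    · subst h
      refine ⟨z, key h1, h2.1, ?_⟩
      rintro u b (h | h)
      · exact h2.2 u b h
      · cases h; rfl
    · obtain ⟨w, h3, h4⟩ := hp.pt γ
      refine ⟨w, key h3, h4.1, ?_⟩
      rintro u b (h5 | h5)
      · exact h4.2 u b h5
      · cases h5; exact absurd rfl h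

/-- Changing `z` on the range of `t`. -/
def md (t : ℕ → L) (z : L → Prop) (e : ℕ → Prop) (v : L) : Prop :=
  (∃ i, t i = v ∧ e i) ∨ (v ∉ Set.range t ∧ z v)

omit [LinearOrder L] in
theorem md_t {t : ℕ → L} (ht : Function.Injective t) {z e} (i : ℕ) : md t z e (t i) ↔ e i := by
  simp [md, ht.eq_iff]

omit [LinearOrder L] in
theorem md_off {t : ℕ → L} {z e} {v : L} (h : v ∉ Set.range t) : md t z e v ↔ z v := by
  have : ∀ i, t i ≠ v := fun i hi => h ⟨i, hi⟩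
  simp [md, this]

theorem Valid.fresh {p n : Set (Atom L)} (hp : Valid p) (hn : n.Finite) {t : ℕ → L}
    (ht : Function.Injective t) (hs : ∀ v ∈ supp p, v ∉ Set.range t) (hx : ∀ β v b, x β v b ∉ n)
    (Ok : L → (L → Prop) → (ℕ → Prop) → Prop)
    (h0 : ∀ β z e, Ok β z e → (∀ v, z v → β ≤ v) → Sol n β (md t z e))
    (h1 : ∀ β z, ∃ e, Ok β z e ∧ ∀ i, t i = β → (∀ v, z v → β ≤ v) → e i)
    (h2 : ∀ β i (ε : Prop), β ≤ t i → ∃ z e, Sol p β z ∧ Ok β z e ∧ (e i ↔ ε)) :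
    Valid (p ∪ n) := by
  have key : ∀ {β z e}, Sol p β z → Ok β z e → Sol (p ∪ n) β (md t z e) := fun h h' =>
    (h.transfer (fun _ _ h => h) (fun v hv => md_off (hs v hv)) (h0 _ _ _ h' h.low).low).union
      (h0 _ _ _ h' h.low)
  refine ⟨hp.fin.union hn, fun β v ε h => ?_, fun β => ?_⟩
  · by_cases hv : v ∈ Set.range t
    · obtain ⟨i, rfl⟩ := hv
      obtain ⟨z, e, a1, a2, a3⟩ := h2 β i ε h
      exact ⟨_, key a1 a2, (md_t ht i).trans a3⟩
    · obtain ⟨z, a1, a2⟩ := hp.both β v ε h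
      obtain ⟨e, a3, -⟩ := h1 β z
      exact ⟨_, key a1 a3, (md_off hv).trans a2⟩
  · obtain ⟨z, a1, a2⟩ := hp.pt β
    obtain ⟨e, a3, a4⟩ := h1 β z
    refine ⟨_, key a1 a3, ?_, ?_⟩
    · by_cases hv : β ∈ Set.range t
      · obtain ⟨i, rfl⟩ := hv
        exact (md_t ht i).2 (a4 i rfl a1.low)
      · exact (md_off hv).2 a2.1
    · rintro v b (h | h)
      · exact (md_off (hs v (mem_supp h (by simp [pts])))).trans (a2.2 v b h)
      · exact absurd h (hx β v b)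

variable (hL : ∀ a : L, (Set.Iio a).Countable) (hU : ¬ (Set.univ : Set L).Countable)
include hL hU

theorem exists_above {S : Set L} (hS : S.Countable) :
    ∃ t : ℕ → L, Function.Injective t ∧ ∀ i, ∀ s ∈ S, s < t i := by
  have h : {t | ∀ s ∈ S, s < t}.Infinite := by
    intro h
    refine hU ((h.countable.union (hS.biUnion fun s _ => (hL s).insert s)).mono fun t _ => ?_)
    by_cases ht : ∀ s ∈ S, s < t
    · exact Or.inl ht
    · push Not at ht
      obtain ⟨s, hs, h⟩ := ht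
      exact Or.inr (Set.mem_biUnion hs (h.eq_or_lt.imp id id))
  exact ⟨fun i => h.natEmbedding _ i, fun i j hij => (h.natEmbedding _).injective (Subtype.ext hij),
    fun i => (h.natEmbedding _ i).2⟩

theorem Valid.clique {p : Set (Atom L)} (hp : Valid p) (y α : L) (k : ℕ) :
    ∃ q, Valid q ∧ p ⊆ q ∧ ∃ t : ℕ → L, ∀ i < k, α ≤ t i ∧ r y (t i) ∈ q ∧
      ∀ j < k, i ≠ j → d y (t i) (t j) ∈ q := by
  obtain ⟨t, ht, h⟩ := exists_above hL hU
    (((supp_finite hp.fin).insert y).insert α).countable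
  have hy : ∀ i, y < t i := fun i => h i y (by simp)
  have hy' : y ∉ Set.range t := fun ⟨i, hi⟩ => (hy i).ne' hi
  let n : Set (Atom L) := (fun i => r y (t i)) '' Set.Iio k ∪
    (fun a : ℕ × ℕ => d y (t a.1) (t a.2)) '' {a | a.1 < k ∧ a.2 < k ∧ a.1 ≠ a.2}
  refine ⟨p ∪ n, hp.fresh ?_ ht (fun v hv ⟨i, hi⟩ => (h i v (by simp [hv])).ne' hi) ?_
    (fun β z e => (∀ i, e i ↔ z y) ∨ (y < β ∧ ∃ i, β ≤ t i ∧ ∀ j, e j → j = i)) ?_ ?_ ?_,
    Set.subset_union_left, t, fun i hi => ⟨(h i α (by simp)).le, Or.inr (Or.inl ⟨i, hi, rfl⟩),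
      fun j hj hij => Or.inr (Or.inr ⟨(i, j), ⟨hi, hj, hij⟩, rfl⟩)⟩⟩
  · refine ((Set.finite_lt_nat k).image _).union (Set.Finite.image _ ?_)
    exact ((Set.finite_lt_nat k).prod (Set.finite_lt_nat k)).subset fun a ha => ⟨ha.1, ha.2.1⟩
  · rintro β v b (⟨_, _, h⟩ | ⟨_, _, h⟩) <;> cases h
  · intro β z e hok hz
    refine ⟨?_, ?_, ?_, ?_⟩
    · rintro v (⟨i, rfl, hi⟩ | ⟨_, hv⟩)
      · rcases hok with hok | ⟨_, j, h1, h2⟩
        · exact (hz y ((hok i).1 hi)).trans (hy i).le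
        · exact h2 i hi ▸ h1
      · exact hz v hv
    · rintro s u (⟨i, _, h⟩ | ⟨_, _, h⟩) hs <;> cases h
      rw [md_off hy', md_t ht]
      rcases hok with hok | ⟨h1, _⟩
      · exact (hok i).symm
      · exact absurd hs h1.not_ge
    · rintro y' s u (⟨_, _, h⟩ | ⟨⟨i, j⟩, ⟨_, _, hij⟩, h⟩) <;> cases h
      rw [md_off hy', md_t ht, md_t ht]
      rcases hok with hok | ⟨_, l, _, h2⟩
      · exact fun h _ => (hok i).1 h
      · exact fun a b => absurd ((h2 i a).trans (h2 j b).symm) hij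
    · rintro s u (⟨_, _, h⟩ | ⟨_, _, h⟩) <;> cases h
  · intro β z
    by_cases hβ : β ∈ Set.range t
    · obtain ⟨i, rfl⟩ := hβ
      exact ⟨fun j => j = i, Or.inr ⟨hy i, i, le_rfl, fun _ h => h⟩, fun j hj _ => ht hj⟩
    · exact ⟨fun _ => z y, Or.inl fun _ => Iff.rfl, fun i hi => absurd ⟨i, hi⟩ hβ⟩
  · intro β i ε hi
    rcases le_or_gt β y with h1 | h1
    · obtain ⟨z, a1, a2⟩ := hp.both β y ε h1
      exact ⟨z, fun _ => z y, a1, Or.inl fun _ => Iff.rfl, a2⟩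
    · obtain ⟨z, a1, -⟩ := hp.pt β
      exact ⟨z, fun j => j = i ∧ ε, a1, Or.inr ⟨h1, i, hi, fun _ h => h.1⟩, by simp⟩

theorem Valid.cover {p : Set (Atom L)} (hp : Valid p) (α : L) :
    ∃ q, Valid q ∧ p ⊆ q ∧ ∃ s t, α ≤ s ∧ α ≤ t ∧ c s t ∈ q := by
  obtain ⟨t, ht, h⟩ := exists_above hL hU ((supp_finite hp.fin).insert α).countable
  refine ⟨p ∪ {c (t 0) (t 1)}, hp.fresh (Set.finite_singleton _) ht
    (fun v hv ⟨i, hi⟩ => (h i v (by simp [hv])).ne' hi) (fun _ _ _ h => (nomatch h))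
    (fun β _ e => (∀ i, e i → β ≤ t i) ∧ ∃ i, ∀ j, j ≠ i → β ≤ t j → e j) ?_ ?_ ?_,
    Set.subset_union_left, t 0, t 1, (h 0 α (by simp)).le, (h 1 α (by simp)).le, Or.inr rfl⟩
  · rintro β z e ⟨h1, i, h2⟩ hz
    refine ⟨?_, fun _ _ h => (nomatch h), fun _ _ _ h => (nomatch h), ?_⟩
    · rintro v (⟨i, rfl, hi⟩ | ⟨_, hv⟩)
      exacts [h1 i hi, hz v hv]
    · intro s u h a b
      cases h
      rw [md_t ht, md_t ht]
      by_cases hi : i = 0
      · exact Or.inr (h2 1 (by omega) b)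
      · exact Or.inl (h2 0 (by omega) a)
  · exact fun β _ => ⟨fun j => β ≤ t j, ⟨fun _ h => h, 0, fun _ _ h => h⟩, fun _ h _ => h.ge⟩
  · intro β i ε hi
    obtain ⟨z, a1, -⟩ := hp.pt β
    refine ⟨z, fun j => (j = i ∧ ε) ∨ (j ≠ i ∧ β ≤ t j), a1, ⟨?_, i, fun j a b => Or.inr ⟨a, b⟩⟩,
      by simp⟩
    rintro j (⟨rfl, _⟩ | ⟨_, h⟩)
    exacts [hi, h]

omit hL hU in
/-- The traces on `ρ` and at the marked point `w` of the solutions at the levels in `ρ`. -/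
def Th (ρ : Set L) (p : Set (Atom L)) (w : L) : ρ → Bool → Set ((ρ → Prop) × Prop) :=
  fun β f => {a | ∃ z, Sol p β z ∧ (f = true → XSol p β z) ∧ a = (fun t : ρ => z t, z w)}

omit hL hU in
def Adm (ρ : Set L) (p : Set (Atom L)) (w : L) : Prop :=
  Valid p ∧ ∀ t, t ∈ supp p ∨ t = w → t ∈ ρ ∧ t ≠ w ∨ ∀ s ∈ ρ, s < t

omit hL hU in
theorem Adm.shift {ρ : Set L} (hρ : ρ.Finite) {p p' : Set (Atom L)} {w w' : L} (h : Adm ρ p w)
    (h' : Adm ρ p' w') (he : Th ρ p w = Th ρ p' w') {β : L} {z : L → Prop} (hz : Sol p β z)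
    (hβ : ∃ s ∈ ρ, β ≤ s) : ∃ z', Sol p' β z' ∧ (∀ t ∈ ρ, z t ↔ z' t) ∧ (z w ↔ z' w') := by
  obtain ⟨γ, ⟨hγ, h1⟩, h2⟩ := Set.exists_min_image {s ∈ ρ | β ≤ s} id
    (hρ.subset (Set.sep_subset _ _)) hβ
  have key : ∀ {p w}, Adm ρ p w → ∀ t, t ∈ ρ ∨ t ∈ supp p ∨ t = w → β ≤ t → γ ≤ t := by
    rintro p w h t (ht | ht) hb
    · exact h2 t ⟨ht, hb⟩
    · rcases h.2 t ht with h3 | h3
      · exact h2 t ⟨h3.1, hb⟩
      · exact (h3 γ hγ).le
  have h3 : ∀ t, t ∈ ρ ∨ t ∈ supp p ∨ t = w → (z t ∧ γ ≤ t ↔ z t) := fun t ht =>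
    and_iff_left_of_imp fun h4 => key h t ht (hz.low t h4)
  have h4 : (fun t : ρ => z t ∧ γ ≤ t, z w ∧ γ ≤ w) ∈ Th ρ p w ⟨γ, hγ⟩ false :=
    ⟨fun t => z t ∧ γ ≤ t, hz.transfer (fun _ _ h => h1.trans h)
      (fun t ht => h3 t (Or.inr (Or.inl ht))) fun _ h => h.2, fun h => (nomatch h), rfl⟩
  rw [he] at h4
  obtain ⟨z', a1, -, a2⟩ := h4
  obtain ⟨a2, a3⟩ := Prod.mk.inj a2
  refine ⟨z', a1.transfer (fun t ht => key h' t (Or.inr (Or.inl ht))) (fun _ _ => Iff.rfl)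
    fun t ht => h1.trans (a1.low t ht), fun t ht => ?_, ?_⟩
  · rw [← h3 t (Or.inl ht)]; exact iff_of_eq (congrFun a2 ⟨t, ht⟩)
  · rw [← h3 w (Or.inr (Or.inr rfl))]; exact iff_of_eq a3

omit hL hU in
theorem amalg {H : Set L} (hH : ∀ a ∈ H, ∀ b, b ≤ a → b ∈ H) {p p' : Set (Atom L)} {w w' y : L}
    (h : Adm (supp p ∩ H) p w) (h' : Adm (supp p ∩ H) p' w')
    (he : Th (supp p ∩ H) p w = Th (supp p ∩ H) p' w') (hs : supp p' ⊆ H) (hw' : w' ∈ H)
    (hy : y ∉ H) (hw : w ∉ H) (hr : r y w ∈ p ∨ y = w) : Valid (p ∪ (p' ∪ {r w' y})) := by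
  have hρ : (supp p ∩ H).Finite := (supp_finite h.1.fin).subset Set.inter_subset_left
  have hlt : ∀ {a b}, a ∈ H → b ∉ H → a < b := fun ha hb =>
    lt_of_not_ge fun h => hb (hH _ ha _ h)
  have hyw : ∀ {β z}, β ∈ H → Sol p β z → (z y ↔ z w) := by
    intro β z hβ hz
    rcases hr with hr | rfl
    · exact hz.r _ _ hr (hlt hβ hy).le
    · rfl
  have hi : ∀ {β z}, β ∉ H → Sol p β z → Sol (p ∪ (p' ∪ {r w' y})) β z := by
    intro β z hβ hz
    have h1 : ∀ {a : Atom L} {t}, a ∈ p' → t ∈ a.pts → ¬ β ≤ t := fun ha ht =>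
      (hlt (hs (mem_supp ha ht)) hβ).not_ge
    refine hz.union ⟨hz.low, ?_, ?_, ?_⟩
    · rintro s t (h2 | h2) h3
      · exact absurd h3 (h1 h2 (by simp [pts]))
      · cases h2; exact absurd h3 (hlt hw' hβ).not_ge
    · rintro u s t (h2 | h2) h3
      · exact absurd (hz.low s h3) (h1 h2 (by simp [pts]))
      · cases h2
    · rintro s t (h2 | h2) h3
      · exact absurd h3 (h1 h2 (by simp [pts]))
      · cases h2
  have glue : ∀ {β z z'}, Sol p β z → Sol p' β z' → (∀ t ∈ supp p ∩ H, z t ↔ z' t) →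
      (β ≤ w' → (z y ↔ z' w')) → ∃ u, Sol (p ∪ (p' ∪ {r w' y})) β u ∧
        (∀ t, t ∈ supp p ∨ t ∉ H → (u t ↔ z t)) ∧ ∀ t ∈ H, u t ↔ z' t := by
    intro β z z' hz hz' h1 h2
    have a1 : ∀ t, t ∈ supp p ∨ t ∉ H → ((t ∈ H ∧ z' t) ∨ (t ∉ H ∧ z t) ↔ z t) := by
      intro t ht
      by_cases h3 : t ∈ H
      · simp [h3, h1 t ⟨ht.resolve_right (not_not.2 h3), h3⟩]
      · simp [h3]
    have a2 : ∀ t ∈ H, ((t ∈ H ∧ z' t) ∨ (t ∉ H ∧ z t) ↔ z' t) := fun t ht => by simp [ht]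
    have a3 : ∀ t, (t ∈ H ∧ z' t) ∨ (t ∉ H ∧ z t) → β ≤ t := fun t ht =>
      ht.elim (fun h => hz'.low t h.2) fun h => hz.low t h.2
    refine ⟨fun t => (t ∈ H ∧ z' t) ∨ (t ∉ H ∧ z t),
      (hz.transfer (fun _ _ h => h) (fun t ht => a1 t (Or.inl ht)) a3).union
        ((hz'.transfer (fun _ _ h => h) (fun t ht => a2 t (hs ht)) a3).union
          ⟨a3, fun s t h3 h4 => ?_, fun _ _ _ h => (nomatch h), fun _ _ h => (nomatch h)⟩), a1, a2⟩
    cases h3
    exact (a2 _ hw').trans ((h2 h4).symm.trans (a1 _ (Or.inr hy)).symm)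
  have hv : ∀ {β z q z'}, (¬ ∃ s ∈ supp p ∩ H, β ≤ s) → Sol p β z → Sol q β z' →
      ∀ t ∈ supp p ∩ H, z t ↔ z' t := fun h1 h2 h3 t ht =>
    iff_of_false (fun h => h1 ⟨t, ht, h2.low t h⟩) fun h => h1 ⟨t, ht, h3.low t h⟩
  have up : ∀ {β z'}, β ∈ H → Sol p' β z' → ∃ u, Sol (p ∪ (p' ∪ {r w' y})) β u ∧
      ∀ t ∈ H, u t ↔ z' t := by
    intro β z' hβ hz'
    by_cases h1 : ∃ s ∈ supp p ∩ H, β ≤ s
    · obtain ⟨z, a1, a2, a3⟩ := h'.shift hρ h he.symm hz' h1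
      obtain ⟨u, b1, -, b2⟩ := glue a1 hz' (fun t ht => (a2 t ht).symm)
        fun _ => (hyw hβ a1).trans a3.symm
      exact ⟨u, b1, b2⟩
    · obtain ⟨z, a1, a2⟩ := h.1.both β y (z' w') (hlt hβ hy).le
      obtain ⟨u, b1, -, b2⟩ := glue a1 hz' (hv h1 a1 hz') fun _ => a2
      exact ⟨u, b1, b2⟩
  refine ⟨h.1.fin.union (h'.1.fin.union (Set.finite_singleton _)), fun β v ε hβ => ?_, fun β => ?_⟩
  · by_cases hb : β ∈ H
    · by_cases hvH : v ∈ H
      · obtain ⟨z', a1, a2⟩ := h'.1.both β v ε hβ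
        obtain ⟨u, b1, b2⟩ := up hb a1
        exact ⟨u, b1, (b2 v hvH).trans a2⟩
      · obtain ⟨z, a1, a2⟩ := h.1.both β v ε hβ
        have : ∃ z', Sol p' β z' ∧ (∀ t ∈ supp p ∩ H, z t ↔ z' t) ∧ (β ≤ w' → (z y ↔ z' w')) := by
          by_cases h1 : ∃ s ∈ supp p ∩ H, β ≤ s
          · obtain ⟨z', a3, a4, a5⟩ := h.shift hρ h' he a1 h1
            exact ⟨z', a3, a4, fun _ => (hyw hb a1).trans a5⟩
          · by_cases h2 : β ≤ w'
            · obtain ⟨z', a3, a4⟩ := h'.1.both β w' (z y) h2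
              exact ⟨z', a3, hv h1 a1 a3, fun _ => a4.symm⟩
            · obtain ⟨z', a3, -⟩ := h'.1.pt β
              exact ⟨z', a3, hv h1 a1 a3, fun h => absurd h h2⟩
        obtain ⟨z', a3, a4, a5⟩ := this
        obtain ⟨u, b1, b2, -⟩ := glue a1 a3 a4 a5
        exact ⟨u, b1, (b2 v (Or.inr hvH)).trans a2⟩
    · obtain ⟨z, a1, a2⟩ := h.1.both β v ε hβ
      exact ⟨z, hi hb a1, a2⟩
  · by_cases hb : β ∈ H
    · by_cases hp : β ∈ supp p
      · obtain ⟨z, a1, a2⟩ := h.1.pt β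
        have h4 : (fun t : (supp p ∩ H : Set L) => z t, z w) ∈
            Th (supp p ∩ H) p w ⟨β, hp, hb⟩ true := ⟨z, a1, fun _ => a2, rfl⟩
        rw [he] at h4
        obtain ⟨z', a3, a4, a5⟩ := h4
        obtain ⟨a5, a6⟩ := Prod.mk.inj a5
        obtain ⟨u, b1, b2, b3⟩ := glue a1 a3 (fun t ht => iff_of_eq (congrFun a5 ⟨t, ht⟩))
          fun _ => (hyw hb a1).trans (iff_of_eq a6)
        refine ⟨u, b1, (b2 β (Or.inl hp)).2 a2.1, ?_⟩
        rintro v b (h5 | h5 | h5)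
        · exact (b2 v (Or.inl (mem_supp h5 (by simp [pts])))).trans (a2.2 v b h5)
        · exact (b3 v (hs (mem_supp h5 (by simp [pts])))).trans ((a4 rfl).2 v b h5)
        · cases h5
      · obtain ⟨z', a1, a2⟩ := h'.1.pt β
        obtain ⟨u, b1, b2⟩ := up hb a1
        refine ⟨u, b1, (b2 β hb).2 a2.1, ?_⟩
        rintro v b (h5 | h5 | h5)
        · exact absurd (mem_supp h5 (by simp [pts])) hp
        · exact (b2 v (hs (mem_supp h5 (by simp [pts])))).trans (a2.2 v b h5)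
        · cases h5
    · obtain ⟨z, a1, a2⟩ := h.1.pt β
      refine ⟨z, hi hb a1, a2.1, ?_⟩
      rintro v b (h5 | h5 | h5)
      · exact a2.2 v b h5
      · exact absurd (hs (mem_supp h5 (by simp [pts]))) hb
      · cases h5

theorem reflect (T : ℕ → Set (Atom L) → L → Prop) : ∃ δ : L, ∀ k p y w, Valid p → δ ≤ y →
    T k p w → r y w ∈ p ∨ y = w → ∃ p' w', Valid p' ∧ T k p' w' ∧ w' < δ ∧
      Valid (p ∪ (p' ∪ {r w' y})) := by
  have hne : Nonempty L := by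
    by_contra h
    exact hU (by rw [not_nonempty_iff] at h; exact Set.to_countable _)
  let A : ℕ → (ρ : Set L) → (ρ → Bool → Set ((ρ → Prop) × Prop)) → Set (Atom L) × L → Prop :=
    fun k ρ θ a => Adm ρ a.1 a.2 ∧ T k a.1 a.2 ∧ Th ρ a.1 a.2 = θ
  let S : List L → Set L := fun l => (⋃ a ∈ l, Set.Iio a) ∪
    ⋃ k, ⋃ θ, ⋃ h : ∃ a, A k {a | a ∈ l} θ a, insert h.choose.2 (supp h.choose.1)
  have hS : ∀ l, (S l).Countable := by
    intro l
    have : Finite {a | a ∈ l} := l.finite_toSet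
    exact (l.finite_toSet.countable.biUnion fun a _ => hL a).union
      (Set.countable_iUnion fun k => Set.countable_iUnion fun θ => Set.countable_iUnion fun h =>
        ((supp_finite h.choose_spec.1.1.fin).insert _).countable)
  have hen : ∀ l, ∃ f : ℕ → L, S l ⊆ Set.range f := fun l =>
    Set.countable_iff_exists_subset_range.1 (hS l)
  choose en hen using hen
  obtain ⟨H, hc, -, hcl⟩ := exists_hull (K := ℕ) (fun _ : L => True) fun n l a => a = en l n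
  have hH : ∀ l : List L, (∀ a ∈ l, a ∈ H) → S l ⊆ H := by
    intro l hl a ha
    obtain ⟨n, rfl⟩ := hen l ha
    obtain ⟨b, hb, rfl⟩ := hcl n l hl ⟨_, trivial, rfl⟩
    exact hb
  have hd : ∀ a ∈ H, ∀ b, b ≤ a → b ∈ H := by
    intro a ha b hb
    rcases hb.eq_or_lt with rfl | hb
    · exact ha
    · exact hH [a] (by simpa using ha) (Or.inl (by simpa using hb))
  obtain ⟨t, -, ht⟩ := exists_above hL hU hc
  refine ⟨t 0, fun k p y w hp hy hT hr => ?_⟩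
  have hyH : y ∉ H := fun h => (ht 0 y h).not_ge hy
  have hwH : w ∉ H := by
    rcases hr with hr | rfl
    · obtain ⟨z, h1, h2⟩ := hp.both y y True le_rfl
      exact fun h => hyH (hd w h y (h1.low w ((h1.r y w hr le_rfl).1 (h2.2 trivial))))
    · exact hyH
  have hf : (supp p ∩ H).Finite := (supp_finite hp.fin).subset Set.inter_subset_left
  obtain ⟨l, hl⟩ : ∃ l : List L, {a | a ∈ l} = supp p ∩ H := ⟨hf.toFinset.toList, by ext; simp⟩
  have hA : Adm (supp p ∩ H) p w := by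
    refine ⟨hp, fun s hs => ?_⟩
    by_cases h : s ∈ H
    · exact Or.inl ⟨⟨hs.resolve_right fun h1 => hwH (h1 ▸ h), h⟩, fun h1 => hwH (h1 ▸ h)⟩
    · exact Or.inr fun u hu => lt_of_not_ge fun h1 => h (hd u hu.2 s h1)
  have hex : ∃ a, A k {a | a ∈ l} (Th _ p w) a := ⟨(p, w), hl ▸ hA, hT, rfl⟩
  have hsub : insert hex.choose.2 (supp hex.choose.1) ⊆ H := fun a ha =>
    hH l (fun a ha => (hl.subset ha).2) (Or.inr (Set.mem_iUnion.2 ⟨k, Set.mem_iUnion.2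
      ⟨_, Set.mem_iUnion.2 ⟨hex, ha⟩⟩⟩))
  obtain ⟨h1, h2, h3⟩ := hex.choose_spec
  generalize hex.choose = a at hsub h1 h2 h3
  rw [hl] at h1 h3
  exact ⟨a.1, a.2, h1.1, h2, ht 0 _ (hsub (Or.inl rfl)),
    amalg hd hA h1 h3.symm (fun b hb => hsub (Or.inr hb)) (hsub (Or.inl rfl)) hyH hwH hr⟩

end Pool.Agent.Work.MP_ee7661_gt
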