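import Pool.Agent.Work.MP_ee7661_gt.Data
import Pool.Agent.Work.MP_ee7661_gt.Poset
import Pool.Agent.Lib.ZFModel.ZFC
import Mathlib.SetTheory.Cardinal.Aleph

/-! The generic extension carries the data `KD`. -/

namespace Pool.Agent.Work.MP_ee7661_gt
open Pool.Agent.Lib.ZFModel Pool.Agent.Work.MP_63c7e0_lc Pool.Agent.Work.MP_3181e1_lc Name Atom

section names
variable {P T : Type} [Preorder P] [LinearOrder T] [WellFoundedLT T]

omit [Preorder P] in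
noncomputable def oN : T → Name P :=
  wellFounded_lt.fix fun i IH => rName (fun j : Set.Iio i => IH j.1 j.2) fun _ _ => True

omit [Preorder P] in
theorem oN_eq (i : T) : (oN i : Name P) = rName (fun j : Set.Iio i => oN j.1) fun _ _ => True := by
  rw [oN, WellFounded.fix_eq]

theorem oN_lt {j : T} : ∀ i < j, ∀ p : P, ¬ EqF (oN i) (oN j) p := by
  induction j using WellFoundedLT.induction with
  | ind j ih =>
    intro i hi p h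
    rw [oN_eq j] at h
    have h1 := (eqF_iff.1 h).2 ⟨(⟨i, hi⟩, p), trivial⟩ p le_rfl le_rfl
    have h3 : MemF (oN i) (rName (fun j : Set.Iio i => oN j.1) fun _ _ => True) p :=
      oN_eq (P := P) i ▸ h1
    obtain ⟨r, -, k, -, h2⟩ := h3 p le_rfl
    exact ih i hi k.1.1.1 k.1.1.2 r h2.symm

theorem oN_inj {i j : T} {p : P} (h : EqF (oN i) (oN j) p) : i = j := by
  rcases lt_trichotomy i j with h1 | h1 | h1
  · exact absurd h (oN_lt i h1 p)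
  · exact h1
  · exact absurd h.symm (oN_lt j h1 p)

omit [Preorder P] [LinearOrder T] [WellFoundedLT T] in
theorem upairN_inj [Nonempty P] {a b a' b' : Name P} (h : upairN a b = upairN a' b') :
    a = a' ∧ b = b' := by
  obtain ⟨p⟩ := ‹Nonempty P›
  unfold upairN rName at h
  injection h with _ h2 _
  exact ⟨congrFun h2 ⟨(true, p), trivial⟩, congrFun h2 ⟨(false, p), trivial⟩⟩

end names

variable {L : Type} [LinearOrder L]

variable (L) in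
/-- The forcing. -/
def Cond : Type := {p : Set (Atom L) // Valid p}

instance : Preorder (Cond L) where
  le q p := p.1 ⊆ q.1
  le_refl _ := subset_rfl
  le_trans _ _ _ h h' := subset_trans h' h

def top : Cond L := ⟨∅, valid_empty⟩

instance : Nonempty (Cond L) := ⟨top⟩

def ClP (p : Set (Atom L)) (i j k l : L) : Prop :=
  (i = j ∧ k = l ∧ r i k ∈ p) ∨ (k = l ∧ i ≤ k ∧ r k j ∈ p) ∨ (k = l ∧ d k i j ∈ p) ∨
    (i = j ∧ i ≤ k ∧ i ≤ l ∧ c k l ∈ p)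

theorem ClP.mono {p q : Set (Atom L)} (hq : p ⊆ q) {i j k l : L} (h : ClP p i j k l) :
    ClP q i j k l :=
  h.imp (fun h => ⟨h.1, h.2.1, hq h.2.2⟩) (Or.imp (fun h => ⟨h.1, h.2.1, hq h.2.2⟩)
    (Or.imp (fun h => ⟨h.1, hq h.2⟩) fun h => ⟨h.1, h.2.1, h.2.2.1, hq h.2.2.2⟩))

theorem Sol.clP {p : Set (Atom L)} {β : L} {z : L → Prop} (hz : Sol p β z) {i j k l : L}
    (h : ClP p i j k l) (hi : z i) (hj : z j) : z k ∨ z l := by
  rcases h with ⟨-, -, h⟩ | ⟨-, h1, h⟩ | ⟨-, h⟩ | ⟨-, h1, h2, h⟩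
  · exact Or.inl ((hz.r _ _ h (hz.low _ hi)).1 hi)
  · exact Or.inl ((hz.r _ _ h ((hz.low _ hi).trans h1)).2 hj)
  · exact Or.inl (hz.d _ _ _ h hi hj)
  · exact hz.c _ _ h ((hz.low _ hi).trans h1) ((hz.low _ hi).trans h2)

variable [WellFoundedLT L] [Nonempty L]

omit [Nonempty L] in
variable (L) in
noncomputable def thN : Name (Cond L) := rName (oN (T := L)) fun _ _ => True
omit [Nonempty L] in
variable (L) in
noncomputable def clN : Name (Cond L) :=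
  rName (fun a : L × L × L × L => pairN (pairN (oN a.1) (oN a.2.1)) (pairN (oN a.2.2.1) (oN a.2.2.2)))
    fun a p => ClP p.1 a.1 a.2.1 a.2.2.1 a.2.2.2
omit [Nonempty L] in
noncomputable def xN (β : L) : Name (Cond L) := rName oN fun v p => x β v True ∈ p.1
noncomputable def ix (a : Name (Cond L)) : L := Function.invFun oN a

theorem ix_oN (i : L) : ix (oN i) = i :=
  Function.leftInverse_invFun (fun i j h => oN_inj (p := top) (by rw [h]; exact EqF.refl _ _)) i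

omit [Nonempty L] in
def F (φ : Fml) (v : ℕ → Name (Cond L)) (p : Cond L) (i : L) (k : ℕ) : Prop :=
  Forces Unit φ p (cons (oN i) (cons (natN k) (cons (natN 0) v)))

omit [WellFoundedLT L] in
noncomputable def en (p : Cond L) : ℕ → L :=
  (Set.countable_iff_exists_subset_range.1 (supp_finite p.2.fin).countable).choose

variable (hL : ∀ a : L, (Set.Iio a).Countable) (hU : ¬ (Set.univ : Set L).Countable)

omit [WellFoundedLT L] [Nonempty L] in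
noncomputable def io (δ : L) : L → ℕ := (Set.countable_iff_exists_injOn.1 (hL δ)).choose

omit [Nonempty L] in
noncomputable def injN (δ : L) : Name (Cond L) :=
  rName (fun a : Set.Iio δ => pairN (oN a.1) (natN (io hL δ a))) fun _ _ => True

omit [Nonempty L] in
noncomputable def dl (φ : Fml) (v : ℕ → Name (Cond L)) : L :=
  (reflect hL hU fun k p w => ∃ h : Valid p, F φ v ⟨p, h⟩ w k).choose

/-- Indices of the closure conditions and dense sets. -/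
inductive Kd : Type
  | th | cl | fst | snd | x | inj | el (n : ℕ) | dl (φ : Fml) | succ | dec | clq (k : ℕ) | cov
  | rf (φ : Fml) (k : ℕ)
  deriving Countable

def RN : Fam (Cond L) Unit Kd (Name (Cond L)) := fun k v c _ y => match k with
  | .th => y = thN L
  | .cl => y = clN L
  | .fst => ∃ b, v 0 = upairN y b
  | .snd => ∃ b, v 0 = upairN b y
  | .x => y = xN (ix (v 0))
  | .inj => y = injN hL (ix (v 0))
  | .el n => y = oN (en (c 0) n)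
  | .dl φ => y = oN (dl hL hU φ v)
  | .succ => ∃ j, ix (v 0) < j ∧ y = oN j
  | _ => True

def WW : Fam (Cond L) Unit Kd (Cond L × Unit) := fun k v _ _ y => match k with
  | .dec => ∃ b, x (ix (v 0)) (ix (v 1)) b ∈ y.1.1
  | .clq k => ∃ t : ℕ → L, ∀ i < k, ix (v 1) ≤ t i ∧ r (ix (v 0)) (t i) ∈ y.1.1 ∧
      ∀ j < k, i ≠ j → d (ix (v 0)) (t i) (t j) ∈ y.1.1
  | .cov => ∃ s t, ix (v 0) ≤ s ∧ ix (v 0) ≤ t ∧ c s t ∈ y.1.1
  | .rf φ k => ∃ w, w < dl hL hU φ (fun i => v (i + 1)) ∧ r w (ix (v 0)) ∈ y.1.1 ∧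
      F φ (fun i => v (i + 1)) y.1 w k
  | _ => True

variable {hL hU} (g : GenW top () (RN hL hU) (WW hL hU))

theorem th_mem : thN L ∈ g.N := by
  obtain ⟨y, hy, h⟩ := g.clN .th [] [] [] mem_list₀ mem_list₀ mem_list₀ ⟨_, rfl⟩
  exact h ▸ hy

theorem cl_mem : clN L ∈ g.N := by
  obtain ⟨y, hy, h⟩ := g.clN .cl [] [] [] mem_list₀ mem_list₀ mem_list₀ ⟨_, rfl⟩
  exact h ▸ hy

theorem x_mem {i : L} (hi : oN i ∈ g.N) : xN i ∈ g.N := by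
  obtain ⟨y, hy, h⟩ := g.clN .x [oN i] [] [] (mem_list₁ hi) mem_list₀ mem_list₀ ⟨_, rfl⟩
  have h' : y = xN (ix (oN i)) := h
  rw [ix_oN] at h'
  exact h' ▸ hy

theorem inj_mem {i : L} (hi : oN i ∈ g.N) : injN hL i ∈ g.N := by
  obtain ⟨y, hy, h⟩ := g.clN .inj [oN i] [] [] (mem_list₁ hi) mem_list₀ mem_list₀ ⟨_, rfl⟩
  have h' : y = injN hL (ix (oN i)) := h
  rw [ix_oN] at h'
  exact h' ▸ hy

theorem supp_mem {p : Cond L} (hp : p ∈ g.PN) {a : Atom L} (ha : a ∈ p.1) {t : L}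
    (ht : t ∈ a.pts) : oN t ∈ g.N := by
  obtain ⟨n, rfl⟩ : t ∈ Set.range (en p) :=
    (Set.countable_iff_exists_subset_range.1 (supp_finite p.2.fin).countable).choose_spec
      (mem_supp ha ht)
  obtain ⟨y, hy, h⟩ := g.clN (.el n) [] [p] [] mem_list₀ (mem_list₁ hp) mem_list₀ ⟨_, rfl⟩
  exact h ▸ hy

theorem pair_mem {a b : Name (Cond L)} (ha : a ∈ g.N) (hb : b ∈ g.N) : pairN a b ∈ g.N :=
  g.upair_mem _ (g.upair_mem _ ha _ ha) _ (g.upair_mem _ ha _ hb)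

theorem of_pair_mem {a b : Name (Cond L)} (h : pairN a b ∈ g.N) : a ∈ g.N ∧ b ∈ g.N := by
  have key : ∀ {a b : Name (Cond L)}, upairN a b ∈ g.N → a ∈ g.N ∧ b ∈ g.N := by
    intro a b h
    obtain ⟨y, hy, c, h1⟩ := g.clN .fst [upairN a b] [] [] (mem_list₁ h) mem_list₀ mem_list₀
      ⟨a, b, rfl⟩
    obtain ⟨z, hz, d, h2⟩ := g.clN .snd [upairN a b] [] [] (mem_list₁ h) mem_list₀ mem_list₀
      ⟨b, a, rfl⟩
    exact ⟨(upairN_inj h1).1 ▸ hy, (upairN_inj h2).2 ▸ hz⟩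
  exact key (key h).2

theorem isPair_pairN {a b : Name (Cond L)} (ha : a ∈ g.N) (hb : b ∈ g.N) (h : pairN a b ∈ g.N) :
    IsPair g.toGen.E (g.toGen.cl ⟨_, h⟩) (g.toGen.cl ⟨_, ha⟩) (g.toGen.cl ⟨_, hb⟩) := by
  have zf := g.zfc.zf
  have h1 := g.toGen.mem_upair ha ha (g.upair_mem _ ha _ ha)
  have h2 := g.toGen.mem_upair ha hb (g.upair_mem _ ha _ hb)
  intro z
  refine (g.toGen.mem_upair (g.upair_mem _ ha _ ha) (g.upair_mem _ ha _ hb) h z).trans ⟨?_, ?_⟩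
  · rintro (rfl | rfl)
    · exact Or.inl fun x => (h1 x).trans or_self_iff
    · exact Or.inr h2
  · rintro (h3 | h3)
    · exact Or.inl (zf.extensionality _ _ fun x => (h3 x).trans ((h1 x).trans or_self_iff).symm)
    · exact Or.inr (zf.extensionality _ _ fun x => (h3 x).trans (h2 x).symm)

theorem app_pairs {ι : Type} {a b : ι → Name (Cond L)} {R : ι → Cond L → Prop}
    (h : rName (fun i => pairN (a i) (b i)) R ∈ g.N) :
    (∀ z, g.toGen.E z (g.toGen.cl ⟨_, h⟩) → ∃ u v, IsPair g.toGen.E z u v) ∧ ∀ u v,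
    App g.toGen.E (g.toGen.cl ⟨_, h⟩) u v ↔ ∃ i p, R i p ∧ g.G p ∧
      ∃ (ha : a i ∈ g.N) (hb : b i ∈ g.N), u = g.toGen.cl ⟨_, ha⟩ ∧ v = g.toGen.cl ⟨_, hb⟩ := by
  refine ⟨fun z hz => ?_, fun u v => ⟨?_, ?_⟩⟩
  · obtain ⟨i, p, h1, h2, h3, rfl⟩ := (g.toGen.E_rName h z).1 hz
    obtain ⟨ha, hb⟩ := of_pair_mem g h3
    exact ⟨_, _, isPair_pairN g ha hb h3⟩
  · rintro ⟨z, hz, h4⟩
    obtain ⟨i, p, h1, h2, h3, rfl⟩ := (g.toGen.E_rName h z).1 hz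
    obtain ⟨ha, hb⟩ := of_pair_mem g h3
    exact ⟨i, p, h1, h2, ha, hb, pair_inj g.zfc.zf h4 (isPair_pairN g ha hb h3)⟩
  · rintro ⟨i, p, h1, h2, ha, hb, rfl, rfl⟩
    exact ⟨_, (g.toGen.E_rName h _).2 ⟨i, p, h1, h2, pair_mem g ha hb, rfl⟩,
      isPair_pairN g ha hb _⟩

def natM (n : ℕ) : g.toGen.M := g.toGen.cl ⟨_, g.nat_mem n⟩
abbrev JJ : Type := {i : L // oN i ∈ g.N}
noncomputable def oM (i : JJ g) : g.toGen.M := g.toGen.cl ⟨_, i.2⟩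

theorem oM_inj {i j : JJ g} (h : oM g i = oM g j) : i = j := by
  obtain ⟨p, -, h1⟩ := g.toGen.cl_eq.1 h
  exact Subtype.ext (oN_inj h1)

theorem mem_oM (a : g.toGen.M) (j : JJ g) :
    g.toGen.E a (oM g j) ↔ ∃ i < j, a = oM g i := by
  have h1 : rName (fun i : Set.Iio j.1 => oN i.1) (fun _ _ => True) ∈ g.N :=
    oN_eq (P := Cond L) j.1 ▸ j.2
  have h2 : oM g j = g.toGen.cl ⟨_, h1⟩ := congrArg g.toGen.cl (Subtype.ext (oN_eq j.1))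
  rw [h2, g.toGen.E_rName]
  exact ⟨fun ⟨i, _, _, _, hi, h⟩ => ⟨⟨i.1, hi⟩, i.2, h⟩,
    fun ⟨i, hi, h⟩ => ⟨⟨i.1, hi⟩, top, trivial, g.G_p0, i.2, h⟩⟩

theorem mem_th (a : g.toGen.M) : g.toGen.E a (g.toGen.cl ⟨_, th_mem g⟩) ↔ ∃ j, a = oM g j :=
  (g.toGen.E_rName (th_mem g) a).trans ⟨fun ⟨i, _, _, _, hi, h⟩ => ⟨⟨i, hi⟩, h⟩,
    fun ⟨i, h⟩ => ⟨i.1, top, trivial, g.G_p0, i.2, h⟩⟩

def RG (s t : JJ g) : Prop := ∃ p, g.G p ∧ r s.1 t.1 ∈ p.1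
def ClG (i j k l : JJ g) : Prop := ∃ p, g.G p ∧ ClP p.1 i.1 j.1 k.1 l.1

theorem quad_iff (a b c d : g.toGen.M) :
    Quad g.toGen.E (g.toGen.cl ⟨_, cl_mem g⟩) a b c d ↔
      ∃ i j k l, ClG g i j k l ∧ a = oM g i ∧ b = oM g j ∧ c = oM g k ∧ d = oM g l := by
  have zf := g.zfc.zf
  constructor
  · rintro ⟨u, v, h1, h2, h3⟩
    obtain ⟨⟨i, j, k, l⟩, p, h4, h5, ha, hb, rfl, rfl⟩ := ((app_pairs g (cl_mem g)).2 u v).1 h3
    obtain ⟨hi, hj⟩ := of_pair_mem g ha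
    obtain ⟨hk, hl⟩ := of_pair_mem g hb
    obtain ⟨e1, e2⟩ := pair_inj zf h1 (isPair_pairN g hi hj ha)
    obtain ⟨e3, e4⟩ := pair_inj zf h2 (isPair_pairN g hk hl hb)
    exact ⟨⟨i, hi⟩, ⟨j, hj⟩, ⟨k, hk⟩, ⟨l, hl⟩, ⟨p, h5, h4⟩, e1, e2, e3, e4⟩
  · rintro ⟨i, j, k, l, ⟨p, h1, h2⟩, rfl, rfl, rfl, rfl⟩
    exact ⟨_, _, isPair_pairN g i.2 j.2 (pair_mem g i.2 j.2),
      isPair_pairN g k.2 l.2 (pair_mem g k.2 l.2),
      ((app_pairs g (cl_mem g)).2 _ _).2 ⟨(i.1, j.1, k.1, l.1), p, h2, h1, _, _, rfl, rfl⟩⟩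

theorem ext_clique (y α : JJ g) (k : ℕ) : ∃ t : ℕ → JJ g, ∀ i < k, α ≤ t i ∧ RG g y (t i) ∧
    ∀ j < k, i ≠ j → ClG g (t i) (t j) y y := by
  classical
  obtain ⟨q, hq, hG, _, _, t, ht⟩ := g.meet (.clq k) [oN y.1, oN α.1] [] [] (mem_list₂ y.2 α.2)
    mem_list₀ mem_list₀ top g.G_p0 fun q _ => by
      obtain ⟨r, h1, h2, h3⟩ := q.2.clique hL hU (ix (oN y.1)) (ix (oN α.1)) k
      exact ⟨⟨r, h1⟩, h2, (), h3⟩
  have ht' : ∀ i < k, ix (oN α.1) ≤ t i ∧ r (ix (oN y.1)) (t i) ∈ q.1 ∧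
      ∀ j < k, i ≠ j → d (ix (oN y.1)) (t i) (t j) ∈ q.1 := ht
  simp only [ix_oN] at ht'
  have hm : ∀ i < k, oN (t i) ∈ g.N := fun i hi => supp_mem g hq (ht' i hi).2.1 (by simp [pts])
  refine ⟨fun i => if h : i < k then ⟨t i, hm i h⟩ else y, fun i hi => ?_⟩
  simp only [dif_pos hi]
  refine ⟨(ht' i hi).1, ⟨q, hG, (ht' i hi).2.1⟩, fun j hj hij => ?_⟩
  simp only [dif_pos hj]
  exact ⟨q, hG, Or.inr (Or.inr (Or.inl ⟨rfl, (ht' i hi).2.2 j hj hij⟩))⟩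

theorem ext_cover (α : JJ g) : ∃ s t, ∀ u ≤ α, ClG g u u s t := by
  obtain ⟨q, hq, hG, _, _, s, t, ht⟩ := g.meet .cov [oN α.1] [] [] (mem_list₁ α.2)
    mem_list₀ mem_list₀ top g.G_p0 fun q _ => by
      obtain ⟨r, h1, h2, h3⟩ := q.2.cover hL hU (ix (oN α.1))
      exact ⟨⟨r, h1⟩, h2, (), h3⟩
  have ht' : ix (oN α.1) ≤ s ∧ ix (oN α.1) ≤ t ∧ c s t ∈ q.1 := ht
  simp only [ix_oN] at ht'
  exact ⟨⟨s, supp_mem g hq ht'.2.2 (by simp [pts])⟩, ⟨t, supp_mem g hq ht'.2.2 (by simp [pts])⟩,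
    fun u hu => ⟨q, hG, Or.inr (Or.inr (Or.inr
      ⟨rfl, le_trans hu ht'.1, le_trans hu ht'.2.1, ht'.2.2⟩))⟩⟩

theorem ext_dec (β v : JJ g) {p : Cond L} (hp : g.G p) :
    ∃ q, g.G q ∧ q ≤ p ∧ ∃ b, x β.1 v.1 b ∈ q.1 := by
  obtain ⟨q, -, hG, _, _, b, hb⟩ := g.meet .dec [oN β.1, oN v.1] [] [] (mem_list₂ β.2 v.2)
    mem_list₀ mem_list₀ top g.G_p0 fun q _ => by
      obtain ⟨b, h⟩ := q.2.decide (ix (oN β.1)) (ix (oN v.1))
      exact ⟨⟨_, h⟩, Set.subset_union_left, (), b, Or.inr rfl⟩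
  have hb' : x (ix (oN β.1)) (ix (oN v.1)) b ∈ q.1 := hb
  simp only [ix_oN] at hb'
  obtain ⟨s, hs, h1, h2⟩ := g.dir _ _ hp hG
  exact ⟨s, hs, h1, b, h2 hb'⟩

theorem ext_pt (β : JJ g) : ∃ z, g.toGen.E (oM g β) z ∧ (∀ j, g.toGen.E (oM g j) z → β ≤ j) ∧
    ∀ a b c d, ClG g a b c d → g.toGen.E (oM g a) z → g.toGen.E (oM g b) z →
      g.toGen.E (oM g c) z ∨ g.toGen.E (oM g d) z := by
  have hm : ∀ j : JJ g, g.toGen.E (oM g j) (g.toGen.cl ⟨_, x_mem g β.2⟩) ↔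
      ∃ p, g.G p ∧ x β.1 j.1 True ∈ p.1 := by
    intro j
    refine (g.toGen.E_rName (x_mem g β.2) _).trans ⟨?_, ?_⟩
    · rintro ⟨v, p, h1, h2, h3, h4⟩
      obtain rfl : j = ⟨v, h3⟩ := oM_inj g h4
      exact ⟨p, h2, h1⟩
    · rintro ⟨p, h1, h2⟩
      exact ⟨j.1, p, h2, h1, j.2, rfl⟩
  refine ⟨g.toGen.cl ⟨_, x_mem g β.2⟩, ?_, fun j hj => ?_, fun a b c d h ha hb => ?_⟩
  · obtain ⟨q, hq, -, b, hb⟩ := ext_dec g β β g.G_p0
    obtain ⟨z, -, h1, h2⟩ := q.2.pt β.1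
    obtain rfl := eq_true ((h2 _ _ hb).1 h1)
    exact (hm β).2 ⟨q, hq, hb⟩
  · obtain ⟨p, -, h⟩ := (hm j).1 hj
    obtain ⟨z, h0, -, h2⟩ := p.2.pt β.1
    exact h0.low _ ((h2 _ _ h).2 trivial)
  · obtain ⟨p, hp, h⟩ := h
    obtain ⟨p1, hp1, h1⟩ := (hm a).1 ha
    obtain ⟨p2, hp2, h2⟩ := (hm b).1 hb
    obtain ⟨p3, hp3, k1, k2⟩ := g.dir _ _ hp hp1
    obtain ⟨p4, hp4, k3, k4⟩ := g.dir _ _ hp3 hp2
    obtain ⟨p5, hp5, k5, e, he⟩ := ext_dec g β c hp4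
    obtain ⟨p6, hp6, k6, e', he'⟩ := ext_dec g β d hp5
    obtain ⟨z, z1, -, z2⟩ := p6.2.pt β.1
    rcases z1.clP (h.mono (k6.trans (k5.trans (k3.trans k1))))
      ((z2 _ _ (k6 (k5 (k3 (k2 h1))))).2 trivial) ((z2 _ _ (k6 (k5 (k4 h2)))).2 trivial) with h | h
    · obtain rfl := eq_true ((z2 _ _ (k6 he)).1 h)
      exact Or.inl ((hm c).2 ⟨p5, hp5, he⟩)
    · obtain rfl := eq_true ((z2 _ _ he').1 h)
      exact Or.inr ((hm d).2 ⟨p6, hp6, he'⟩)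

theorem ext_nomax (j : JJ g) : ∃ i, j < i := by
  obtain ⟨y, hy, i, h1, rfl⟩ := g.clN .succ [oN j.1] [] [] (mem_list₁ j.2) mem_list₀ mem_list₀ (by
    obtain ⟨t, -, ht⟩ := exists_above hL hU (Set.countable_singleton (ix (oN j.1)))
    exact ⟨_, t 0, ht 0 _ rfl, rfl⟩)
  have h2 : ix (oN j.1) < i := h1
  rw [ix_oN] at h2
  exact ⟨⟨i, hy⟩, h2⟩

theorem ext_cnt (δ : JJ g) :
    ∃ f, IsInj g.toGen.E f (oM g δ) (g.toGen.cl ⟨_, g.omega_mem⟩) := by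
  have zf := g.zfc.zf
  let nd : ND g.toGen.E := ⟨natM g, g.toGen.cl ⟨_, g.omega_mem⟩, g.toGen.mem_nat g.nat_mem,
    g.toGen.mem_omega g.nat_mem g.omega_mem⟩
  obtain ⟨h1, h2⟩ := app_pairs g (inj_mem g δ.2)
  have h3 : ∀ u v, App g.toGen.E (g.toGen.cl ⟨_, inj_mem g δ.2⟩) u v ↔
      ∃ i < δ, u = oM g i ∧ v = natM g (io hL δ.1 i.1) := fun u v => (h2 u v).trans
    ⟨fun ⟨i, _, _, _, ha, _, h⟩ => ⟨⟨i.1, ha⟩, i.2, h⟩,
      fun ⟨i, hi, h⟩ => ⟨⟨i.1, hi⟩, top, trivial, g.G_p0, i.2, _, h⟩⟩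
  refine ⟨g.toGen.cl ⟨_, inj_mem g δ.2⟩, ⟨fun z hz => ?_, fun u hu => ?_, fun u v v' a b => ?_⟩,
    fun u u' v a b => ?_⟩
  · obtain ⟨u, v, h⟩ := h1 z hz
    obtain ⟨i, hi, rfl, rfl⟩ := (h3 u v).1 ⟨z, hz, h⟩
    exact ⟨_, _, (mem_oM g _ _).2 ⟨i, hi, rfl⟩, (nd.mem_w _).2 ⟨_, rfl⟩, h⟩
  · obtain ⟨i, hi, rfl⟩ := (mem_oM g _ _).1 hu
    exact ⟨_, (h3 _ _).2 ⟨i, hi, rfl, rfl⟩⟩
  · obtain ⟨i, -, rfl, rfl⟩ := (h3 _ _).1 a
    obtain ⟨j, -, h, rfl⟩ := (h3 _ _).1 b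
    rw [oM_inj g h]
  · obtain ⟨i, hi, rfl, rfl⟩ := (h3 _ _).1 a
    obtain ⟨j, hj, rfl, h⟩ := (h3 _ _).1 b
    rw [Subtype.ext ((Set.countable_iff_exists_injOn.1 (hL δ.1)).choose_spec hi hj
      (nat_inj zf nd h))]

theorem ext_refl (Q : g.toGen.M → g.toGen.M → g.toGen.M → Prop)
    (h : Dfn g.toGen.E (fun v => Q (v 0) (v 1) (v 2))) : ∃ δ, ∀ k j u', δ ≤ j →
      Q (oM g u') (natM g k) (natM g 0) → RG g j u' ∨ j = u' →
        ∃ u < δ, Q (oM g u) (natM g k) (natM g 0) ∧ RG g u j := by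
  obtain ⟨φ, l, hl, h⟩ := g.toGen.truth3 Q
  have hF : ∀ (i : JJ g) k, Q (oM g i) (natM g k) (natM g 0) ↔
      ∃ p, g.G p ∧ F φ (envOf emptyName l) p i.1 k := fun i k => h _ _ _
  have hδ : oN (dl hL hU φ (envOf emptyName l)) ∈ g.N := by
    obtain ⟨y, hy, h⟩ := g.clN (.dl φ) l [] [] hl mem_list₀ mem_list₀ ⟨_, rfl⟩
    exact h ▸ hy
  refine ⟨⟨_, hδ⟩, fun k j u' hj hQ hR => ?_⟩
  obtain ⟨p, hp, h1⟩ := (hF _ _).1 hQ
  have : ∃ q, g.G q ∧ q ≤ p ∧ (r j.1 u'.1 ∈ q.1 ∨ j.1 = u'.1) := by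
    rcases hR with ⟨q, hq, h2⟩ | rfl
    · obtain ⟨s, hs, h3, h4⟩ := g.dir _ _ hp hq
      exact ⟨s, hs, h3, Or.inl (h4 h2)⟩
    · exact ⟨p, hp, le_rfl, Or.inr rfl⟩
  obtain ⟨q, hq, h2, h3⟩ := this
  obtain ⟨s, hs, hG, _, _, u, h4⟩ := g.meet (.rf φ k) (oN j.1 :: l) [] [] (mem_listc j.2 hl)
    mem_list₀ mem_list₀ q hq fun s hs => by
      obtain ⟨p', w', a1, ⟨a2, a3⟩, a4, a5⟩ := (reflect hL hU fun k p w =>
        ∃ h : Valid p, F φ (envOf emptyName l) ⟨p, h⟩ w k).choose_spec k s.1 j.1 u'.1 s.2 hj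
        ⟨s.2, Forces.mono h1 (hs.trans h2)⟩ (h3.imp (fun h => hs h) id)
      refine ⟨⟨_, a5⟩, Set.subset_union_left, (), w', a4, ?_, Forces.mono a3 ?_⟩
      · show r w' (ix (oN j.1)) ∈ _
        rw [ix_oN]; exact Or.inr (Or.inr rfl)
      · exact fun a ha => Or.inr (Or.inl ha)
  have h5 : u < dl hL hU φ (envOf emptyName l) ∧ r u (ix (oN j.1)) ∈ s.1 ∧
      F φ (envOf emptyName l) s u k := h4
  rw [ix_oN] at h5
  have hu := supp_mem g hs h5.2.1 (t := u) (by simp [pts])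
  exact ⟨⟨u, hu⟩, h5.1, (hF ⟨u, hu⟩ k).2 ⟨s, hG, h5.2.2⟩, s, hG, h5.2.1⟩

omit [LinearOrder L] [WellFoundedLT L] [Nonempty L] in
open Cardinal in
theorem exists_kd : ∃ (M : Type 1) (E : M → M → Prop), IsZFC E ∧
    ∃ (J : Type) (_ : LinearOrder J), WellFoundedLT J ∧ Nonempty (KD E J) := by
  have hL : ∀ a : (ℵ₁ : Cardinal.{0}).ord.ToType, (Set.Iio a).Countable := fun a => by
    have := mk_Iio_lt a (by simp)
    rw [← le_aleph0_iff_set_countable, ← Order.lt_succ_iff, succ_aleph0]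
    simpa using this
  have hU : ¬ (Set.univ : Set (ℵ₁ : Cardinal.{0}).ord.ToType).Countable := by
    rw [← le_aleph0_iff_set_countable]; simp
  have hne : Nonempty (ℵ₁ : Cardinal.{0}).ord.ToType := by
    by_contra h
    exact hU (by rw [not_nonempty_iff] at h; exact Set.to_countable _)
  obtain ⟨g⟩ := exists_genW top () (RN hL hU) (WW hL hU)
  refine ⟨_, g.toGen.E, g.zfc, JJ g, inferInstance, inferInstance, ⟨⟨⟨natM g,
    g.toGen.cl ⟨_, g.omega_mem⟩, g.toGen.mem_nat g.nat_mem,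
    g.toGen.mem_omega g.nat_mem g.omega_mem⟩, oM g, mem_oM g, _, mem_th g, RG g, ClG g, _,
    quad_iff g, fun s t ⟨p, h1, h2⟩ => ⟨p, h1, Or.inl ⟨rfl, rfl, h2⟩⟩,
    fun s t t' h ⟨p, h1, h2⟩ => ⟨p, h1, Or.inr (Or.inl ⟨rfl, h, h2⟩)⟩, ext_clique g, ext_cover g,
    ext_pt g, ?_, ext_nomax g, ext_cnt g, ext_refl g⟩⟩⟩
  obtain ⟨y, hy, h⟩ := g.clN (.el 0) [] [] [] mem_list₀ mem_list₀ mem_list₀ ⟨_, rfl⟩
  exact ⟨⟨_, h ▸ hy⟩⟩

end Pool.Agent.Work.MP_ee7661_gt
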