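import Pool.Agent.Work.MP_3181e1_lc.Defs

/-! The notions of the problem, interpreted inside a structure `(M, E)` for the language of set
theory.  Every quantifier ranges over `M` and the only primitive relations are `E` and `=`, so
each definition is the truth in `(M, E)` of the usual first-order definition. -/

namespace Pool.Agent.Work.MP_ee7661_gt
open Pool.Agent.Work.MP_63c7e0_lc Pool.Agent.Work.MP_3181e1_lc

universe u
variable {M : Type u} (E : M → M → Prop)

/-- The space with topology `τ` is hereditarily Lindelöf: every family of open sets has a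
countable subfamily with the same union. -/
def IsHerLindelof (τ : M) : Prop :=
  ∀ c, Sub E c τ → ∃ c', Sub E c' c ∧ IsCountable E c' ∧
    ∀ U x, E U c → E x U → ∃ V, E V c' ∧ E x V

/-- `(X, τ)` is compact: every open cover has a finite subcover. -/
def IsCompactSp (X τ : M) : Prop :=
  ∀ c, Sub E c τ → (∀ x, E x X → ∃ U, E U c ∧ E x U) →
    ∃ c', Sub E c' c ∧ IsFin E c' ∧ ∀ x, E x X → ∃ U, E U c' ∧ E x U

/-- `(K, σ)` is a subspace of `C_p(Y, 2)`: the members of `K` are continuous functions from
`(Y, τ)` to the discrete space `2 = {0, 1}` and `σ` is the topology of pointwise convergence: a set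
`U ⊆ K` is open if and only if for every `f ∈ U` there is a finite `F ⊆ Y` such that `U` contains
every member of `K` that agrees with `f` on `F`. -/
def IsCpTwoSubspace (Y τ K σ : M) : Prop :=
  ∃ t δ, IsTwo E t ∧ IsDiscrete E t δ ∧ (∀ f, E f K → IsCont E f Y τ t δ) ∧
    ∀ U, E U σ ↔ Sub E U K ∧ ∀ f, E f U → ∃ F, Sub E F Y ∧ IsFin E F ∧
      ∀ g, E g K → (∀ y b, E y F → App E f y b → App E g y b) → E g U

/-- The point `p` lies in the closure of `A` for the topology `σ`. -/
def InClosure (σ A p : M) : Prop := ∀ U, E U σ → E p U → ∃ x, E x U ∧ E x A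

/-- `(K, σ)` has uncountable tightness: some point lies in the closure of a set `A` but not in the
closure of any countable subset of `A`. -/
def UncountableTightness (K σ : M) : Prop :=
  ∃ A p, Sub E A K ∧ E p K ∧ InClosure E σ A p ∧
    ∀ B, Sub E B A → IsCountable E B → ¬ InClosure E σ B p

end Pool.Agent.Work.MP_ee7661_gt
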