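import Mathlib.SetTheory.Ordinal.Basic
import Mathlib.Data.Set.Countable

/-! Abstract interfaces for the forcing construction of a model of Martin's axiom. -/

namespace Pool.Agent.Work.MP_ee7661_gt.MA
open Set

/-- A `σ`-closed base forcing whose conditions have countable supports in the ordinals. -/
structure PS (P : Type 1) [Preorder P] where
  res : Ordinal.{0} → P → P
  supp : P → Set Ordinal.{0}
  ne : Nonempty P
  supp_cnt : ∀ p, (supp p).Countable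
  le_res : ∀ ξ p, p ≤ res ξ p
  res_mono : ∀ ξ p q, q ≤ p → res ξ q ≤ res ξ p
  res_res : ∀ ξ ζ p, ξ ≤ ζ → res ξ (res ζ p) = res ξ p
  res_self : ∀ ξ p, supp p ⊆ Iio ξ → res ξ p = p
  supp_res : ∀ ξ p, supp (res ξ p) ⊆ Iio ξ
  amalg : ∀ ξ p q, q ≤ res ξ p → supp q ⊆ Iio ξ → ∃ r, r ≤ q ∧ r ≤ p
  small : ∀ ξ, Small.{0} {p | supp p ⊆ Iio ξ}
  sigma : ∀ s : ℕ → P, (∀ n, s (n + 1) ≤ s n) → ∃ q, ∀ n, q ≤ s n

section
variable {C : Type 1} [Preorder C]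

/-- `φ` is inherited by stronger conditions. -/
def Mono (φ : C → Prop) : Prop := ∀ ⦃b b'⦄, φ b → b' ≤ b → φ b'

/-- `φ` holds at every condition below which it holds densely. -/
def Reg (φ : C → Prop) : Prop := ∀ b, (∀ b' ≤ b, ∃ b'' ≤ b', φ b'') → φ b

variable (C) in
/-- The names of reals are listed by the ordinals. -/
def EnumReals : Prop :=
  ∃ en : Ordinal.{0} → ℕ → C → Prop, (∀ i n, Mono (en i n)) ∧
    ∀ φ : ℕ → C → Prop, (∀ n, Mono (φ n)) → (∀ n, Reg (φ n)) → ∃ i, ∀ n b, φ n b ↔ en i n b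

/-- Below `b₀`, the name `L` of a preorder on `I` has the countable chain condition. -/
def NamedCcc {I : Type} (L : I → I → C → Prop) (b₀ : C) : Prop :=
  ∀ B : I → C → Prop, (∀ x, Mono (B x)) →
    (∀ b ≤ b₀, ∀ x y z, B x b → B y b → L z x b → L z y b → x = y) →
    ∀ b ≤ b₀, ∃ b' ≤ b, ∃ f : I → ℕ → C → Prop, (∀ x n, Mono (f x n)) ∧
      (∀ b'' ≤ b', ∀ x, B x b'' → ∃ b₃ ≤ b'', ∃ n, f x n b₃) ∧
      ∀ b'' ≤ b', ∀ x y n, B x b'' → B y b'' → f x n b'' → f y n b'' → x = y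

variable (C) in
/-- Martin's axiom for names of preorders on small types. -/
def ExtMA : Prop :=
  ∀ (I ι : Type) (_ : Nonempty I) (L : I → I → C → Prop) (D : ι → I → C → Prop) (b₀ : C),
    (∀ x y, Mono (L x y)) → (∀ x y, Reg (L x y)) → (∀ x, L x x b₀) →
    (∀ b ≤ b₀, ∀ x y z, L x y b → L y z b → L x z b) → NamedCcc L b₀ →
    (∀ i x, Mono (D i x)) → (∀ i x, ∀ b ≤ b₀, ∃ b' ≤ b, ∃ y, L y x b' ∧ D i y b') →
    ∃ H : I → C → Prop, (∀ x, Mono (H x)) ∧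
      (∀ b ≤ b₀, ∀ x y, H x b → H y b → ∃ z, H z b ∧ L z x b ∧ L z y b) ∧
      (∀ b ≤ b₀, ∃ b' ≤ b, ∃ x, H x b') ∧
      ∀ i, ∀ b ≤ b₀, ∃ b' ≤ b, ∃ x, H x b' ∧ D i x b'

end

variable {P : Type 1} [Preorder P]

/-- The name `le` of a preorder on `R`, restricted to the name `S` of a subset, is forced by `P` to
have the countable chain condition. -/
def Pccc {R : Type 1} (le : P → R → R → Prop) (S : Set R) : Prop :=
  ∀ D : P → R → Prop, (∀ p p' r, D p r → p' ≤ p → D p' r) → (∀ p r, D p r → r ∈ S) →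
    ∀ p, ∃ p' ≤ p, ∃ A : Set R, A.Countable ∧ (∀ a ∈ A, D p' a) ∧
      ∀ p'' ≤ p', ∀ r, D p'' r → ∃ a ∈ A, ∃ p₃ ≤ p'', ∃ r₃ ∈ S, le p₃ r₃ r ∧ le p₃ r₃ a

/-- A name of a preorder. -/
structure NP (P : Type 1) [Preorder P] where
  R : Type 1
  le : P → R → R → Prop
  le_refl : ∀ p r, le p r r
  le_trans : ∀ p r r' r'', le p r'' r' → le p r' r → le p r'' r
  le_mono : ∀ p p' r r', le p r' r → p' ≤ p → le p' r' r

/-- The two-step iteration. -/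
def NP.C (n : NP P) : Type 1 := P × n.R

instance (n : NP P) : Preorder n.C where
  le b' b := b'.1 ≤ b.1 ∧ n.le b'.1 b'.2 b.2
  le_refl _ := ⟨le_rfl, n.le_refl _ _⟩
  le_trans _ _ _ h h' := ⟨h.1.trans h'.1, n.le_trans _ _ _ _ h.2 (n.le_mono _ _ _ _ h'.2 h.1)⟩

/-- What the iteration provides. -/
structure It (ps : PS P) extends NP P where
  ne : Nonempty R
  pccc : Pccc le univ
  rs : Ordinal.{0} → R → R
  res_mono : ∀ ξ (b b' : toNP.C), b' ≤ b →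
    (show toNP.C from (ps.res ξ b'.1, rs ξ b'.2)) ≤ (ps.res ξ b.1, rs ξ b.2)
  amalg : ∀ ξ (b b' : toNP.C), b' ≤ (ps.res ξ b.1, rs ξ b.2) →
    ∃ b'' : toNP.C, b'' ≤ (ps.res ξ b'.1, rs ξ b'.2) ∧ b'' ≤ b
  cap : ∀ (ι : Type 1) (_ : Small.{0} ι) (φ : ι → toNP.C → Prop), (∀ i, Mono (φ i)) →
    (∀ i, Reg (φ i)) → ∀ b₀ : toNP.C, ∃ ξ, ps.supp b₀.1 ⊆ Iio ξ ∧ rs ξ b₀.2 = b₀.2 ∧
      ∀ i b, φ i b → φ i (ps.res ξ b.1, rs ξ b.2)
  enum : EnumReals toNP.C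
  ma : ExtMA toNP.C

end Pool.Agent.Work.MP_ee7661_gt.MA
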