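import Pool.Agent.Work.MP_ee7661_gt.MFo
import Pool.Agent.Work.MP_ee7661_gt.MIface
import Mathlib.Logic.Equiv.List

/-! The negation of the continuum hypothesis is forced.

`forces_notCH`: suppose `b₀` forces `pSurj g (thN C W) w`, `w = ω`.  Apply `hm` to `I = List Bool`,
`L s t _ := t <+: s` (`NamedCcc` by `f s n _ := n = encode s`), `ι = Shrink W`, and the dense sets
`D α s b := ∃ n, ∃ h : n < s.length, ∀ b' ≤ b, ∀ x, MemF (pairN (oN α) x) g b' →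
(if s[n] then ∀ b'' ≤ b', ¬ MemF (natN n) x b'' else MemF (natN n) x b')`.  The name
`c = {natN n | ∃ s, H s b ∧ s[n]? = some true}` is forced to be a subset of `ω`, hence densely a
value `g (oN α)`; meeting `D α` gives a contradiction by directedness of `H`.
`ma_of_ma'`, `below_of_notCH'`: a `PSurj` gives an injection of the power set (`choice_rel` on the
inverse relation, `exists_rel`); conversely the inverse of an injection is a `PSurj`. -/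

namespace Pool.Agent.Work.MP_ee7661_gt.MA
open Pool.Agent.Lib.ZFModel (IsZFC)
open Pool.Agent.Lib.ZFModel1 Pool.Agent.Lib.ZFModel1.Name
open Pool.Agent.Work.MP_63c7e0_lc Pool.Agent.Work.MP_3181e1_lc

theorem forces_notCH {C : Type 1} [Preorder C] (hm : ExtMA C) (W : Type 1) [LinearOrder W]
    [WellFoundedLT W] [Small.{0} W] (b : C) : (LF C).notCH (thN C W) b := by
  intro w q _ hw q' hq' hex
  obtain ⟨b₀, hb₀, g, hg1, hg2⟩ := hex q' le_rfl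
  have hw' : EqF w omegaN b₀ := EqF.mono hw (hb₀.trans hq')
  obtain ⟨enc, henc⟩ := exists_injective_nat (ℕ × Finset ℕ)
  let D : W → ℕ × Finset ℕ → C → Prop := fun α s b => ∃ n < s.1, ∀ b' ≤ b, ∀ x,
    MemF (pairN (oN α) x) g b' →
      (n ∈ s.2 → ∀ b'' ≤ b', ¬ MemF (natN n) x b'') ∧ (n ∉ s.2 → MemF (natN n) x b')
  obtain ⟨H, hH, hdir, -, hmeet⟩ := hm (ℕ × Finset ℕ) (Shrink.{0} W) ⟨(0, ∅)⟩
    (fun s t _ => t.1 ≤ s.1 ∧ ∀ n < t.1, n ∈ s.2 ↔ n ∈ t.2)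
    (fun i => D ((equivShrink W).symm i)) b₀
    (fun _ _ _ _ h _ => h) (fun _ _ b h => (h b le_rfl).elim fun _ h => h.2)
    (fun _ => ⟨le_rfl, fun _ _ => Iff.rfl⟩)
    (fun _ _ _ _ _ h h' => ⟨h'.1.trans h.1, fun n hn =>
      (h.2 n (hn.trans_le h'.1)).trans (h'.2 n hn)⟩)
    (fun B _ _ b _ => ⟨b, le_rfl, fun x n _ => n = enc x, fun _ _ _ _ h _ => h,
      fun b'' _ x _ => ⟨b'', le_rfl, _, rfl⟩, fun _ _ _ _ _ _ _ h h' => henc (h.symm.trans h')⟩)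
    (fun _ _ _ _ ⟨n, hn, h⟩ hb => ⟨n, hn, fun b' hb' => h b' (hb'.trans hb)⟩)
    (by
      intro i s b hb
      generalize (equivShrink W).symm i = α
      have e1 : s.1 ≤ s.1 + 1 ∧ ∀ n < s.1, n ∈ insert s.1 s.2 ↔ n ∈ s.2 :=
        ⟨Nat.le_succ _, fun n hn => by simp [hn.ne]⟩
      have e2 : s.1 ≤ s.1 + 1 ∧ ∀ n < s.1, n ∈ s.2.erase s.1 ↔ n ∈ s.2 :=
        ⟨Nat.le_succ _, fun n hn => by simp [hn.ne]⟩
      by_cases h : ∃ b' ≤ b, ∃ x, MemF (pairN (oN α) x) g b'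
      · obtain ⟨b', hb', x₀, h₀⟩ := h
        have hf : ∀ b₃ ≤ b', ∀ x, MemF (pairN (oN α) x) g b₃ → EqF x₀ x b₃ :=
          fun b₃ h₃ x hx => hg1 (oN α) x₀ x b' (hb'.trans hb) h₀ b₃ h₃ hx
        by_cases h1 : ∃ b'' ≤ b', MemF (natN s.1) x₀ b''
        · obtain ⟨b'', hb'', h1⟩ := h1
          refine ⟨b'', hb''.trans hb', (s.1 + 1, s.2.erase s.1), e2, s.1, Nat.lt_succ_self _,
            fun b₃ h₃ x hx => ⟨fun h => absurd h (Finset.notMem_erase _ _), fun _ => ?_⟩⟩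
          exact (h1.mono h₃).congr_right (hf b₃ (h₃.trans hb'') x hx)
        · refine ⟨b', hb', (s.1 + 1, insert s.1 s.2), e1, s.1, Nat.lt_succ_self _,
            fun b₃ h₃ x hx => ⟨fun _ b₄ h₄ h₅ => h1 ⟨b₄, h₄.trans h₃, ?_⟩,
              fun h => absurd (Finset.mem_insert_self _ _) h⟩⟩
          exact h₅.congr_right ((hf b₃ h₃ x hx).mono h₄).symm
      · exact ⟨b, le_rfl, (s.1 + 1, insert s.1 s.2), e1, s.1, Nat.lt_succ_self _,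
          fun b' hb' x hx => absurd ⟨b', hb', x, hx⟩ h⟩)
  let R : ULift.{1} ℕ → C → Prop := fun n b => ∃ s, H s b ∧ n.down < s.1 ∧ n.down ∈ s.2
  have hR : ∀ i p q, R i p → q ≤ p → R i q := fun i p q ⟨s, h1, h2⟩ hq => ⟨s, hH s h1 hq, h2⟩
  let c : Name C := rName (fun n : ULift.{1} ℕ => natN n.down) R
  have hsub : ∀ y, ∀ r ≤ b₀, MemF y c r → MemF y w r := by
    intro y r hr hy
    refine MemF.congr_right (memF_omega.2 fun q hq => ?_) (hw'.mono hr).symm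
    obtain ⟨r', hr', i, -, h⟩ := (memF_rName hR).1 hy q hq
    exact ⟨r', hr', i.down, h⟩
  obtain ⟨b₁, hb₁, d, hd, hdc⟩ := hg2 c b₀ le_rfl hsub b₀ le_rfl
  obtain ⟨b₂, hb₂, α, -, hα⟩ :=
    (memF_rName (A := oN (T := W)) fun _ _ _ _ _ => trivial).1 hd b₁ le_rfl
  have h2 : MemF (pairN (oN α) c) g b₂ :=
    (MemF.mono hdc hb₂).congr_left (pair_congr hα (EqF.refl _ _))
  obtain ⟨b₃, hb₃, s, hs, n, hn, h3⟩ := hmeet (equivShrink W α) b₂ (hb₂.trans hb₁)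
  rw [Equiv.symm_apply_apply] at h3
  obtain ⟨h4, h5⟩ := h3 b₃ le_rfl c (h2.mono hb₃)
  by_cases h6 : n ∈ s.2
  · exact h4 h6 b₃ le_rfl (memF_rName_of (A := fun n : ULift.{1} ℕ => natN n.down) (R := R)
      (i := ⟨n⟩) ⟨s, hs, hn, h6⟩)
  · obtain ⟨b₄, hb₄, i, ⟨t, ht, h7, h8⟩, h9⟩ := (memF_rName hR).1 (h5 h6) b₃ le_rfl
    obtain rfl := natN_inj h9
    obtain ⟨z, -, h10, h11⟩ := hdir b₄ (hb₄.trans (hb₃.trans (hb₂.trans hb₁))) s t
      (hH s hs hb₄) ht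
    exact h6 ((h10.2 _ hn).1 ((h11.2 _ h7).2 h8))

variable {M : Type 1} {E : M → M → Prop}

theorem mch_exists_omega (zfc : IsZFC E) : ∃ w, IsOmega E w := by
  have zf := zfc.zf
  have := zf.nonempty
  obtain ⟨w₀, ⟨e, he, he'⟩, h0⟩ := zf.infinity
  obtain ⟨w, hw⟩ := zf.sep w₀ fun x => ∀ w', IsInductive E w' → E x w'
  refine ⟨w, ⟨⟨e, (hw e).2 ⟨he, ?_⟩, he'⟩, fun x hx => ?_⟩, fun w' h x hx => ((hw x).1 hx).2 w' h⟩
  · rintro w' ⟨⟨e', h1, h2⟩, -⟩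
    exact empty_unique zf h2 he' ▸ h1
  · obtain ⟨y, hy, h1⟩ := h0 x ((hw x).1 hx).1
    refine ⟨y, (hw y).2 ⟨hy, fun w' h => ?_⟩, h1⟩
    obtain ⟨y', h2, h3⟩ := h.2 x (((hw x).1 hx).2 w' h)
    exact zf.extensionality y' y (fun z => (h3 z).trans (h1 z).symm) ▸ h2

theorem ma_of_ma' (zfc : IsZFC E) (h : MA' E) : MartinAxiom E := by
  have zf := zfc.zf
  have := zf.nonempty
  intro Q le C hQ hc hD hC
  obtain ⟨w, hw⟩ := mch_exists_omega zfc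
  refine h Q le C w hw hQ hc hD ?_
  rintro ⟨g, hg1, hg2⟩
  obtain ⟨W, hW⟩ := zf.powerset w
  obtain ⟨g', -, hg'⟩ := exists_rel zf W C fun x d => App E g d x
  obtain ⟨f, h1, h2, h3⟩ := choice_rel zfc W C g'
  obtain ⟨f', h4, h5⟩ := exists_rel zf W C fun x d => App E f x d
  refine hC w W f' hw hW ⟨⟨h4, fun x hx => ?_, fun x y y' a b => ?_⟩, fun x x' y a b => ?_⟩
  · obtain ⟨d, hd, hx'⟩ := hg2 x ((hW x).1 hx)
    obtain ⟨y, hy⟩ := h3 x d hx hd ((hg' _ _).2 ⟨hx, hd, hx'⟩)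
    exact ⟨y, (h5 _ _).2 ⟨hx, (h1 _ _ hy).2.2, hy⟩⟩
  · exact h2 _ _ _ ((h5 _ _).1 a).2.2 ((h5 _ _).1 b).2.2
  · exact hg1 y _ _ ((hg' _ _).1 (h1 _ _ ((h5 _ _).1 a).2.2).1).2.2
      ((hg' _ _).1 (h1 _ _ ((h5 _ _).1 b).2.2).1).2.2

theorem below_of_notCH' (zfc : IsZFC E) {W : M} (h : NotCH' E W) : BelowContinuum E W := by
  have zf := zfc.zf
  have := zf.nonempty
  intro w Z f hw hZ hf
  obtain ⟨g, -, hg⟩ := exists_rel zf W Z fun d x => App E f x d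
  refine h w hw ⟨g, fun d x x' a b => hf.2 _ _ d ((hg _ _).1 a).2.2 ((hg _ _).1 b).2.2,
    fun x hx => ?_⟩
  obtain ⟨d, hd⟩ := hf.1.2.1 x ((hZ x).2 hx)
  have h1 := hf.1.mem zf hd
  exact ⟨d, h1.2, (hg _ _).2 ⟨h1.2, h1.1, hd⟩⟩

end Pool.Agent.Work.MP_ee7661_gt.MA
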