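import Pool.Agent.Work.MP_ee7661_gt.Defs

/-! Martin's axiom, the negation of the continuum hypothesis, Lindelöf and sequential spaces,
interpreted inside a structure `(M, E)` for the language of set theory.  Every quantifier ranges
over `M` and the only primitive relations are `E` and `=`, so each definition is the truth in
`(M, E)` of the usual first-order definition. -/

namespace Pool.Agent.Work.MP_ee7661_gt
open Pool.Agent.Work.MP_63c7e0_lc Pool.Agent.Work.MP_3181e1_lc

universe u
variable {M : Type u} (E : M → M → Prop)

/-- `|A| < 2 ^ ℵ₀`: the power set of `ω` does not inject into `A`. -/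
def BelowContinuum (A : M) : Prop :=
  ∀ w W f, IsOmega E w → (∀ a, E a W ↔ Sub E a w) → ¬ IsInj E f W A

/-- `(Q, le)` is a nonempty partially ordered set; `App E le x y` is `x ≤ y`. -/
def IsPoset (Q le : M) : Prop :=
  (∃ x, E x Q) ∧ (∀ x, E x Q → App E le x x) ∧
  (∀ x y z, App E le x y → App E le y z → App E le x z) ∧
  ∀ x y, App E le x y → App E le y x → x = y

/-- The countable chain condition: every set of pairwise incompatible elements is countable. -/
def IsCcc (Q le : M) : Prop :=
  ∀ A, Sub E A Q → (∀ x y, E x A → E y A → ¬ x = y →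
    ¬ ∃ z, E z Q ∧ App E le z x ∧ App E le z y) → IsCountable E A

/-- `D` is a dense subset of the poset `(Q, le)`. -/
def IsDenseBelow (Q le D : M) : Prop :=
  Sub E D Q ∧ ∀ x, E x Q → ∃ y, E y D ∧ App E le y x

/-- `G` is a filter of the poset `(Q, le)`. -/
def IsFilterOn (Q le G : M) : Prop :=
  Sub E G Q ∧ (∃ x, E x G) ∧ (∀ x y, E x G → E y Q → App E le x y → E y G) ∧
  ∀ x y, E x G → E y G → ∃ z, E z G ∧ App E le z x ∧ App E le z y

/-- Martin's axiom: for every poset with the countable chain condition and every family `C` of
fewer than continuum many dense sets, some filter meets every member of `C`. -/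
def MartinAxiom : Prop :=
  ∀ Q le C, IsPoset E Q le → IsCcc E Q le → (∀ D, E D C → IsDenseBelow E Q le D) →
    BelowContinuum E C → ∃ G, IsFilterOn E Q le G ∧ ∀ D, E D C → ∃ x, E x D ∧ E x G

/-- The continuum hypothesis fails: some uncountable set has size less than the continuum. -/
def NotCH : Prop := ∃ A, ¬ IsCountable E A ∧ BelowContinuum E A

/-- `(X, τ)` is Lindelöf: every open cover has a countable subcover. -/
def IsLindelofSp (X τ : M) : Prop :=
  ∀ c, Sub E c τ → (∀ x, E x X → ∃ U, E U c ∧ E x U) →
    ∃ c', Sub E c' c ∧ IsCountable E c' ∧ ∀ x, E x X → ∃ U, E U c' ∧ E x U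

/-- The sequence `s`, indexed by `w = ω`, converges to `x` for the topology `σ`. -/
def Converges (σ w s x : M) : Prop :=
  ∀ U, E U σ → E x U → ∃ n, E n w ∧ ∀ m y, E n m → App E s m y → E y U

/-- `(K, σ)` is sequential: a subset `A` that contains the limit of every sequence in `A` that
converges in `K` is closed. -/
def IsSequentialSp (K σ : M) : Prop :=
  ∀ A, Sub E A K →
    (∀ w s x, IsOmega E w → IsFun E s w A → E x K → Converges E σ w s x → E x A) →
    IsClosedIn E K σ A

end Pool.Agent.Work.MP_ee7661_gt
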