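import Pool.Agent.Work.MP_ee7661_gt.MFo
import Pool.Agent.Work.MP_ee7661_gt.MIface

/-! MA is forced.

Plan (everything unfolds by `Lg.ma`, `LF`; use `MemF.reg`, `EqF.reg`, `memF_rName`, `memF_pairs`,
`memF_omega`, `pair_congr`, `natN_inj` from `MFo`; small index types enter names through `ULift`).
0. Mixing: for `Φ : Name C → C → Prop` monotone and invariant under `EqF` there is a name `x` with
   `Φ y b → ∃ b' ≤ b, Φ x b'`.  (Well-order `C`; `Sel b b₁`: `b ≤ b₁`, `b₁` has a witness `y b₁`,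
   and `b` is incompatible with all earlier conditions that have a witness; `x` collects the
   children of `y b₁` under the conditions `b` with `Sel b b₁`, `b ≤ cond`.)
1. Let `b₀` force the hypotheses, `b ≤ b₀`.  By recursion on `i : Ordinal.{0}` mix `D i` for
   `Φ y b := MemF y C b ∧ ∀ j < i, ∀ b' ≤ b, ¬ EqF y (D j) b'`.  If witnesses exist densely below
   `b` for all `i`, then `g = {(D i, real (en i))}` (`he`; `real φ = rName natN φ`) is forced to be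
   a `pSurj`, contradiction.  So there are `b₁ ≤ b`, `μ` such that below `b₁` every member of `C`
   is densely equal to some `D j`, `j < μ`; index by `ι = Shrink (Set.Iio μ)`.
2. Terms `Tm ι : Type` (`base | ext j t | meet t t'`), names `q t` by recursion with mixing, all
   forced into `Q` below `b₁`: `ext j t` is below `q t` and in `D j` unless `D j ∉ C` is forced;
   `meet t t'` is below both unless no common extension is forced.
   `L t t' b := MemF (pairN (q t) (q t')) le b`.  `NamedCcc`: apply the hypothesis `isCcc` to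
   `A = {q t | B t b, b ≤ b₁}`, `f t n b := MemF (pairN (q t) (natN n)) f b`.
3. With `H` from `hm` (dense sets `(∀ b' ≤ b, ¬ MemF (D j) C b') ∨ MemF (q t) (D j) b`) let
   `G = {Q.ch i | b ≤ Q.cond i, b ≤ b₁, ∃ t, H t b ∧ MemF (pairN (q t) (Q.ch i)) le b}`. -/

namespace Pool.Agent.Work.MP_ee7661_gt.MA
open Pool.Agent.Lib.ZFModel1 Pool.Agent.Lib.ZFModel1.Name

variable {C : Type 1} [Preorder C]

/-- Monotone and invariant under forced equality. -/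
def MMAGood (Φ : Name C → C → Prop) : Prop :=
  (∀ y b b', Φ y b → b' ≤ b → Φ y b') ∧ ∀ y y' b, Φ y b → EqF y y' b → Φ y' b

theorem mma_mix (Φ : Name C → C → Prop) :
    ∃ x, MMAGood Φ → ∀ y b, Φ y b → ∃ b' ≤ b, Φ x b' := by
  have hy : ∀ b : C, ∃ y, (∃ z, Φ z b) → Φ y b := fun b => by
    by_cases h : ∃ z, Φ z b
    · exact h.imp fun _ h _ => h
    · exact ⟨emptyName, fun h' => absurd h' h⟩
  choose y hy using hy
  let Sel : C → C → Prop := fun b a => b ≤ a ∧ (∃ z, Φ z a) ∧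
    ∀ c, WellOrderingRel c a → (∃ z, Φ z c) → ∀ d, d ≤ b → ¬ d ≤ c
  have mono : ∀ {b b' a}, Sel b a → b' ≤ b → Sel b' a := fun h hb =>
    ⟨hb.trans h.1, h.2.1, fun c hc hz d hd => h.2.2 c hc hz d (hd.trans hb)⟩
  have uniq : ∀ {b a a'}, Sel b a → Sel b a' → a = a' := by
    intro b a a' h h'
    rcases trichotomous_of WellOrderingRel a a' with h1 | h1 | h1
    · exact absurd h.1 (h'.2.2 a h1 h.2.1 b le_rfl)
    · exact h1
    · exact absurd h'.1 (h.2.2 a' h1 h'.2.1 b le_rfl)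
  refine ⟨rName (ι := Σ a : C, (y a).Idx) (fun a => (y a.1).ch a.2)
    fun a b => Sel b a.1 ∧ b ≤ (y a.1).cond a.2, fun hΦ z b hz => ?_⟩
  obtain ⟨a, ⟨ha, b', hb, hb'⟩, hmin⟩ := (IsWellFounded.wf (r := (WellOrderingRel : C → C → Prop))).has_min
    {a | (∃ z, Φ z a) ∧ ∃ d, d ≤ b ∧ d ≤ a} ⟨b, ⟨z, hz⟩, b, le_rfl, le_rfl⟩
  have hs : Sel b' a := ⟨hb', ha, fun c hc hz d hd hd' => hmin c ⟨hz, d, hd.trans hb, hd'⟩ hc⟩
  refine ⟨b', hb, hΦ.2 _ _ _ (hΦ.1 _ _ _ (hy a ha) hb') (eqF_iff.2 ⟨fun i q hq hc => ?_, ?_⟩)⟩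
  · exact memF_rName_of (i := (⟨a, i⟩ : Σ a : C, (y a).Idx)) ⟨mono hs hq, hc⟩
  · rintro ⟨⟨⟨a', i⟩, c⟩, h1, h2⟩ q hq hc
    obtain rfl : a = a' := uniq (mono hs hq) (mono h1 hc)
    exact memF_ch _ i (le_trans hc h2)

theorem mma_mixQ {Q : Name C} {b₁ : C} (hne : ∀ q ≤ b₁, ∃ r ≤ q, ∃ x, MemF x Q r)
    (Φ : Name C → C → Prop) : ∃ x, MMAGood Φ → MemF x Q b₁ ∧
      ∀ y b, MemF y Q b → Φ y b → ∃ b' ≤ b, Φ x b' := by
  obtain ⟨x, hx⟩ := mma_mix fun y b => MemF y Q b ∧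
    (Φ y b ∨ ∀ b' ≤ b, ∀ y', MemF y' Q b' → ¬ Φ y' b')
  refine ⟨x, fun hΦ => ?_⟩
  have hx := hx ⟨fun y b b' h hb => ⟨h.1.mono hb, h.2.imp (fun h => hΦ.1 _ _ _ h hb)
      fun h c hc => h c (hc.trans hb)⟩,
    fun y y' b h he => ⟨h.1.congr_left he, h.2.imp_left fun h => hΦ.2 _ _ _ h he⟩⟩
  refine ⟨MemF.reg fun q hq => ?_, fun y b h1 h2 => ?_⟩
  · by_cases h : ∃ b' ≤ q, ∃ y', MemF y' Q b' ∧ Φ y' b'
    · obtain ⟨r, hr, y, h1, h2⟩ := h
      obtain ⟨s, hs, h3⟩ := hx y r ⟨h1, Or.inl h2⟩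
      exact ⟨s, hs.trans hr, h3.1⟩
    · obtain ⟨r, hr, y, h1⟩ := hne q hq
      obtain ⟨s, hs, h3⟩ := hx y r ⟨h1, Or.inr fun c hc y' h4 h5 => h ⟨c, hc.trans hr, y', h4, h5⟩⟩
      exact ⟨s, hs.trans hr, h3.1⟩
  · obtain ⟨s, hs, -, h3 | h3⟩ := hx y b ⟨h1, Or.inl h2⟩
    · exact ⟨s, hs, h3⟩
    · exact absurd (hΦ.1 _ _ _ h2 hs) (h3 s le_rfl y (h1.mono hs))

theorem mma_real {x w : Name C} {b : C} (hw : EqF w omegaN b) (hx : (LF C).sub x w b)
    {φ : ℕ → C → Prop} (hφ : ∀ n c, MemF (natN n) x c ↔ φ n c) :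
    EqF x (rName (fun n : ULift.{1} ℕ => natN n.down) fun n c => φ n.down c) b := by
  refine eqF_iff.2 ⟨fun i q hq hc => MemF.reg fun r hr => ?_, ?_⟩
  · have h1 := memF_ch x i hc
    obtain ⟨s, hs, n, h2⟩ := memF_omega.1 ((hx _ q hq h1).congr_right (hw.mono hq)) r hr
    have h3 := (hφ n s).1 ((h1.mono (hs.trans hr)).congr_left h2)
    exact ⟨s, hs, (memF_rName_of (A := fun n : ULift.{1} ℕ => natN n.down)
      (R := fun n c => φ n.down c) (i := ⟨n⟩) h3).congr_left h2.symm⟩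
  · rintro ⟨⟨n, c⟩, h1⟩ q - hc
    exact ((hφ n.down c).2 h1).mono hc

theorem mma_list (he : EnumReals C) {Cn w : Name C} {b₀ : C} (hw : EqF w omegaN b₀)
    (hns : (LF C).neg ((LF C).ex fun g => (LF C).pSurj g Cn w) b₀) :
    ∃ b₁ ≤ b₀, ∃ (ι : Type) (D : ι → Name C),
      ∀ y, ∀ b ≤ b₁, MemF y Cn b → ∃ j, ∃ b' ≤ b, EqF y (D j) b' := by
  choose mx hmx using mma_mix (C := C)
  let D : Ordinal.{0} → Name C := wellFounded_lt.fix fun i IH =>
    mx fun y b => MemF y Cn b ∧ ∀ j (hj : j < i), ∀ b' ≤ b, ¬ EqF y (IH j hj) b'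
  have hD : ∀ i, D i = mx fun y b => MemF y Cn b ∧ ∀ j < i, ∀ b' ≤ b, ¬ EqF y (D j) b' :=
    fun i => WellFounded.fix_eq _ _ i
  by_cases h : ∃ b₁ ≤ b₀, ∃ μ : Ordinal.{0},
      ∀ y, ∀ b ≤ b₁, MemF y Cn b → ∃ j < μ, ∃ b' ≤ b, EqF y (D j) b'
  · obtain ⟨b₁, hb, μ, h⟩ := h
    refine ⟨b₁, hb, Shrink.{0} (Set.Iio μ), fun j => D ((equivShrink _).symm j).1,
      fun y b hb hy => ?_⟩
    obtain ⟨j, hj, h1⟩ := h y b hb hy
    exact ⟨equivShrink _ ⟨j, hj⟩, by simpa using h1⟩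
  exfalso
  have key : ∀ i, ∀ b ≤ b₀, ∃ b' ≤ b, MemF (D i) Cn b' ∧
      ∀ j < i, ∀ b'' ≤ b', ¬ EqF (D i) (D j) b'' := by
    intro i b hb
    have : ∃ y, ∃ c ≤ b, MemF y Cn c ∧ ∀ j < i, ∀ b' ≤ c, ¬ EqF y (D j) b' := by
      by_contra h'
      refine h ⟨b, hb, i, fun y c hc hy => ?_⟩
      by_contra h''
      exact h' ⟨y, c, hc, hy, fun j hj d hd h3 => h'' ⟨j, hj, d, hd, h3⟩⟩
    obtain ⟨y, c, hc, h1⟩ := this
    obtain ⟨d, hd, h2⟩ := hmx (fun y b => MemF y Cn b ∧ ∀ j < i, ∀ b' ≤ b, ¬ EqF y (D j) b')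
      ⟨fun y b b' h hb => ⟨h.1.mono hb, fun j hj c hc => h.2 j hj c (hc.trans hb)⟩,
        fun y y' b h he => ⟨h.1.congr_left he,
          fun j hj c hc h3 => h.2 j hj c hc ((he.mono hc).trans h3)⟩⟩ y c h1
    rw [← hD] at h2
    exact ⟨d, hd.trans hc, h2⟩
  have hmem : ∀ i, MemF (D i) Cn b₀ := fun i =>
    MemF.reg fun q hq => (key i q hq).imp fun _ h => ⟨h.1, h.2.1⟩
  have hlt : ∀ i j, j < i → ∀ b ≤ b₀, ¬ EqF (D i) (D j) b := fun i j hj b hb h1 => by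
    obtain ⟨c, hc, -, h2⟩ := key i b hb
    exact h2 j hj c le_rfl (h1.mono hc)
  have hinj : ∀ i j, ∀ b ≤ b₀, EqF (D i) (D j) b → i = j := fun i j b hb h1 => by
    rcases lt_trichotomy i j with h2 | h2 | h2
    · exact absurd h1.symm (hlt j i h2 b hb)
    · exact h2
    · exact absurd h1 (hlt i j h2 b hb)
  obtain ⟨en, -, hen⟩ := he
  let re : Ordinal.{0} → Name C := fun i =>
    rName (fun n : ULift.{1} ℕ => natN n.down) fun n c => en i n.down c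
  refine hns b₀ le_rfl fun s hs => ⟨s, le_rfl, rName (fun i => pairN (D i) (re i)) fun _ _ => True,
    fun d x x' q hq h1 r hr h2 => EqF.reg fun u hu => ?_, fun x q hq hx r hr => ?_⟩
  · obtain ⟨u1, hu1, i, -, h3, h4⟩ := (memF_pairs fun _ _ _ _ _ => trivial).1 h1 u (hu.trans hr)
    obtain ⟨u2, hu2, j, -, h5, h6⟩ := (memF_pairs fun _ _ _ _ _ => trivial).1 h2 u1 (hu1.trans hu)
    obtain rfl := hinj i j u2 (hu2.trans (hu1.trans (hu.trans (hr.trans (hq.trans hs)))))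
      ((h3.mono hu2).symm.trans h5)
    exact ⟨u2, hu2.trans hu1, (h4.mono hu2).trans h6.symm⟩
  · obtain ⟨i, hi⟩ := hen (fun n c => MemF (natN n) x c) (fun n _ _ h hb => h.mono hb)
      fun n _ h => MemF.reg h
    have h1 : EqF x (re i) q := mma_real (hw.mono (hq.trans hs)) hx hi
    refine ⟨r, le_rfl, D i, (hmem i).mono (hr.trans (hq.trans hs)), ?_⟩
    exact (memF_rName_of (A := fun i => pairN (D i) (re i)) (R := fun _ _ => True) (i := i)
      trivial).congr_left (pair_congr (EqF.refl _ _) (h1.mono hr).symm)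

/-- Terms. -/
inductive MMATm (ι : Type) : Type
  | base | ext (j : ι) (t : MMATm ι) | meet (t t' : MMATm ι)

/-- Evaluation of terms. -/
def MMATm.ev {ι : Type} {N : Type 2} (a : N) (e : ι → N → N) (m : N → N → N) : MMATm ι → N
  | .base => a
  | .ext j t => e j (t.ev a e m)
  | .meet t t' => m (t.ev a e m) (t'.ev a e m)

theorem mma_terms {Q : Name C} (le : Name C) {b₁ : C} (hne : ∀ q ≤ b₁, ∃ r ≤ q, ∃ x, MemF x Q r)
    {ι : Type} (D : ι → Name C) : ∃ (I : Type) (_ : Nonempty I) (q : I → Name C),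
      (∀ t, MemF (q t) Q b₁) ∧
      (∀ j t y b, MemF y Q b → MemF y (D j) b → MemF (pairN y (q t)) le b →
        ∃ b' ≤ b, ∃ u, MemF (q u) (D j) b' ∧ MemF (pairN (q u) (q t)) le b') ∧
      ∀ t t' y b, MemF y Q b → MemF (pairN y (q t)) le b → MemF (pairN y (q t')) le b →
        ∃ b' ≤ b, ∃ u, MemF (pairN (q u) (q t)) le b' ∧ MemF (pairN (q u) (q t')) le b' := by
  choose mx hmx using mma_mixQ hne
  have g0 : MMAGood fun (_ : Name C) (_ : C) => True :=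
    ⟨fun _ _ _ _ _ => trivial, fun _ _ _ _ _ => trivial⟩
  have g1 : ∀ j u, MMAGood fun y b => MemF y (D j) b ∧ MemF (pairN y u) le b := fun j u =>
    ⟨fun _ _ _ h hb => ⟨h.1.mono hb, h.2.mono hb⟩, fun _ _ _ h he =>
      ⟨h.1.congr_left he, h.2.congr_left (pair_congr he (EqF.refl _ _))⟩⟩
  have g2 : ∀ u v, MMAGood fun y b => MemF (pairN y u) le b ∧ MemF (pairN y v) le b := fun u v =>
    ⟨fun _ _ _ h hb => ⟨h.1.mono hb, h.2.mono hb⟩, fun _ _ _ h he =>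
      ⟨h.1.congr_left (pair_congr he (EqF.refl _ _)),
        h.2.congr_left (pair_congr he (EqF.refl _ _))⟩⟩
  refine ⟨MMATm ι, ⟨.base⟩, MMATm.ev (mx fun _ _ => True)
    (fun j u => mx fun y b => MemF y (D j) b ∧ MemF (pairN y u) le b)
    (fun u v => mx fun y b => MemF (pairN y u) le b ∧ MemF (pairN y v) le b), fun t => ?_,
    fun j t y b h1 h2 h3 => ?_, fun t t' y b h1 h2 h3 => ?_⟩
  · cases t with
    | base => exact (hmx _ g0).1
    | ext j t => exact (hmx _ (g1 _ _)).1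
    | meet t t' => exact (hmx _ (g2 _ _)).1
  · obtain ⟨c, hc, h⟩ := (hmx _ (g1 j _)).2 y b h1 ⟨h2, h3⟩
    exact ⟨c, hc, .ext j t, h⟩
  · obtain ⟨c, hc, h⟩ := (hmx _ (g2 _ _)).2 y b h1 ⟨h2, h3⟩
    exact ⟨c, hc, .meet t t', h⟩

theorem mma_ccc {Q le : Name C} {b₁ : C} (hc : (LF C).isCcc Q le b₁)
    (hrefl : ∀ x, ∀ b ≤ b₁, MemF x Q b → MemF (pairN x x) le b) {I : Type} {q : I → Name C}
    (hq : ∀ t, MemF (q t) Q b₁)
    (hmeet : ∀ t t' y b, MemF y Q b → MemF (pairN y (q t)) le b → MemF (pairN y (q t')) le b →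
      ∃ b' ≤ b, ∃ u, MemF (pairN (q u) (q t)) le b' ∧ MemF (pairN (q u) (q t')) le b') :
    NamedCcc (fun t t' b => MemF (pairN (q t) (q t')) le b) b₁ := by
  intro B hB hanti b hb
  let A : Name C := rName (fun t : ULift.{1} I => q t.down) fun t c => B t.down c
  have hA : ∀ {x c}, MemF x A c → ∀ d ≤ c, ∃ r ≤ d, ∃ t, B t r ∧ EqF x (q t) r := by
    intro x c h d hd
    obtain ⟨r, hr, t, h1⟩ := (memF_rName fun i p p' h hp => hB i.down h hp).1 h d hd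
    exact ⟨r, hr, t.down, h1⟩
  have hA' : ∀ {t c}, B t c → MemF (q t) A c := fun {t c} h =>
    memF_rName_of (A := fun t : ULift.{1} I => q t.down) (R := fun t c => B t.down c) (i := ⟨t⟩) h
  have h1 : (LF C).sub A Q b₁ := fun x c hc' hx => MemF.reg fun d hd => by
    obtain ⟨r, hr, t, -, h2⟩ := hA hx d hd
    exact ⟨r, hr, ((hq t).mono (hr.trans (hd.trans hc'))).congr_left h2.symm⟩
  obtain ⟨r, hr, w, h2⟩ := hc A b₁ le_rfl h1 b₁ le_rfl (by
    intro x y c1 hc1 hx c2 hc2 hy c3 hc3 hne c4 hc4 hz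
    obtain ⟨c5, hc5, z, hz1, hz2, hz3⟩ := hz c4 le_rfl
    obtain ⟨c6, hc6, t, ht, hxt⟩ := hA hx c5 (hc5.trans (hc4.trans (hc3.trans hc2)))
    obtain ⟨c7, hc7, t', ht', hyt⟩ := hA hy c6 (hc6.trans (hc5.trans (hc4.trans hc3)))
    have h76 := hc7.trans hc6
    obtain ⟨c8, hc8, u, hu, hu'⟩ := hmeet t t' z c7 (MemF.mono hz1 h76)
      ((MemF.mono hz2 h76).congr_left (pair_congr (EqF.refl _ _) (hxt.mono hc7)))
      ((MemF.mono hz3 h76).congr_left (pair_congr (EqF.refl _ _) hyt))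
    have h83 := hc8.trans (h76.trans (hc5.trans hc4))
    obtain rfl := hanti c8 (h83.trans (hc3.trans (hc2.trans hc1))) t t' u
      (hB t ht (hc8.trans hc7)) (hB t' ht' hc8) hu hu'
    exact hne c8 h83 ((hxt.mono (hc8.trans hc7)).trans (hyt.mono hc8).symm)) b hb
  obtain ⟨s, hs, f, hw, ⟨hf1, hf2, -⟩, hinj⟩ := h2 r le_rfl
  have hsb := hs.trans (hr.trans hb)
  refine ⟨s, hs.trans hr, fun t n c => MemF (pairN (q t) (natN n)) f c,
    fun _ _ _ _ h hc => h.mono hc, fun c hc t ht => ?_, fun c hc t t' n ht ht' h3 h4 => ?_⟩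
  · obtain ⟨c1, hc1, y, hy⟩ := hf2 (q t) c hc (hA' ht) c le_rfl
    obtain ⟨c2, hc2, x', h3⟩ := hf1 _ c1 (hc1.trans hc) hy c1 le_rfl
    obtain ⟨c3, hc3, y', -, h4, h5⟩ := h3 c2 le_rfl
    have h31 := hc3.trans hc2
    obtain ⟨c4, hc4, n, h6⟩ := memF_omega.1
      (MemF.congr_right h4 (EqF.mono hw (h31.trans (hc1.trans hc)))) c3 le_rfl
    exact ⟨c4, hc4.trans (h31.trans hc1), n, (MemF.mono hy (hc4.trans h31)).congr_left
      (pair_congr (EqF.refl _ _) (((pairN_inj2 h5).mono hc4).trans h6))⟩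
  · have h5 : EqF (q t) (q t') c := hinj _ _ _ c hc h3 c le_rfl h4
    have h6 := hrefl _ c (hc.trans hsb) ((hq t).mono (hc.trans hsb))
    exact hanti c (hc.trans hsb) t t' t ht ht' h6 (h6.congr_left (pair_congr (EqF.refl _ _) h5))

theorem forces_ma (he : EnumReals C) (hm : ExtMA C) (b : C) : (LF C).ma b := by
  intro Q le Cn w b1 _ hw b2 hb2 hpo b3 hb3 hccc b4 hb4 hdense b5 hb5 hns b6 hb6
  have h64 := hb6.trans hb5
  have h63 := h64.trans hb4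
  have h62 := h63.trans hb3
  obtain ⟨b₁, hb₁, ι, D, hD⟩ := mma_list he (EqF.mono hw (h62.trans hb2))
    fun q hq => hns q (hq.trans hb6)
  obtain ⟨hne, hrefl, htrans, -⟩ := hpo
  have h12 := hb₁.trans h62
  have hrefl' : ∀ x, ∀ b ≤ b₁, MemF x Q b → MemF (pairN x x) le b :=
    fun x c hc h => hrefl x c (hc.trans h12) h
  have htrans' : ∀ {x y z}, ∀ b ≤ b₁, MemF (pairN x y) le b → MemF (pairN y z) le b →
      MemF (pairN x z) le b := fun c hc h h' => htrans _ _ _ c (hc.trans h12) h c le_rfl h'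
  obtain ⟨I, hI, q, hq, hext, hmeet⟩ := mma_terms le (fun c hc => hne c (hc.trans h12)) D
  obtain ⟨H, hH, hdir, hHne, hHD⟩ := hm I ι hI (fun t t' b => MemF (pairN (q t) (q t')) le b)
    (fun j t b => (∀ b' ≤ b, ¬ MemF (D j) Cn b') ∨ MemF (q t) (D j) b) b₁
    (fun _ _ _ _ h hc => h.mono hc) (fun _ _ _ h => MemF.reg h)
    (fun t => hrefl' _ _ le_rfl (hq t)) (fun c hc _ _ _ => htrans' c hc)
    (mma_ccc (fun A c hc => hccc A c (hc.trans (hb₁.trans h63))) hrefl' hq hmeet)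
    (fun _ _ _ _ h hc => h.imp (fun h d hd => h d (hd.trans hc)) fun h => h.mono hc)
    (by
      intro j t c hc
      by_cases h : ∃ d ≤ c, MemF (D j) Cn d
      · obtain ⟨d, hd, h⟩ := h
        have hd1 := hd.trans hc
        obtain ⟨h1, h2⟩ := hdense (D j) d (hd1.trans (hb₁.trans h64)) h
        obtain ⟨e, he', y, h3, h4⟩ := h2 (q t) d le_rfl ((hq t).mono hd1) d le_rfl
        obtain ⟨e', he'', u, h5, h6⟩ := hext j t y e (h1 y e he' h3) h3 h4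
        exact ⟨e', he''.trans (he'.trans hd), u, h6, Or.inr h5⟩
      · exact ⟨c, le_rfl, t, hrefl' _ c hc ((hq t).mono hc), Or.inl fun d hd h' => h ⟨d, hd, h'⟩⟩)
  let G : Name C := rName Q.ch fun i c =>
    c ≤ Q.cond i ∧ ∃ t, H t c ∧ MemF (pairN (q t) (Q.ch i)) le c
  have hG : ∀ {x c}, MemF x G c ↔ ∀ d ≤ c, ∃ r ≤ d, ∃ i, (r ≤ Q.cond i ∧
      ∃ t, H t r ∧ MemF (pairN (q t) (Q.ch i)) le r) ∧ EqF x (Q.ch i) r :=
    memF_rName fun i p p' ⟨h1, t, h2, h3⟩ hp => ⟨hp.trans h1, t, hH t h2 hp, h3.mono hp⟩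
  have G1 : ∀ {x c}, MemF x G c → ∀ d ≤ c, ∃ s ≤ d, MemF x Q s ∧
      ∃ t, H t s ∧ MemF (pairN (q t) x) le s := by
    intro x c h d hd
    obtain ⟨r, hr, i, ⟨h1, t, h2, h3⟩, h4⟩ := hG.1 h d hd
    exact ⟨r, hr, (memF_ch Q i h1).congr_left h4.symm, t, h2,
      h3.congr_left (pair_congr (EqF.refl _ _) h4.symm)⟩
  have G2 : ∀ {x c t}, MemF x Q c → H t c → MemF (pairN (q t) x) le c → MemF x G c := by
    intro x c t h1 h2 h3
    refine hG.2 fun d hd => ?_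
    obtain ⟨r, hr, i, h4, h5⟩ := h1 d hd
    exact ⟨r, hr, i, ⟨h4, t, hH t h2 (hr.trans hd),
      (h3.mono (hr.trans hd)).congr_left (pair_congr (EqF.refl _ _) h5)⟩, h5⟩
  have G3 : ∀ {c t}, c ≤ b₁ → H t c → MemF (q t) G c := fun hc h =>
    G2 ((hq _).mono hc) h (hrefl' _ _ hc ((hq _).mono hc))
  refine ⟨b₁, hb₁, G, ⟨fun x c _ hx => MemF.reg fun d hd => ?_, fun c hc => ?_,
    fun x y c hc hx c2 hc2 hy c3 hc3 hxy => MemF.reg fun d hd => ?_,
    fun x y c hc hx c2 hc2 hy c3 hc3 => ?_⟩, fun E c hc hE c2 hc2 => ?_⟩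
  · exact (G1 hx d hd).imp fun _ h => ⟨h.1, h.2.1⟩
  · obtain ⟨d, hd, t, ht⟩ := hHne c hc
    exact ⟨d, hd, q t, G3 (hd.trans hc) ht⟩
  · obtain ⟨s, hs, -, t, h1, h2⟩ := G1 hx d (hd.trans (hc3.trans hc2))
    have hs3 := hs.trans hd
    exact ⟨s, hs, G2 (MemF.mono hy (hs3.trans hc3)) h1
      (htrans' s (hs3.trans (hc3.trans (hc2.trans hc))) h2 (MemF.mono hxy hs3))⟩
  · obtain ⟨s, hs, -, t, h1, h2⟩ := G1 hx c3 (hc3.trans hc2)
    obtain ⟨s', hs', -, t', h3, h4⟩ := G1 hy s (hs.trans hc3)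
    have h5 := hs'.trans (hs.trans (hc3.trans (hc2.trans hc)))
    obtain ⟨u, h6, h7, h8⟩ := hdir s' h5 t t' (hH t h1 hs') h3
    exact ⟨s', hs'.trans hs, q u, G3 h5 h6, htrans' s' h5 h7 (h2.mono hs'), htrans' s' h5 h8 h4⟩
  · obtain ⟨j, d, hd, h1⟩ := hD E c2 (hc2.trans hc) (MemF.mono hE hc2)
    obtain ⟨e, he', t, h2, h3 | h3⟩ := hHD j d (hd.trans (hc2.trans hc))
    · exact absurd ((MemF.mono hE (he'.trans (hd.trans hc2))).congr_left (h1.mono he'))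
        (h3 e le_rfl)
    · exact ⟨e, he'.trans hd, q t, h3.congr_right (h1.mono he').symm,
        G3 (he'.trans (hd.trans (hc2.trans hc))) h2⟩

end Pool.Agent.Work.MP_ee7661_gt.MA
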