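import Pool.Agent.Work.MP_ee7661_gt.MDefs
import Pool.Agent.Work.MP_ee7661_gt.Data

/-! The external description of the generic tree inside the model. -/

namespace Pool.Agent.Work.MP_ee7661_gt.MA
open Pool.Agent.Lib.ZFModel Pool.Agent.Work.MP_63c7e0_lc Pool.Agent.Work.MP_3181e1_lc

/-- `J` lists the countable ordinals of the model and `N` the nodes of the generic tree (coded by
ordinals).  A node `t` has a height `ht t` and a set `a t` of levels below its height. -/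
structure TD {M : Type 1} (E : M → M → Prop) (J N : Type 1) [LinearOrder J] [LinearOrder N]
    extends ND E where
  o : J → M
  mem_o : ∀ x j, E x (o j) ↔ ∃ i < j, x = o i
  θ : M
  mem_θ : ∀ x, E x θ ↔ ∃ j, x = o j
  nd : N → M
  nd_lt : ∀ s t, E (nd s) (nd t) ↔ s < t
  T : M
  mem_T : ∀ x, E x T ↔ ∃ t, x = nd t
  ht : N → J
  a : N → Set J
  le : N → N → Prop
  st : N → M
  mem_st : ∀ x t, E x (st t) ↔ ∃ i ∈ a t, x = o i
  Ev : M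
  app_Ev : ∀ x y, App E Ev x y ↔ ∃ t, x = nd t ∧ y = st t
  Ht : M
  app_Ht : ∀ x y, App E Ht x y ↔ ∃ t, x = nd t ∧ y = o (ht t)
  Le : M
  app_Le : ∀ x y, App E Le x y ↔ ∃ s t, le s t ∧ x = nd s ∧ y = nd t
  a_lt : ∀ t, ∀ i ∈ a t, i < ht t
  le_refl : ∀ t, le t t
  le_trans : ∀ s t u, le s t → le t u → le s u
  le_agree : ∀ s t, le s t → ∀ i < ht s, i ∈ a s ↔ i ∈ a t
  interp : ∀ s u α, le s u → ht s ≤ α → α ≤ ht u → ∃ t, le s t ∧ le t u ∧ ht t = α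
  root : N
  root_le : ∀ t, le root t
  cover : ∀ α, ∃ s t, ∀ i < α, i ∈ a s ∨ i ∈ a t
  nomax : ∀ j : J, ∃ i, j < i
  cnt : ∀ α, ∃ A ι, IsInj E ι A w ∧ ∀ t, ht t ≤ α → E (nd t) A
  bnd : ∀ g, ∃ α, ∀ n β, App E g (nat n) (o β) → ∃ β' < α, App E g (nat n) (o β')
  nu : ∀ x, E (nd root) x → (∀ s t, le s t → E (nd t) x → E (nd s) x) →
    (∀ s α, E (nd s) x → ht s ≤ α → ∃ t, le s t ∧ ht t = α ∧ E (nd t) x) →
    ∃ s, E (nd s) x ∧ (∃ γ, γ < ht s) ∧ ∀ γ < ht s, ∀ (k : ℕ) (α : J), ht s ≤ α →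
      ∃ δ < ht s, ∃ t : Fin k → N,
        (∀ j, E (nd (t j)) x ∧ ht (t j) = α ∧ ∀ i < γ, i ∈ a (t j) ↔ i ∈ a s) ∧
        ∀ j j', j ≠ j' → ∀ i, δ ≤ i → i < α → (i ∈ a (t j) ↔ i ∈ a s) ∨ (i ∈ a (t j') ↔ i ∈ a s)

end Pool.Agent.Work.MP_ee7661_gt.MA
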