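import Pool.Agent.Work.MP_ee7661_gt.MNu
import Pool.Agent.Work.MP_ee7661_gt.MTD
import Pool.Agent.Work.MP_ee7661_gt.MMA
import Pool.Agent.Work.MP_ee7661_gt.MCH

/-! The generic extension carries the data `TD`.

Plan: adapt `Ext.lean` of this folder to `GenF` (`MFo`, library `Lib.ZFModel1`).  Put a well-order
on `Node W` (`linearOrderOfSTO WellOrderingRel`), nodes are named by `oN t`; levels by `oN i`.
To keep the two kinds of ordinal names apart decode them separately (`Function.invFun oN` on `W`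
and on `Node W`).  `J = {i // oN i ∈ g.N}`, `N = {t // oN t ∈ g.N ∧ ∃ b, g.G b ∧ t ∈ b.1.T}`,
`le s t := s.ht ≤ t.ht ∧ t.res s.ht = s`, `a t = {i | i.1 ∈ t.a}`.  Names: `thN`,
`T = rName oN (t ∈ b.1.T)`, `st t = rName oN (i ∈ t.a)`, `Ev`, `Ht`, `Le` as sets of pairs under
`t ∈ b.1.T`, `injN b` an injection of `b.1.T` into `ω`.  The hull is closed under `ht`, `res`,
`st`, `root`, successor.  Dense sets (auxiliary type `A` carries witnesses: levels, nodes, tuples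
`Σ k, Fin k → Node W`): height at least `α` (`Cond.exists_ht`); two nodes covering `Iio α`
(`Cond.richI` for `Bool`, roots, `R = {π | π true ∨ π false}`); `bnd_dense` below and its second
half; `nu_main` for `In t b := MemF (oN t) x b ∧ MemF (oN t) T b` and the unfolding of `Cluster`.
Two members of `G` have a common extension, whose tree end-extends both trees. -/

namespace Pool.Agent.Work.MP_ee7661_gt.MA
open Pool.Agent.Lib.ZFModel (IsZFC)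

/-- `ω₁` is preserved. -/
theorem bnd_dense {W : Type 1} [LinearOrder W] [Om1 W] {P : Type 1} [Preorder P] {ps : PS P}
    (it : It ps) (Φ : ℕ → W → it.C → Prop) (hΦ : ∀ n β, Mono (Φ n β)) (b : it.C) :
    ∃ b' ≤ b, ∃ α, ∀ n β, ∀ b'' ≤ b', Φ n β b'' → ∃ b₃ ≤ b'', ∃ β' < α, Φ n β' b₃ := by
  have key : ∀ (n : ℕ) (p : P), ∃ p' ≤ p, ∃ S : Set W, S.Countable ∧
      ∀ β, ∀ b'' : it.C, b''.1 ≤ p' → Φ n β b'' → ∃ b₃ ≤ b'', ∃ β' ∈ S, Φ n β' b₃ := by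
    intro n p
    obtain ⟨p', h1, A, h2, h3, h4⟩ := it.pccc (fun p r => ∃ β, Φ n β (p, r))
      (fun p p' r ⟨β, h⟩ hp => ⟨β, hΦ n β h ⟨hp, it.le_refl _ _⟩⟩) (fun _ _ _ => trivial) p
    choose f hf using h3
    have := h2.to_subtype
    refine ⟨p', h1, Set.range fun a : A => f a.1 a.2, Set.countable_range _,
      fun β b'' k1 k2 => ?_⟩
    obtain ⟨a, ha, p₃, k3, r₃, -, k4, k5⟩ := h4 b''.1 k1 b''.2 ⟨β, k2⟩
    exact ⟨(p₃, r₃), ⟨k3, k4⟩, f a ha, ⟨⟨a, ha⟩, rfl⟩, hΦ n _ (hf a ha) ⟨k3.trans k1, k5⟩⟩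
  choose nx h1 S h2 h3 using key
  let s : ℕ → P := fun n => Nat.rec b.1 (fun n x => nx n x) n
  obtain ⟨q, hq⟩ := ps.sigma s fun n => h1 n _
  obtain ⟨α, hα⟩ := Om1.bdd (⋃ n, S n (s n)) (Set.countable_iUnion fun n => h2 n _)
  refine ⟨(q, b.2), ⟨hq 0, it.le_refl _ _⟩, α, fun n β b'' k1 k2 => ?_⟩
  obtain ⟨b₃, k3, β', k4, k5⟩ := h3 n (s n) β b'' (k1.1.trans (hq (n + 1))) k2
  exact ⟨b₃, k3, β', hα _ (Set.mem_iUnion.2 ⟨n, k4⟩), k5⟩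

namespace Ex
open Pool.Agent.Lib.ZFModel1 Pool.Agent.Lib.ZFModel1.Name
open Pool.Agent.Work.MP_63c7e0_lc Pool.Agent.Work.MP_3181e1_lc

section dec
variable {P : Type 1} [Preorder P] (T : Type 1) [LinearOrder T] [WellFoundedLT T] [Nonempty T]

omit [Preorder P] in
/-- Decoding of the names of ordinals. -/
noncomputable def ix (a : Name P) : T := Function.invFun oN a

variable {T} in
theorem ix_oN (p : P) (i : T) : ix T (oN i : Name P) = i :=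
  Function.leftInverse_invFun (fun i j h => oN_inj (p := p) (by rw [h]; exact EqF.refl _ _)) i

variable {T} in
omit [Nonempty T] in
theorem mem_oN (g : Gen (P := P) Unit) {j : T} (hj : oN j ∈ g.N) (a : g.M) :
    g.E a (g.cl ⟨_, hj⟩) ↔ ∃ i < j, ∃ hi : oN i ∈ g.N, a = g.cl ⟨_, hi⟩ := by
  have h1 : rName (fun i : Set.Iio j => oN i.1) (fun _ _ => True) ∈ g.N := oN_eq (P := P) j ▸ hj
  have h2 : g.cl ⟨_, hj⟩ = g.cl ⟨_, h1⟩ := congrArg g.cl (Subtype.ext (oN_eq j))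
  obtain ⟨p, hp⟩ := g.ne
  rw [h2, g.E_rName]
  exact ⟨fun ⟨i, _, _, _, hi, h⟩ => ⟨i.1, i.2, hi, h⟩,
    fun ⟨i, hi, h, h'⟩ => ⟨⟨i, hi⟩, p, trivial, hp, h, h'⟩⟩

variable {T} in
omit [Nonempty T] in
theorem cl_oN_inj (g : Gen (P := P) Unit) {i j : T} {hi : oN i ∈ g.N} {hj : oN j ∈ g.N}
    (h : g.cl ⟨_, hi⟩ = g.cl ⟨_, hj⟩) : i = j := by
  obtain ⟨p, -, h1⟩ := g.cl_eq.1 h
  exact oN_inj h1

end dec

variable {W : Type 1} [LinearOrder W] [WellFoundedLT W] [OrderBot W] [Om1 W]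
  (it : It (psC W))

instance : Nonempty (Node W) := ⟨Node.root W⟩

theorem ht_dense (α : W) (b : it.C) : ∃ b' ≤ b, α < b'.1.ρ := by
  obtain ⟨β, h1, -⟩ := exists_succ α
  obtain ⟨q, h2, h3⟩ := Cond.exists_ht β b.1
  exact ⟨(q, b.2), ⟨h2, it.le_refl _ _⟩, h1.trans_le h3⟩

noncomputable def io (b : it.C) : Node W → ℕ := (Set.countable_iff_exists_injOn.1 b.1.T_cnt).choose
noncomputable def en (b : it.C) : ℕ → Node W :=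
  (Set.countable_iff_exists_subset_range.1 b.1.T_cnt).choose
noncomputable def lv (b : it.C) : ℕ → W :=
  (Set.countable_iff_exists_subset_range.1 (cnt_Iic b.1.ρ)).choose
noncomputable def stN (t : Node W) : Name it.C := rName (oN (T := W)) fun i _ => i ∈ t.a

def Ph (f : Name it.C) (n : ℕ) (β : W) (b : it.C) : Prop := MemF (pairN (natN n) (oN β)) f b

def Bd (f : Name it.C) (b : it.C) : Prop :=
  ∀ n β, ∀ b'' ≤ b, Ph it f n β b'' → ∃ b₃ ≤ b'', ∃ β' < b.1.ρ, Ph it f n β' b₃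

theorem bd_dense (f : Name it.C) (b : it.C) : ∃ b' ≤ b, Bd it f b' := by
  obtain ⟨b₁, h1, α, h2⟩ := bnd_dense it (Ph it f) (fun _ _ _ _ h h' => MemF.mono h h') b
  obtain ⟨b₂, h3, h4⟩ := ht_dense it α b₁
  refine ⟨b₂, h3.trans h1, fun n β b'' k1 k2 => ?_⟩
  obtain ⟨b₃, k3, β', k4, k5⟩ := h2 n β b'' (k1.trans h3) k2
  exact ⟨b₃, k3, β', k4.trans h4, k5⟩

variable [LinearOrder (Node W)] [WellFoundedLT (Node W)]

noncomputable def trN : Name it.C := rName (oN (T := Node W)) fun t b => t ∈ b.1.T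
noncomputable def evN : Name it.C :=
  rName (fun t : Node W => pairN (oN t) (stN it t)) fun t b => t ∈ b.1.T
noncomputable def htN : Name it.C :=
  rName (fun t : Node W => pairN (oN t) (oN t.ht)) fun t b => t ∈ b.1.T
noncomputable def leN : Name it.C :=
  rName (fun a : Node W × Node W => pairN (oN a.1) (oN a.2))
    fun a b => a.2 ∈ b.1.T ∧ a.1.ht ≤ a.2.ht ∧ a.2.res a.1.ht = a.1
noncomputable def tbN (b : it.C) : Name it.C := rName (oN (T := Node W)) fun t _ => t ∈ b.1.T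
noncomputable def injN (b : it.C) : Name it.C :=
  rName (fun t : Node W => pairN (oN t) (natN (io it b t))) fun t _ => t ∈ b.1.T

def In (x : Name it.C) (t : Node W) (b : it.C) : Prop := MemF (oN t) x b ∧ MemF (oN t) (trN it) b

theorem In.mono (x : Name it.C) (t : Node W) : Mono (In it x t) :=
  fun _ _ h h' => ⟨h.1.mono h', h.2.mono h'⟩

theorem In.reg (x : Name it.C) (t : Node W) : Reg (In it x t) :=
  fun _ h => ⟨MemF.reg fun q hq => (h q hq).imp fun _ k => ⟨k.1, k.2.1⟩,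
    MemF.reg fun q hq => (h q hq).imp fun _ k => ⟨k.1, k.2.2⟩⟩

theorem In.tree (x : Name it.C) (t : Node W) (b : it.C) (h : In it x t b) :
    ∃ b' ≤ b, t ∈ b'.1.T := by
  obtain ⟨r, h1, i, h2, h3⟩ := (memF_rName (A := oN (T := Node W))
    (R := fun t (b : it.C) => t ∈ b.1.T)
      fun i (p q : it.C) k1 (k2 : q ≤ p) => k2.1.T_sub k1).1 h.2 b le_rfl
  exact ⟨r, h1, oN_inj h3 ▸ h2⟩

theorem In.of {x : Name it.C} {t : Node W} {b : it.C} (h : MemF (oN t) x b) (h' : t ∈ b.1.T) :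
    In it x t b :=
  ⟨h, memF_rName_of (A := oN (T := Node W)) (R := fun t (b : it.C) => t ∈ b.1.T) h'⟩

def Nu (x : Name it.C) (b : it.C) : Prop :=
  (∀ b' ≤ b, ¬ In it x (Node.root W) b') ∨
    (∃ t α, t ∈ b.1.T ∧ In it x t b ∧ α ≤ t.ht ∧ ∀ b' ≤ b, ¬ In it x (t.res α) b') ∨
    (∃ t θ, t ∈ b.1.T ∧ θ ≤ b.1.ρ ∧ In it x t b ∧ t.ht ≤ θ ∧
      ∀ b' ≤ b, ∀ t', t'.ht = θ → t'.res t.ht = t → ¬ In it x t' b') ∨
    ∃ s, s ∈ b.1.T ∧ In it x s b ∧ ⊥ < s.ht ∧ Cluster (In it x) s b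

theorem nu_dense (x : Name it.C) (b₀ : it.C) : ∃ b ≤ b₀, Nu it x b := by
  obtain ⟨b, hb, h | ⟨t, α, h1, h2, h3⟩ | ⟨t, θ, h1, h2, h3⟩ | ⟨s, h1, h2, h3⟩⟩ :=
    nu_main it (In it x) (In.mono it x) (In.reg it x) (In.tree it x) b₀
  · exact ⟨b, hb, Or.inl h⟩
  · obtain ⟨b', k1, k2⟩ := In.tree it x t b h1
    exact ⟨b', k1.trans hb, Or.inr (Or.inl ⟨t, α, k2, In.mono it x t h1 k1, h2,
      fun c hc => h3 c (hc.trans k1)⟩)⟩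
  · obtain ⟨b', k1, k2⟩ := In.tree it x t b h1
    obtain ⟨b'', k3, k4⟩ := ht_dense it θ b'
    exact ⟨b'', k3.trans (k1.trans hb), Or.inr (Or.inr (Or.inl ⟨t, θ, k3.1.T_sub k2, k4.le,
      In.mono it x t h1 (k3.trans k1), h2, fun c hc => h3 c (hc.trans (k3.trans k1))⟩))⟩
  · obtain ⟨b', k1, k2⟩ := In.tree it x s b h1
    exact ⟨b', k1.trans hb, Or.inr (Or.inr (Or.inr ⟨s, k2, In.mono it x s h1 k1, h2,
      fun c hc => h3 c (hc.trans k1)⟩))⟩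

def Clu (x : Name it.C) (s : Node W) (γ : W) (k : ℕ) (θ : W) (b : it.C) : Prop :=
  ∃ δ < s.ht, ∃ t : Fin k → Node W,
    (∀ j, t j ∈ b.1.T ∧ In it x (t j) b ∧ (t j).ht = θ ∧ ∀ i < γ, i ∈ (t j).a ↔ i ∈ s.a) ∧
      ∀ j j', j ≠ j' → ∀ i, δ ≤ i → i < θ → (i ∈ (t j).a ↔ i ∈ s.a) ∨ (i ∈ (t j').a ↔ i ∈ s.a)

theorem clu_dense {x : Name it.C} {s : Node W} {b : it.C} (h : Cluster (In it x) s b) {γ : W}
    (hγ : γ < s.ht) (k : ℕ) {θ : W} (hθ : s.ht ≤ θ) (b' : it.C) (hb : b' ≤ b) :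
    ∃ b'' ≤ b', Clu it x s γ k θ b'' := by
  obtain ⟨b₁, h1, h2⟩ := ht_dense it θ b'
  obtain ⟨b₂, h3, δ, h4, t, h5, h6⟩ := h b₁ (h1.trans hb) γ hγ k θ hθ
  refine ⟨b₂, h3.trans h1, δ, h4, t, fun j => ⟨?_, h5 j⟩, h6⟩
  obtain ⟨b₃, k1, k2⟩ := In.tree it x _ _ (h5 j).1
  exact k1.1.T_end _ k2 ((h5 j).2.1.le.trans (h2.le.trans h3.1.ρ_le))

/-- Indices of the closure conditions and dense sets. -/
inductive Kd : Type
  | th | tr | ev | ht | le | st | tb | inj | en (n : ℕ) | lv (n : ℕ)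
  | hg | bd | bd' (n : ℕ) | nu | clu (k : ℕ)
  deriving Countable

def RN : Fam it.C PUnit.{2} Kd (Name it.C) := fun k v c _ y => match k with
  | .th => y = thN it.C W
  | .tr => y = trN it
  | .ev => y = evN it
  | .ht => y = htN it
  | .le => y = leN it
  | .st => y = stN it (ix (Node W) (v 0))
  | .tb => y = tbN it (c 0)
  | .inj => y = injN it (c 0)
  | .en n => y = oN (en it (c 0) n)
  | .lv n => y = oN (lv it (c 0) n)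
  | _ => True

def WW : Fam it.C PUnit.{2} Kd (it.C × PUnit.{2}) := fun k v _ _ y => match k with
  | .hg => ix W (v 0) < y.1.1.ρ
  | .bd => Bd it (v 0) y.1
  | .bd' n => ∃ β' < ix W (v 1), Ph it (v 0) n β' y.1
  | .nu => Nu it (v 0) y.1
  | .clu k => Clu it (v 0) (ix (Node W) (v 1)) (ix W (v 2)) k (ix W (v 3)) y.1
  | _ => True

variable {it} {p₀ : it.C} (g : GenF p₀ PUnit.unit (RN it) (WW it))

theorem th_mem : thN it.C W ∈ g.N := by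
  obtain ⟨y, hy, h⟩ := g.clN .th [] [] [] mem_list₀ mem_list₀ mem_list₀ ⟨_, rfl⟩
  exact h ▸ hy

theorem tr_mem : trN it ∈ g.N := by
  obtain ⟨y, hy, h⟩ := g.clN .tr [] [] [] mem_list₀ mem_list₀ mem_list₀ ⟨_, rfl⟩
  exact h ▸ hy

theorem ev_mem : evN it ∈ g.N := by
  obtain ⟨y, hy, h⟩ := g.clN .ev [] [] [] mem_list₀ mem_list₀ mem_list₀ ⟨_, rfl⟩
  exact h ▸ hy

theorem ht_mem : htN it ∈ g.N := by
  obtain ⟨y, hy, h⟩ := g.clN .ht [] [] [] mem_list₀ mem_list₀ mem_list₀ ⟨_, rfl⟩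
  exact h ▸ hy

theorem le_mem : leN it ∈ g.N := by
  obtain ⟨y, hy, h⟩ := g.clN .le [] [] [] mem_list₀ mem_list₀ mem_list₀ ⟨_, rfl⟩
  exact h ▸ hy

theorem st_mem {t : Node W} (ht : oN t ∈ g.N) : stN it t ∈ g.N := by
  obtain ⟨y, hy, h⟩ := g.clN .st [oN t] [] [] (mem_list₁ ht) mem_list₀ mem_list₀ ⟨_, rfl⟩
  have h' : y = stN it (ix (Node W) (oN t)) := h
  rw [ix_oN p₀] at h'
  exact h' ▸ hy

theorem tb_mem {b : it.C} (hb : b ∈ g.PN) : tbN it b ∈ g.N := by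
  obtain ⟨y, hy, h⟩ := g.clN .tb [] [b] [] mem_list₀ (mem_list₁ hb) mem_list₀ ⟨_, rfl⟩
  exact h ▸ hy

theorem inj_mem {b : it.C} (hb : b ∈ g.PN) : injN it b ∈ g.N := by
  obtain ⟨y, hy, h⟩ := g.clN .inj [] [b] [] mem_list₀ (mem_list₁ hb) mem_list₀ ⟨_, rfl⟩
  exact h ▸ hy

theorem node_mem {b : it.C} (hb : g.G b) {t : Node W} (ht : t ∈ b.1.T) : oN t ∈ g.N := by
  obtain ⟨q, h1, -, h2⟩ := g.below b hb
  obtain ⟨n, rfl⟩ : t ∈ Set.range (en it q) :=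
    (Set.countable_iff_exists_subset_range.1 q.1.T_cnt).choose_spec (h2.1.T_sub ht)
  obtain ⟨y, hy, h⟩ := g.clN (.en n) [] [q] [] mem_list₀ (mem_list₁ h1) mem_list₀ ⟨_, rfl⟩
  exact h ▸ hy

theorem lev_mem {b : it.C} (hb : g.G b) {i : W} (hi : i ≤ b.1.ρ) : oN i ∈ g.N := by
  obtain ⟨q, h1, -, h2⟩ := g.below b hb
  obtain ⟨n, rfl⟩ : i ∈ Set.range (lv it q) :=
    (Set.countable_iff_exists_subset_range.1 (cnt_Iic q.1.ρ)).choose_spec (hi.trans h2.1.ρ_le)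
  obtain ⟨y, hy, h⟩ := g.clN (.lv n) [] [q] [] mem_list₀ (mem_list₁ h1) mem_list₀ ⟨_, rfl⟩
  exact h ▸ hy

abbrev JJ : Type 1 := {i : W // oN i ∈ g.N}
abbrev NN : Type 1 := {t : Node W // ∃ b, g.G b ∧ t ∈ b.1.T}

theorem NN.mem (t : NN g) : oN t.1 ∈ g.N :=
  let ⟨_, h1, h2⟩ := t.2
  node_mem g h1 h2

theorem NN.wf (t : NN g) : t.1.WF :=
  let ⟨b, _, h2⟩ := t.2
  b.1.wf _ h2

noncomputable def oM (i : JJ g) : g.toGen.M := g.toGen.cl ⟨_, i.2⟩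
noncomputable def nM (t : NN g) : g.toGen.M := g.toGen.cl ⟨_, NN.mem g t⟩
noncomputable def sM (t : NN g) : g.toGen.M := g.toGen.cl ⟨_, st_mem g (NN.mem g t)⟩

def htJ (t : NN g) : JJ g :=
  ⟨t.1.ht, let ⟨b, h1, h2⟩ := t.2; lev_mem g h1 (b.1.ht_le _ h2)⟩

def resN (t : NN g) (α : W) (h : α ≤ t.1.ht) : NN g :=
  ⟨t.1.res α, let ⟨b, h1, h2⟩ := t.2; ⟨b, h1, b.1.res_mem _ h2 α h⟩⟩

def leT (s t : NN g) : Prop := s.1.ht ≤ t.1.ht ∧ t.1.res s.1.ht = s.1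

theorem high (α : JJ g) : ∃ b ∈ g.PN, g.G b ∧ α.1 < b.1.ρ := by
  obtain ⟨q, hq, hG, _, _, h⟩ := g.meet .hg [oN α.1] [] [] (mem_list₁ α.2) mem_list₀ mem_list₀
    p₀ g.G_p0 fun q _ => by
      obtain ⟨r, h1, h2⟩ := ht_dense it (ix W (oN α.1 : Name it.C)) q
      exact ⟨r, h1, PUnit.unit, h2⟩
  have h' : ix W (oN α.1 : Name it.C) < q.1.ρ := h
  rw [ix_oN p₀] at h'
  exact ⟨q, hq, hG, h'⟩

theorem low (α : JJ g) {i : W} (hi : i ≤ α.1) : oN i ∈ g.N := by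
  obtain ⟨b, -, h1, h2⟩ := high g α
  exact lev_mem g h1 (hi.trans h2.le)

theorem mem_oM (a : g.toGen.M) (j : JJ g) : g.toGen.E a (oM g j) ↔ ∃ i < j, a = oM g i :=
  (mem_oN g.toGen j.2 a).trans ⟨fun ⟨i, h1, h2, h3⟩ => ⟨⟨i, h2⟩, h1, h3⟩,
    fun ⟨i, h1, h2⟩ => ⟨i.1, h1, i.2, h2⟩⟩

theorem mem_th (a : g.toGen.M) : g.toGen.E a (g.toGen.cl ⟨_, th_mem g⟩) ↔ ∃ j, a = oM g j :=
  (g.toGen.E_rName (th_mem g) a).trans ⟨fun ⟨i, _, _, _, hi, h⟩ => ⟨⟨i, hi⟩, h⟩,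
    fun ⟨i, h⟩ => ⟨i.1, p₀, trivial, g.G_p0, i.2, h⟩⟩

theorem nM_lt (s t : NN g) : g.toGen.E (nM g s) (nM g t) ↔ s < t :=
  (mem_oN g.toGen (NN.mem g t) _).trans ⟨fun ⟨i, h1, _, h3⟩ => by
      have h4 : s.1 = i := cl_oN_inj g.toGen h3
      exact Subtype.coe_lt_coe.1 (h4 ▸ h1),
    fun h => ⟨s.1, h, NN.mem g s, rfl⟩⟩

theorem mem_tr (a : g.toGen.M) : g.toGen.E a (g.toGen.cl ⟨_, tr_mem g⟩) ↔ ∃ t, a = nM g t :=
  (g.toGen.E_rName (tr_mem g) a).trans ⟨fun ⟨t, b, h1, h2, _, h⟩ => ⟨⟨t, b, h2, h1⟩, h⟩,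
    fun ⟨⟨t, b, h1, h2⟩, h⟩ => ⟨t, b, h2, h1, _, h⟩⟩

theorem mem_sM (a : g.toGen.M) (t : NN g) :
    g.toGen.E a (sM g t) ↔ ∃ i ∈ {i : JJ g | i.1 ∈ t.1.a}, a = oM g i :=
  (g.toGen.E_rName (st_mem g (NN.mem g t)) a).trans
    ⟨fun ⟨i, _, h1, _, hi, h⟩ => ⟨⟨i, hi⟩, h1, h⟩,
      fun ⟨i, h1, h⟩ => ⟨i.1, p₀, h1, g.G_p0, i.2, h⟩⟩

theorem app_ev (x y : g.toGen.M) :
    App g.toGen.E (g.toGen.cl ⟨_, ev_mem g⟩) x y ↔ ∃ t, x = nM g t ∧ y = sM g t :=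
  ((g.app_pairs (ev_mem g)).2 x y).trans ⟨fun ⟨t, b, h1, h2, _, _, h⟩ => ⟨⟨t, b, h2, h1⟩, h⟩,
    fun ⟨⟨t, b, h1, h2⟩, h⟩ => ⟨t, b, h2, h1, _, _, h⟩⟩

theorem app_ht (x y : g.toGen.M) :
    App g.toGen.E (g.toGen.cl ⟨_, ht_mem g⟩) x y ↔ ∃ t, x = nM g t ∧ y = oM g (htJ g t) :=
  ((g.app_pairs (ht_mem g)).2 x y).trans ⟨fun ⟨t, b, h1, h2, _, _, h⟩ => ⟨⟨t, b, h2, h1⟩, h⟩,
    fun ⟨⟨t, b, h1, h2⟩, h⟩ => ⟨t, b, h2, h1, _, _, h⟩⟩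

theorem app_le (x y : g.toGen.M) : App g.toGen.E (g.toGen.cl ⟨_, le_mem g⟩) x y ↔
    ∃ s t, leT g s t ∧ x = nM g s ∧ y = nM g t :=
  ((g.app_pairs (le_mem g)).2 x y).trans
    ⟨fun ⟨⟨s, t⟩, b, h1, h2, _, _, h⟩ =>
      ⟨⟨s, b, h2, (show t.res s.ht = s from h1.2.2) ▸ b.1.res_mem t h1.1 s.ht h1.2.1⟩,
        ⟨t, b, h2, h1.1⟩, h1.2, h⟩,
    fun ⟨s, ⟨t, b, h1, h2⟩, h3, h⟩ => ⟨(s.1, t), b, ⟨h2, h3⟩, h1, _, _, h⟩⟩

theorem ext_cover (α : JJ g) : ∃ s t : NN g, ∀ i < α, i.1 ∈ s.1.a ∨ i.1 ∈ t.1.a := by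
  obtain ⟨b, -, h1, h2⟩ := high g α
  obtain ⟨t, k1, k2⟩ := b.1.richI Bool (bot_le : ⊥ ≤ α.1) h2.le (fun _ => Node.root W) (fun _ => 1)
    (fun _ => ⟨b.1.root_mem, rfl, 0, zero_lt_one, fun _ _ => le_rfl⟩)
    (fun _ => {π | π true ∨ π false}) (Dep.const _ _ _) fun _ _ =>
      ⟨⟨fun _ => True, Or.inl trivial⟩, fun j v => by
        cases j
        · exact ⟨fun j => j = true ∨ v, Or.inl (Or.inl rfl), by simp⟩
        · exact ⟨fun j => j = false ∨ v, Or.inr (Or.inl rfl), by simp⟩⟩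
  exact ⟨⟨t true, b, h1, (k1 _).1⟩, ⟨t false, b, h1, (k1 _).1⟩, fun i hi => k2 i.1 ⟨bot_le, hi⟩⟩

theorem ext_cnt (α : JJ g) : ∃ A ι, IsInj g.toGen.E ι A (ndM g.toGenW).w ∧
    ∀ t, htJ g t ≤ α → g.toGen.E (nM g t) A := by
  have zf := g.zfc.zf
  obtain ⟨b, h0, hb, hα⟩ := high g α
  have hA : ∀ a, g.toGen.E a (g.toGen.cl ⟨_, tb_mem g h0⟩) ↔
      ∃ t : NN g, t.1 ∈ b.1.T ∧ a = nM g t := fun a =>
    (g.toGen.E_rName (tb_mem g h0) a).trans ⟨fun ⟨t, _, h1, _, _, h⟩ => ⟨⟨t, b, hb, h1⟩, h1, h⟩,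
      fun ⟨t, h1, h⟩ => ⟨t.1, b, h1, hb, _, h⟩⟩
  obtain ⟨h1, h2⟩ := g.app_pairs (inj_mem g h0)
  have h3 : ∀ u v, App g.toGen.E (g.toGen.cl ⟨_, inj_mem g h0⟩) u v ↔
      ∃ t : NN g, t.1 ∈ b.1.T ∧ u = nM g t ∧ v = (ndM g.toGenW).nat (io it b t.1) := fun u v =>
    (h2 u v).trans ⟨fun ⟨t, _, k, _, _, _, h⟩ => ⟨⟨t, b, hb, k⟩, k, h⟩,
      fun ⟨t, k, h⟩ => ⟨t.1, b, k, hb, _, _, h⟩⟩
  refine ⟨g.toGen.cl ⟨_, tb_mem g h0⟩, g.toGen.cl ⟨_, inj_mem g h0⟩,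
    ⟨⟨fun z hz => ?_, fun u hu => ?_, fun u v v' k1 k2 => ?_⟩, fun u u' v k1 k2 => ?_⟩,
    fun t ht => (hA _).2 ⟨t, ?_, rfl⟩⟩
  · obtain ⟨u, v, h⟩ := h1 z hz
    obtain ⟨t, k, rfl, rfl⟩ := (h3 u v).1 ⟨z, hz, h⟩
    exact ⟨_, _, (hA _).2 ⟨t, k, rfl⟩, ((ndM g.toGenW).mem_w _).2 ⟨_, rfl⟩, h⟩
  · obtain ⟨t, k, rfl⟩ := (hA _).1 hu
    exact ⟨_, (h3 _ _).2 ⟨t, k, rfl, rfl⟩⟩
  · obtain ⟨s, -, rfl, rfl⟩ := (h3 _ _).1 k1
    obtain ⟨t, -, h, rfl⟩ := (h3 _ _).1 k2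
    rw [show s.1 = t.1 from cl_oN_inj g.toGen h]
  · obtain ⟨s, hs, rfl, rfl⟩ := (h3 _ _).1 k1
    obtain ⟨t, ht, rfl, h⟩ := (h3 _ _).1 k2
    rw [Subtype.ext ((Set.countable_iff_exists_injOn.1 b.1.T_cnt).choose_spec hs ht
      (nat_inj zf (ndM g.toGenW) h))]
  · obtain ⟨c, k1, k2⟩ := t.2
    obtain ⟨r, -, k3, k4⟩ := g.dir _ _ hb k1
    exact k3.1.T_end _ (k4.1.T_sub k2) (le_trans ht hα.le)

theorem ext_bnd (f : g.toGen.M) : ∃ α, ∀ n β,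
    App g.toGen.E f ((ndM g.toGenW).nat n) (oM g β) →
      ∃ β' < α, App g.toGen.E f ((ndM g.toGenW).nat n) (oM g β') := by
  obtain ⟨f, rfl⟩ := g.toGen.cl_surj f
  have hA : ∀ n (β : JJ g), App g.toGen.E (g.toGen.cl f) ((ndM g.toGenW).nat n) (oM g β) ↔
      ∃ b, g.G b ∧ Ph it f.1 n β.1 b := fun n β => app_cl g.toGenW f ⟨_, g.nat_mem n⟩ ⟨_, β.2⟩
  obtain ⟨q, -, hq, _, _, h⟩ := g.meet .bd [f.1] [] [] (mem_list₁ f.2) mem_list₀ mem_list₀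
    p₀ g.G_p0 fun q _ => by
      obtain ⟨r, h1, h2⟩ := bd_dense it f.1 q
      exact ⟨r, h1, PUnit.unit, h2⟩
  have h' : Bd it f.1 q := h
  have hα : oN q.1.ρ ∈ g.N := lev_mem g hq le_rfl
  refine ⟨⟨_, hα⟩, fun n β k => ?_⟩
  obtain ⟨b, k1, k2⟩ := (hA n β).1 k
  obtain ⟨r, k3, k4, k5⟩ := g.dir _ _ hq k1
  obtain ⟨s, -, hs, _, _, β', k6, k7⟩ := g.meet (.bd' n) [f.1, oN q.1.ρ] [] []
    (mem_list₂ f.2 hα) mem_list₀ mem_list₀ r k3 fun s hs => by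
      obtain ⟨b₃, a1, β', a2, a3⟩ := h' n β.1 s (hs.trans k4) (MemF.mono k2 (hs.trans k5))
      refine ⟨b₃, a1, PUnit.unit, β', ?_, a3⟩
      show β' < ix W (oN q.1.ρ : Name it.C)
      rwa [ix_oN p₀]
  have k8 : β' < ix W (oN q.1.ρ : Name it.C) := k6
  rw [ix_oN p₀] at k8
  exact ⟨⟨β', lev_mem g hq k8.le⟩, k8, (hA n _).2 ⟨s, hs, k7⟩⟩

def rootN : NN g := ⟨Node.root W, p₀, g.G_p0, p₀.1.root_mem⟩

theorem ext_nu (x : g.toGen.M) (h1 : g.toGen.E (nM g (rootN g)) x)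
    (h2 : ∀ s t, leT g s t → g.toGen.E (nM g t) x → g.toGen.E (nM g s) x)
    (h3 : ∀ s α, g.toGen.E (nM g s) x → htJ g s ≤ α →
      ∃ t, leT g s t ∧ htJ g t = α ∧ g.toGen.E (nM g t) x) :
    ∃ s, g.toGen.E (nM g s) x ∧ (∃ γ, γ < htJ g s) ∧ ∀ γ < htJ g s, ∀ (k : ℕ) (α : JJ g),
      htJ g s ≤ α → ∃ δ < htJ g s, ∃ t : Fin k → NN g,
        (∀ j, g.toGen.E (nM g (t j)) x ∧ htJ g (t j) = α ∧
          ∀ i < γ, i.1 ∈ (t j).1.a ↔ i.1 ∈ s.1.a) ∧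
        ∀ j j', j ≠ j' → ∀ i, δ ≤ i → i < α →
          (i.1 ∈ (t j).1.a ↔ i.1 ∈ s.1.a) ∨ (i.1 ∈ (t j').1.a ↔ i.1 ∈ s.1.a) := by
  obtain ⟨x, rfl⟩ := g.toGen.cl_surj x
  have hE : ∀ t : NN g, ∀ b, g.G b → In it x.1 t.1 b → g.toGen.E (nM g t) (g.toGen.cl x) :=
    fun t b k1 k2 => g.toGen.E_cl.2 ⟨b, k1, k2.1⟩
  have hI : ∀ t : NN g, g.toGen.E (nM g t) (g.toGen.cl x) → ∀ b, g.G b →
      ∃ b' ≤ b, In it x.1 t.1 b' := by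
    intro t k b hb
    obtain ⟨c, k1, k2⟩ := g.toGen.E_cl.1 k
    obtain ⟨d, k3, k4⟩ := t.2
    obtain ⟨r, k5, k6, k7⟩ := g.dir _ _ k1 k3
    obtain ⟨s, -, k8, k9⟩ := g.dir _ _ k5 hb
    exact ⟨s, k9, In.of it (k2.mono (k8.trans k6)) ((k8.trans k7).1.T_sub k4)⟩
  obtain ⟨q, -, hq, _, _, h⟩ := g.meet .nu [x.1] [] [] (mem_list₁ x.2) mem_list₀ mem_list₀
    p₀ g.G_p0 fun q _ => by
      obtain ⟨r, h1, h2⟩ := nu_dense it x.1 q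
      exact ⟨r, h1, PUnit.unit, h2⟩
  have h' : Nu it x.1 q := h
  rcases h' with k | ⟨t, α, k1, k2, k3, k4⟩ | ⟨t, θ, k1, k2, k3, k4, k5⟩ | ⟨s, k1, k2, k3, k4⟩
  · obtain ⟨b, a1, a2⟩ := hI _ h1 q hq
    exact absurd a2 (k b a1)
  · obtain ⟨b, a1, a2⟩ := hI _ (h2 (resN g ⟨t, q, hq, k1⟩ α k3) ⟨t, q, hq, k1⟩ ⟨k3, rfl⟩
      (hE _ q hq k2)) q hq
    exact absurd a2 (k4 b a1)
  · obtain ⟨t', a1, a2, a3⟩ := h3 ⟨t, q, hq, k1⟩ ⟨θ, lev_mem g hq k2⟩ (hE _ q hq k3) k4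
    obtain ⟨b, a4, a5⟩ := hI _ a3 q hq
    exact absurd a5 (k5 b a4 t'.1 (congrArg Subtype.val a2) a1.2)
  · refine ⟨⟨s, q, hq, k1⟩, hE _ q hq k2, ⟨⟨⊥, lev_mem g hq bot_le⟩, k3⟩, fun γ hγ k α hα => ?_⟩
    obtain ⟨r, -, hr, _, _, a⟩ := g.meet (.clu k) [x.1, oN s, oN γ.1, oN α.1] [] []
      (mem_listc x.2 (mem_listc (node_mem g hq k1) (mem_list₂ γ.2 α.2))) mem_list₀ mem_list₀ q hq
      fun r hr => by
        obtain ⟨b, a1, a2⟩ := clu_dense it k4 hγ k hα r hr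
        refine ⟨b, a1, PUnit.unit, ?_⟩
        show Clu it x.1 (ix (Node W) (oN s : Name it.C)) (ix W (oN γ.1 : Name it.C)) k
          (ix W (oN α.1 : Name it.C)) b
        rwa [ix_oN p₀, ix_oN p₀, ix_oN p₀]
    have a' : Clu it x.1 (ix (Node W) (oN s : Name it.C)) (ix W (oN γ.1 : Name it.C)) k
      (ix W (oN α.1 : Name it.C)) r := a
    rw [ix_oN p₀, ix_oN p₀, ix_oN p₀] at a'
    obtain ⟨δ, a1, t, a2, a3⟩ := a'
    exact ⟨⟨δ, lev_mem g hq (a1.le.trans (q.1.ht_le _ k1))⟩, a1, fun j => ⟨t j, r, hr, (a2 j).1⟩,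
      fun j => ⟨hE _ r hr (a2 j).2.1, Subtype.ext (a2 j).2.2.1, fun i hi => (a2 j).2.2.2 i.1 hi⟩,
      fun j j' hj i b1 b2 => a3 j j' hj i.1 b1 b2⟩

/-- The data carried by the generic extension. -/
noncomputable def td : TD g.toGen.E (JJ g) (NN g) where
  toND := ndM g.toGenW
  o := oM g
  mem_o := mem_oM g
  θ := g.toGen.cl ⟨_, th_mem g⟩
  mem_θ := mem_th g
  nd := nM g
  nd_lt := nM_lt g
  T := g.toGen.cl ⟨_, tr_mem g⟩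
  mem_T := mem_tr g
  ht := htJ g
  a t := {i | i.1 ∈ t.1.a}
  le := leT g
  st := sM g
  mem_st := mem_sM g
  Ev := g.toGen.cl ⟨_, ev_mem g⟩
  app_Ev := app_ev g
  Ht := g.toGen.cl ⟨_, ht_mem g⟩
  app_Ht := app_ht g
  Le := g.toGen.cl ⟨_, le_mem g⟩
  app_Le := app_le g
  a_lt t i hi := (NN.wf g t).a_lt i.1 hi
  le_refl t := ⟨le_rfl, (NN.wf g t).res_self⟩
  le_trans s t u h h' := ⟨h.1.trans h'.1, by rw [← Node.res_res _ h.1, h'.2, h.2]⟩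
  le_agree s t h i hi := Node.mem_of_res h.2 hi
  interp s u α h h1 h2 := ⟨resN g u α.1 h2,
    ⟨h1, (Node.res_res u.1 (show s.1.ht ≤ α.1 from h1)).trans h.2⟩, ⟨h2, rfl⟩, rfl⟩
  root := rootN g
  root_le t := ⟨bot_le, Node.res_bot _⟩
  cover := ext_cover g
  nomax j :=
    let ⟨_, _, h1, h2⟩ := high g j
    ⟨⟨_, lev_mem g h1 le_rfl⟩, h2⟩
  cnt := ext_cnt g
  bnd := ext_bnd g
  nu := ext_nu g

end Ex

theorem exists_td {W : Type 1} [LinearOrder W] [WellFoundedLT W] [OrderBot W] [Om1 W]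
    (it : It (psC W)) : ∃ (M : Type 1) (E : M → M → Prop), IsZFC E ∧ MA' E ∧
      ∃ (J N : Type 1) (_ : LinearOrder J) (_ : LinearOrder N) (_ : WellFoundedLT J)
        (_ : WellFoundedLT N) (td : TD E J N), NotCH' E td.θ := by
  obtain ⟨_, _⟩ := exists_wellFoundedLT (α := Node W)
  obtain ⟨r⟩ := it.ne
  let p₀ : it.C := (Cond.triv W, r)
  obtain ⟨g⟩ := exists_genF p₀ PUnit.unit (Ex.RN it) (Ex.WW it)
  exact ⟨_, g.toGen.E, g.zfc, g.ma (forces_ma it.enum it.ma p₀), Ex.JJ g, Ex.NN g, inferInstance,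
    inferInstance, inferInstance, inferInstance, Ex.td g,
    g.notCH ⟨_, Ex.th_mem g⟩ (forces_notCH it.ma W p₀)⟩

end Pool.Agent.Work.MP_ee7661_gt.MA
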