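import Pool.Agent.Work.MP_ee7661_gt.MIter1

/-! Capturing of names, and Martin's axiom for the iteration. -/

namespace Pool.Agent.Work.MP_ee7661_gt.MA
open Set

variable {P : Type 1} [Preorder P] (ps : PS P)

/-- The conditions with supports below `ξ`. -/
def Low (ξ : Ordinal.{0}) : Set (P × FS) :=
  {p | ps.supp p ⊆ Iio ξ} ×ˢ {r : FS | {η | r.1 η ≠ 0} ⊆ Iio ξ}

theorem Low.small (ξ : Ordinal.{0}) : Small.{0} (Low ps ξ) :=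
  have := ps.small ξ
  have := FS.small ξ
  small_setProd _ _

variable {ps}

theorem rb_low (ξ) (b : P × FS) : rb ps ξ b ∈ Low ps ξ :=
  ⟨ps.supp_res _ _, fun _ h => by_contra fun e => h (FS.rs_ge _ e)⟩

theorem rb_self {ξ} {b : P × FS} (h : b ∈ Low ps ξ) : rb ps ξ b = b :=
  Prod.ext (ps.res_self _ _ h.1) (FS.rs_self h.2)

theorem Low.mono {ξ ζ} {b : P × FS} (h : b ∈ Low ps ξ) (e : ξ ≤ ζ) : b ∈ Low ps ζ :=
  ⟨h.1.trans (Iio_subset_Iio e), h.2.trans (Iio_subset_Iio e)⟩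

theorem low_iff {ξ} {b : P × FS} : b ∈ Low ps ξ ↔ ps.supp b.1 ∪ {η | b.2.1 η ≠ 0} ⊆ Iio ξ :=
  union_subset_iff.symm

theorem supp_cnt (b : P × FS) : (ps.supp b.1 ∪ {η | b.2.1 η ≠ 0}).Countable :=
  (ps.supp_cnt _).union b.2.2.1.countable

variable {cd : Ordinal.{0} → Set ((P × FS) × Ordinal.{0} × Ordinal.{0})}

theorem cap {ι : Type*} [Small.{0} ι] (φ : ι → (np ps cd).C → Prop) (hm : ∀ i, Mono (φ i))
    (hr : ∀ i, Reg (φ i)) (η₀ : Ordinal.{0}) :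
    ∃ ξ, η₀ ≤ ξ ∧ ∀ i b, φ i b → φ i (rb ps ξ b) := by
  have key : ∀ (c : (np ps cd).C) i, ∃ μ, (∃ c' ≤ c, φ i c') →
      ∃ c' ≤ c, φ i c' ∧ c' ∈ Low ps μ := fun c i => by
    by_cases h : ∃ c' ≤ c, φ i c'
    · obtain ⟨c', h1, h2⟩ := h
      obtain ⟨μ, h3⟩ := bdd_cnt (supp_cnt (ps := ps) c')
      exact ⟨μ, fun _ => ⟨c', h1, h2, low_iff.2 h3⟩⟩
    · exact ⟨0, fun k => absurd k h⟩
  choose μ hμ using key
  choose F hF using fun η => have := Low.small ps η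
    bdd_small fun x : Low ps η × ι => μ x.1.1 x.2
  obtain ⟨ξ, h1, h2⟩ := closure_pt F η₀
  refine ⟨ξ, h1, fun i b h => hr i _ fun b' hb => ?_⟩
  obtain ⟨b'', k1, k2⟩ := rb_amalg ξ b b' hb
  obtain ⟨η, k3, k4⟩ := h2 _ (low_iff.1 (rb_low (ps := ps) ξ b')) (supp_cnt _)
  obtain ⟨c, k5, k6, k7⟩ := hμ (rb ps ξ b') i ⟨b'', k1, hm i h k2⟩
  obtain ⟨b₃, k8, k9⟩ := rb_amalg ξ b' c k5
  rw [rb_self (Low.mono k7 ((hF η (⟨_, low_iff.2 k3⟩, i)).le.trans k4))] at k8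
  exact ⟨b₃, k9, hm i k6 k8⟩

variable (hcd : ∀ ξ, ∀ S ⊆ Low ps ξ ×ˢ Iio ξ ×ˢ Iio ξ, ∀ η, ∃ ζ, η ≤ ζ ∧ cd ζ = S)
include hcd

theorem enum_np : EnumReals (np ps cd).C := by
  refine ⟨fun i n b => ∃ b₁, b ≤ b₁ ∧ (b₁, (n : Ordinal), (n : Ordinal)) ∈ cd i,
    fun i n b b' ⟨b₁, h1, h2⟩ h => ⟨b₁, h.trans h1, h2⟩, fun φ hm hr => ?_⟩
  obtain ⟨ξ, h1, h2⟩ := cap φ hm hr Ordinal.omega0
  obtain ⟨ζ, -, h3⟩ := hcd ξ {x | x.1 ∈ Low ps ξ ∧ ∃ n : ℕ, x.2 = ((n : Ordinal), (n : Ordinal)) ∧ φ n x.1} (by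
    rintro ⟨b, _⟩ ⟨k, n, rfl, -⟩
    have := (Ordinal.natCast_lt_omega0 n).trans_le h1
    exact ⟨k, this, this⟩) 0
  refine ⟨ζ, fun n b => ⟨fun h => ⟨rb ps ξ b, le_rb ξ b, h3 ▸ ⟨rb_low _ _, n, rfl, h2 n b h⟩⟩, ?_⟩⟩
  rintro ⟨b₁, k1, k2⟩
  rw [h3] at k2
  obtain ⟨-, m, k3, k4⟩ := k2
  obtain rfl : n = m := Nat.cast_injective (congrArg Prod.fst k3)
  exact hm n k4 k1

omit hcd in
theorem good_of {I : Type} [Nonempty I] {L : I → I → (np ps cd).C → Prop} {e : I → Ordinal.{0}}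
    {ζ : Ordinal.{0}} (he : Function.Injective e) (hζ : ∀ x, e x ≤ ζ)
    (hm : ∀ x y, Mono (L x y)) (ht : ∀ b x y z, L x y b → L y z b → L x z b)
    (hc : ∀ x y b, L x y b → L x y (rb ps ζ b))
    (hd : ∀ b x, (b, x, 0) ∉ cd ζ)
    (hrel : ∀ b u v, rel ps cd ζ b u v ↔
      v ∉ range e ∨ u = v ∨ ∃ x y, u = e x ∧ v = e y ∧ L x y b)
    (hcc : ∀ B : I → (np ps cd).C → Prop, (∀ x, Mono (B x)) →
      (∀ b x y z, B x b → B y b → L z x b → L z y b → x = y) →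
      ∀ b, ∃ b' ≤ b, ∃ f : I → ℕ → (np ps cd).C → Prop, (∀ x n, Mono (f x n)) ∧
      (∀ b'' ≤ b', ∀ x, B x b'' → ∃ b₃ ≤ b'', ∃ n, f x n b₃) ∧
      ∀ b'' ≤ b', ∀ x y n, B x b'' → B y b'' → f x n b'' → f y n b'' → x = y) : gd ps cd ζ := by
  refine (gd_iff ps cd ζ).2 ⟨hd, fun b b' u v h1 h2 h3 => ?_, fun b u v w h1 h2 => ?_,
    fun D hD _ p => ?_⟩
  · rw [hrel] at h3 ⊢
    exact h3.imp_right (Or.imp_right fun ⟨x, y, a1, a2, a3⟩ => ⟨x, y, a1, a2,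
      hm x y (hc x y b a3) ((le_rb ζ (show (np ps cd).C from b')).trans (rb_mono' ζ b b' h1 h2))⟩)
  · rw [hrel] at h1 h2 ⊢
    rcases h2 with h2 | rfl | ⟨x, y, rfl, rfl, h2⟩
    · exact Or.inl h2
    · exact h1
    · rcases h1 with h1 | rfl | ⟨x', y', rfl, a, h1⟩
      · exact absurd ⟨x, rfl⟩ h1
      · exact Or.inr (Or.inr ⟨x, y, rfl, rfl, h2⟩)
      · exact Or.inr (Or.inr ⟨x', y, rfl, rfl, ht b _ _ _ (he a ▸ h1) h2⟩)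
  obtain ⟨A, a1, a2, a3⟩ := exists_max_anti {c : P × FS | D c.1 c.2}
    (fun c c' => ∃ p r, p ≤ c.1 ∧ p ≤ c'.1 ∧
      le ps cd (fun η => (η < ζ ∧ gd ps cd η) ∨ η = ζ) p r c.2 ∧
      le ps cd (fun η => (η < ζ ∧ gd ps cd η) ∨ η = ζ) p r c'.2)
    (fun c => ⟨c.1, c.2, le_rfl, le_rfl, fun _ _ => rel_eq rfl, fun _ _ => rel_eq rfl⟩)
    fun c c' ⟨p, r, h1, h2, h3, h4⟩ => ⟨p, r, h2, h1, h4, h3⟩
  let B : P × FS → (np ps cd).C → Prop := fun c b => c ∈ A ∧ b ≤ (c.1, c.2.rs ζ)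
  have hB : ∀ c, Mono (B c) := fun c b b' h k => ⟨h.1, k.trans h.2⟩
  have key : ∀ c c' b w, B c b → B c' b → w ≤ ζ → rel ps cd ζ b w (c.2.1 ζ) →
      rel ps cd ζ b w (c'.2.1 ζ) → c = c' := by
    have : ∀ c b w (h : w ≤ ζ), B c b → rel ps cd ζ b w (c.2.1 ζ) →
        le ps cd (fun η => (η < ζ ∧ gd ps cd η) ∨ η = ζ) b.1 (FS.upd b.2 ζ w h) c.2 := by
      rintro c b w h h1 h2 η (k | rfl)
      · have := h1.2.2 η k.2
        rw [show (c.1, c.2.rs ζ).2.1 η = _ from FS.rs_lt _ k.1] at this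
        rw [FS.upd_ne _ k.1.ne]
        exact this.congr' fun a x => FS.upd_ne _ (x.trans k.1).ne
      · rw [FS.upd_self]
        exact rel.congr' (r := b.2) h2 fun a x => FS.upd_ne _ x.ne
    exact fun c c' b w h1 h2 h k1 k2 => a2 c h1.1 c' h2.1
      ⟨b.1, _, h1.2.1, h2.2.1, this c b w h h1 k1, this c' b w h h2 k2⟩
  obtain ⟨p', h1, A', h2, h3, h4⟩ := cover_cnt ps (np ps cd) (pccc_np ps cd) B hB (fun b => by
    obtain ⟨b', k1, f, k2, k3, k4⟩ := hcc (fun y b => ∃ c, B c b ∧ c.2.1 ζ = e y)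
      (fun y b b' ⟨c, x1, x2⟩ h => ⟨c, hB c x1 h, x2⟩)
      (fun b x y z ⟨c, x1, x2⟩ ⟨c', y1, y2⟩ l1 l2 => he (x2.symm.trans ((key c c' b (e z) x1 y1
        (hζ z) ((hrel _ _ _).2 (Or.inr (Or.inr ⟨z, x, rfl, x2, l1⟩)))
        ((hrel _ _ _).2 (Or.inr (Or.inr ⟨z, y, rfl, y2, l2⟩)))) ▸ y2))) b
    refine ⟨b', k1, fun c n b => c.2.1 ζ ∉ range e ∨ ∃ y, c.2.1 ζ = e y ∧ f y n b,
      fun c n b b' h k => h.imp_right fun ⟨y, x1, x2⟩ => ⟨y, x1, k2 y n x2 k⟩,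
      fun b'' hb c h => ?_, fun b'' hb c c' n x1 x2 x3 x4 => ?_⟩
    · by_cases k : c.2.1 ζ ∈ range e
      · obtain ⟨y, k⟩ := k
        obtain ⟨b₃, x1, n, x2⟩ := k3 b'' hb y ⟨c, h, k.symm⟩
        exact ⟨b₃, x1, n, Or.inr ⟨y, k.symm, x2⟩⟩
      · exact ⟨b'', le_rfl, 0, Or.inl k⟩
    · rcases x3 with x3 | ⟨y, y1, y2⟩
      · exact key c c' b'' _ x1 x2 (c'.2.2.2 ζ) ((hrel _ _ _).2 (Or.inl x3)) (rel_eq rfl)
      rcases x4 with x4 | ⟨y', y3, y4⟩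
      · exact key c c' b'' _ x1 x2 (c.2.2.2 ζ) (rel_eq rfl) ((hrel _ _ _).2 (Or.inl x4))
      · obtain rfl := k4 b'' hb y y' n ⟨c, x1, y1⟩ ⟨c', x2, y3⟩ y2 y4
        exact key c c' b'' _ x1 x2 (hζ y) (rel_eq y1.symm) (rel_eq y3.symm)) p
  refine ⟨p', h1, Prod.snd '' A', h2.image _, ?_, fun p'' hp r hr => ?_⟩
  · rintro _ ⟨c, hc, rfl⟩
    obtain ⟨r, k1, k2⟩ := h3 c hc
    exact hD _ _ _ (a1 k1) k2.1
  · obtain ⟨c, k1, p₃, r₃, k2, k3, k4, k5⟩ := a3 (p'', r) hr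
    refine ⟨c.2, ⟨c, h4 (p₃, r₃.rs ζ) (k2.trans hp) c ⟨k1, k3, fun η k => ?_⟩, rfl⟩, p₃, k2, r₃,
      trivial, k4, k5⟩
    by_cases x : η < ζ
    · show rel ps cd η (p₃, r₃.rs ζ) ((r₃.rs ζ).1 η) ((c.2.rs ζ).1 η)
      rw [FS.rs_lt _ x, FS.rs_lt _ x]
      exact (k5 η (Or.inl ⟨x, k⟩)).congr' fun a y => FS.rs_lt _ (y.trans x)
    · exact k.top (FS.rs_ge _ x)

theorem ma_np : ExtMA (np ps cd).C := by
  intro I ι _ L D b₀ l1 l2 l3 l4 l5 d1 d2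
  let L' : I → I → (np ps cd).C → Prop := fun x y b => ∀ b' ≤ b, b' ≤ b₀ → L x y b'
  let D' : ι → I → (np ps cd).C → Prop := fun i x b => ∀ b' ≤ b, ∃ b'' ≤ b', D i x b''
  have m1 : ∀ x y, Mono (L' x y) := fun x y b b' h k b'' a => h b'' (a.trans k)
  have m2 : ∀ x b, L' x x b := fun x b b' _ h => l1 x x (l3 x) h
  have m3 : ∀ b x y z, L' x y b → L' y z b → L' x z b := fun b x y z h k b' a a' =>
    l4 b' a' x y z (h b' a a') (k b' a a')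
  have m4 : ∀ x y b, L x y b → L' x y b := fun x y b h b' a _ => l1 x y h a
  have m5 : ∀ i x, Mono (D' i x) := fun i x b b' h k b'' a => h b'' (a.trans k)
  obtain ⟨e, he, h0⟩ : ∃ e : I → Ordinal.{0}, Function.Injective e ∧ ∀ x, e x ≠ 0 :=
    ⟨fun x => Order.succ (Ordinal.typein (WellOrderingRel (α := I)) x), fun x y h =>
      Ordinal.typein_injective _ (Order.succ_injective h), fun x => Order.succ_ne_bot _⟩
  obtain ⟨μ, hμ⟩ := bdd_small e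
  obtain ⟨ξ, x1, x2⟩ := cap (ι := I × I ⊕ ι × I) (Sum.elim (fun z => L' z.1 z.2) fun z => D' z.1 z.2)
    (by rintro (z | z); exacts [m1 _ _, m5 _ _]) (by
      rintro (z | z) b h b' k
      · exact fun a => l2 _ _ _ fun b₂ k' =>
          let ⟨b₃, y1, y2⟩ := h b₂ (k'.trans k)
          ⟨b₃, y1, y2 b₃ le_rfl (y1.trans (k'.trans a))⟩
      · obtain ⟨b₂, y1, y2⟩ := h b' k
        obtain ⟨b₃, y3, y4⟩ := y2 b₂ le_rfl
        exact ⟨b₃, y3.trans y1, y4⟩) μ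
  obtain ⟨ζ, z1, z2⟩ := hcd ξ {z | z.1 ∈ Low ps ξ ∧ ∃ x y, z.2 = (e x, e y) ∧ L' x y z.1} (by
    rintro ⟨b, _⟩ ⟨k, x, y, rfl, -⟩
    exact ⟨k, (hμ x).trans_le x1, (hμ y).trans_le x1⟩) ξ
  have hζ : ∀ x, e x ≤ ζ := fun x => (hμ x).le.trans (x1.trans z1)
  have up : ∀ b : (np ps cd).C, (show (np ps cd).C from rb ps ζ b) ≤ rb ps ξ b := fun b =>
    rb_rb ps z1 b ▸ le_rb ξ (show (np ps cd).C from rb ps ζ b)
  have c1 : ∀ x y b, L' x y b → L' x y (rb ps ζ b) := fun x y b h =>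
    m1 x y (x2 (.inl (x, y)) b h) (up b)
  have c2 : ∀ i x b, D' i x b → D' i x (rb ps ζ b) := fun i x b h =>
    m5 i x (x2 (.inr (i, x)) b h) (up b)
  have hrel : ∀ b u v, rel ps cd ζ b u v ↔
      v ∉ range e ∨ u = v ∨ ∃ x y, u = e x ∧ v = e y ∧ L' x y b := fun b u v => by
    unfold rel
    rw [z2]
    refine or_congr ⟨?_, ?_⟩ (or_congr_right ⟨?_, ?_⟩)
    · rintro h ⟨y, rfl⟩
      exact h _ _ ⟨rb_low ξ b, y, y, rfl, m2 _ _⟩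
    · rintro h b' x' ⟨-, x, y, k, -⟩
      exact h ⟨y, (congrArg Prod.snd k).symm⟩
    · rintro ⟨ξ', -, -, x, y, k, k'⟩
      exact ⟨x, y, congrArg Prod.fst k, congrArg Prod.snd k,
        m1 x y k' (le_rb ξ' (show (np ps cd).C from b))⟩
    · rintro ⟨x, y, rfl, rfl, k⟩
      exact ⟨ξ, z1, rb_low ξ b, x, y, rfl, x2 (.inl (x, y)) b k⟩
  have hg : gd ps cd ζ := good_of he hζ m1 m3 c1
    (fun b x k => by
      rw [z2] at k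
      obtain ⟨-, x, y, k, -⟩ := k
      exact h0 y (congrArg Prod.snd k).symm) hrel fun B b1 b2 b => by
      by_cases h : ∃ b' ≤ b, b' ≤ b₀
      · obtain ⟨b', h1, h2⟩ := h
        obtain ⟨b'', h3, h4⟩ := l5 B b1 (fun b _ x y z a1 a2 a3 a4 =>
          b2 b x y z a1 a2 (m4 _ _ _ a3) (m4 _ _ _ a4)) b' h2
        exact ⟨b'', h3.trans h1, h4⟩
      · exact ⟨b, le_rfl, fun _ _ _ => True, fun _ _ _ _ _ _ => trivial,
          fun b'' _ _ _ => ⟨b'', le_rfl, 0, trivial⟩, fun b'' k x y _ a1 a2 _ _ =>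
            b2 b'' x y x a1 a2 (m2 _ _) fun b₃ k' k'' => absurd ⟨b₃, k'.trans k, k''⟩ h⟩
  have ext : ∀ b : (np ps cd).C, ∃ x, ∀ b' ≤ b, ∀ y, L' y x b' →
      ∃ c ≤ b, c.2.1 ζ = e y ∧ rb ps ζ c = rb ps ζ b' := by
    intro b
    obtain ⟨x, hx⟩ : ∃ x, b.2.1 ζ ∉ range e ∨ b.2.1 ζ = e x := by
      by_cases h : b.2.1 ζ ∈ range e
      · exact h.imp fun x k => Or.inr k.symm
      · exact ⟨Classical.arbitrary I, Or.inl h⟩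
    refine ⟨x, fun b' h y k => ?_⟩
    let r := (FS.glue (Iio ζ) b'.2 b.2).upd ζ (e y) (hζ y)
    have r1 : ∀ η < ζ, r.1 η = b'.2.1 η := fun η a => (FS.upd_ne _ a.ne).trans (FS.glue_pos _ _ a)
    have r2 : rb ps ζ (b'.1, r) = rb ps ζ b' := Prod.ext rfl (FS.rs_congr r1)
    refine ⟨(b'.1, r), ⟨h.1, fun η a => ?_⟩, FS.upd_self _ _ _ (hζ y), r2⟩
    rcases lt_trichotomy η ζ with z | rfl | z
    · show rel ps cd η (b'.1, r) (r.1 η) _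
      rw [r1 η z]
      exact (h.2 η a).congr' fun a w => r1 a (w.trans z)
    · refine rel.congr ((hrel b' _ _).2 (hx.imp_right fun w => Or.inr ⟨y, x, ?_, w, k⟩)) r2
      exact FS.upd_self _ _ _ (hζ y)
    · exact rel_eq ((FS.upd_ne _ (h := hζ y) z.ne').trans (FS.glue_neg _ _ z.le.not_gt))
  have hH : ∀ x, Mono fun b : (np ps cd).C => ∃ y, b.2.1 ζ = e y ∧ L' y x b := by
    rintro x b b' ⟨y, h1, h2⟩ h
    rcases (hrel _ _ _).1 (h.2 ζ hg) with k | k | ⟨x', y', k1, k2, k3⟩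
    · exact absurd ⟨y, h1.symm⟩ k
    · exact ⟨y, k.trans h1, m1 _ _ h2 h⟩
    · exact ⟨x', k1, m3 _ _ _ _ k3 (he (h1.symm.trans k2) ▸ m1 _ _ h2 h)⟩
  refine ⟨fun x b => ∃ y, b.2.1 ζ = e y ∧ L' y x b, hH, ?_, fun b _ => ?_, fun i b hb => ?_⟩
  · rintro b hb x y ⟨z, h1, h2⟩ ⟨z', h3, h4⟩
    obtain rfl := he (h1.symm.trans h3)
    exact ⟨z, ⟨z, h1, m2 _ _⟩, h2 b le_rfl hb, h4 b le_rfl hb⟩
  · obtain ⟨x, hx⟩ := ext b
    obtain ⟨c, h1, h2, -⟩ := hx b le_rfl x (m2 _ _)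
    exact ⟨c, h1, x, x, h2, m2 _ _⟩
  · obtain ⟨x, hx⟩ := ext b
    obtain ⟨b', h1, y, h2, h3⟩ := d2 i x b hb
    obtain ⟨c, h4, h5, h6⟩ := hx b' h1 y (m4 _ _ _ h2)
    obtain ⟨c', h7, h8⟩ := c2 i y b' (fun b'' k => ⟨b'', le_rfl, d1 i y h3 k⟩) c (h6 ▸ le_rb ζ c)
    exact ⟨c', h7.trans h4, y, hH y ⟨y, h5, m2 _ _⟩ h7, h8⟩

omit hcd in
theorem exists_it {P : Type 1} [Preorder P] (ps : PS P) : Nonempty (It ps) := by
  obtain ⟨cd, hcd⟩ := listing (fun ξ => Low ps ξ ×ˢ Iio ξ ×ˢ Iio ξ) fun ξ =>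
    have := Low.small ps ξ
    inferInstance
  exact ⟨{
    toNP := np ps cd
    ne := ⟨FS.zero⟩
    pccc := pccc_np ps cd
    rs := FS.rs
    res_mono := fun ξ _ _ h => rb_mono ξ h
    amalg := rb_amalg
    cap := fun ι _ φ hm hr b₀ => by
      obtain ⟨η, h⟩ := bdd_cnt (supp_cnt (ps := ps) b₀)
      obtain ⟨ξ, h1, h2⟩ := cap φ hm hr η
      have := Low.mono (low_iff.2 h) h1
      exact ⟨ξ, this.1, FS.rs_self this.2, h2⟩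
    enum := enum_np hcd
    ma := ma_np hcd }⟩

end Pool.Agent.Work.MP_ee7661_gt.MA
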