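import Pool.Agent.Work.MP_ee7661_gt.MSpace1
import Mathlib.SetTheory.Cardinal.Finite

/-! The space inside the model: tightness and the Lindelöf property.

`tight`: `p` is the zero function, `A = K \ {p}`.  `p ∈ cl A`: for a finite set `F` of nodes take
`i` above their heights with `exists_pt i` (nonzero since `cover` gives a node containing `i`).
For countable `B ⊆ A` (injection `ι`): apply `bnd` to
`g = {(n, β) | ∃ f t, ι f = n, f (st t) = 1, ht t = β}`; with the bound `α` and two nodes `s, t`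
covering `Iio α`, the open set `{g | g (st s) = g (st t) = 0}` contains `p` and misses `B`.

`isLind`: let `U` be a choice function (`choice_rel`) with `st t ∈ U t ∈ c`; let
`x = {t ∈ T | ¬ ∃ β ∈ θ, ∀ t' ≥ t, ∃ u ∈ T, ht u ∈ β ∧ st t' ∈ U u}`.  If `root ∉ x`, `cnt` and
`countable_select` give the countable subcover.  Otherwise `x` is closed downwards and pruned
(`cnt`, `bnd`, `interp`, `nomax`), `nu` gives `s`.  Let `F ⊆ K` be finite for the open set `U s`.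
Say `Cl f S` if for every finite set `A` of nodes some `i ∈ S` has `val f t ↔ i ∈ a t` on `A`;
`Cl f (S ∪ S') → Cl f S ∨ Cl f S'`; a nonzero `f ∈ K` has `Cl f (Iio (ht u))` if `val f u`.
Choose `α ≥ ht s` with `Cl f (Iio α)` for all nonzero `f ∈ F`, and `γ < ht s` with `Cl f (Iio γ)`
for those `f ∈ F` that have such a bound below `ht s`; take `k = |F| + 1`.  The other nonzero `f`
have `Cl f (Ico δ α)`, so disagree with `s` at `t j` for at most one `j`; some `t j` agrees with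
`s` on `F`, and so does every node above it; hence `t j ∉ x`. -/

namespace Pool.Agent.Work.MP_ee7661_gt.MA
open Pool.Agent.Lib.ZFModel Pool.Agent.Work.MP_63c7e0_lc Pool.Agent.Work.MP_3181e1_lc

variable {M : Type 1} {E : M → M → Prop} {J N : Type 1} [LinearOrder J] [LinearOrder N]

set_option synthInstance.maxSize 100000

variable {td : TD E J N} {Y K : M} (hY : IsY td Y) (hK : IsK td Y K)
include hY hK

omit hY hK in
theorem exists_bound {ι : Type*} {F : Set ι} (hF : F.Finite) {D : Set J} (hne : D.Nonempty)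
    (hD : ∀ a ∈ D, ∀ b ∈ D, max a b ∈ D) (Q : ι → J → Prop)
    (hQ : ∀ f a b, a ≤ b → Q f a → Q f b) :
    ∃ γ ∈ D, ∀ f ∈ F, (∃ β ∈ D, Q f β) → Q f γ := by
  induction F, hF using Set.Finite.induction_on with
  | empty =>
    obtain ⟨γ, h⟩ := hne
    exact ⟨γ, h, fun _ h => h.elim⟩
  | @insert f F _ _ ih =>
    obtain ⟨γ, h1, h2⟩ := ih
    by_cases h : ∃ β ∈ D, Q f β
    · obtain ⟨β, h3, h4⟩ := h
      refine ⟨max γ β, hD _ h1 _ h3, ?_⟩
      rintro g (rfl | hg) h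
      · exact hQ _ _ _ (le_max_right _ _) h4
      · exact hQ _ _ _ (le_max_left _ _) (h2 g hg h)
    · refine ⟨γ, h1, ?_⟩
      rintro g (rfl | hg) h'
      exacts [absurd h' h, h2 g hg h']

theorem tight (zf : IsZF E) {σ : M} (hσ : IsSig td K σ) : ∃ A p, (∀ f, E f A ↔ E f K ∧ ¬ f = p) ∧
    E p K ∧ InClosure E σ A p ∧ ∀ B, Sub E B A → IsCountable E B → ¬ InClosure E σ B p := by
  have := zf.nonempty
  obtain ⟨p, hp, p3⟩ := exists_zero zf hY hK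
  obtain ⟨A, hA⟩ := zf.sep K fun f => ¬ f = p
  refine ⟨A, p, hA, hp, fun U hU hpU => ?_, fun B hB hc hcl => ?_⟩
  · obtain ⟨F, h1, h2⟩ := ((hσ U).1 hU).2 p hpU
    obtain ⟨β, -, hβ⟩ := exists_bound h1 (D := Set.univ) ⟨td.ht td.root, trivial⟩
      (fun _ _ _ _ => trivial) (fun t β => td.ht t ≤ β) fun _ _ _ h h' => h'.trans h
    obtain ⟨f, a1, a2⟩ := exists_pt zf hY hK β
    refine ⟨f, h2 f a1 fun t ht => iff_of_false (p3 t) fun h => ?_, (hA f).2 ⟨a1, fun h => ?_⟩⟩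
    · exact (td.a_lt t β ((a2 t).1 h)).not_ge (hβ t ht ⟨_, trivial, le_rfl⟩)
    · obtain ⟨i, hi⟩ := td.nomax β
      obtain ⟨s, t, hst⟩ := td.cover i
      subst h
      exact (hst β hi).elim (fun h => p3 s ((a2 s).2 h)) fun h => p3 t ((a2 t).2 h)
  · obtain ⟨w, ι, hw, hι⟩ := hc
    rw [omega_eq zf td.toND hw] at hι
    obtain ⟨g, -, hg⟩ := exists_rel zf td.w td.θ fun n β => ∃ f, App E ι f n ∧
      ∃ x y, App E td.Ev x y ∧ App E f y (td.nat 1) ∧ App E td.Ht x β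
    obtain ⟨α, hα⟩ := td.bnd g
    obtain ⟨s, t, hst⟩ := td.cover α
    obtain ⟨U, hU⟩ := zf.sep K fun g =>
      ¬ App E g (td.st s) (td.nat 1) ∧ ¬ App E g (td.st t) (td.nat 1)
    obtain ⟨f, h1, h2⟩ := hcl U ((hσ U).2 ⟨fun g hg => ((hU g).1 hg).1, fun g hg =>
      ⟨{s, t}, Set.toFinite _, fun g' hg' h => (hU g').2 ⟨hg',
        fun h3 => ((hU g).1 hg).2.1 ((h s (by simp)).2 h3),
        fun h3 => ((hU g).1 hg).2.2 ((h t (by simp)).2 h3)⟩⟩⟩) ((hU p).2 ⟨hp, p3 s, p3 t⟩)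
    obtain ⟨h3, h4⟩ := (hA f).1 (hB f h2)
    obtain ⟨u, hu⟩ : ∃ u, val td f u := by
      by_contra h5
      exact h4 (K_ext zf hY hK h3 hp fun u => iff_of_false (fun h => h5 ⟨u, h⟩) (p3 u))
    obtain ⟨n, hn⟩ := hι.1.2.1 f h2
    have hnw := (hι.1.mem zf hn).2
    obtain ⟨k, rfl⟩ := (td.mem_w _).1 hnw
    obtain ⟨β, b1, b2⟩ := hα k (td.ht u) ((hg _ _).2 ⟨hnw, (td.mem_θ _).2 ⟨_, rfl⟩, f, hn,
      _, _, (td.app_Ev _ _).2 ⟨u, rfl, rfl⟩, hu, (td.app_Ht _ _).2 ⟨u, rfl, rfl⟩⟩)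
    obtain ⟨-, -, f', c1, x, y, c2, c3, c4⟩ := (hg _ _).1 b2
    obtain rfl := hι.2 _ _ _ c1 hn
    obtain ⟨v, rfl, rfl⟩ := (td.app_Ev _ _).1 c2
    obtain ⟨v', d1, d2⟩ := (td.app_Ht _ _).1 c4
    obtain rfl := nd_inj zf td d1
    obtain rfl := o_inj zf td d2
    rcases ((hK f').1 h3).2 {v, s, t} (Set.toFinite _) with h5 | ⟨i, hi⟩
    · exact h5 v (by simp) c3
    · have h6 : i < α := (td.a_lt v i ((hi v (by simp)).1 c3)).trans b1
      exact (hst i h6).elim (fun h => ((hU f').1 h1).2.1 ((hi s (by simp)).2 h))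
        fun h => ((hU f').1 h1).2.2 ((hi t (by simp)).2 h)

omit hY hK in
theorem not_seq (zfc : IsZFC E) (nd : ND E) {K σ A p : M} (hA : ∀ f, E f A ↔ E f K ∧ ¬ f = p)
    (hp : E p K) (h1 : InClosure E σ A p)
    (h2 : ∀ B, Sub E B A → IsCountable E B → ¬ InClosure E σ B p) : ¬ IsSequentialSp E K σ := by
  have zf := zfc.zf
  have := zf.nonempty
  intro hs
  obtain ⟨-, U, hU, h3⟩ := hs A (fun f hf => ((hA f).1 hf).1) (by
    intro w s x hw hf hx hc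
    by_contra hxA
    obtain rfl : x = p := by
      by_contra h
      exact hxA ((hA x).2 ⟨hx, h⟩)
    rw [omega_eq zf nd hw] at hf hc
    obtain ⟨ι, i1, i2⟩ := exists_rel zf nd.w nd.w fun a b => a = b
    have hι : IsInj E ι nd.w nd.w := ⟨⟨i1, fun a ha => ⟨a, (i2 _ _).2 ⟨ha, ha, rfl⟩⟩,
      fun a b b' h h' => ((i2 _ _).1 h).2.2.symm.trans ((i2 _ _).1 h').2.2⟩,
      fun a a' b h h' => ((i2 _ _).1 h).2.2.trans ((i2 _ _).1 h').2.2.symm⟩
    obtain ⟨C, c1, c2, c3⟩ := countable_select zfc nd hι A fun a y => App E s a y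
    refine h2 C c1 c2 fun U hU hxU => ?_
    obtain ⟨n, hn, h4⟩ := hc U hU hxU
    obtain ⟨k, rfl⟩ := (nd.mem_w _).1 hn
    have hm : E (nd.nat (k + 1)) nd.w := (nd.mem_w _).2 ⟨_, rfl⟩
    obtain ⟨y, hy⟩ := hf.2.1 _ hm
    obtain ⟨z, hz, h5⟩ := c3 _ hm ⟨y, (hf.mem zf hy).2, hy⟩
    exact ⟨z, h4 _ z ((nd.mem_nat _ _).2 ⟨k, by omega, rfl⟩) h5, hz⟩)
  obtain ⟨x, h4, h5⟩ := h1 U hU ((h3 p).2 ⟨hp, fun h => ((hA p).1 h).2 rfl⟩)
  exact ((h3 x).1 h4).2 h5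

omit hY hK in
/-- All points above the node `z` are covered by the sets chosen at nodes of height below `β`. -/
def Cov (E : M → M → Prop) (Le Ev Ht Uf z β : M) : Prop :=
  ∀ z' y, App E Le z z' → App E Ev z' y →
    ∃ u U b, App E Ht u b ∧ E b β ∧ App E Uf u U ∧ E y U

omit hY hK in
instance [Nonempty M] (a b c d e f : (ℕ → M) → M) [Trm a] [Trm b] [Trm c] [Trm d] [Trm e]
    [Trm f] : Dfn E (fun v => Cov E (a v) (b v) (c v) (d v) (e v) (f v)) := by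
  unfold Cov; infer_instance

omit hY hK in
theorem cov_iff (zf : IsZF E) {Uf : M} {Ut : N → M}
    (hU : ∀ t U, App E Uf (td.nd t) U ↔ U = Ut t) (t : N) (β : J) :
    Cov E td.Le td.Ev td.Ht Uf (td.nd t) (td.o β) ↔
      ∀ t', td.le t t' → ∃ u, td.ht u < β ∧ E (td.st t') (Ut u) := by
  constructor
  · intro h t' ht'
    obtain ⟨u, U, b, h1, h2, h3, h4⟩ := h _ _ ((td.app_Le _ _).2 ⟨t, t', ht', rfl, rfl⟩)
      ((td.app_Ev _ _).2 ⟨t', rfl, rfl⟩)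
    obtain ⟨v, rfl, rfl⟩ := (td.app_Ht _ _).1 h1
    exact ⟨v, (o_mem_o zf td).1 h2, (hU _ _).1 h3 ▸ h4⟩
  · intro h z' y h1 h2
    obtain ⟨s, t', h3, h4, rfl⟩ := (td.app_Le _ _).1 h1
    obtain rfl := nd_inj zf td h4
    obtain ⟨t'', h5, rfl⟩ := (td.app_Ev _ _).1 h2
    obtain rfl := nd_inj zf td h5
    obtain ⟨u, h6, h7⟩ := h t' h3
    exact ⟨_, _, _, (td.app_Ht _ _).2 ⟨u, rfl, rfl⟩, (o_mem_o zf td).2 h6, (hU _ _).2 rfl, h7⟩

omit hY hK in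
/-- The function `f` is in the closure of the points given by the levels in `S`. -/
def Cl (td : TD E J N) (f : M) (S : Set J) : Prop :=
  ∀ A : Set N, A.Finite → ∃ i ∈ S, ∀ t ∈ A, val td f t ↔ i ∈ td.a t

omit hY hK in
theorem Cl.mono {f : M} {S S' : Set J} (h : Cl td f S) (hS : S ⊆ S') : Cl td f S' :=
  fun A hA => by
    obtain ⟨i, h1, h2⟩ := h A hA
    exact ⟨i, hS h1, h2⟩

omit hY hK in
theorem Cl.union {f : M} {S S' : Set J} (h : Cl td f (S ∪ S')) : Cl td f S ∨ Cl td f S' := by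
  by_contra hc
  obtain ⟨h1, h2⟩ := not_or.1 hc
  obtain ⟨A, h1⟩ := not_forall.1 h1
  obtain ⟨a1, a2⟩ := Classical.not_imp.1 h1
  obtain ⟨B, h2⟩ := not_forall.1 h2
  obtain ⟨b1, b2⟩ := Classical.not_imp.1 h2
  obtain ⟨i, hi | hi, h3⟩ := h (A ∪ B) (a1.union b1)
  · exact a2 ⟨i, hi, fun t ht => h3 t (Or.inl ht)⟩
  · exact b2 ⟨i, hi, fun t ht => h3 t (Or.inr ht)⟩

omit hY in
theorem cl_of_val {f : M} (hf : E f K) {u : N} (hu : val td f u) :
    Cl td f (Set.Iio (td.ht u)) := by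
  intro A hA
  rcases ((hK f).1 hf).2 (insert u A) (hA.insert u) with h | ⟨i, hi⟩
  · exact absurd hu (h u (Set.mem_insert _ _))
  · exact ⟨i, td.a_lt u i ((hi u (Set.mem_insert _ _)).1 hu),
      fun t ht => hi t (Set.mem_insert_of_mem _ ht)⟩

omit hY in
theorem exists_agree {s : N} {X : N → Prop} (hγ : ∃ γ, γ < td.ht s)
    (hs : ∀ γ < td.ht s, ∀ (k : ℕ) (α : J), td.ht s ≤ α →
      ∃ δ < td.ht s, ∃ t : Fin k → N,
        (∀ j, X (t j) ∧ td.ht (t j) = α ∧ ∀ i < γ, i ∈ td.a (t j) ↔ i ∈ td.a s) ∧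
        ∀ j j', j ≠ j' → ∀ i, δ ≤ i → i < α →
          (i ∈ td.a (t j) ↔ i ∈ td.a s) ∨ (i ∈ td.a (t j') ↔ i ∈ td.a s))
    {F : Set M} (hF : F.Finite) (hFK : ∀ f ∈ F, E f K) :
    ∃ t, X t ∧ ∀ t', td.le t t' → ∀ f ∈ F, val td f s ↔ val td f t' := by
  have hm : ∀ (f : M) (a b : J), a ≤ b → Cl td f (Set.Iio a) → Cl td f (Set.Iio b) :=
    fun f a b h h' => h'.mono (Set.Iio_subset_Iio h)
  obtain ⟨α, a1, a2⟩ := exists_bound hF (D := Set.Ici (td.ht s)) ⟨_, le_rfl⟩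
    (fun a ha b _ => le_trans ha (le_max_left _ _)) (fun f β => Cl td f (Set.Iio β)) hm
  obtain ⟨γ, g1, g2⟩ := exists_bound hF (D := Set.Iio (td.ht s)) hγ
    (fun a ha b hb => max_lt ha hb) (fun f β => Cl td f (Set.Iio β)) hm
  have := hF.to_subtype
  obtain ⟨δ, d1, t, t1, t2⟩ := hs γ g1 (Nat.card F + 1) α a1
  by_contra hc
  have hbad : ∀ j, ∃ f ∈ F, ∃ t', td.le (t j) t' ∧ ¬ (val td f s ↔ val td f t') := by
    intro j
    by_contra h
    exact hc ⟨t j, (t1 j).1, fun t' ht' f hf => by_contra fun h' => h ⟨f, hf, t', ht', h'⟩⟩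
  choose g e1 t' e2 e3 using hbad
  have agree : ∀ j i, i < α → (i ∈ td.a (t j) ↔ i ∈ td.a (t' j)) :=
    fun j i hi => td.le_agree _ _ (e2 j) i ((t1 j).2.1 ▸ hi)
  have hcl : ∀ j, Cl td (g j) (Set.Ico δ α) := by
    intro j
    have n1 : ¬ Cl td (g j) (Set.Iio γ) := by
      intro h
      obtain ⟨i, hi, h1⟩ := h {s, t' j} (Set.toFinite _)
      refine e3 j ?_
      rw [h1 s (by simp), h1 (t' j) (by simp), ← (t1 j).2.2 i hi]
      exact agree j i ((lt_trans hi g1).trans_le a1)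
    obtain ⟨u, hu⟩ : ∃ u, val td (g j) u := by
      by_contra h
      exact e3 j (iff_of_false (fun h' => h ⟨_, h'⟩) fun h' => h ⟨_, h'⟩)
    have n2 : Cl td (g j) (Set.Iio α) := a2 _ (e1 j) ⟨max (td.ht s) (td.ht u), le_max_left _ _,
      hm _ _ _ (le_max_right _ _) (cl_of_val hK (hFK _ (e1 j)) hu)⟩
    have n3 : Cl td (g j) (Set.Iio δ ∪ Set.Ico δ α) := n2.mono fun i hi =>
      (lt_or_ge i δ).elim Or.inl fun h => Or.inr ⟨h, hi⟩
    exact n3.union.resolve_left fun h => n1 (g2 _ (e1 j) ⟨δ, d1, h⟩)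
  have := Nat.card_le_card_of_injective (fun j => (⟨g j, e1 j⟩ : F)) fun a b hab => by
    by_contra h
    have e : g a = g b := congrArg Subtype.val hab
    obtain ⟨i, hi, h1⟩ := hcl a {s, t' a, t' b} (Set.toFinite _)
    rcases t2 a b h i hi.1 hi.2 with h2 | h2
    · refine e3 a ?_
      rw [h1 s (by simp), h1 (t' a) (by simp), ← h2]
      exact agree a i hi.2
    · refine e3 b ?_
      rw [← e, h1 s (by simp), h1 (t' b) (by simp), ← h2]
      exact agree b i hi.2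
  simp at this

theorem isLind (zfc : IsZFC E) {τ : M} (hτ : IsTau td Y K τ) : IsLindelofSp E Y τ := by
  have zf := zfc.zf
  have := zf.nonempty
  intro c hc hcov
  have ndT : ∀ t, E (td.nd t) td.T := fun t => (td.mem_T _).2 ⟨t, rfl⟩
  have oθ : ∀ j, E (td.o j) td.θ := fun j => (td.mem_θ _).2 ⟨j, rfl⟩
  obtain ⟨g0, -, hg0⟩ := exists_rel zf td.T c fun x U => ∃ y, App E td.Ev x y ∧ E y U
  obtain ⟨Uf, u1, u2, u3⟩ := choice_rel zfc td.T c g0
  have hex : ∀ t, ∃ U, App E Uf (td.nd t) U := by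
    intro t
    obtain ⟨U, h1, h2⟩ := hcov (td.st t) ((hY _).2 ⟨t, rfl⟩)
    exact u3 _ U (ndT t) h1 ((hg0 _ _).2 ⟨ndT t, h1, _, (td.app_Ev _ _).2 ⟨t, rfl, rfl⟩, h2⟩)
  choose Ut hUt using hex
  have hU : ∀ t U, App E Uf (td.nd t) U ↔ U = Ut t :=
    fun t U => ⟨fun h => u2 _ _ _ h (hUt t), fun h => h ▸ hUt t⟩
  have Uc : ∀ t, E (Ut t) c := fun t => (u1 _ _ (hUt t)).2.2
  have Us : ∀ t, E (td.st t) (Ut t) := by
    intro t
    obtain ⟨-, -, y, h1, h2⟩ := (hg0 _ _).1 (u1 _ _ (hUt t)).1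
    obtain ⟨t', h3, rfl⟩ := (td.app_Ev _ _).1 h1
    obtain rfl := nd_inj zf td h3
    exact h2
  obtain ⟨x, hx⟩ := zf.sep td.T fun z => ¬ ∃ β, E β td.θ ∧ Cov E td.Le td.Ev td.Ht Uf z β
  have hx' : ∀ t, E (td.nd t) x ↔
      ¬ ∃ β, ∀ t', td.le t t' → ∃ u, td.ht u < β ∧ E (td.st t') (Ut u) := by
    intro t
    rw [hx, and_iff_right (ndT t)]
    refine not_congr ⟨?_, ?_⟩
    · rintro ⟨β, h1, h2⟩
      obtain ⟨j, rfl⟩ := (td.mem_θ _).1 h1
      exact ⟨j, (cov_iff zf hU t j).1 h2⟩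
    · rintro ⟨j, h⟩
      exact ⟨_, oθ j, (cov_iff zf hU t j).2 h⟩
  by_cases hr : E (td.nd td.root) x
  · exfalso
    obtain ⟨s, -, s2, s3⟩ := td.nu x hr (fun s t hst ht => (hx' s).2 fun ⟨β, h⟩ =>
      (hx' t).1 ht ⟨β, fun t' ht' => h t' (td.le_trans _ _ _ hst ht')⟩) (by
        intro s α hs hα
        by_contra hn
        obtain ⟨A, ι, hι, hA⟩ := td.cnt α
        obtain ⟨g, -, hg⟩ := exists_rel zf td.w td.θ fun n β => ∃ z, App E ι z n ∧
          Cov E td.Le td.Ev td.Ht Uf z β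
        obtain ⟨α', hα'⟩ := td.bnd g
        obtain ⟨β, hβ⟩ := td.nomax (max α α')
        refine (hx' s).1 hs ⟨β, fun t' ht' => ?_⟩
        rcases le_total (td.ht t') α with h | h
        · exact ⟨t', (h.trans (le_max_left _ _)).trans_lt hβ, Us t'⟩
        · obtain ⟨t, t1, t2, t3⟩ := td.interp s t' α ht' hα h
          obtain ⟨b, hb⟩ := not_not.1 ((hx' t).not.1 fun h' => hn ⟨t, t1, t3, h'⟩)
          obtain ⟨n, hn⟩ := hι.1.2.1 _ (hA t t3.le)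
          have hnw := (hι.1.mem zf hn).2
          obtain ⟨k, rfl⟩ := (td.mem_w _).1 hnw
          obtain ⟨b', b1, b2⟩ := hα' k b
            ((hg _ _).2 ⟨hnw, oθ b, _, hn, (cov_iff zf hU t b).2 hb⟩)
          obtain ⟨-, -, z, c1, c2⟩ := (hg _ _).1 b2
          obtain rfl := hι.2 _ _ _ c1 hn
          obtain ⟨u, v1, v2⟩ := (cov_iff zf hU t b').1 c2 t' t2
          exact ⟨u, (v1.trans b1).trans ((le_max_right _ _).trans_lt hβ), v2⟩)
    obtain ⟨F, f1, f2, f3⟩ := ((hτ _).1 (hc _ (Uc s))).2 s (Us s)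
    obtain ⟨t, t1, t2⟩ := exists_agree hK (X := fun t => E (td.nd t) x) s2 s3 f1 f2
    obtain ⟨β, hβ⟩ := td.nomax (td.ht s)
    exact (hx' t).1 t1 ⟨β, fun t' ht' => ⟨s, hβ, f3 t' (t2 t' ht')⟩⟩
  · obtain ⟨β, hβ⟩ := not_not.1 ((hx' _).not.1 hr)
    obtain ⟨A, ι, hι, hA⟩ := td.cnt β
    obtain ⟨C, c1, c2, c3⟩ := countable_select zfc td.toND hι c fun a U => App E Uf a U
    refine ⟨C, c1, c2, fun y hy => ?_⟩
    obtain ⟨t, rfl⟩ := (hY y).1 hy
    obtain ⟨u, h1, h2⟩ := hβ t (td.root_le t)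
    obtain ⟨U, h3, h4⟩ := c3 _ (hA u h1.le) ⟨_, Uc u, hUt u⟩
    exact ⟨U, h3, (hU _ _).1 h4 ▸ h2⟩

omit hY hK in
theorem TD.model [WellFoundedLT J] [WellFoundedLT N] (zfc : IsZFC E) (td : TD E J N) :
    ∃ Y τ K σ : M, IsTop E Y τ ∧ IsT1 E Y τ ∧ ZeroDim E Y τ ∧ IsLindelofSp E Y τ ∧
      IsCpTwoSubspace E Y τ K σ ∧ IsCompactSp E K σ ∧ ¬ IsSequentialSp E K σ ∧
      UncountableTightness E K σ := by
  have zf := zfc.zf
  obtain ⟨Y, hY⟩ := exists_Y zf td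
  obtain ⟨K, hK⟩ := exists_K zf hY
  obtain ⟨τ, σ, hτ, hσ, h1, h2, h3, h4⟩ := exists_top zf hY hK
  obtain ⟨A, p, a1, a2, a3, a4⟩ := tight hY hK zf hσ
  exact ⟨Y, τ, K, σ, h1, h2, h3, isLind hY hK zfc hτ, h4, isCompact zf hY hK hσ,
    not_seq zfc td.toND a1 a2 a3 a4, A, p, fun f hf => ((a1 f).1 hf).1, a2, a3, a4⟩

end Pool.Agent.Work.MP_ee7661_gt.MA
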