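import Pool.Agent.Work.MP_ee7661_gt.MExt
import Pool.Agent.Work.MP_ee7661_gt.MSpace
import Pool.Agent.Work.MP_ee7661_gt.MIter
import Mathlib.SetTheory.Cardinal.Aleph
import Mathlib.SetTheory.Cardinal.Regular

/-! The model. -/

namespace Pool.Agent.Work.MP_ee7661_gt.MA
open Pool.Agent.Lib.ZFModel Pool.Agent.Work.MP_63c7e0_lc Pool.Agent.Work.MP_3181e1_lc
open Ordinal Set

instance : OrderBot (Iio (ω₁ : Ordinal.{0})) where
  bot := ⟨0, omega_pos 1⟩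
  bot_le _ := Subtype.coe_le_coe.1 bot_le

instance : Om1 (Iio (ω₁ : Ordinal.{0})) where
  cnt a := by
    have h : (Iio a.1).Countable := by
      rw [← Cardinal.le_aleph0_iff_set_countable, Cardinal.mk_Iio_ordinal, Cardinal.lift_le_aleph0,
        ← Cardinal.lt_aleph_one_iff, ← Cardinal.lt_omega_iff_card_lt]
      exact a.2
    exact h.preimage_of_injOn (f := Subtype.val) Subtype.val_injective.injOn
  bdd S hS := by
    have := hS.to_subtype
    have h : ⨆ x : S, x.1.1 < ω₁ := iSup_lt_omega_one fun x => x.1.2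
    refine ⟨⟨_, (Cardinal.isSuccLimit_omega 1).succ_lt h⟩, fun x hx => ?_⟩
    exact Subtype.coe_lt_coe.1 (Order.lt_succ_of_le (Ordinal.le_iSup (fun x : S => x.1.1) ⟨x, hx⟩))
  small := inferInstance

variable {M : Type 1} {E : M → M → Prop} {J N : Type 1} [LinearOrder J] [LinearOrder N]

theorem TD.not_countable (zf : IsZF E) (td : TD E J N) : ¬ IsCountable E td.θ := by
  have := zf.nonempty
  rintro ⟨w, f, hw, hf⟩
  rw [omega_eq zf td.toND hw] at hf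
  obtain ⟨g, -, hg⟩ := exists_rel zf td.w td.θ fun n β => App E f β n
  obtain ⟨α, hα⟩ := td.bnd g
  have hθ : ∀ j, E (td.o j) td.θ := fun j => (td.mem_θ _).2 ⟨j, rfl⟩
  obtain ⟨y, hy⟩ := hf.1.2.1 _ (hθ α)
  have hy' := (hf.1.mem zf hy).2
  obtain ⟨n, rfl⟩ := (td.mem_w _).1 hy'
  obtain ⟨β, h1, h2⟩ := hα n α ((hg _ _).2 ⟨hy', hθ α, hy⟩)
  exact not_mem_self zf (td.o α) ((td.mem_o _ _).2 ⟨β, h1, hf.2 _ _ _ hy ((hg _ _).1 h2).2.2⟩)

theorem final : ∃ (M : Type 1) (E : M → M → Prop), IsZFC E ∧ MartinAxiom E ∧ NotCH E ∧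
    ∃ Y τ K σ : M, IsTop E Y τ ∧ IsT1 E Y τ ∧ ZeroDim E Y τ ∧ IsLindelofSp E Y τ ∧
      IsCpTwoSubspace E Y τ K σ ∧ IsCompactSp E K σ ∧ ¬ IsSequentialSp E K σ ∧
      UncountableTightness E K σ := by
  obtain ⟨it⟩ := exists_it (psC (Iio (ω₁ : Ordinal.{0})))
  obtain ⟨M, E, zfc, h1, J, N, _, _, _, _, td, h2⟩ := exists_td it
  exact ⟨M, E, zfc, ma_of_ma' zfc h1, ⟨td.θ, td.not_countable zfc.zf, below_of_notCH' zfc h2⟩,
    td.model zfc⟩

end Pool.Agent.Work.MP_ee7661_gt.MA
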