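import Pool.Agent.Work.MP_ee7661_gt.MDefs
import Pool.Agent.Work.MP_ee7661_gt.Data
import Pool.Agent.Lib.ZFModel1.ZFC

/-! A forcing relation for a small first-order language and the truth lemma, for posets in
`Type 1`. -/

namespace Pool.Agent.Work.MP_ee7661_gt.MA
open Pool.Agent.Lib.ZFModel (cons comp_cons IsZF IsZFC)
open Pool.Agent.Lib.ZFModel1 Pool.Agent.Work.MP_63c7e0_lc Pool.Agent.Work.MP_3181e1_lc
open Pool.Agent.Lib.ZFModel1.Name

universe u v

section names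
variable {P : Type 1} [Preorder P]

theorem upair_congr {a b a' b' : Name P} {p : P} (h1 : EqF a a' p) (h2 : EqF b b' p) :
    EqF (upairN a b) (upairN a' b') p := by
  refine ⟨fun i q hq hc => ⟨q, le_rfl, i, hc, ?_⟩, fun i q hq hc => ⟨q, le_rfl, i, hc, ?_⟩⟩ <;>
  · obtain ⟨⟨⟨_ | _⟩, r⟩, h⟩ := i
    · exact h2.mono hq
    · exact h1.mono hq

theorem pair_congr {a b a' b' : Name P} {p : P} (h1 : EqF a a' p) (h2 : EqF b b' p) :
    EqF (pairN a b) (pairN a' b') p := upair_congr (upair_congr h1 h1) (upair_congr h1 h2)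

theorem up1 {a b a' b' : Name P} {p q : P} (h : EqF (upairN a b) (upairN a' b') p) (hq : q ≤ p) :
    ∃ r ≤ q, EqF a a' r ∨ EqF a b' r := by
  obtain ⟨r, hr, ⟨⟨⟨_ | _⟩, s⟩, h0⟩, -, h1⟩ := h.1 ⟨(⟨true⟩, q), trivial⟩ q hq le_rfl
  · exact ⟨r, hr, Or.inr h1⟩
  · exact ⟨r, hr, Or.inl h1⟩

theorem up2 {a b a' b' : Name P} {p q : P} (h : EqF (upairN a b) (upairN a' b') p) (hq : q ≤ p) :
    ∃ r ≤ q, EqF b a' r ∨ EqF b b' r := by
  obtain ⟨r, hr, ⟨⟨⟨_ | _⟩, s⟩, h0⟩, -, h1⟩ := h.1 ⟨(⟨false⟩, q), trivial⟩ q hq le_rfl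
  · exact ⟨r, hr, Or.inr h1⟩
  · exact ⟨r, hr, Or.inl h1⟩

theorem pairN_inj1 {a b a' b' : Name P} {p : P} (h : EqF (pairN a b) (pairN a' b') p) :
    EqF a a' p := by
  refine EqF.reg fun q hq => ?_
  obtain ⟨r, hr, h1 | h1⟩ := up1 h hq <;>
  · obtain ⟨s, hs, h2 | h2⟩ := up1 h1.symm le_rfl <;> exact ⟨s, hs.trans hr, h2.symm⟩

theorem pairN_inj2 {a b a' b' : Name P} {p : P} (h : EqF (pairN a b) (pairN a' b') p) :
    EqF b b' p := by
  have ha := pairN_inj1 h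
  refine EqF.reg fun q hq => ?_
  have key : ∀ r ≤ q, EqF b a' r → ∃ s ≤ q, EqF b b' s := by
    intro r hr h1
    obtain ⟨s, hs, h2 | h2⟩ := up2 h.symm (hr.trans hq) <;>
      obtain ⟨t, ht, h3 | h3⟩ := up2 h2 le_rfl
    all_goals first
      | exact ⟨t, ht.trans (hs.trans hr), h3.symm⟩
      | exact ⟨t, ht.trans (hs.trans hr), (h1.mono (ht.trans hs)).trans
          ((ha.mono (ht.trans (hs.trans (hr.trans hq)))).symm.trans h3.symm)⟩
  obtain ⟨r, hr, h1 | h1⟩ := up2 h hq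
  · obtain ⟨s, hs, h2 | h2⟩ := up2 h1 le_rfl <;> exact key s (hs.trans hr) h2
  · obtain ⟨s, hs, h2 | h2⟩ := up2 h1 le_rfl
    · exact key s (hs.trans hr) h2
    · exact ⟨s, hs.trans hr, h2⟩

theorem natN_lt {j : ℕ} : ∀ i < j, ∀ p : P, ¬ EqF (natN i) (natN j) p := by
  induction j using Nat.strong_induction_on with
  | _ j ih =>
    intro i hi p h
    rw [natN_eq j] at h
    have h1 := (eqF_iff.1 h).2 ⟨(⟨⟨i, hi⟩⟩, p), trivial⟩ p le_rfl le_rfl
    have h3 : MemF (natN i) (rName (fun j : ULift (Fin i) => natN j.down) fun _ _ => True) p :=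
      natN_eq (P := P) i ▸ h1
    obtain ⟨r, -, k, -, h2⟩ := h3 p le_rfl
    exact ih i hi k.1.1.down.1 k.1.1.down.2 r h2.symm

theorem natN_inj {i j : ℕ} {p : P} (h : EqF (natN i) (natN j) p) : i = j := by
  rcases lt_trichotomy i j with h1 | h1 | h1
  · exact absurd h (natN_lt i h1 p)
  · exact h1
  · exact absurd h.symm (natN_lt j h1 p)

omit [Preorder P] in
theorem upairN_inj (p : P) {a b a' b' : Name P} (h : upairN a b = upairN a' b') :
    a = a' ∧ b = b' := by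
  unfold upairN rName at h
  injection h with _ h2 _
  exact ⟨congrFun h2 ⟨(⟨true⟩, p), trivial⟩, congrFun h2 ⟨(⟨false⟩, p), trivial⟩⟩

/-- Membership in `rName A R`. -/
theorem memF_rName {ι : Type 1} {A : ι → Name P} {R : ι → P → Prop}
    (hR : ∀ i p q, R i p → q ≤ p → R i q) {x : Name P} {p : P} :
    MemF x (rName A R) p ↔ ∀ q ≤ p, ∃ r ≤ q, ∃ i, R i r ∧ EqF x (A i) r := by
  refine forall₂_congr fun q _ => exists_congr fun r => and_congr_right fun _ => ⟨?_, ?_⟩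
  · rintro ⟨⟨⟨i, s⟩, h1⟩, h2, h3⟩
    exact ⟨i, hR i s r h1 h2, h3⟩
  · rintro ⟨i, h1, h2⟩
    exact ⟨⟨(i, r), h1⟩, le_rfl, h2⟩

theorem memF_rName_of {ι : Type 1} {A : ι → Name P} {R : ι → P → Prop} {i : ι} {p : P}
    (h : R i p) : MemF (A i) (rName A R) p :=
  memF_ch (rName A R) ⟨(i, p), h⟩ le_rfl

/-- Membership of a pair in a name of a set of pairs. -/
theorem memF_pairs {ι : Type 1} {A B : ι → Name P} {R : ι → P → Prop}
    (hR : ∀ i p q, R i p → q ≤ p → R i q) {x y : Name P} {p : P} :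
    MemF (pairN x y) (rName (fun i => pairN (A i) (B i)) R) p ↔
      ∀ q ≤ p, ∃ r ≤ q, ∃ i, R i r ∧ EqF x (A i) r ∧ EqF y (B i) r :=
  (memF_rName hR).trans (forall₂_congr fun _ _ => exists_congr fun _ => and_congr_right fun _ =>
    exists_congr fun _ => and_congr_right fun _ =>
      ⟨fun h => ⟨pairN_inj1 h, pairN_inj2 h⟩, fun h => pair_congr h.1 h.2⟩)

theorem memF_omega {x : Name P} {p : P} :
    MemF x omegaN p ↔ ∀ q ≤ p, ∃ r ≤ q, ∃ n, EqF x (natN n) r :=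
  (memF_rName fun _ _ _ _ _ => trivial).trans (forall₂_congr fun _ _ => exists_congr fun _ =>
    and_congr_right fun _ => ⟨fun ⟨i, _, h⟩ => ⟨i.down, h⟩, fun ⟨n, h⟩ => ⟨⟨n⟩, trivial, h⟩⟩)

variable {T : Type 1} [LinearOrder T] [WellFoundedLT T]

omit [Preorder P] in
/-- The name of the von Neumann ordinal of `i`. -/
noncomputable def oN : T → Name P :=
  wellFounded_lt.fix fun i IH => rName (fun j : Set.Iio i => IH j.1 j.2) fun _ _ => True

omit [Preorder P] in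
theorem oN_eq (i : T) : (oN i : Name P) = rName (fun j : Set.Iio i => oN j.1) fun _ _ => True := by
  rw [oN, WellFounded.fix_eq]

theorem oN_lt {j : T} : ∀ i < j, ∀ p : P, ¬ EqF (oN i) (oN j) p := by
  induction j using WellFoundedLT.induction with
  | ind j ih =>
    intro i hi p h
    rw [oN_eq j] at h
    have h1 := (eqF_iff.1 h).2 ⟨(⟨i, hi⟩, p), trivial⟩ p le_rfl le_rfl
    have h3 : MemF (oN i) (rName (fun j : Set.Iio i => oN j.1) fun _ _ => True) p :=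
      oN_eq (P := P) i ▸ h1
    obtain ⟨r, -, k, -, h2⟩ := h3 p le_rfl
    exact ih i hi k.1.1.1 k.1.1.2 r h2.symm

theorem oN_inj {i j : T} {p : P} (h : EqF (oN i) (oN j) p) : i = j := by
  rcases lt_trichotomy i j with h1 | h1 | h1
  · exact absurd h (oN_lt i h1 p)
  · exact h1
  · exact absurd h.symm (oN_lt j h1 p)

variable (P T) in
omit [Preorder P] in
/-- The name of the order type of `T`. -/
noncomputable def thN : Name P := rName (oN (T := T)) fun _ _ => True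

end names

/-- `g` is a function whose values at members of `C` cover the subsets of `w`. -/
def PSurj {M : Type u} (E : M → M → Prop) (g C w : M) : Prop :=
  (∀ d x x', App E g d x → App E g d x' → x = x') ∧ ∀ x, Sub E x w → ∃ d, E d C ∧ App E g d x

/-- Martin's axiom, with size below the continuum expressed by surjections. -/
def MA' {M : Type u} (E : M → M → Prop) : Prop :=
  ∀ Q le C w, IsOmega E w → IsPoset E Q le → IsCcc E Q le → (∀ D, E D C → IsDenseBelow E Q le D) →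
    (¬ ∃ g, PSurj E g C w) → ∃ G, IsFilterOn E Q le G ∧ ∀ D, E D C → ∃ x, E x D ∧ E x G

/-- The set `W` does not map onto the power set of `ω`. -/
def NotCH' {M : Type u} (E : M → M → Prop) (W : M) : Prop :=
  ∀ w, IsOmega E w → ¬ ∃ g, PSurj E g W w

/-- The operations of a logic with terms `V` and formulas `T`. -/
structure Lg (V : Type u) (T : Type v) where
  mem : V → V → T
  eq : V → V → T
  app : V → V → V → T
  pair : V → V → V → T
  omega : V → T
  neg : T → T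
  imp : T → T → T
  and : T → T → T
  all : (V → T) → T
  ex : (V → T) → T

namespace Lg
variable {V : Type u} {T : Type v} (L : Lg V T)

def sub (a b : V) : T := L.all fun x => L.imp (L.mem x a) (L.mem x b)
def isFun (f A B : V) : T :=
  L.and (L.all fun p => L.imp (L.mem p f) (L.ex fun x => L.ex fun y =>
    L.and (L.mem x A) (L.and (L.mem y B) (L.pair p x y))))
  (L.and (L.all fun x => L.imp (L.mem x A) (L.ex fun y => L.app f x y))
    (L.all fun x => L.all fun y => L.all fun y' =>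
      L.imp (L.app f x y) (L.imp (L.app f x y') (L.eq y y'))))
def isCountable (A : V) : T :=
  L.ex fun w => L.ex fun f => L.and (L.omega w) (L.and (L.isFun f A w)
    (L.all fun x => L.all fun x' => L.all fun y =>
      L.imp (L.app f x y) (L.imp (L.app f x' y) (L.eq x x'))))
def isPoset (Q le : V) : T :=
  L.and (L.ex fun x => L.mem x Q) (L.and (L.all fun x => L.imp (L.mem x Q) (L.app le x x))
    (L.and (L.all fun x => L.all fun y => L.all fun z =>
      L.imp (L.app le x y) (L.imp (L.app le y z) (L.app le x z)))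
    (L.all fun x => L.all fun y => L.imp (L.app le x y) (L.imp (L.app le y x) (L.eq x y)))))
def isCcc (Q le : V) : T :=
  L.all fun A => L.imp (L.sub A Q) (L.imp (L.all fun x => L.all fun y => L.imp (L.mem x A)
    (L.imp (L.mem y A) (L.imp (L.neg (L.eq x y)) (L.neg (L.ex fun z =>
      L.and (L.mem z Q) (L.and (L.app le z x) (L.app le z y))))))) (L.isCountable A))
def isDense (Q le D : V) : T :=
  L.and (L.sub D Q) (L.all fun x => L.imp (L.mem x Q)
    (L.ex fun y => L.and (L.mem y D) (L.app le y x)))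
def isFilter (Q le G : V) : T :=
  L.and (L.sub G Q) (L.and (L.ex fun x => L.mem x G)
    (L.and (L.all fun x => L.all fun y => L.imp (L.mem x G) (L.imp (L.mem y Q)
      (L.imp (L.app le x y) (L.mem y G))))
    (L.all fun x => L.all fun y => L.imp (L.mem x G) (L.imp (L.mem y G)
      (L.ex fun z => L.and (L.mem z G) (L.and (L.app le z x) (L.app le z y)))))))
def pSurj (g C w : V) : T :=
  L.and (L.all fun d => L.all fun x => L.all fun x' =>
    L.imp (L.app g d x) (L.imp (L.app g d x') (L.eq x x')))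
    (L.all fun x => L.imp (L.sub x w) (L.ex fun d => L.and (L.mem d C) (L.app g d x)))
def ma : T :=
  L.all fun Q => L.all fun le => L.all fun C => L.all fun w => L.imp (L.omega w)
    (L.imp (L.isPoset Q le) (L.imp (L.isCcc Q le)
    (L.imp (L.all fun D => L.imp (L.mem D C) (L.isDense Q le D))
    (L.imp (L.neg (L.ex fun g => L.pSurj g C w)) (L.ex fun G => L.and (L.isFilter Q le G)
      (L.all fun D => L.imp (L.mem D C) (L.ex fun x => L.and (L.mem x D) (L.mem x G))))))))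
def notCH (W : V) : T :=
  L.all fun w => L.imp (L.omega w) (L.neg (L.ex fun g => L.pSurj g W w))

end Lg

/-- Truth in a structure. -/
def LT {M : Type 1} (E : M → M → Prop) : Lg M Prop where
  mem := E
  eq := Eq
  app := App E
  pair := IsPair E
  omega := IsOmega E
  neg := Not
  imp a b := a → b
  and := And
  all f := ∀ x, f x
  ex f := ∃ x, f x

/-- The forcing relation. -/
def LF (P : Type 1) [Preorder P] : Lg (Name P) (P → Prop) where
  mem := MemF
  eq := EqF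
  app f x y := MemF (pairN x y) f
  pair a x y := EqF a (pairN x y)
  omega a := EqF a omegaN
  neg a p := ∀ q ≤ p, ¬ a q
  imp a b p := ∀ q ≤ p, a q → b q
  and a b p := a p ∧ b p
  all f p := ∀ x, f x p
  ex f p := ∀ q ≤ p, ∃ r ≤ q, ∃ x, f x r

/-- Formulas. -/
inductive IF : Type
  | mem (i j : ℕ) | eq (i j : ℕ) | app (i j k : ℕ) | pair (i j k : ℕ)
  | omega (i : ℕ) | neg (φ : IF) | imp (φ ψ : IF) | and (φ ψ : IF) | all (φ : IF) | ex (φ : IF)
  deriving Countable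

/-- Interpretation of formulas. -/
def IF.ev {V : Type u} {T : Type v} (L : Lg V T) : IF → (ℕ → V) → T
  | .mem i j, v => L.mem (v i) (v j)
  | .eq i j, v => L.eq (v i) (v j)
  | .app i j k, v => L.app (v i) (v j) (v k)
  | .pair i j k, v => L.pair (v i) (v j) (v k)
  | .omega i, v => L.omega (v i)
  | .neg φ, v => L.neg (φ.ev L v)
  | .imp φ ψ, v => L.imp (φ.ev L v) (ψ.ev L v)
  | .and φ ψ, v => L.and (φ.ev L v) (ψ.ev L v)
  | .all φ, v => L.all fun x => φ.ev L (cons x v)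
  | .ex φ, v => L.ex fun x => φ.ev L (cons x v)

/-- Formulas built with variables given by their binding depth. -/
def LS : Lg ℕ (ℕ → IF) where
  mem a b d := .mem (d - 1 - a) (d - 1 - b)
  eq a b d := .eq (d - 1 - a) (d - 1 - b)
  app a b c d := .app (d - 1 - a) (d - 1 - b) (d - 1 - c)
  pair a b c d := .pair (d - 1 - a) (d - 1 - b) (d - 1 - c)
  omega a d := .omega (d - 1 - a)
  neg a d := .neg (a d)
  imp a b d := .imp (a d) (b d)
  and a b d := .and (a d) (b d)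
  all f d := .all (f d (d + 1))
  ex f d := .ex (f d (d + 1))

theorem ev_ma {V : Type u} {T : Type v} (L : Lg V T) (v : ℕ → V) : (LS.ma 0).ev L v = L.ma := rfl

theorem ev_notCH {V : Type u} {T : Type v} (L : Lg V T) (v : ℕ → V) :
    (LS.notCH 0 1).ev L v = L.notCH (v 0) := rfl

theorem LT_ma {M : Type 1} (E : M → M → Prop) : (LT E).ma ↔ MA' E := Iff.rfl

theorem LT_notCH {M : Type 1} (E : M → M → Prop) (W : M) : (LT E).notCH W ↔ NotCH' E W := Iff.rfl

variable {P : Type 1} [Preorder P]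

/-- Forcing of a formula. -/
def Fo (φ : IF) (p : P) (v : ℕ → Name P) : Prop := φ.ev (LF P) v p

theorem Fo.mono {φ : IF} : ∀ {p q : P} {v : ℕ → Name P}, Fo φ p v → q ≤ p → Fo φ q v := by
  induction φ with
  | mem | app => exact fun h hq => MemF.mono h hq
  | eq | pair | omega => exact fun h hq => EqF.mono h hq
  | neg | imp | ex => exact fun h hq r hr => h r (hr.trans hq)
  | and _ _ ih ih' => exact fun h hq => ⟨ih h.1 hq, ih' h.2 hq⟩
  | all _ ih => exact fun h hq x => ih (h x) hq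

theorem Fo.reg {φ : IF} : ∀ {p : P} {v : ℕ → Name P}, (∀ q ≤ p, ∃ r ≤ q, Fo φ r v) → Fo φ p v := by
  induction φ with
  | mem | app => exact fun h => MemF.reg h
  | eq | pair | omega => exact fun h => EqF.reg h
  | neg φ =>
    intro p v h q hq h1
    obtain ⟨r, hr, h2⟩ := h q hq
    exact h2 r le_rfl (Fo.mono (φ := φ) h1 hr)
  | imp φ ψ _ ih =>
    intro p v h q hq h1
    refine ih fun r hr => ?_
    obtain ⟨s, hs, h2⟩ := h r (hr.trans hq)
    exact ⟨s, hs, h2 s le_rfl (Fo.mono (φ := φ) h1 (hs.trans hr))⟩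
  | and _ _ ih ih' =>
    exact fun h => ⟨ih fun q hq => (h q hq).imp fun _ h => ⟨h.1, h.2.1⟩,
      ih' fun q hq => (h q hq).imp fun _ h => ⟨h.1, h.2.2⟩⟩
  | ex =>
    intro p v h q hq
    obtain ⟨r, hr, h2⟩ := h q hq
    obtain ⟨s, hs, h3⟩ := h2 r le_rfl
    exact ⟨s, hs.trans hr, h3⟩
  | all _ ih => exact fun h x => ih fun q hq => (h q hq).imp fun _ h => ⟨h.1, h.2 x⟩

/-- Indices of the closure conditions and dense sets. -/
inductive KF : Type
  | fst | snd | dec (φ : IF) | gv (φ : IF)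
  deriving Countable

variable {A : Type 1}

def RNF : Fam P A KF (Name P) := fun k v c _ y => match k with
  | .fst => ∃ b, v 0 = upairN y b
  | .snd => ∃ b, v 0 = upairN b y
  | .gv φ => Fo φ (c 0) (cons y v)
  | _ => True

def WWF : Fam P A KF (P × A) := fun k v _ _ y => match k with
  | .dec φ => Fo φ y.1 v ∨ ∀ r ≤ y.1, ¬ Fo φ r v
  | .gv φ => (∃ x, Fo φ y.1 (cons x v)) ∨ ∀ r ≤ y.1, ∀ x, ¬ Fo φ r (cons x v)
  | _ => True

section model
variable {p₀ : P} {a₀ : A}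

section
variable {K : Type} {RN : Fam P A K (Name P)} {WW : Fam P A K (P × A)} (g : GenW p₀ a₀ RN WW)

theorem pair_mem {a b : Name P} (ha : a ∈ g.N) (hb : b ∈ g.N) : pairN a b ∈ g.N :=
  g.upair_mem _ (g.upair_mem _ ha _ ha) _ (g.upair_mem _ ha _ hb)

theorem isPair_pairN {a b : Name P} (ha : a ∈ g.N) (hb : b ∈ g.N) (h : pairN a b ∈ g.N) :
    IsPair g.toGen.E (g.toGen.cl ⟨_, h⟩) (g.toGen.cl ⟨_, ha⟩) (g.toGen.cl ⟨_, hb⟩) := by
  have zf := g.zfc.zf
  have h1 := g.toGen.mem_upair ha ha (g.upair_mem _ ha _ ha)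
  have h2 := g.toGen.mem_upair ha hb (g.upair_mem _ ha _ hb)
  intro z
  refine (g.toGen.mem_upair (g.upair_mem _ ha _ ha) (g.upair_mem _ ha _ hb) h z).trans ⟨?_, ?_⟩
  · rintro (rfl | rfl)
    · exact Or.inl fun x => (h1 x).trans or_self_iff
    · exact Or.inr h2
  · rintro (h3 | h3)
    · exact Or.inl (zf.extensionality _ _ fun x => (h3 x).trans ((h1 x).trans or_self_iff).symm)
    · exact Or.inr (zf.extensionality _ _ fun x => (h3 x).trans (h2 x).symm)

theorem app_cl (f x y : g.N) : App g.toGen.E (g.toGen.cl f) (g.toGen.cl x) (g.toGen.cl y) ↔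
    ∃ p, g.G p ∧ MemF (pairN x.1 y.1) f.1 p := by
  have h := isPair_pairN g x.2 y.2 (pair_mem g x.2 y.2)
  refine Iff.trans ⟨?_, fun h1 => ⟨_, h1, h⟩⟩ (g.toGen.E_cl (x := ⟨_, pair_mem g x.2 y.2⟩))
  rintro ⟨z, h1, h2⟩
  exact pair_unique g.zfc.zf h2 h ▸ h1

theorem pair_cl (a x y : g.N) :
    IsPair g.toGen.E (g.toGen.cl a) (g.toGen.cl x) (g.toGen.cl y) ↔
      ∃ p, g.G p ∧ EqF a.1 (pairN x.1 y.1) p := by
  have h := isPair_pairN g x.2 y.2 (pair_mem g x.2 y.2)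
  refine Iff.trans ⟨fun h1 => pair_unique g.zfc.zf h1 h, fun h1 => h1 ▸ h⟩
    (g.toGen.cl_eq (y := ⟨_, pair_mem g x.2 y.2⟩))

/-- The natural numbers of the model. -/
noncomputable def ndM : ND g.toGen.E :=
  ⟨fun n => g.toGen.cl ⟨_, g.nat_mem n⟩, g.toGen.cl ⟨_, g.omega_mem⟩,
    g.toGen.mem_nat g.nat_mem, g.toGen.mem_omega g.nat_mem g.omega_mem⟩

theorem omega_cl (a : g.N) :
    IsOmega g.toGen.E (g.toGen.cl a) ↔ ∃ p, g.G p ∧ EqF a.1 omegaN p := by
  refine Iff.trans ⟨fun h => omega_eq g.zfc.zf (ndM g) h, fun h => ?_⟩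
    (g.toGen.cl_eq (y := ⟨_, g.omega_mem⟩))
  rw [h]
  exact isOmega_w g.zfc.zf (ndM g)

end

variable (g : GenW p₀ a₀ RNF WWF)

theorem of_pair_mem' {a b : Name P} (h : pairN a b ∈ g.N) : a ∈ g.N ∧ b ∈ g.N := by
  have key : ∀ {a b : Name P}, upairN a b ∈ g.N → a ∈ g.N ∧ b ∈ g.N := by
    intro a b h
    obtain ⟨y, hy, c, h1⟩ := g.clN .fst [upairN a b] [] [] (mem_list₁ h) mem_list₀ mem_list₀
      ⟨a, b, rfl⟩
    obtain ⟨z, hz, d, h2⟩ := g.clN .snd [upairN a b] [] [] (mem_list₁ h) mem_list₀ mem_list₀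
      ⟨b, a, rfl⟩
    exact ⟨(upairN_inj p₀ h1).1 ▸ hy, (upairN_inj p₀ h2).2 ▸ hz⟩
  exact key (key h).2

theorem dec (φ : IF) (l : List g.N) : ∃ p, g.G p ∧
    (Fo φ p (fun i => (envOf g.toGen.e0 l i).1) ∨
      ∀ r ≤ p, ¬ Fo φ r fun i => (envOf g.toGen.e0 l i).1) := by
  rw [g.toGen.val_envOf]
  obtain ⟨q, -, hq, _, -, h⟩ := g.meet (.dec φ) _ [] [] (g.toGen.map_val_mem l) mem_list₀ mem_list₀
    p₀ g.G_p0 fun q _ => by
      by_cases h : ∃ r ≤ q, Fo φ r (envOf emptyName (l.map Subtype.val))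
      · obtain ⟨r, hr, h⟩ := h
        exact ⟨r, hr, a₀, Or.inl h⟩
      · exact ⟨q, le_rfl, a₀, Or.inr fun r hr h' => h ⟨r, hr, h'⟩⟩
  exact ⟨q, hq, h⟩

theorem gv (φ : IF) (l : List g.N) : ∃ p, g.G p ∧
    ((∃ x ∈ g.N, Fo φ p (cons x fun i => (envOf g.toGen.e0 l i).1)) ∨
      ∀ r ≤ p, ∀ x, ¬ Fo φ r (cons x fun i => (envOf g.toGen.e0 l i).1)) := by
  rw [g.toGen.val_envOf]
  obtain ⟨q, hq', hq, _, -, h⟩ := g.meet (.gv φ) _ [] [] (g.toGen.map_val_mem l) mem_list₀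
    mem_list₀ p₀ g.G_p0 fun q _ => by
      by_cases h : ∃ r ≤ q, ∃ x, Fo φ r (cons x (envOf emptyName (l.map Subtype.val)))
      · obtain ⟨r, hr, h⟩ := h
        exact ⟨r, hr, a₀, Or.inl h⟩
      · exact ⟨q, le_rfl, a₀, Or.inr fun r hr x h' => h ⟨r, hr, x, h'⟩⟩
  refine ⟨q, hq, Or.imp_left (fun h => ?_) h⟩
  exact g.clN (.gv φ) _ [q] [] (g.toGen.map_val_mem l) (mem_list₁ hq') mem_list₀ h

theorem truth (φ : IF) : ∀ l : List g.N,
    φ.ev (LT g.toGen.E) (fun i => g.toGen.cl (envOf g.toGen.e0 l i)) ↔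
      ∃ p, g.G p ∧ Fo φ p fun i => (envOf g.toGen.e0 l i).1 := by
  have key : ∀ {φ : IF}, (∀ l : List g.N,
      φ.ev (LT g.toGen.E) (fun i => g.toGen.cl (envOf g.toGen.e0 l i)) ↔
        ∃ p, g.G p ∧ Fo φ p fun i => (envOf g.toGen.e0 l i).1) → ∀ (l : List g.N) (x : g.N),
      φ.ev (LT g.toGen.E) (cons (g.toGen.cl x) fun i => g.toGen.cl (envOf g.toGen.e0 l i)) ↔
        ∃ p, g.G p ∧ Fo φ p (cons x.1 fun i => (envOf g.toGen.e0 l i).1) := by
    intro φ ih l x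
    have := ih (x :: l)
    simp only [envOf] at this
    rwa [comp_cons g.toGen.cl, comp_cons Subtype.val] at this
  have himp : ∀ {φ ψ : IF} (l : List g.N) {A B : Prop},
      (A ↔ ∃ p, g.G p ∧ Fo φ p fun i => (envOf g.toGen.e0 l i).1) →
      (B ↔ ∃ p, g.G p ∧ Fo ψ p fun i => (envOf g.toGen.e0 l i).1) →
      ((A → B) ↔ ∃ p, g.G p ∧ ∀ q ≤ p, Fo φ q (fun i => (envOf g.toGen.e0 l i).1) →
        Fo ψ q fun i => (envOf g.toGen.e0 l i).1) := by
    intro φ ψ l A B ih ih'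
    refine (imp_congr ih ih').trans ⟨fun h => ?_, ?_⟩
    · obtain ⟨p, hp, h1 | h1⟩ := dec g φ l
      · obtain ⟨q, hq, h2⟩ := h ⟨p, hp, h1⟩
        exact ⟨q, hq, fun r hr _ => h2.mono hr⟩
      · exact ⟨p, hp, fun q hq h2 => absurd h2 (h1 q hq)⟩
    · rintro ⟨p, hp, h⟩ ⟨q, hq, h1⟩
      obtain ⟨r, hr, h2, h3⟩ := g.dir p q hp hq
      exact ⟨r, hr, h r h2 (h1.mono h3)⟩
  induction φ with
  | mem i j => exact fun l => g.toGen.E_cl
  | eq i j => exact fun l => g.toGen.cl_eq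
  | app i j k => exact fun l => app_cl g _ _ _
  | pair i j k => exact fun l => pair_cl g _ _ _
  | omega i => exact fun l => omega_cl g _
  | neg φ ih =>
    intro l
    refine (not_congr (ih l)).trans ⟨fun h => ?_, ?_⟩
    · obtain ⟨p, hp, h1 | h1⟩ := dec g φ l
      · exact absurd ⟨p, hp, h1⟩ h
      · exact ⟨p, hp, h1⟩
    · rintro ⟨p, hp, h⟩ ⟨q, hq, h1⟩
      obtain ⟨r, -, h2, h3⟩ := g.dir p q hp hq
      exact h r h2 (h1.mono h3)
  | imp φ ψ ih ih' => exact fun l => himp l (ih l) (ih' l)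
  | and φ ψ ih ih' =>
    intro l
    refine (and_congr (ih l) (ih' l)).trans ⟨?_, fun ⟨p, hp, h⟩ => ⟨⟨p, hp, h.1⟩, p, hp, h.2⟩⟩
    rintro ⟨⟨p, hp, h⟩, q, hq, h1⟩
    obtain ⟨r, hr, h2, h3⟩ := g.dir p q hp hq
    exact ⟨r, hr, h.mono h2, h1.mono h3⟩
  | all φ ih =>
    intro l
    constructor
    · intro h
      obtain ⟨p, hp, ⟨x, hx, h1⟩ | h1⟩ := gv g φ.neg l
      · obtain ⟨q, hq, h2⟩ := (key ih l ⟨x, hx⟩).1 (h _)
        obtain ⟨r, -, h3, h4⟩ := g.dir p q hp hq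
        exact absurd (h2.mono h4) (h1 r h3)
      · refine ⟨p, hp, fun x => Fo.reg (φ := φ) fun q hq => ?_⟩
        by_contra h2
        exact h1 q hq x fun r hr h3 => h2 ⟨r, hr, h3⟩
    · rintro ⟨p, hp, h⟩ a
      obtain ⟨x, rfl⟩ := g.toGen.cl_surj a
      exact (key ih l x).2 ⟨p, hp, h x.1⟩
  | ex φ ih =>
    intro l
    constructor
    · rintro ⟨a, h⟩
      obtain ⟨x, rfl⟩ := g.toGen.cl_surj a
      obtain ⟨p, hp, h1⟩ := (key ih l x).1 h
      exact ⟨p, hp, fun q hq => ⟨q, le_rfl, x.1, h1.mono hq⟩⟩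
    · rintro ⟨p, hp, h⟩
      obtain ⟨q, hq, ⟨x, hx, h1⟩ | h1⟩ := gv g φ l
      · exact ⟨_, (key ih l ⟨x, hx⟩).2 ⟨q, hq, h1⟩⟩
      · obtain ⟨r, -, h3, h4⟩ := g.dir p q hp hq
        obtain ⟨s, hs, x, h5⟩ := h r h3
        exact absurd h5 (h1 s (hs.trans h4) x)

end model

/-- A generic model with the truth lemma for the formulas `IF`. -/
structure GenF {K : Type} (p₀ : P) (a₀ : A) (RN : Fam P A K (Name P)) (WW : Fam P A K (P × A))
    extends GenW p₀ a₀ RN WW where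
  of_pair_mem : ∀ {a b : Name P}, pairN a b ∈ N → a ∈ N ∧ b ∈ N
  ma : (LF P).ma p₀ → MA' toGen.E
  notCH : ∀ W : N, (LF P).notCH W.1 p₀ → NotCH' toGen.E (toGen.cl W)

theorem exists_genF {K : Type} [Countable K] (p₀ : P) (a₀ : A) (RN : Fam P A K (Name P))
    (WW : Fam P A K (P × A)) : Nonempty (GenF p₀ a₀ RN WW) := by
  obtain ⟨g⟩ := exists_genW (K := K ⊕ KF) p₀ a₀ (Sum.elim RN RNF) (Sum.elim WW WWF)
  let g' : GenW p₀ a₀ RNF WWF :=
    { g with clN := fun k => g.clN (.inr k), meet := fun k => g.meet (.inr k) }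
  refine ⟨{ g with
    clN := fun k => g.clN (.inl k)
    meet := fun k => g.meet (.inl k)
    of_pair_mem := of_pair_mem' g'
    ma := fun h => (LT_ma _).1 ?_
    notCH := fun W h => (LT_notCH _ _).1 ?_ }⟩
  · rw [← ev_ma _ fun i => g.toGen.cl (envOf g.toGen.e0 [] i)]
    exact (truth g' _ []).2 ⟨p₀, g.G_p0, h⟩
  · exact (truth g' (LS.notCH 0 1) [W]).2 ⟨p₀, g.G_p0, h⟩

theorem GenF.app_pairs {K : Type} {p₀ : P} {a₀ : A} {RN : Fam P A K (Name P)}
    {WW : Fam P A K (P × A)} (g : GenF p₀ a₀ RN WW) {ι : Type 1} {a b : ι → Name P}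
    {R : ι → P → Prop} (h : rName (fun i => pairN (a i) (b i)) R ∈ g.N) :
    (∀ z, g.toGen.E z (g.toGen.cl ⟨_, h⟩) → ∃ u v, IsPair g.toGen.E z u v) ∧ ∀ u v,
    App g.toGen.E (g.toGen.cl ⟨_, h⟩) u v ↔ ∃ i p, R i p ∧ g.G p ∧
      ∃ (ha : a i ∈ g.N) (hb : b i ∈ g.N), u = g.toGen.cl ⟨_, ha⟩ ∧ v = g.toGen.cl ⟨_, hb⟩ := by
  refine ⟨fun z hz => ?_, fun u v => ⟨?_, ?_⟩⟩
  · obtain ⟨i, p, h1, h2, h3, rfl⟩ := (g.toGen.E_rName h z).1 hz
    obtain ⟨ha, hb⟩ := g.of_pair_mem h3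
    exact ⟨_, _, isPair_pairN g.toGenW ha hb h3⟩
  · rintro ⟨z, hz, h4⟩
    obtain ⟨i, p, h1, h2, h3, rfl⟩ := (g.toGen.E_rName h z).1 hz
    obtain ⟨ha, hb⟩ := g.of_pair_mem h3
    exact ⟨i, p, h1, h2, ha, hb, pair_inj g.zfc.zf h4 (isPair_pairN g.toGenW ha hb h3)⟩
  · rintro ⟨i, p, h1, h2, ha, hb, rfl, rfl⟩
    exact ⟨_, (g.toGen.E_rName h _).2 ⟨i, p, h1, h2, pair_mem g.toGenW ha hb, rfl⟩,
      isPair_pairN g.toGenW ha hb _⟩

end Pool.Agent.Work.MP_ee7661_gt.MA
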