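import Pool.Agent.Work.MP_ee7661_gt.MSeal0
import Mathlib.SetTheory.Cardinal.Regular
import Mathlib.SetTheory.Ordinal.Univ
import Mathlib.Order.CompleteLattice.Chain

/-! General tools for the iteration: listing, closure points, and covering of countable sets. -/

namespace Pool.Agent.Work.MP_ee7661_gt.MA
open Set

theorem listing {X : Type 1} (A : Ordinal.{0} → Set X) (hA : ∀ ξ, Small.{0} (A ξ)) :
    ∃ f : Ordinal.{0} → Set X, ∀ ξ, ∀ S ⊆ A ξ, ∀ η, ∃ ζ, η ≤ ζ ∧ f ζ = S := by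
  have hu : Cardinal.aleph0.{1} ≤ Cardinal.mk Ordinal.{0} := Cardinal.aleph0_le_mk _
  have h1 : Cardinal.mk (⋃ ξ, 𝒫 (A ξ)) ≤ Cardinal.mk Ordinal.{0} := by
    refine Cardinal.mk_iUnion_le_sum_mk.trans ((Cardinal.sum_le_sum _
      (fun _ => Cardinal.mk Ordinal.{0}) fun ξ => ?_).trans ?_)
    · have := Cardinal.small_iff_lift_mk_lt_univ.{1, 0}.1 (small_powerset (A ξ))
      rw [Cardinal.lift_id, ← Cardinal.mk_ordinal] at this
      exact this.le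
    · rw [Cardinal.sum_const', Cardinal.mul_eq_self hu]
  have h2 : Cardinal.mk ((⋃ ξ, 𝒫 (A ξ)) × Ordinal.{0}) ≤ Cardinal.mk Ordinal.{0} := by
    rw [Cardinal.mk_prod, Cardinal.lift_id, Cardinal.lift_id]
    exact (mul_le_mul_left h1 _).trans (Cardinal.mul_eq_self hu).le
  obtain ⟨j⟩ := h2
  have : Nonempty ((⋃ ξ, 𝒫 (A ξ)) × Ordinal.{0}) :=
    ⟨(⟨∅, mem_iUnion.2 ⟨0, empty_subset _⟩⟩, 0)⟩
  refine ⟨fun ζ => (Function.invFun j ζ).1.1, fun ξ S hS η => ?_⟩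
  by_contra h
  refine not_injective_of_ordinal (α := Iio η) (fun a => ⟨j (⟨S, mem_iUnion.2 ⟨ξ, hS⟩⟩, a),
    not_le.1 fun k => h ⟨_, k, congrArg (fun z : (⋃ ξ, 𝒫 (A ξ)) × Ordinal.{0} => z.1.1)
      (Function.leftInverse_invFun j.injective _)⟩⟩) fun a b e => ?_
  exact congrArg Prod.snd (j.injective (congrArg Subtype.val e))

theorem bdd_small {ι : Type*} [Small.{0} ι] (f : ι → Ordinal.{0}) : ∃ ξ, ∀ i, f i < ξ :=
  ⟨Order.succ (⨆ i, f i), fun i => Order.lt_succ_of_le (Ordinal.le_iSup f i)⟩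

theorem bdd_cnt {S : Set Ordinal.{0}} (h : S.Countable) : ∃ ξ, S ⊆ Iio ξ :=
  have := h.to_subtype
  let ⟨ξ, k⟩ := bdd_small fun x : S => x.1
  ⟨ξ, fun x hx => k ⟨x, hx⟩⟩

theorem closure_pt (F : Ordinal.{0} → Ordinal.{0}) (η₀ : Ordinal.{0}) : ∃ ξ, η₀ ≤ ξ ∧
    ∀ S ⊆ Iio ξ, S.Countable → ∃ η, S ⊆ Iio η ∧ F η ≤ ξ := by
  let x : Ordinal.{0} → Ordinal.{0} := wellFounded_lt.fix fun α IH =>
    max η₀ (⨆ β : Iio α, max (IH β.1 β.2) (F (IH β.1 β.2)))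
  have hx : ∀ α, x α = max η₀ (⨆ β : Iio α, max (x β) (F (x β))) := fun α =>
    WellFounded.fix_eq _ _ _
  have h0 : ∀ α, η₀ ≤ x α := fun α => hx α ▸ le_max_left _ _
  have h1 : ∀ α, ∀ β < α, max (x β) (F (x β)) ≤ x α := fun α β h =>
    hx α ▸ (Ordinal.le_iSup (fun β : Iio α => max (x β) (F (x β))) ⟨β, h⟩).trans (le_max_right _ _)
  have hl := Cardinal.isSuccLimit_omega.{0} 1
  refine ⟨x (Ordinal.omega 1), h0 _, fun S hS hc => ?_⟩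
  have key : ∀ s : S, ∃ β < Ordinal.omega 1, s.1 < x β := fun s => by
    have := hS s.2
    rw [mem_Iio, hx] at this
    rcases lt_max_iff.1 this with h | h
    · exact ⟨0, Ordinal.omega_pos 1, h.trans_le (h0 0)⟩
    · obtain ⟨β, k⟩ := Ordinal.lt_iSup_iff.1 h
      exact ⟨Order.succ β.1, hl.succ_lt β.2, k.trans_le (h1 _ _ (Order.lt_succ _))⟩
  choose g g1 g2 using key
  have := hc.to_subtype
  have h2 := hl.succ_lt (Ordinal.iSup_lt_omega_one g1)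
  exact ⟨x _, fun s hs => (g2 ⟨s, hs⟩).trans_le ((le_max_left _ _).trans (h1 _ _
    (Order.lt_succ_of_le (Ordinal.le_iSup g _)))), (le_max_right _ _).trans (h1 _ _ h2)⟩

theorem exists_max_anti {X : Type*} (S : Set X) (r : X → X → Prop) (h1 : ∀ x, r x x)
    (h2 : ∀ x y, r x y → r y x) : ∃ A ⊆ S, (∀ x ∈ A, ∀ y ∈ A, r x y → x = y) ∧
      ∀ x ∈ S, ∃ a ∈ A, r x a := by
  have h := maxChain_spec (r := fun x y : S => ¬ r x y)
  refine ⟨Subtype.val '' maxChain fun x y : S => ¬ r x y, Subtype.coe_image_subset _ _, ?_,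
    fun x hx => by_contra fun k => k ⟨x, ⟨⟨x, hx⟩, ?_, rfl⟩, h1 x⟩⟩
  · rintro _ ⟨x, hx, rfl⟩ _ ⟨y, hy, rfl⟩ k
    exact by_contra fun e => (h.1 hx hy fun e' => e (congrArg _ e')).elim (fun a => a k)
      fun a => a (h2 _ _ k)
  · rw [h.2 (h.1.insert (a := ⟨x, hx⟩) fun b hb _ => Or.inl fun a => k ⟨b, ⟨b, hb, rfl⟩, a⟩)
      (subset_insert _ _)]
    exact mem_insert _ _

variable {P : Type 1} [Preorder P]

theorem PS.multi (ps : PS P) {ι : Type*} [Countable ι] (Q : ι → P → Prop)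
    (hm : ∀ i, Mono (Q i)) (hd : ∀ i p, ∃ p' ≤ p, Q i p') (p : P) : ∃ p' ≤ p, ∀ i, Q i p' := by
  rcases isEmpty_or_nonempty ι with h | h
  · exact ⟨p, le_rfl, h.elim⟩
  obtain ⟨f, hf⟩ := exists_surjective_nat ι
  choose nx h1 h2 using hd
  obtain ⟨q, hq⟩ := ps.sigma (fun n => Nat.rec p (fun n x => nx (f n) x) n) fun n => h1 _ _
  refine ⟨q, hq 0, fun i => ?_⟩
  obtain ⟨n, rfl⟩ := hf i
  exact hm _ (h2 _ _) (hq (n + 1))

/-- A set that is forced to be countable is covered by a countable set of the first extension. -/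
theorem cover_cnt (ps : PS P) (n : NP P) (hc : Pccc n.le univ) {X : Type*} (B : X → n.C → Prop)
    (hB : ∀ x, Mono (B x))
    (hf : ∀ b : n.C, ∃ b' ≤ b, ∃ f : X → ℕ → n.C → Prop, (∀ x k, Mono (f x k)) ∧
      (∀ b'' ≤ b', ∀ x, B x b'' → ∃ b₃ ≤ b'', ∃ k, f x k b₃) ∧
      ∀ b'' ≤ b', ∀ x y k, B x b'' → B y b'' → f x k b'' → f y k b'' → x = y) (p : P) :
    ∃ p' ≤ p, ∃ A : Set X, A.Countable ∧ (∀ x ∈ A, ∃ r, B x (p', r)) ∧
      ∀ b : n.C, b.1 ≤ p' → ∀ x, B x b → x ∈ A := by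
  have lf : ∀ {p p' : P} (r : n.R), p' ≤ p → (show n.C from (p', r)) ≤ (p, r) := fun r h =>
    ⟨h, n.le_refl _ _⟩
  obtain ⟨p₁, h1, A₁, a1, a2, a3⟩ := hc (fun p r => ∃ f : X → ℕ → n.C → Prop,
    (∀ x k, Mono (f x k)) ∧ (∀ b'' ≤ (show n.C from (p, r)), ∀ x, B x b'' →
      ∃ b₃ ≤ b'', ∃ k, f x k b₃) ∧ ∀ b'' ≤ (show n.C from (p, r)), ∀ x y k, B x b'' → B y b'' →
      f x k b'' → f y k b'' → x = y)
    (fun p p' r ⟨f, k1, k2, k3⟩ h => ⟨f, k1, fun b hb => k2 b (hb.trans (lf r h)),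
      fun b hb => k3 b (hb.trans (lf r h))⟩) (fun _ _ _ => trivial) p
  choose f f1 f2 f3 using a2
  have := a1.to_subtype
  obtain ⟨p₂, h2, hQ⟩ := ps.multi (ι := A₁ × ℕ) (fun i p => ∃ A : Set X, A.Countable ∧
      (∀ x ∈ A, ∃ r, B x (p, r)) ∧ ∀ b : n.C, b.1 ≤ p → b ≤ (p₁, i.1.1) → ∀ x, B x b →
        f i.1.1 i.1.2 x i.2 b → x ∈ A)
    (fun i p p' ⟨A, k1, k2, k3⟩ h => ⟨A, k1, fun x hx => (k2 x hx).imp fun r a => hB x a (lf r h),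
      fun b hb => k3 b (hb.trans h)⟩) (fun i p => by
      obtain ⟨p', k1, A, k2, k3, k4⟩ := hc (fun p r => (show n.C from (p, r)) ≤ (p₁, i.1.1) ∧
        ∃ x, B x (p, r) ∧ f i.1.1 i.1.2 x i.2 (p, r))
        (fun p p' r ⟨a, x, b, c⟩ h => ⟨(lf r h).trans a, x, hB x b (lf r h), f1 _ _ _ _ c (lf r h)⟩)
        (fun _ _ _ => trivial) p
      choose k5 g g1 g2 using k3
      have := k2.to_subtype
      refine ⟨p', k1, range fun a : A => g a a.2, countable_range _, ?_, fun b b1 b2 x b3 b4 => ?_⟩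
      · rintro _ ⟨a, rfl⟩
        exact ⟨a, g1 a a.2⟩
      · obtain ⟨a, ha, p₃, c1, r₃, -, c2, c3⟩ := k4 b.1 b1 b.2 ⟨b2, x, b3, b4⟩
        have c4 : (show n.C from (p₃, r₃)) ≤ b := ⟨c1, c2⟩
        have c5 : (show n.C from (p₃, r₃)) ≤ (p', a) := ⟨c1.trans b1, c3⟩
        exact ⟨⟨a, ha⟩, f3 _ _ _ (c4.trans b2) _ _ _ (hB _ (g1 a ha) c5) (hB _ b3 c4)
          (f1 _ _ _ _ (g2 a ha) c5) (f1 _ _ _ _ b4 c4)⟩) p₁
  choose A k1 k2 k3 using hQ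
  refine ⟨p₂, h2.trans h1, ⋃ i, A i, countable_iUnion k1, fun x hx => ?_, fun b hb x hx => ?_⟩
  · obtain ⟨i, hi⟩ := mem_iUnion.1 hx
    exact k2 i x hi
  · obtain ⟨b', c1, c2⟩ := hf b
    obtain ⟨a, ha, p₃, c3, r₃, -, c4, c5⟩ := a3 b'.1 (c1.1.trans (hb.trans h2)) b'.2 c2
    have c6 : (show n.C from (p₃, r₃)) ≤ b := le_trans (b := b') ⟨c3, c4⟩ c1
    have c7 : (show n.C from (p₃, r₃)) ≤ (p₁, a) := ⟨c6.1.trans (hb.trans h2), c5⟩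
    obtain ⟨b₄, c8, k, c9⟩ := f2 a ha _ c7 x (hB x hx c6)
    exact mem_iUnion.2 ⟨(⟨a, ha⟩, k), k3 _ b₄ ((c8.trans c6).1.trans hb) (c8.trans c7) x
      (hB x hx (c8.trans c6)) c9⟩

end Pool.Agent.Work.MP_ee7661_gt.MA
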