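import Pool.Agent.Work.MP_ee7661_gt.MIter0
import Mathlib.Data.Set.Finite.Lemmas

/-! The finite support iteration and the countable chain condition. -/

namespace Pool.Agent.Work.MP_ee7661_gt.MA
open Set

/-- Finitely supported regressive functions. -/
def FS : Type 1 := {r : Ordinal.{0} → Ordinal.{0} // {ζ | r ζ ≠ 0}.Finite ∧ ∀ ζ, r ζ ≤ ζ}

namespace FS

open Classical in
/-- The function equal to `r'` on `E` and to `r` elsewhere. -/
noncomputable def glue (E : Set Ordinal.{0}) (r' r : FS) : FS :=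
  ⟨fun η => if η ∈ E then r'.1 η else r.1 η, (r'.2.1.union r.2.1).subset fun η h => by
    by_cases e : η ∈ E
    · exact Or.inl fun k => h ((if_pos e).trans k)
    · exact Or.inr fun k => h ((if_neg e).trans k), fun η => by
    show (if η ∈ E then r'.1 η else r.1 η) ≤ η
    split_ifs
    exacts [r'.2.2 η, r.2.2 η]⟩

theorem glue_pos {E : Set Ordinal.{0}} (r' r : FS) {η} (h : η ∈ E) : (glue E r' r).1 η = r'.1 η :=
  if_pos h

theorem glue_neg {E : Set Ordinal.{0}} (r' r : FS) {η} (h : η ∉ E) : (glue E r' r).1 η = r.1 η :=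
  if_neg h

/-- The trivial condition. -/
def zero : FS := ⟨fun _ => 0, by simp, fun _ => bot_le⟩

/-- The coordinate `ζ` is replaced. -/
noncomputable def upd (r : FS) (ζ w : Ordinal.{0}) (h : w ≤ ζ) : FS :=
  ⟨Function.update r.1 ζ w, (r.2.1.insert ζ).subset fun η k => by
    by_cases e : η = ζ
    · exact Or.inl e
    · exact Or.inr fun a => k ((Function.update_of_ne e _ _).trans a), fun η => by
    by_cases e : η = ζ
    · subst e; rwa [Function.update_self]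
    · rw [Function.update_of_ne e]; exact r.2.2 η⟩

theorem upd_self (r : FS) (ζ w h) : (r.upd ζ w h).1 ζ = w := Function.update_self _ _ _

theorem upd_ne (r : FS) {ζ w h η} (e : η ≠ ζ) : (r.upd ζ w h).1 η = r.1 η :=
  Function.update_of_ne e _ _

/-- Restriction. -/
noncomputable def rs (ξ : Ordinal.{0}) (r : FS) : FS := glue (Iio ξ) r zero

theorem rs_lt (r : FS) {ξ η} (h : η < ξ) : (r.rs ξ).1 η = r.1 η := glue_pos _ _ h

theorem rs_ge (r : FS) {ξ η} (h : ¬ η < ξ) : (r.rs ξ).1 η = 0 := glue_neg _ _ h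

theorem rs_congr {r r' : FS} {ξ} (h : ∀ η < ξ, r'.1 η = r.1 η) : r'.rs ξ = r.rs ξ :=
  Subtype.ext (funext fun η => by
    by_cases e : η < ξ
    · rw [rs_lt _ e, rs_lt _ e, h η e]
    · rw [rs_ge _ e, rs_ge _ e])

theorem rs_self {r : FS} {ξ} (h : {η | r.1 η ≠ 0} ⊆ Iio ξ) : r.rs ξ = r :=
  Subtype.ext (funext fun η => by
    by_cases e : η < ξ
    · exact rs_lt _ e
    · exact (rs_ge _ e).trans (not_not.1 fun k => e (h (Ne.symm k))))

theorem small (ξ : Ordinal.{0}) : Small.{0} {r : FS | {η | r.1 η ≠ 0} ⊆ Iio ξ} :=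
  small_of_injective (β := Iio ξ → Iio ξ) (f := fun r η => ⟨r.1.1 η, (r.1.2.2 η).trans_lt η.2⟩)
    fun r r' h => Subtype.ext ((rs_self r.2).symm.trans ((rs_congr fun η e =>
      congrArg Subtype.val (congrFun h ⟨η, e⟩)).trans (rs_self r'.2)))

end FS

variable {P : Type 1} [Preorder P] (ps : PS P)
  (cd : Ordinal.{0} → Set ((P × FS) × Ordinal.{0} × Ordinal.{0}))

/-- Restriction of conditions. -/
noncomputable def rb (ξ : Ordinal.{0}) (b : P × FS) : P × FS := (ps.res ξ b.1, b.2.rs ξ)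

theorem rb_rb {ξ ζ} (h : ξ ≤ ζ) (b : P × FS) : rb ps ξ (rb ps ζ b) = rb ps ξ b :=
  Prod.ext (ps.res_res ξ ζ _ h) (FS.rs_congr fun _ e => FS.rs_lt _ (e.trans_le h))

/-- The order at coordinate `ζ`. -/
def rel (ζ : Ordinal.{0}) (b : P × FS) (x y : Ordinal.{0}) : Prop :=
  (∀ b' x', (b', x', y) ∉ cd ζ) ∨ x = y ∨ ∃ ξ ≤ ζ, (rb ps ξ b, x, y) ∈ cd ζ

/-- The order of the iteration along the coordinates in `h`. -/
def le (h : Ordinal.{0} → Prop) (p : P) (r' r : FS) : Prop :=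
  ∀ ζ, h ζ → rel ps cd ζ (p, r') (r'.1 ζ) (r.1 ζ)

/-- The candidate at `ζ` is used. -/
structure Good (h : Ordinal.{0} → Prop) (ζ : Ordinal.{0}) : Prop where
  top : ∀ b x, (b, x, 0) ∉ cd ζ
  mono : ∀ (b b' : P × FS) x y, b'.1 ≤ b.1 → le ps cd h b'.1 b'.2 b.2 → rel ps cd ζ b x y →
    rel ps cd ζ b' x y
  trans : ∀ b x y z, rel ps cd ζ b z y → rel ps cd ζ b y x → rel ps cd ζ b z x
  ccc : Pccc (le ps cd fun η => h η ∨ η = ζ) univ

/-- The coordinates that are used. -/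
noncomputable def gd : Ordinal.{0} → Prop :=
  wellFounded_lt.fix fun ζ IH => Good ps cd (fun η => ∃ h : η < ζ, IH η h) ζ

theorem gd_iff (ζ : Ordinal.{0}) : gd ps cd ζ ↔ Good ps cd (fun η => η < ζ ∧ gd ps cd η) ζ := by
  rw [gd, WellFounded.fix_eq]
  exact iff_of_eq (congrArg (Good ps cd · ζ) (funext fun η => propext exists_prop))

variable {ps cd}

theorem rel.congr {ζ b b' x y} (h : rel ps cd ζ b x y) (e : rb ps ζ b' = rb ps ζ b) :
    rel ps cd ζ b' x y :=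
  h.imp_right (Or.imp_right fun ⟨ξ, h1, h2⟩ => ⟨ξ, h1, by rwa [← rb_rb ps h1, e, rb_rb ps h1]⟩)

theorem rel.congr' {ζ p r r' x y} (h : rel ps cd ζ (p, r) x y) (e : ∀ η < ζ, r'.1 η = r.1 η) :
    rel ps cd ζ (p, r') x y := h.congr (Prod.ext rfl (FS.rs_congr e))

theorem rel_eq {ζ b x y} (h : x = y) : rel ps cd ζ b x y := Or.inr (Or.inl h)

theorem gd.top {ζ b x y} (h : gd ps cd ζ) (e : y = 0) : rel ps cd ζ b x y :=
  Or.inl (e ▸ ((gd_iff ps cd ζ).1 h).top)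

theorem gd.mono {ζ} {b b' : P × FS} {x y} (h : gd ps cd ζ) (h1 : b'.1 ≤ b.1)
    (h2 : le ps cd (gd ps cd) b'.1 b'.2 b.2) : rel ps cd ζ b x y → rel ps cd ζ b' x y :=
  ((gd_iff ps cd ζ).1 h).mono b b' x y h1 fun η k => h2 η k.2

variable (ps cd)

/-- The iteration as a name of a preorder. -/
noncomputable def np : NP P where
  R := FS
  le := le ps cd (gd ps cd)
  le_refl _ _ _ _ := rel_eq rfl
  le_trans p _ r' r'' h h' ζ k := ((gd_iff ps cd ζ).1 k).trans _ _ _ _ (h ζ k)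
    (k.mono (b := (p, r')) (b' := (p, r'')) le_rfl h (h' ζ k))
  le_mono p p' _ r' h h' ζ k :=
    k.mono (b := (p, r')) (b' := (p', r')) h' (fun _ _ => rel_eq rfl) (h ζ k)

theorem pccc_empty : Pccc (le ps cd fun _ => False) univ := by
  intro D hD _ p
  by_cases h : ∃ p' ≤ p, ∃ r, D p' r
  · obtain ⟨p', h1, a, h2⟩ := h
    exact ⟨p', h1, {a}, countable_singleton _, fun _ e => e ▸ h2, fun p'' _ r _ =>
      ⟨a, rfl, p'', le_rfl, r, trivial, fun _ => False.elim, fun _ => False.elim⟩⟩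
  · exact ⟨p, le_rfl, ∅, countable_empty, fun _ => False.elim, fun p' h1 r h2 =>
      absurd ⟨p', h1, r, h2⟩ h⟩

theorem glue_le {S E : Set Ordinal.{0}} (hE : IsLowerSet E) {p : P} {r a r₃ : FS}
    (h1 : le ps cd (fun η => η ∈ E ∧ gd ps cd η) p r₃ r)
    (h2 : le ps cd (fun η => η ∈ E ∧ gd ps cd η) p r₃ a)
    (h3 : ∀ η ∈ S, η ∉ E → r.1 η = 0 ∨ a.1 η = 0) :
    ∃ r₄, le ps cd (fun η => η ∈ S ∧ gd ps cd η) p r₄ r ∧
      le ps cd (fun η => η ∈ S ∧ gd ps cd η) p r₄ a := by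
  refine ⟨FS.glue E r₃ (FS.glue {η | r.1 η = 0} a r), fun η k => ?_, fun η k => ?_⟩ <;>
    by_cases e : η ∈ E
  · rw [FS.glue_pos _ _ e]
    exact (h1 η ⟨e, k.2⟩).congr' fun ζ x => FS.glue_pos _ _ (hE x.le e)
  · by_cases e' : r.1 η = 0
    · exact k.2.top e'
    · exact rel_eq ((FS.glue_neg _ _ e).trans (FS.glue_neg _ _ e'))
  · rw [FS.glue_pos _ _ e]
    exact (h2 η ⟨e, k.2⟩).congr' fun ζ x => FS.glue_pos _ _ (hE x.le e)
  · rcases h3 η k.1 e with e' | e'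
    · exact rel_eq ((FS.glue_neg _ _ e).trans (FS.glue_pos _ _ e'))
    · exact k.2.top e'

theorem pccc_lim {S : Set Ordinal.{0}}
    (h : ∀ ζ ∈ S, Pccc (le ps cd fun η => η ∈ Iic ζ ∧ gd ps cd η) univ) :
    Pccc (le ps cd fun η => η ∈ S ∧ gd ps cd η) univ := by
  intro D hD hS p
  obtain ⟨p₀, h0, A₀, a1, a2, a3⟩ := pccc_empty ps cd D hD hS p
  have hc : ∀ A : Set FS, A.Countable → (⋃ a ∈ A, {η | a.1 η ≠ 0}).Countable := fun A hA =>
    hA.biUnion fun a _ => a.2.1.countable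
  obtain ⟨s, x, s0, hs, hx⟩ := bookkeep (S := P × {A : Set FS // A.Countable}) (0 : Ordinal.{0})
    (fun _ s => ⋃ a ∈ s.2.1, {η | a.1 η ≠ 0}) (fun _ s => hc _ s.2.2)
    (fun _ s => ∀ a ∈ s.2.1, D s.1 a)
    (fun _ s x s' => s'.1 ≤ s.1 ∧ (x ∈ S → ∀ p'' ≤ s'.1, ∀ r, D p'' r → ∃ a ∈ s'.2.1,
      ∃ p₃ ≤ p'', ∃ r₃ ∈ univ, le ps cd (fun η => η ∈ Iic x ∧ gd ps cd η) p₃ r₃ r ∧
        le ps cd (fun η => η ∈ Iic x ∧ gd ps cd η) p₃ r₃ a))
    (p₀, ⟨A₀, a1⟩) a2 fun n s x k => by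
      by_cases e : x ∈ S
      · obtain ⟨p', k1, A, k2, k3, k4⟩ := h x e D hD hS s.1
        exact ⟨(p', ⟨A, k2⟩), k3, k1, fun _ => k4⟩
      · exact ⟨s, k, le_rfl, fun e' => absurd e' e⟩
  obtain ⟨q, hq⟩ := ps.sigma (fun n => (s n).1) fun n => (hs n).2.1
  have hq0 : q ≤ p₀ := by simpa only [s0] using hq 0
  refine ⟨q, hq0.trans h0, ⋃ n, (s n).2.1, countable_iUnion fun n => (s n).2.2, fun a ha => ?_,
    fun p'' hp r hr => ?_⟩
  · obtain ⟨n, hn⟩ := mem_iUnion.1 ha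
    exact hD _ _ _ ((hs n).1 a hn) (hq n)
  have hf : {η | r.1 η ≠ 0 ∧ η ∈ S ∧ ∃ n, ∃ a ∈ (s n).2.1, a.1 η ≠ 0}.Finite :=
    r.2.1.subset fun η k => k.1
  rcases eq_empty_or_nonempty {η | r.1 η ≠ 0 ∧ η ∈ S ∧ ∃ n, ∃ a ∈ (s n).2.1, a.1 η ≠ 0} with e | e
  · obtain ⟨a, ha, -⟩ := a3 p'' (hp.trans hq0) r hr
    have ha' : a ∈ (s 0).2.1 := by simpa only [s0] using ha
    obtain ⟨r₄, k⟩ := glue_le ps cd (S := S) (p := p'') (r := r) (a := a) (r₃ := r) isLowerSet_empty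
      (fun _ k => k.1.elim) (fun _ k => k.1.elim) fun η k _ => by_contra fun k' =>
        (Set.ext_iff.1 e η).1 ⟨fun z => k' (Or.inl z), k, 0, a, ha', fun z => k' (Or.inr z)⟩
    exact ⟨a, mem_iUnion.2 ⟨0, ha'⟩, p'', le_rfl, r₄, trivial, k⟩
  · obtain ⟨ζ, ⟨-, z1, n, a, z2, z3⟩, z4⟩ := exists_max_image _ id hf e
    obtain ⟨m, -, rfl⟩ := hx n ζ (mem_biUnion z2 z3)
    obtain ⟨a', k1, p₃, k2, r₃, -, k3, k4⟩ := (hs m).2.2 z1 p'' (hp.trans (hq _)) r hr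
    obtain ⟨r₄, k⟩ := glue_le ps cd (S := S) (isLowerSet_Iic _) k3 k4 fun η k e' =>
      by_contra fun k' =>
        e' (z4 η ⟨fun z => k' (Or.inl z), k, _, a', k1, fun z => k' (Or.inr z)⟩)
    exact ⟨a', mem_iUnion.2 ⟨_, k1⟩, p₃, k2, r₄, trivial, k⟩

theorem pccc_Iic (ζ : Ordinal.{0}) : Pccc (le ps cd fun η => η ∈ Iic ζ ∧ gd ps cd η) univ := by
  induction ζ using WellFoundedLT.induction with
  | ind ζ ih =>
    by_cases h : gd ps cd ζ
    · convert ((gd_iff ps cd ζ).1 h).ccc using 3 with η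
      exact ⟨fun k => k.1.lt_or_eq.imp_left fun e => ⟨e, k.2⟩,
        fun k => k.elim (fun e => ⟨e.1.le, e.2⟩) fun e => ⟨e.le, e ▸ h⟩⟩
    · convert pccc_lim ps cd (S := Iio ζ) ih using 3 with η
      exact ⟨fun k => ⟨lt_of_le_of_ne k.1 fun e : η = ζ => h (e ▸ k.2), k.2⟩,
        fun k => ⟨le_of_lt (a := η) k.1, k.2⟩⟩

theorem pccc_np : Pccc (np ps cd).le univ := by
  have := pccc_lim ps cd (S := univ) fun ζ _ => pccc_Iic ps cd ζ
  simp only [mem_univ, true_and] at this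
  exact this

variable {ps cd}

theorem le_rb (ξ) (b : (np ps cd).C) : b ≤ rb ps ξ b :=
  ⟨ps.le_res _ _, fun η k => by
    by_cases e : η < ξ
    · exact rel_eq (FS.rs_lt _ e).symm
    · exact k.top (FS.rs_ge _ e)⟩

theorem rb_mono' (ξ) (b b' : P × FS) (h1 : b'.1 ≤ b.1)
    (h2 : le ps cd (fun η => η < ξ ∧ gd ps cd η) b'.1 b'.2 b.2) :
    (show (np ps cd).C from rb ps ξ b') ≤ rb ps ξ b :=
  ⟨ps.res_mono _ _ _ h1, fun η k => by
    by_cases e : η < ξ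
    · show rel ps cd η (rb ps ξ b') ((b'.2.rs ξ).1 η) ((b.2.rs ξ).1 η)
      rw [FS.rs_lt _ e, FS.rs_lt _ e]
      exact (h2 η ⟨e, k⟩).congr (rb_rb ps e.le _)
    · exact k.top (FS.rs_ge _ e)⟩

theorem rb_mono (ξ) {b b' : (np ps cd).C} (h : b' ≤ b) :
    (show (np ps cd).C from rb ps ξ b') ≤ rb ps ξ b := rb_mono' ξ b b' h.1 fun η k => h.2 η k.2

theorem rb_amalg (ξ) (b b' : (np ps cd).C) (h : b' ≤ rb ps ξ b) :
    ∃ b'' : (np ps cd).C, b'' ≤ rb ps ξ b' ∧ b'' ≤ b := by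
  obtain ⟨p, h1, h2⟩ := ps.amalg ξ b.1 (ps.res ξ b'.1)
    (ps.res_res ξ ξ b.1 le_rfl ▸ ps.res_mono ξ _ _ h.1) (ps.supp_res _ _)
  have k : (show (np ps cd).C from (p, FS.glue (Iio ξ) b'.2 b.2)) ≤ rb ps ξ b' :=
    ⟨h1, fun η k => by
      by_cases e : η < ξ
      · exact rel_eq ((FS.glue_pos _ _ e).trans (FS.rs_lt _ e).symm)
      · exact k.top (FS.rs_ge _ e)⟩
  refine ⟨_, k, h2, fun η a => ?_⟩
  by_cases e : η < ξ
  · have := a.mono k.1 k.2 ((h.2 η a).congr (rb_rb ps e.le b'))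
    rw [show (rb ps ξ b).2.1 η = _ from FS.rs_lt _ e, ← FS.glue_pos b'.2 b.2 (E := Iio ξ) e] at this
    exact this
  · exact rel_eq (FS.glue_neg _ _ e)

end Pool.Agent.Work.MP_ee7661_gt.MA
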