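import Pool.Agent.Work.MP_ee7661_gt.MPS

/-! Every pruned subtree has a cluster node in every extension with the countable chain
condition. -/

namespace Pool.Agent.Work.MP_ee7661_gt.MA
open Set

variable {W : Type 1} [LinearOrder W] [WellFoundedLT W] [OrderBot W] [Om1 W]

/-- `b` forces that `s` is a cluster node. -/
def Cluster {C : Type 1} [Preorder C] (In : Node W → C → Prop) (s : Node W) (b : C) : Prop :=
  ∀ b' ≤ b, ∀ γ < s.ht, ∀ (k : ℕ) (θ : W), s.ht ≤ θ → ∃ b'' ≤ b', ∃ δ < s.ht,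
    ∃ t : Fin k → Node W, (∀ j, In (t j) b'' ∧ (t j).ht = θ ∧ ∀ i < γ, i ∈ (t j).a ↔ i ∈ s.a) ∧
      ∀ j j', j ≠ j' → ∀ i, δ ≤ i → i < θ → (i ∈ (t j).a ↔ i ∈ s.a) ∨ (i ∈ (t j').a ↔ i ∈ s.a)

omit [WellFoundedLT W] [Om1 W] in
theorem Cond.le_of_set {p q : Cond W} {β h} (h1 : q ≤ p.set β none h)
    (h2 : ∀ a, p.c β = some a → ∃ a', q.c β = some a' ∧ ∀ i < p.ρ, i ∈ a' ↔ i ∈ a) : q ≤ p :=
  ⟨h1.ρ_le, h1.T_sub, h1.T_end, h1.G_sub, h1.G_dep, fun γ a e => by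
    by_cases k : γ = β
    · exact k ▸ h2 a (k ▸ e)
    · exact h1.c_ext γ a ((p.set_c_ne k).trans e)⟩

omit [WellFoundedLT W] [Om1 W] in
theorem Cond.set_le {p q : Cond W} {β o h} (h1 : q ≤ p) (h2 : p.c β = none) : q.set β o h ≤ p :=
  ⟨h1.ρ_le, h1.T_sub, h1.T_end, h1.G_sub, h1.G_dep, fun γ a e => by
    rw [q.set_c_ne fun k => by simp [k, h2] at e]
    exact h1.c_ext γ a e⟩

theorem bound (it : It (psC W)) (Φ : W → it.C → Prop) (hΦ : ∀ θ, Mono (Φ θ)) (p : Cond W) :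
    ∃ p' ≤ p, ∀ b : it.C, b.1 ≤ p' → ∀ θ, Φ θ b → ∃ b₃ ≤ b, ∃ θ' < p'.ρ, Φ θ' b₃ := by
  obtain ⟨p₁, h1, A, hA, h2, h3⟩ := it.pccc (fun p r => ∃ θ, Φ θ (p, r))
    (fun p p' r ⟨θ, h⟩ k => ⟨θ, hΦ θ h ⟨k, it.le_refl _ _⟩⟩) (fun _ _ _ => trivial) p
  choose f hf using h2
  have := hA.to_subtype
  obtain ⟨α, hα⟩ := Om1.bdd _ (countable_range fun a : A => f a a.2)
  obtain ⟨p₂, h4, h5⟩ := Cond.exists_ht α p₁
  refine ⟨p₂, h4.trans h1, fun b hb θ h => ?_⟩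
  obtain ⟨a, ha, p₃, k1, r₃, -, k2, k3⟩ := h3 b.1 (hb.trans h4) b.2 ⟨θ, h⟩
  exact ⟨(p₃, r₃), ⟨k1, k2⟩, f a ha, (hα _ ⟨⟨a, ha⟩, rfl⟩).trans_le h5,
    hΦ _ (hf a ha) (b' := (p₃, r₃)) ⟨k1.trans (hb.trans h4), k3⟩⟩

variable {it : It (psC W)} (In : Node W → it.C → Prop) (ξ : Ordinal.{0})

/-- `b` forces that the nodes `u v` have no near-unanimous lifting from `ρ` to `θ`. -/
def PA (τ : Finset (ℕ × ℕ)) (u : ℕ × ℕ → Node W) (ρ θ : W) (b : it.C) : Prop :=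
  ρ ≤ θ ∧ θ ≤ b.1.ρ ∧ ∃ c, b.1.c ξ = some c ∧ ∀ b' ≤ b, ∀ t : ℕ × ℕ → Node W,
    (∀ v ∈ τ, In (t v) b' ∧ (t v).ht = θ ∧ (t v).res ρ = u v) →
    ¬ ∀ v ∈ τ, ∀ v' ∈ τ, v ≠ v' → ∀ i, ρ ≤ i → i < θ →
      (i ∈ (t v).a ↔ i ∈ c) ∨ (i ∈ (t v').a ↔ i ∈ c)

theorem PA.mono (τ u ρ θ) : Mono (PA In ξ τ u ρ θ) := by
  rintro b b' ⟨h1, h2, c, h3, h4⟩ h
  obtain ⟨c', k1, k2⟩ := h.1.c_ext ξ c h3
  refine ⟨h1, h2.trans h.1.ρ_le, c', k1, fun b'' hb t ht k => h4 b'' (hb.trans h) t ht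
    fun v hv v' hv' e i i1 i2 => ?_⟩
  rw [← k2 i (i2.trans_le h2)]
  exact k v hv v' hv' e i i1 i2

/-- `b` forces a node of height `θ` above `u` that has cost `x` at some level from `ρ` on. -/
def PB (u : Node W) (x : ℚ) (ρ θ : W) (b : it.C) : Prop :=
  ∃ t, In t b ∧ t.ht = θ ∧ t.res ρ = u ∧ ∃ i, ρ ≤ i ∧ i < θ ∧ t.φ i = x

/-- Witnesses of `Φ` are bounded by the height of `p` when the section `ξ` extends `c`. -/
def Bd (Φ : W → it.C → Prop) (p : Cond W) (c : Set W) : Prop :=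
  ∀ b : it.C, b.1 ≤ p → (∃ c', b.1.c ξ = some c' ∧ ∀ i < p.ρ, i ∈ c' ↔ i ∈ c) →
    ∀ θ, Φ θ b → ∃ b₃ ≤ b, ∃ θ' < p.ρ, Φ θ' b₃

theorem exists_mv (Φ Ψ : W → it.C → Prop) (hΦ : ∀ θ, Mono (Φ θ)) (hΨ : ∀ θ, Mono (Ψ θ))
    (p : Cond W) : ∃ p' c, p' ≤ p ∧ Dep p'.G (Iio p'.ρ) (· ∈ c) ∧ (p.c ξ = none →
      p'.c ξ = none ∧ p.ρ < p'.ρ ∧ Dep p'.G (Iio p'.ρ) (· ∈ c) ∧ Bd ξ Φ p' c ∧ Bd ξ Ψ p' c) := by
  by_cases h : p.c ξ = none
  swap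
  · exact ⟨p, ∅, le_rfl, Dep.const _ _ False, fun k => absurd k h⟩
  obtain ⟨p₁, h1, k1⟩ := bound it Φ hΦ (p.set ξ (some ∅) fun a e =>
    Option.some.inj e ▸ Dep.const _ _ False)
  obtain ⟨p₂, h2, k2⟩ := bound it Ψ hΨ p₁
  obtain ⟨p₃, h3, k3⟩ := p₂.exists_succ
  obtain ⟨c, e, -⟩ := (h3.trans (h2.trans h1)).c_ext ξ ∅ (Cond.set_c_self _ _ _ _)
  have key : ∀ b : it.C, b.1 ≤ p₃.set ξ none (fun _ e => nomatch e) →
      (∃ c', b.1.c ξ = some c' ∧ ∀ i < p₃.ρ, i ∈ c' ↔ i ∈ c) → b.1 ≤ p₃ := fun b a a' =>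
    Cond.le_of_set a fun c' e' => Option.some.inj (e.symm.trans e') ▸ a'
  refine ⟨p₃.set ξ none (fun _ e => nomatch e), c,
    Cond.set_le (h3.trans (h2.trans (h1.trans (Cond.set_le le_rfl h)))) h, p₃.c_dep ξ c e,
    fun _ => ⟨Cond.set_c_self _ _ _ _, (h2.trans h1).ρ_le.trans_lt k3, p₃.c_dep ξ c e,
      fun b a a' θ x => ?_, fun b a a' θ x => ?_⟩⟩
  · obtain ⟨b₃, y, θ', z, w⟩ := k1 b ((key b a a').trans (h3.trans h2)) θ x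
    exact ⟨b₃, y, θ', z.trans_le (h3.trans h2).ρ_le, w⟩
  · obtain ⟨b₃, y, θ', z, w⟩ := k2 b ((key b a a').trans h3) θ x
    exact ⟨b₃, y, θ', z.trans_le h3.ρ_le, w⟩

theorem nu_main (it : It (psC W)) (In : Node W → it.C → Prop) (hm : ∀ t, Mono (In t))
    (hr : ∀ t, Reg (In t)) (hT : ∀ t b, In t b → ∃ b' ≤ b, t ∈ b'.1.T) (b₀ : it.C) :
    ∃ b ≤ b₀, (∀ b' ≤ b, ¬ In (Node.root W) b') ∨
      (∃ t α, In t b ∧ α ≤ t.ht ∧ ∀ b' ≤ b, ¬ In (t.res α) b') ∨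
      (∃ t θ, In t b ∧ t.ht ≤ θ ∧ ∀ b' ≤ b, ∀ t', t'.ht = θ → t'.res t.ht = t → ¬ In t' b') ∨
      ∃ s, In s b ∧ ⊥ < s.ht ∧ Cluster In s b := by
  classical
  by_contra hn
  have hn' := fun b hb => not_or.1 (not_and.1 (not_exists.1 hn b) hb)
  have H1 : In (Node.root W) b₀ := hr _ _ fun b hb => by
    simpa using (hn' b hb).1
  have H2 : ∀ b ≤ b₀, ∀ t α, In t b → α ≤ t.ht → In (t.res α) b := fun b hb t α h1 h2 =>
    hr _ _ fun b' hb' => by_contra fun k => (not_or.1 (hn' b' (hb'.trans hb)).2).1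
      ⟨t, α, hm t h1 hb', h2, fun b'' x y => k ⟨b'', x, y⟩⟩
  have H3 : ∀ b ≤ b₀, ∀ t θ, In t b → t.ht ≤ θ →
      ∃ b' ≤ b, ∃ t', t'.ht = θ ∧ t'.res t.ht = t ∧ In t' b' := fun b hb t θ h1 h2 =>
    by_contra fun k => (not_or.1 (not_or.1 (hn' b hb).2).2).1
      ⟨t, θ, h1, h2, fun b' x t' y z w => k ⟨b', x, t', y, z, w⟩⟩
  have H4 : ∀ b ≤ b₀, ∀ s, In s b → ⊥ < s.ht → ¬ Cluster In s b := fun b hb s h1 h2 k =>
    (not_or.1 (not_or.1 (hn' b hb).2).2).2 ⟨s, h1, h2, k⟩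
  obtain ⟨ξ, x1, x2, x3⟩ := it.cap (Node W) inferInstance In hm hr b₀
  have OW : ∀ b ≤ b₀, ∀ c h, ∃ b' : it.C, b'.1 = b.1.set ξ (some c) h ∧ b' ≤ b₀ ∧
      (∀ t, In t b → In t b') ∧ ∀ b'' ≤ b', ∃ b₃ ≤ b, ∀ t, In t b'' → In t b₃ := by
    intro b hb c h
    have k1 : (show it.C from (b.1.set ξ (some c) h, it.rs ξ b.2)) ≤
        ((psC W).res ξ b.1, it.rs ξ b.2) :=
      ⟨(show (psC W).res ξ b.1 = _ from (b.1.res_set ξ _ h).symm) ▸ (psC W).le_res ξ _,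
        it.le_refl _ _⟩
    have k2 := it.res_mono ξ b₀ b hb
    rw [(psC W).res_self ξ _ x1, x2] at k2
    refine ⟨_, rfl, k1.trans k2, fun t a => hm t (x3 t b a) k1, fun b'' a => ?_⟩
    obtain ⟨b₃, a1, a2⟩ := it.amalg ξ b b'' (a.trans k1)
    exact ⟨b₃, a2, fun t y => hm t (x3 t b'' y) a1⟩
  obtain ⟨f, hf⟩ := exists_surjective_nat (Finset (ℕ × ℕ) × (ℕ × ℕ) × ℚ)
  obtain ⟨p, u, c, q, sz, top, s0, s1, s2, s3, s4, s5, s6, s7, s8⟩ := exists_seal b₀.1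
    (fun n p u p' c => p.c ξ = none → p'.c ξ = none ∧ p.ρ < p'.ρ ∧ Dep p'.G (Iio p'.ρ) (· ∈ c) ∧
      Bd ξ (PA In ξ (f n.unpair.2).1 u p.ρ) p' c ∧
      Bd ξ (PB In (u (f n.unpair.2).2.1) (f n.unpair.2).2.2 p.ρ) p' c)
    (fun n p u => exists_mv ξ _ _ (PA.mono In ξ _ _ _)
      (fun θ b b' ⟨t, h1, h2⟩ h => ⟨t, hm t h1 h, h2⟩) p) fun n => (f n.unpair.2).1
  have c0 : ∀ n, (p n).c ξ = none := fun n => Nat.rec
    (s0 ▸ by_contra fun k => lt_irrefl ξ (x1 k)) (fun n ih => (s2 n ih).1) n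
  have lt : ∀ n, (p n).ρ < q.ρ := fun n => (s2 n (c0 n)).2.1.trans_le (s3 _).ρ_le
  have mono : Monotone fun n => (p n).ρ := monotone_nat_of_le_succ fun n => (s1 n).ρ_le
  have req : ∀ x (S : Set W), S.Finite → (∀ i ∈ S, i < q.ρ) → ∀ N, ∃ n, N ≤ n ∧
      f n.unpair.2 = x ∧ ∀ i ∈ S, i < (p n).ρ := by
    intro x S h1 h2 N
    obtain ⟨j, rfl⟩ := hf x
    have := h1.to_subtype
    choose g hg using fun i : S => s4 i (h2 i i.2)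
    obtain ⟨M, hM⟩ := (finite_range g).bddAbove
    have k := Nat.left_le_pair (max N M) j
    exact ⟨Nat.pair (max N M) j, (le_max_left _ _).trans k, by rw [Nat.unpair_pair],
      fun i hi => (hg ⟨i, hi⟩).trans_le (mono ((hM ⟨_, rfl⟩).trans ((le_max_right _ _).trans k)))⟩
  let b₁ : it.C := (q, b₀.2)
  have b10 : b₁ ≤ b₀ := ⟨s0 ▸ s3 0, it.le_refl _ _⟩
  have totop : ∀ b ≤ b₁, ∀ t, In t b → t.ht ≤ q.ρ → ∃ b' ≤ b, ∃ v : ℕ × ℕ, v.2 < sz v.1 ∧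
      In (top v) b' ∧ (top v).res t.ht = t := by
    intro b hb t h1 h2
    obtain ⟨b', k1, t', k2, k3, k4⟩ := H3 b (hb.trans b10) t _ h1 h2
    obtain ⟨b'', k5, k6⟩ := hT t' b' k4
    rcases s6 t' ((k5.trans (k1.trans hb)).1.T_end t' k6 k2.le) with ⟨n, h⟩ | ⟨v, h, rfl⟩
    · exact absurd (k2 ▸ (p n).ht_le t' h) (lt n).not_ge
    · exact ⟨b', k1, v, h, k4, k3⟩
  obtain ⟨b₂, b21, v₀, v1, v2, -⟩ := totop b₁ le_rfl _ (hm _ H1 b10) bot_le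
  obtain ⟨w1, w2, w3⟩ := s7 v₀ v1
  have := H4 b₂ (b21.trans b10) _ v2 (w2 ▸ bot_le.trans_lt (lt 0))
  simp only [Cluster, not_forall, not_exists, not_and] at this
  obtain ⟨b₃, b32, γ, hγ, k, θ, hθ, hF⟩ := this
  rw [w2] at hγ hθ hF
  obtain ⟨σ, hσ, -⟩ := exists_succ q.ρ
  obtain ⟨b₄, b43, s, y1, y2, y3⟩ := H3 b₃ (b32.trans (b21.trans b10)) _ σ (hm _ v2 b32)
    (w2 ▸ hσ.le)
  rw [w2] at y2
  have b41 := b43.trans (b32.trans b21)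
  have find : ∀ k, ∀ b ≤ b₄, ∃ b' ≤ b, ∃ τ : Finset (ℕ × ℕ), τ.card = k ∧
      (∀ v ∈ τ, v.2 < sz v.1 ∧ In (top v) b' ∧ ∀ i < γ, i ∈ (top v).a ↔ i ∈ (top v₀).a) ∧
      ∀ v ∈ τ, ∀ v' ∈ τ, v.1 = v'.1 → v = v' := by
    intro k
    induction k with
    | zero => exact fun b _ => ⟨b, le_rfl, ∅, rfl, by simp, by simp⟩
    | succ k ih =>
      intro b hb
      obtain ⟨b', a1, τ, a2, a3, a4⟩ := ih b hb
      have a5 := a1.trans (hb.trans b41)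
      have fin : (⋃ v ∈ τ, ⋃ j ∈ Iio (sz v.1),
          {i | i < q.ρ ∧ (top (v.1, j)).φ i = s.φ q.ρ}).Finite := by
        refine τ.finite_toSet.biUnion fun v _ => (finite_Iio _).biUnion fun j hj =>
          Subsingleton.finite fun i hi i' hi' => ?_
        obtain ⟨z1, z2, -⟩ := s7 (v.1, j) hj
        rcases lt_trichotomy i i' with e | e | e
        · exact absurd (hi.2.trans hi'.2.symm) ((q.wf _ z1).mono _ _ e (z2 ▸ hi'.1)).ne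
        · exact e
        · exact absurd (hi'.2.trans hi.2.symm) ((q.wf _ z1).mono _ _ e (z2 ▸ hi.1)).ne
      obtain ⟨n, n1, n2, n3⟩ := req (∅, v₀, s.φ q.ρ) _ (fin.insert γ) (by
        rintro i (rfl | hi)
        · exact hγ
        · simp only [mem_iUnion] at hi
          obtain ⟨_, _, _, _, h⟩ := hi
          exact h.1) (v₀.1 + 1)
      obtain ⟨-, -, m1, -, m2⟩ := s2 n (c0 n)
      rw [n2] at m2
      have a6 : b'.1 ≤ p (n + 1) := a5.1.trans (s3 _)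
      obtain ⟨d, d1, -, d3, d4⟩ := OW b' (a5.trans b10) _ fun a e =>
        Option.some.inj e ▸ Cond.dep_cut a6 m1
      obtain ⟨d', d5, θ', d6, t, t1, t2, t3, i, i1, i2, i3⟩ := m2 d
        (d1 ▸ Cond.set_le a6 (c0 _)) ⟨_, d1 ▸ Cond.set_c_self _ _ _ _, fun i hi => and_iff_left hi⟩
        σ ⟨s, d3 s (hm s y3 (a1.trans hb)), y1,
          by rw [← Node.res_res _ (lt n).le, y2, w3 n n1], q.ρ, (lt n).le, hσ, rfl⟩
      obtain ⟨e, e1, e2⟩ := d4 d' d5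
      obtain ⟨e', e3, v, e4, e5, e6⟩ := totop e (e1.trans a5) t (e2 t t1)
        (t2 ▸ (d6.trans (lt _)).le)
      have new : ∀ v' ∈ τ, v'.1 ≠ v.1 := fun v' hv' h => by
        refine (n3 i (Or.inr ?_)).not_ge i1
        simp only [mem_iUnion]
        refine ⟨v', hv', v.2, h ▸ e4, i2.trans (d6.trans (lt _)), ?_⟩
        rw [h]
        exact (Node.φ_of_res e6 (t2 ▸ i2)).symm.trans i3
      refine ⟨e', e3.trans (e1.trans a1), insert v τ,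
        by rw [Finset.card_insert_of_notMem fun h => new v h rfl, a2], ?_, ?_⟩
      · intro v' hv'
        rcases Finset.mem_insert.1 hv' with rfl | h
        · refine ⟨e4, e5, fun j hj => ?_⟩
          have j1 := hj.trans (n3 γ (Or.inl rfl))
          rw [← Node.mem_of_res e6 (t2 ▸ j1.trans (i1.trans_lt i2)), ← Node.mem_of_res t3 j1,
            w3 n n1, Node.mem_res_lt j1]
        · exact ⟨(a3 v' h).1, hm _ (a3 v' h).2.1 (e3.trans e1), (a3 v' h).2.2⟩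
      · intro x hx x' hx' h
        rcases Finset.mem_insert.1 hx with rfl | z <;> rcases Finset.mem_insert.1 hx' with rfl | z'
        exacts [rfl, absurd h.symm (new _ z'), absurd h (new _ z), a4 _ z _ z' h]
  obtain ⟨b₅, b54, τ, a2, a3, a4⟩ := find k b₄ le_rfl
  obtain ⟨p₆, p1, p2⟩ := Cond.exists_ht θ b₅.1
  let b₆ : it.C := (p₆, b₅.2)
  have b65 : b₆ ≤ b₅ := ⟨p1, it.le_refl _ _⟩
  have b61 := b65.trans (b54.trans b41)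
  obtain ⟨n, n1, n2, n3⟩ := req (τ, v₀, 0) {γ} (finite_singleton _) (by rintro _ rfl; exact hγ)
    (τ.sup Prod.fst + 1)
  have n4 := n3 γ rfl
  have n5 : ∀ v ∈ τ, v.1 < n := fun v hv => (Nat.lt_succ_of_le (Finset.le_sup hv)).trans_le n1
  obtain ⟨-, -, m1, m2, -⟩ := s2 n (c0 n)
  have m3 := s8 n
  rw [n2] at m2 m3
  have a6 : p₆ ≤ p (n + 1) := b61.1.trans (s3 _)
  obtain ⟨d, d1, d2, d3, d4⟩ := OW b₆ (b61.trans b10)
    {i | i ∈ c n ∩ Iio (p (n + 1)).ρ ∨ (i ∈ (top v₀).a ∧ i ∉ Iio (p (n + 1)).ρ)} fun a e =>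
      Option.some.inj e ▸ ((Cond.dep_cut a6 m1).comp₂ ((Dep.mem (b61.1.G_sub (q.a_mem _ w1)) _).comp₂
        (Dep.mem (p₆.Iio_mem _ ((lt (n + 1)).trans_le b61.1.ρ_le)) _) fun x y => x ∧ ¬ y) Or)
  have d7 := (congrArg (fun z : Cond W => z.c ξ) d1).trans (Cond.set_c_self _ _ _ _)
  obtain ⟨d', d5, θ', d6, z1, z2, c', z3, z4⟩ := m2 d (d1 ▸ Cond.set_le a6 (c0 _))
    ⟨_, d7, fun i hi => ⟨fun h => h.elim And.left fun h => absurd hi h.2, fun h => Or.inl ⟨h, hi⟩⟩⟩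
    θ ⟨(lt n).le.trans hθ, d1 ▸ p2, _, d7, fun b' hb t ht hnu => by
      obtain ⟨e, e1, e2⟩ := d4 b' hb
      let l := (τ.equivFinOfCardEq a2).symm
      obtain ⟨j, j', h, i, i1, i2, i3⟩ := hF e (e1.trans (b65.trans (b54.trans b43))) _
        (lt (n + 1)) (fun j => t (l j))
        fun j => ⟨e2 _ (ht _ (l j).2).1, (ht _ (l j).2).2.1, fun i hi => by
          rw [← Node.mem_of_res (ht _ (l j).2).2.2 (hi.trans n4),
            (s7 _ (a3 _ (l j).2).1).2.2 n (n5 _ (l j).2), Node.mem_res_lt (hi.trans n4)]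
          exact (a3 _ (l j).2).2.2 i hi⟩
      have := hnu _ (l j).2 _ (l j').2 (fun k => h (l.injective (Subtype.ext k))) i
        ((s1 n).ρ_le.trans i1) i2
      exact i3 (by simpa [i1.not_gt, i1] using this)⟩
  obtain ⟨c'', z5, z6⟩ := d5.1.c_ext ξ _ d7
  obtain rfl := Option.some.inj (z3.symm.trans z5)
  refine z4 d' le_rfl (fun v => (top v).res θ') (fun v hv => ⟨H2 d' (d5.trans d2) _ _
    (hm _ (d3 _ (hm _ (a3 v hv).2.1 b65)) d5) ((s7 v (a3 v hv).1).2.1 ▸ (d6.trans (lt _)).le), rfl,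
    by rw [Node.res_res _ z1, (s7 v (a3 v hv).1).2.2 n (n5 v hv)]⟩) fun v hv v' hv' e i i1 i2 => ?_
  have i3 := i2.trans d6
  have : i ∈ c' ↔ i ∈ c n := (z6 i (d1 ▸ i3.trans_le a6.ρ_le)).trans
    ⟨fun h => h.elim And.left fun h => absurd i3 h.2, fun h => Or.inl ⟨h, i3⟩⟩
  rw [Node.mem_res_lt i2, Node.mem_res_lt i2, this]
  exact m3 (fun v hv => ⟨(a3 v hv).1, n5 v hv⟩) a4 i i1 i3 v hv v' hv' e

end Pool.Agent.Work.MP_ee7661_gt.MA
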