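import Pool.Agent.Work.MP_ee7661_gt.MSeal

/-! The tree forcing is a `σ`-closed base forcing. -/

namespace Pool.Agent.Work.MP_ee7661_gt.MA
open Set

variable {W : Type 1} [LinearOrder W] [WellFoundedLT W] [OrderBot W] [Om1 W]

theorem Cond.sigma (s : ℕ → Cond W) (hs : ∀ n, s (n + 1) ≤ s n) : ∃ q, ∀ n, q ≤ s n := by
  classical
  obtain ⟨p, b, c, q, -, -, h0, -, h1, h2, -⟩ := exists_seal (s 0)
    (fun n p _ p' _ => p = s n → p' = s (n + 1)) (fun n p _ => by
      by_cases h : p = s n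
      · exact ⟨s (n + 1), ∅, h ▸ hs n, Dep.const _ _ False, fun _ => rfl⟩
      · exact ⟨p, ∅, le_rfl, Dep.const _ _ False, fun h' => absurd h' h⟩) fun _ => ∅
  have : ∀ n, p n = s n := fun n => Nat.rec h0 (fun n ih => h1 n ih) n
  exact ⟨q, fun n => this n ▸ h2 n⟩

theorem Cond.exists_ht (α : W) : ∀ p : Cond W, ∃ q ≤ p, α ≤ q.ρ := by
  induction α using WellFoundedLT.induction with
  | ind α ih =>
    intro p
    rcases (Iio α).eq_empty_or_nonempty with h | h
    · exact ⟨p, le_rfl, not_lt.1 fun k => (h ▸ k : p.ρ ∈ (∅ : Set W))⟩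
    obtain ⟨f, hf⟩ := (Om1.cnt α).exists_eq_range h
    have key : ∀ n (p : Cond W), ∃ q ≤ p, f n < q.ρ := fun n p => by
      obtain ⟨q, h1, h2⟩ := ih (f n) (show f n ∈ Iio α from hf ▸ mem_range_self n) p
      obtain ⟨r, h3, h4⟩ := q.exists_succ
      exact ⟨r, h3.trans h1, h2.trans_lt h4⟩
    choose nx h1 h2 using key
    obtain ⟨q, hq⟩ := Cond.sigma (fun n => Nat.rec p (fun n x => nx n x) n) fun n => h1 n _
    refine ⟨q, hq 0, not_lt.1 fun k => ?_⟩
    obtain ⟨n, hn⟩ : q.ρ ∈ range f := hf ▸ k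
    exact ((h2 n _).trans_le (hq (n + 1)).ρ_le).ne hn

variable (W) in
/-- The tree forcing as a base forcing. -/
noncomputable def psC : PS (Cond W) where
  res := Cond.res
  supp p := {β | p.c β ≠ none}
  ne := ⟨Cond.triv W⟩
  supp_cnt p := p.c_cnt
  le_res ξ p := Cond.le_withC (Or.inr le_rfl) fun β a h => by
    by_cases e : β < ξ
    · exact ⟨a, (if_pos e).symm.trans h, fun _ _ => Iff.rfl⟩
    · simp [e] at h
  res_mono ξ p q h := ⟨h.ρ_le, h.T_sub, h.T_end, h.G_sub, h.G_dep, fun β a k => by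
    by_cases e : β < ξ
    · obtain ⟨a', k1, k2⟩ := h.c_ext β a ((if_pos e).symm.trans k)
      exact ⟨a', (if_pos e).trans k1, k2⟩
    · exact absurd ((if_neg e).symm.trans k) (by simp)⟩
  res_res ξ ζ p h := Cond.ext rfl rfl rfl (funext fun β => by
    show (if β < ξ then (if β < ζ then p.c β else none) else none) = if β < ξ then p.c β else none
    by_cases e : β < ξ
    · rw [if_pos e, if_pos e, if_pos (e.trans_le h)]
    · rw [if_neg e, if_neg e])
  res_self ξ p h := Cond.ext rfl rfl rfl (funext fun β => by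
    show (if β < ξ then p.c β else none) = p.c β
    split_ifs with e
    exacts [rfl, (not_not.1 fun k => e (h k)).symm])
  supp_res ξ p β h := by_contra fun e => h (if_neg e)
  amalg := Cond.amalg
  small := Cond.small
  sigma := Cond.sigma

end Pool.Agent.Work.MP_ee7661_gt.MA
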