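import Pool.Agent.Work.MP_ee7661_gt.MSeal1

/-! The limit step with sealing. -/

namespace Pool.Agent.Work.MP_ee7661_gt.MA
open Set

variable {W : Type 1} [LinearOrder W] [WellFoundedLT W] [OrderBot W] [Om1 W]

theorem exists_seal (p₀ : Cond W) (Mv : ℕ → Cond W → (ℕ × ℕ → Node W) → Cond W → Set W → Prop)
    (hMv : ∀ n p b, ∃ p' c, p' ≤ p ∧ Dep p'.G (Iio p'.ρ) (· ∈ c) ∧ Mv n p b p' c)
    (tup : ℕ → Finset (ℕ × ℕ)) :
    ∃ (p : ℕ → Cond W) (b : ℕ → ℕ × ℕ → Node W) (c : ℕ → Set W) (q : Cond W) (sz : ℕ → ℕ)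
      (top : ℕ × ℕ → Node W),
      p 0 = p₀ ∧ (∀ n, p (n + 1) ≤ p n) ∧ (∀ n, Mv n (p n) (b n) (p (n + 1)) (c n)) ∧
      (∀ n, q ≤ p n) ∧ (∀ α < q.ρ, ∃ n, α < (p n).ρ) ∧
      (∀ β, (∀ n, (p n).c β = none) → q.c β = none) ∧
      (∀ t ∈ q.T, (∃ n, t ∈ (p n).T) ∨ ∃ v : ℕ × ℕ, v.2 < sz v.1 ∧ t = top v) ∧
      (∀ v : ℕ × ℕ, v.2 < sz v.1 → top v ∈ q.T ∧ (top v).ht = q.ρ ∧
        ∀ n, v.1 < n → b n v = (top v).res (p n).ρ) ∧
      ∀ n, (∀ v ∈ tup n, v.2 < sz v.1 ∧ v.1 < n) →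
        (∀ v ∈ tup n, ∀ v' ∈ tup n, v.1 = v'.1 → v = v') →
        ∀ i, (p n).ρ ≤ i → i < (p (n + 1)).ρ → ∀ v ∈ tup n, ∀ v' ∈ tup n, v ≠ v' →
          (i ∈ (top v).a ↔ i ∈ c n) ∨ (i ∈ (top v').a ↔ i ∈ c n) := by
  classical
  obtain ⟨s, x, h0, hs, hx⟩ := bookkeep (Rq.nil W) (fun n (s : St W) => {r | Valid s.p s.rq n r})
    (fun n s => Valid.countable _ _ _) Inv (Step Mv tup)
    ⟨p₀, fun _ => Rq.nil W, fun _ => Node.root W, ∅⟩
    ⟨fun m h => absurd h (Nat.not_lt_zero m), fun v h => absurd h.1 (Nat.not_lt_zero _)⟩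
    (step_exists Mv hMv tup)
  have anti : Antitone fun n => (s n).p := antitone_nat_of_succ_le fun n => (hs n).2.le
  have mono : Monotone fun n => (s n).p.ρ := fun n m h => (anti h).ρ_le
  obtain ⟨RQ, hrq⟩ : ∃ RQ : ℕ → Rq W, ∀ n, ∀ m < n, (s n).rq m = RQ m := by
    refine ⟨fun m => (s (m + 1)).rq m, fun n m h => ?_⟩
    induction n, h using Nat.le_induction with
    | base => rfl
    | succ n h ih => exact ((hs n).2.rq m h).trans ih
  have ok1 : ∀ {n σ}, OK (s n).p RQ n σ → OK (s n).p (s n).rq n σ := fun h =>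
    h.mono le_rfl le_rfl (hrq _)
  have ok2 : ∀ {n m σ}, OK (s n).p RQ n σ → n ≤ m → OK (s m).p RQ m σ := fun h k =>
    h.mono (anti k) k fun _ _ => rfl
  have htop : ∀ n v, OK (s n).p RQ n (.inr v) →
      (s n).b v ∈ (s n).p.T ∧ ((s n).b v).ht = (s n).p.ρ ∧ ((s n).b v).SB (bq RQ v) :=
    fun n v h => bq_congr (hrq n _ h.1) ▸ (hs n).1.top v (ok1 h)
  have hres : ∀ v n m, OK (s n).p RQ n (.inr v) → n ≤ m →
      ((s m).b v).res (s n).p.ρ = (s n).b v := by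
    intro v n m h k
    induction m, k using Nat.le_induction with
    | base => exact (htop n v h).2.1 ▸ ((s n).p.wf _ (htop n v h).1).res_self
    | succ m k ih => rw [← Node.res_res _ (mono k), (hs m).2.res v (ok1 (ok2 h k)), ih]
  obtain ⟨δ, d1, d2⟩ : ∃ δ, (∀ n, (s n).p.ρ ≤ δ) ∧ ∀ α < δ, ∃ n, α < (s n).p.ρ := by
    obtain ⟨a, ha⟩ := Om1.bdd _ (countable_range fun n => (s n).p.ρ)
    obtain ⟨δ, k1, k2⟩ := (wellFounded_lt (α := W)).has_min {a | ∀ n, (s n).p.ρ ≤ a}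
      ⟨a, fun n => (ha _ ⟨n, rfl⟩).le⟩
    exact ⟨δ, k1, fun α h => by_contra fun k => k2 α (fun n => not_lt.1 fun e => k ⟨n, e⟩) h⟩
  have d3 : ∀ α < δ, ∀ m, ∃ n, m ≤ n ∧ α < (s n).p.ρ := fun α h m =>
    let ⟨n, hn⟩ := d2 α h
    ⟨max m n, le_max_left _ _, hn.trans_le (mono (le_max_right _ _))⟩
  have key : ∀ v : ℕ × ℕ, ∃ u : Node W, v.2 < (RQ v.1).k → u.WF ∧ u.ht = δ ∧
      (∀ i < δ, u.φ i ≤ bq RQ v) ∧ ∀ n, v.1 + 1 ≤ n → u.res (s n).p.ρ = (s n).b v := fun v => by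
    by_cases h : v.2 < (RQ v.1).k
    · obtain ⟨u, hu⟩ := exists_lim d1 d2 mono (v.1 + 1) (fun n => (s n).b v) (bq RQ v)
        (fun n k => ⟨(s n).p.wf _ (htop n v ⟨k, h⟩).1, (htop n v ⟨k, h⟩).2⟩)
        fun n m k k' => hres v n m ⟨k, h⟩ k'
      exact ⟨u, fun _ => hu⟩
    · exact ⟨Node.root W, fun k => absurd k h⟩
  choose top ht using key
  let sec : Ordinal.{0} → Set W := fun β => {i | ∃ n, i < (s n).p.ρ ∧ lowEv (s n).p i (.inr β)}
  have hsec : ∀ n β a, (s n).p.c β = some a → ∀ i < (s n).p.ρ, i ∈ sec β ↔ i ∈ a := by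
    intro n β a e i hi
    refine ⟨fun ⟨m, k1, a', e', k2⟩ => ?_, fun k => ⟨n, hi, a, e, k⟩⟩
    rcases le_total n m with h | h
    · obtain ⟨a'', e'', k3⟩ := (anti h).c_ext β a e
      exact (k3 i hi).1 (Option.some.inj (e'.symm.trans e'') ▸ k2)
    · obtain ⟨a'', e'', k3⟩ := (anti h).c_ext β a' e'
      exact Option.some.inj (e''.symm.trans e) ▸ (k3 i k1).2 k2
  let fv : Sym W → Set W := Sum.elim (Sum.elim id sec) fun v => (top v).a
  have hfv : ∀ n σ i, OK (s n).p RQ n σ → i < (s n).p.ρ → (i ∈ fv σ ↔ (s n).ev i σ) := by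
    rintro n ((g | β) | v) i h hi
    · exact Iff.rfl
    · obtain ⟨a, e⟩ := Option.ne_none_iff_exists'.1 h
      exact (hsec n β a e i hi).trans
        ⟨fun k => ⟨a, e, k⟩, fun ⟨a', e', k⟩ => Option.some.inj (e'.symm.trans e) ▸ k⟩
    · exact (Node.mem_of_res ((ht v h.2).2.2.2 n h.1) hi).symm
  let T : Set (Node W) := (⋃ n, (s n).p.T) ∪ top '' {v | v.2 < (RQ v.1).k}
  let G : Set (Set W) := fv '' ⋃ n, {σ | OK (s n).p RQ n σ}
  have tsub : ∀ n, (s n).p.T ⊆ T := fun n t h => Or.inl (mem_iUnion.2 ⟨n, h⟩)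
  have gsub : ∀ n, (s n).p.G ⊆ G := fun n g h => ⟨.inl (.inl g), mem_iUnion.2 ⟨n, h⟩, rfl⟩
  have tend : ∀ n, ∀ t ∈ T, t.ht ≤ (s n).p.ρ → t ∈ (s n).p.T := by
    have k : ∀ n m, ∀ t ∈ (s m).p.T, t.ht ≤ (s n).p.ρ → t ∈ (s n).p.T := fun n m t h h' =>
      (le_total n m).elim (fun e => (anti e).T_end t h h') fun e => (anti e).T_sub h
    rintro n t (h | ⟨v, h, rfl⟩) h'
    · obtain ⟨m, hm⟩ := mem_iUnion.1 h
      exact k n m t hm h'
    · obtain ⟨a1, a2, -, a3⟩ := ht v h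
      have e : (s (max n (v.1 + 1))).p.ρ = (top v).ht :=
        le_antisymm (a2 ▸ d1 _) (h'.trans (mono (le_max_left _ _)))
      have := a3 _ (le_max_right n _)
      rw [e, a1.res_self] at this
      exact k n _ _ (this ▸ (htop _ v ⟨le_max_right n _, h⟩).1) h'
  have gdep : ∀ n, ∀ g ∈ G, Dep (s n).p.G (Iio (s n).p.ρ) (· ∈ g) := by
    rintro n _ ⟨σ, h, rfl⟩
    obtain ⟨m, hm⟩ := mem_iUnion.1 h
    have h1 := ok2 hm (le_max_right n m)
    have h2 := anti (le_max_left n m)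
    have h3 : Dep (s (max n m)).p.G (Iio (s (max n m)).p.ρ) fun i => (s (max n m)).ev i σ := by
      rcases σ with y | v
      · exact h1.dep_low
      · exact Dep.mem ((s _).p.a_mem _ (htop _ v h1).1) _
    exact ((h3.congr fun i hi => propext (hfv _ σ i h1 hi)).mono subset_rfl
      (Iio_subset_Iio h2.ρ_le)).trans h2.G_dep
  have hblk : ∀ m, ∀ i ∈ Ico (RQ m).ρ δ, (RQ m).Blk m fun σ => i ∈ fv σ := by
    intro m i hi
    have k : ∀ n, m < n → i < (s n).p.ρ → ((s n).rq m).Blk m ((s n).ev i) →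
        (RQ m).Blk m fun σ => i ∈ fv σ := fun n h1 h2 h3 => by
      have h4 := (hs n).1.val m h1
      rw [hrq n m h1] at h3 h4
      exact h3.congr (fun j hj => hfv n _ i ⟨h1, hj⟩ h2) fun l => hfv n _ i
        ((h4.ok l).mono le_rfl h1.le fun a ha => (hrq n a (ha.trans h1)).symm) h2
    by_cases h : i < (s (m + 1)).p.ρ
    · exact k _ m.lt_succ_self h ((hs m).2.blkn i ⟨hrq _ m m.lt_succ_self ▸ hi.1, h⟩)
    · have e := d2 i hi.2
      have e1 := Nat.find_spec e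
      have e2 : m + 1 < Nat.find e := not_le.1 fun a => h (e1.trans_le (mono a))
      obtain ⟨n, hn⟩ := Nat.exists_eq_succ_of_ne_zero (Nat.ne_zero_of_lt e2)
      have e3 := Nat.find_min e (hn ▸ n.lt_succ_self)
      rw [hn] at e1 e2
      have e4 : m < n := Nat.lt_of_succ_lt_succ e2
      exact k _ (e4.trans n.lt_succ_self) e1 ((hs n).2.blk m e4 i ⟨not_lt.1 e3, e1⟩)
  have rich : ∀ n ρ₁ ρ₂, ρ₁ < ρ₂ → ρ₂ ≤ δ → RichI (Fin n) T G ρ₁ ρ₂ := by
    intro k ρ₁ ρ₂ h1 h2 b q hb R hR hO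
    rcases h2.lt_or_eq with h2 | rfl
    · obtain ⟨n, hn⟩ := d2 _ h2
      obtain ⟨t, k1, k2⟩ := (s n).p.richI (Fin k) h1.le hn.le b q
        (fun j => ⟨tend n _ (hb j).1 ((hb j).2.1.trans_le (h1.trans hn).le), (hb j).2⟩) R
        (hR.trans fun g hg => (gdep n g hg).mono subset_rfl fun i hi => hi.2.trans hn) hO
      exact ⟨t, fun j => ⟨tsub n (k1 j).1, (k1 j).2⟩, k2⟩
    obtain ⟨F, f1, f2, f3⟩ := hR
    have := f1.to_subtype
    obtain ⟨l, ⟨e⟩⟩ := Finite.exists_equiv_fin F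
    choose σ g1 g2 using fun j : Fin l => f2 (e.symm j).2
    choose N g3 using fun j => mem_iUnion.1 (g1 j)
    obtain ⟨N', g4⟩ := (finite_range N).bddAbove
    obtain ⟨n, n1, n2⟩ := d3 _ h1 N'
    have : ∀ j, ∃ q' < q j, (b j).SB q' := fun j =>
      let ⟨q', a1, a2⟩ := (hb j).2.2
      ⟨(q' + q j) / 2, by linarith, q', by linarith, a2⟩
    choose q' q1 q2 using this
    let H : (Fin l → Prop) → Set (Fin k → Prop) := fun y =>
      {π | ∀ i ∈ Ico ρ₁ ρ₂, (∀ j, y j ↔ i ∈ fv (σ j)) → π ∈ R i}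
    have hv : Valid (s n).p (s n).rq n ⟨k, l, ρ₁, b, q', σ, H⟩ := by
      refine ⟨n2.le, fun j => ⟨tend n _ (hb j).1 ((hb j).2.1.trans_le n2.le), (hb j).2.1, q2 j⟩,
        fun j => ok1 (ok2 (g3 j) ((g4 ⟨j, rfl⟩).trans n1)), fun y => ?_⟩
      show Onto (H y)
      by_cases a : ∃ i ∈ Ico ρ₁ ρ₂, ∀ j, y j ↔ i ∈ fv (σ j)
      · obtain ⟨i, a1, a2⟩ := a
        have : H y = R i := Set.ext fun π => ⟨fun h => h i a1 a2, fun h i' b1 b2 =>
          f3 i a1 i' b1 (fun g hg => by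
            have := (a2 (e ⟨g, hg⟩)).symm.trans (b2 (e ⟨g, hg⟩))
            rwa [g2, e.symm_apply_apply] at this) ▸ h⟩
        exact this ▸ hO i a1
      · exact ⟨⟨fun _ => True, fun i a1 a2 => absurd ⟨i, a1, a2⟩ a⟩,
          fun j v => ⟨fun _ => v, fun i a1 a2 => absurd ⟨i, a1, a2⟩ a, Iff.rfl⟩⟩
    obtain ⟨m, m1, m2⟩ := hx n _ hv
    have m3 : RQ m = ⟨k, l, ρ₁, b, q', σ, H⟩ :=
      (hrq _ m m.lt_succ_self).symm.trans (((hs m).2.new (m2 ▸ hv.mono (anti m1) m1 fun a ha =>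
        (hrq m a (ha.trans_le m1)).trans (hrq n a ha).symm)).trans m2)
    have m4 := hblk m
    have m5 := (hs m).2.base
    rw [hrq _ m m.lt_succ_self] at m5
    rw [m3] at m4 m5
    refine ⟨fun j => top (m, j), fun j => ?_, fun i hi => m4 i hi i hi fun _ => Iff.rfl⟩
    have m6 : (j : ℕ) < (RQ m).k := by rw [m3]; exact j.2
    obtain ⟨-, a2, a3, a4⟩ := ht (m, j) m6
    refine ⟨Or.inr ⟨_, m6, rfl⟩, a2, ?_, q' j, q1 j, fun i hi => (a3 i (a2 ▸ hi)).trans_eq ?_⟩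
    · rw [← Node.res_res _ (n2.le.trans (mono (m1.trans m.le_succ))), a4 _ le_rfl]
      exact m5 j
    · rw [bq_congr (rq := fun _ => ⟨k, l, ρ₁, b, q', σ, H⟩) m3]
      exact dif_pos j.2
  let q : Cond W := ⟨δ, T, G, fun β => if ∃ n, (s n).p.c β ≠ none then some (sec β) else none,
    (countable_iUnion fun n => (s n).p.T_cnt).union ((to_countable _).image _),
    (countable_iUnion fun n => OK.countable _ _ _).image _,
    (countable_iUnion fun n => (s n).p.c_cnt).mono fun β h =>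
      mem_iUnion.2 (by_contra fun k => h (if_neg k)),
    by
      rintro t (h | ⟨v, h, rfl⟩)
      · obtain ⟨n, h⟩ := mem_iUnion.1 h
        exact (s n).p.wf t h
      · exact (ht v h).1,
    by
      rintro t (h | ⟨v, h, rfl⟩)
      · obtain ⟨n, h⟩ := mem_iUnion.1 h
        exact ((s n).p.ht_le t h).trans (d1 n)
      · exact (ht v h).2.1.le,
    by
      rintro t (h | ⟨v, h, rfl⟩) α hα
      · obtain ⟨n, h⟩ := mem_iUnion.1 h
        exact tsub n ((s n).p.res_mem t h α hα)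
      · rcases hα.lt_or_eq with a | rfl
        · obtain ⟨n, n1, n2⟩ := d3 α ((ht v h).2.1 ▸ a) (v.1 + 1)
          rw [← Node.res_res _ n2.le, (ht v h).2.2.2 n n1]
          have := htop n v ⟨n1, h⟩
          exact tsub n ((s n).p.res_mem _ this.1 α (this.2.1 ▸ n2.le))
        · rw [(ht v h).1.res_self]
          exact Or.inr ⟨v, h, rfl⟩,
    tsub 0 (s 0).p.root_mem,
    by
      rintro t (h | ⟨v, h, rfl⟩)
      · obtain ⟨n, h⟩ := mem_iUnion.1 h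
        exact gsub n ((s n).p.a_mem t h)
      · exact ⟨.inr v, mem_iUnion.2 ⟨v.1 + 1, Nat.lt_succ_self _, h⟩, rfl⟩,
    fun α h => let ⟨n, hn⟩ := d2 α h; gsub n ((s n).p.Iio_mem α hn),
    fun β a h => by
      by_cases k : ∃ n, (s n).p.c β ≠ none
      · obtain rfl := Option.some.inj ((if_pos k).symm.trans h)
        exact Dep.mem (show sec β ∈ G from ⟨.inl (.inr β), mem_iUnion.2 k, rfl⟩) _
      · exact absurd ((if_neg k).symm.trans h) (by simp),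
    rich⟩
  refine ⟨fun n => (s n).p, fun n => (s n).b, fun n => (s (n + 1)).c, q, fun m => (RQ m).k, top,
    congrArg St.p h0, fun n => (hs n).2.le, fun n => (hs n).2.mv, fun n => ⟨d1 n, tsub n, tend n,
      gsub n, gdep n, fun β a e => ⟨sec β, if_pos ⟨n, by simp [e]⟩, hsec n β a e⟩⟩, d2,
    fun β h => if_neg fun ⟨n, k⟩ => k (h n), ?_, fun v h => ⟨Or.inr ⟨v, h, rfl⟩, (ht v h).2.1,
      fun n k => ((ht v h).2.2.2 n k).symm⟩, fun n h1 h2 i i1 i2 v hv v' hv' e => ?_⟩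
  · rintro t (h | ⟨v, h, rfl⟩)
    exacts [Or.inl (mem_iUnion.1 h), Or.inr ⟨v, h, rfl⟩]
  · have a : ∀ v ∈ tup n, i ∈ ((s (n + 1)).b v).a ↔ i ∈ (top v).a := fun v hv =>
      Node.mem_of_res ((ht v (h1 v hv).1).2.2.2 _ (Nat.succ_le_succ (h1 v hv).2.le)) i2
    rw [← a v hv, ← a v' hv']
    exact (hs n).2.nu (fun v hv => ok1 ⟨(h1 v hv).2, (h1 v hv).1⟩) h2 i ⟨i1, i2⟩ v hv v' hv' e

end Pool.Agent.Work.MP_ee7661_gt.MA
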