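import Pool.Agent.Work.MP_ee7661_gt.MSucc
import Mathlib.Data.Nat.Pairing
import Mathlib.Data.Fintype.Powerset
import Mathlib.Data.Fintype.Pi

/-! Tools for the limit step: bookkeeping, limits of nodes, requests. -/

namespace Pool.Agent.Work.MP_ee7661_gt.MA
open Set

theorem bookkeep {S X : Type*} (x₀ : X) (Pool : ℕ → S → Set X) (hc : ∀ n s, (Pool n s).Countable)
    (Inv : ℕ → S → Prop) (Step : ℕ → S → X → S → Prop) (s₀ : S) (h₀ : Inv 0 s₀)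
    (hs : ∀ n s x, Inv n s → ∃ s', Inv (n + 1) s' ∧ Step n s x s') :
    ∃ (s : ℕ → S) (x : ℕ → X), s 0 = s₀ ∧ (∀ n, Inv n (s n) ∧ Step n (s n) (x n) (s (n + 1))) ∧
      ∀ n, ∀ y ∈ Pool n (s n), ∃ m, n ≤ m ∧ x m = y := by
  have : Nonempty S := ⟨s₀⟩
  choose! nx h1 h2 using hs
  have key : ∀ n s, ∃ e : ℕ → X, Pool n s ⊆ range e := fun n s =>
    let ⟨e, he⟩ := ((hc n s).insert x₀).exists_eq_range (insert_nonempty _ _)
    ⟨e, he ▸ subset_insert _ _⟩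
  choose e he using key
  let F : ℕ → ℕ → S := fun n => Nat.rec (fun _ => s₀) (fun n h => Function.update h (n + 1)
    (nx n (h n) (e n.unpair.1 (h n.unpair.1) n.unpair.2))) n
  have hF : ∀ n m, m ≤ n → F n m = F m m := by
    intro n
    induction n with
    | zero => intro m hm; rw [Nat.le_zero.1 hm]
    | succ n ih =>
      intro m hm
      rcases hm.lt_or_eq with h | rfl
      · exact (Function.update_of_ne h.ne _ _).trans (ih m (Nat.lt_succ_iff.1 h))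
      · rfl
  have hS : ∀ n, F (n + 1) (n + 1) =
      nx n (F n n) (e n.unpair.1 (F n.unpair.1 n.unpair.1) n.unpair.2) := fun n => by
    rw [← hF n _ n.unpair_left_le]
    exact Function.update_self _ _ _
  have hI : ∀ n, Inv n (F n n) := fun n => Nat.rec h₀ (fun n ih => hS n ▸ h1 n _ _ ih) n
  refine ⟨fun n => F n n, fun n => e n.unpair.1 (F n.unpair.1 n.unpair.1) n.unpair.2, rfl,
    fun n => ⟨hI n, by simpa only [hS n] using h2 n _ _ (hI n)⟩, fun n y hy => ?_⟩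
  obtain ⟨j, rfl⟩ := he n _ hy
  exact ⟨Nat.pair n j, Nat.left_le_pair _ _, by simp only [Nat.unpair_pair]⟩

variable {W : Type 1} [LinearOrder W]

theorem exists_lim {ρ : ℕ → W} {δ : W} (h1 : ∀ n, ρ n ≤ δ) (h2 : ∀ α < δ, ∃ n, α < ρ n)
    (hm : Monotone ρ) (n₀ : ℕ) (t : ℕ → Node W) (q : ℚ)
    (ht : ∀ n, n₀ ≤ n → (t n).WF ∧ (t n).ht = ρ n ∧ (t n).SB q)
    (hc : ∀ n m, n₀ ≤ n → n ≤ m → (t m).res (ρ n) = t n) :
    ∃ u : Node W, u.WF ∧ u.ht = δ ∧ (∀ i < δ, u.φ i ≤ q) ∧ ∀ n, n₀ ≤ n → u.res (ρ n) = t n := by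
  have key : ∀ α < δ, ∃ n, n₀ ≤ n ∧ α < ρ n := fun α h =>
    let ⟨n, hn⟩ := h2 α h
    ⟨max n₀ n, le_max_left _ _, hn.trans_le (hm (le_max_right _ _))⟩
  choose! N k1 k2 using key
  have c1 : ∀ n m i, n₀ ≤ n → n₀ ≤ m → i < ρ n → i < ρ m →
      (i ∈ (t n).a ↔ i ∈ (t m).a) ∧ (t n).φ i = (t m).φ i := fun n m i a b c d => by
    rcases le_total n m with h | h
    · exact ⟨Node.mem_of_res (hc n m a h) c, Node.φ_of_res (hc n m a h) c⟩
    · exact ⟨(Node.mem_of_res (hc m n b h) d).symm, (Node.φ_of_res (hc m n b h) d).symm⟩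
  let u : Node W := ⟨δ, {i | i < δ ∧ i ∈ (t (N i)).a}, fun i => if i < δ then (t (N i)).φ i else 0⟩
  have c2 : ∀ n i, n₀ ≤ n → i < ρ n → (i ∈ u.a ↔ i ∈ (t n).a) ∧ u.φ i = (t n).φ i :=
    fun n i a b => by
      have h := b.trans_le (h1 n)
      have := c1 (N i) n i (k1 i h) a (k2 i h) b
      exact ⟨(and_iff_right h).trans this.1, (if_pos h).trans this.2⟩
  have c3 : ∀ i < δ, u.φ i ≤ q := fun i h => by
    obtain ⟨w, e, q', a, b⟩ := ht _ (k1 i h)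
    exact ((if_pos h).trans_le (b i (e ▸ k2 i h))).trans a.le
  refine ⟨u, ⟨fun i h => h.1, fun i h => if_neg (not_lt.2 h), fun i j hij hj => ?_,
    q + 1, q, lt_add_one q, c3⟩, rfl, c3, fun n a => ?_⟩
  · obtain ⟨w, e, -⟩ := ht _ (k1 j hj)
    rw [(c2 _ j (k1 j hj) (k2 j hj)).2, (c2 _ i (k1 j hj) (hij.trans (k2 j hj))).2]
    exact w.mono i j hij (e ▸ k2 j hj)
  · obtain ⟨w, e, -⟩ := ht n a
    exact (Node.res_congr (fun i h => (c2 n i a h).1) fun i h => (c2 n i a h).2).trans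
      (e ▸ w.res_self)

/-- Symbols: old generators, sections, and tops. -/
abbrev Sym (W : Type 1) : Type 1 := (Set W ⊕ Ordinal.{0}) ⊕ ℕ × ℕ

/-- A request for a lifting. -/
structure Rq (W : Type 1) where
  k : ℕ
  l : ℕ
  ρ : W
  b : Fin k → Node W
  q : Fin k → ℚ
  F : Fin l → Sym W
  H : (Fin l → Prop) → Set (Fin k → Prop)

/-- The pattern `e` satisfies the request `r` in block `m`. -/
def Rq.Blk (r : Rq W) (m : ℕ) (e : Sym W → Prop) : Prop :=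
  (fun j : Fin r.k => e (.inr (m, j))) ∈ r.H fun l => e (r.F l)

omit [LinearOrder W] in
theorem Rq.Blk.congr {r : Rq W} {m : ℕ} {e e' : Sym W → Prop} (h : r.Blk m e)
    (h1 : ∀ j < r.k, e' (.inr (m, j)) ↔ e (.inr (m, j))) (h2 : ∀ l, e' (r.F l) ↔ e (r.F l)) :
    r.Blk m e' := by
  unfold Rq.Blk
  rw [funext fun l => propext (h2 l), funext fun j : Fin r.k => propext (h1 j j.2)]
  exact h

omit [LinearOrder W] in
theorem solve (rq : ℕ → Rq W) (e : Set W ⊕ Ordinal.{0} → Prop) (pr : ℕ → ℕ × Prop) (n : ℕ)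
    (h : ∀ m < n, (∀ x, Onto ((rq m).H x)) ∧ ∀ l v, (rq m).F l = .inr v → v.1 < m) :
    ∃ π : ℕ × ℕ → Prop, ∀ m < n, (rq m).Blk m (Sum.elim e π) ∧
      ((pr m).1 < (rq m).k → (π (m, (pr m).1) ↔ (pr m).2)) := by
  induction n with
  | zero => exact ⟨fun _ => True, fun m hm => absurd hm (Nat.not_lt_zero m)⟩
  | succ n ih =>
    obtain ⟨π, hπ⟩ := ih fun m hm => h m (hm.trans n.lt_succ_self)
    have hn := h n n.lt_succ_self
    obtain ⟨σ, h1, h2⟩ : ∃ σ ∈ (rq n).H fun l => Sum.elim e π ((rq n).F l),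
        ∀ k : (pr n).1 < (rq n).k, σ ⟨_, k⟩ ↔ (pr n).2 := by
      by_cases k : (pr n).1 < (rq n).k
      · obtain ⟨σ, h1, h2⟩ := (hn.1 _).2 ⟨_, k⟩ (pr n).2
        exact ⟨σ, h1, fun _ => h2⟩
      · obtain ⟨σ, h1⟩ := (hn.1 _).1
        exact ⟨σ, h1, fun k' => absurd k' k⟩
    let π' : ℕ × ℕ → Prop := fun v => if v.1 = n then ∃ k : v.2 < (rq n).k, σ ⟨_, k⟩ else π v
    have a1 : ∀ v : ℕ × ℕ, v.1 < n → (π' v ↔ π v) := fun v k => iff_of_eq (if_neg k.ne)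
    have a2 : ∀ j (k : j < (rq n).k), π' (n, j) ↔ σ ⟨j, k⟩ := fun j k =>
      (iff_of_eq (if_pos rfl)).trans ⟨fun ⟨_, x⟩ => x, fun x => ⟨k, x⟩⟩
    have a3 : ∀ m ≤ n, ∀ l, Sum.elim e π' ((rq m).F l) ↔ Sum.elim e π ((rq m).F l) := by
      intro m hm l
      rcases k : (rq m).F l with x | v
      · exact Iff.rfl
      · exact a1 v (((h m (Nat.lt_succ_of_le hm)).2 l v k).trans_le hm)
    refine ⟨π', fun m hm => ?_⟩
    rcases (Nat.lt_succ_iff.1 hm).lt_or_eq with k | rfl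
    · exact ⟨(hπ m k).1.congr (fun j _ => a1 _ k) (a3 m k.le),
        fun x => (a1 _ k).trans ((hπ m k).2 x)⟩
    · refine ⟨?_, fun x => (a2 _ x).trans (h2 x)⟩
      unfold Rq.Blk
      rw [funext fun l => propext (a3 m le_rfl l)]
      convert h1 using 2 with j
      exact a2 j j.2

variable [OrderBot W]

theorem Cond.richS (p : Cond W) {κ : Type} {D : Set κ} (hD : D.Finite) {ρ₁ ρ₂ : W} (h : ρ₁ ≤ ρ₂)
    (h' : ρ₂ ≤ p.ρ) (b : κ → Node W) (q : κ → ℚ)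
    (hb : ∀ j ∈ D, b j ∈ p.T ∧ (b j).ht = ρ₁ ∧ (b j).SB (q j)) (R : W → Set (κ → Prop))
    (hR : Dep p.G (Ico ρ₁ ρ₂) R)
    (hO : ∀ i, (R i).Nonempty ∧ ∀ j ∈ D, ∀ v : Prop, ∃ π ∈ R i, (π j ↔ v))
    (hl : ∀ i π π', (∀ j ∈ D, π' j ↔ π j) → π ∈ R i → π' ∈ R i) :
    ∃ t : κ → Node W,
      (∀ j ∈ D, t j ∈ p.T ∧ (t j).ht = ρ₂ ∧ (t j).res ρ₁ = b j ∧ (t j).SB (q j)) ∧
      ∀ i ∈ Ico ρ₁ ρ₂, (fun j => i ∈ (t j).a) ∈ R i := by
  classical
  have := hD.to_subtype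
  obtain ⟨t, h1, h2⟩ := p.richI D h h' (fun j => b j) (fun j => q j) (fun j => hb j j.2)
    (fun i => {π | ∃ π' ∈ R i, π = fun j : D => π' j})
    (hR.comp fun S => {π : D → Prop | ∃ π' ∈ S, π = fun j : D => π' j})
    fun i _ => ⟨let ⟨π, k⟩ := (hO i).1; ⟨_, π, k, rfl⟩,
      fun j v => let ⟨π, k, k'⟩ := (hO i).2 j j.2 v; ⟨_, ⟨π, k, rfl⟩, k'⟩⟩
  refine ⟨fun j => if k : j ∈ D then t ⟨j, k⟩ else b j, fun j k => ?_, fun i hi => ?_⟩
  · simp only [dif_pos k]; exact h1 ⟨j, k⟩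
  · obtain ⟨π, k1, k2⟩ := h2 i hi
    refine hl i π _ (fun j k => ?_) k1
    simp only [dif_pos k]
    exact iff_of_eq (congrFun k2 ⟨j, k⟩)

/-- The value at level `i` of the symbols for old generators and sections. -/
def lowEv (p : Cond W) (i : W) : Set W ⊕ Ordinal.{0} → Prop :=
  Sum.elim (i ∈ ·) fun β => ∃ a, p.c β = some a ∧ i ∈ a

/-- The symbols available at stage `n`. -/
def OK (p : Cond W) (rq : ℕ → Rq W) (n : ℕ) : Sym W → Prop :=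
  Sum.elim (Sum.elim (· ∈ p.G) fun β => p.c β ≠ none) fun v => v.1 < n ∧ v.2 < (rq v.1).k

theorem OK.mono {p p' : Cond W} {rq rq' : ℕ → Rq W} {n n' : ℕ} {σ : Sym W} (h : OK p rq n σ)
    (hp : p' ≤ p) (hn : n ≤ n') (hr : ∀ m < n, rq' m = rq m) : OK p' rq' n' σ := by
  rcases σ with (g | β) | v
  · exact hp.G_sub h
  · obtain ⟨a, e⟩ := Option.ne_none_iff_exists'.1 h
    obtain ⟨a', e', -⟩ := hp.c_ext β a e
    exact Option.ne_none_iff_exists'.2 ⟨a', e'⟩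
  · exact ⟨h.1.trans_le hn, hr _ h.1 ▸ h.2⟩

theorem OK.countable (p : Cond W) (rq : ℕ → Rq W) (n : ℕ) : {σ | OK p rq n σ}.Countable := by
  refine ((((p.G_cnt.image Sum.inl).union (p.c_cnt.image Sum.inr)).image Sum.inl).union
    (countable_range Sum.inr)).mono ?_
  rintro ((g | β) | v) h
  exacts [Or.inl ⟨_, Or.inl ⟨g, h, rfl⟩, rfl⟩, Or.inl ⟨_, Or.inr ⟨β, h, rfl⟩, rfl⟩, Or.inr ⟨v, rfl⟩]

theorem OK.dep_low {p : Cond W} {rq : ℕ → Rq W} {n : ℕ} {x : Set W ⊕ Ordinal.{0}}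
    (h : OK p rq n (.inl x)) : Dep p.G (Iio p.ρ) fun i => lowEv p i x := by
  rcases x with g | β
  · exact Dep.mem h _
  · obtain ⟨a, e⟩ := Option.ne_none_iff_exists'.1 h
    exact (p.c_dep β a e).congr fun i _ => propext
      ⟨fun ⟨a', e', k⟩ => Option.some.inj (e'.symm.trans e) ▸ k, fun k => ⟨a, e, k⟩⟩

/-- The requests available at stage `n`. -/
structure Valid (p : Cond W) (rq : ℕ → Rq W) (n : ℕ) (r : Rq W) : Prop where
  ρ_le : r.ρ ≤ p.ρ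
  b_mem : ∀ j, r.b j ∈ p.T ∧ (r.b j).ht = r.ρ ∧ (r.b j).SB (r.q j)
  ok : ∀ l, OK p rq n (r.F l)
  onto : ∀ x, Onto (r.H x)

theorem Valid.mono {p p' : Cond W} {rq rq' : ℕ → Rq W} {n n' : ℕ} {r : Rq W} (h : Valid p rq n r)
    (hp : p' ≤ p) (hn : n ≤ n') (hr : ∀ m < n, rq' m = rq m) : Valid p' rq' n' r :=
  ⟨h.ρ_le.trans hp.ρ_le, fun j => ⟨hp.T_sub (h.b_mem j).1, (h.b_mem j).2⟩,
    fun l => (h.ok l).mono hp hn hr, h.onto⟩

theorem Valid.countable [Om1 W] (p : Cond W) (rq : ℕ → Rq W) (n : ℕ) :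
    {r | Valid p rq n r}.Countable := by
  refine (countable_iUnion fun k => countable_iUnion fun l =>
    (((cnt_Iic p.ρ).prod ((countable_pi (α := Fin k) fun _ => p.T_cnt).prod
      ((countable_univ (α := Fin k → ℚ)).prod
        ((countable_pi (α := Fin l) fun _ => OK.countable p rq n).prod
          (countable_univ (α := (Fin l → Prop) → Set (Fin k → Prop))))))).image
      fun x => (⟨k, l, x.1, x.2.1, x.2.2.1, x.2.2.2.1, x.2.2.2.2⟩ : Rq W))).mono fun r h => ?_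
  exact mem_iUnion.2 ⟨r.k, mem_iUnion.2 ⟨r.l, ⟨r.ρ, r.b, r.q, r.F, r.H⟩,
    ⟨h.ρ_le, fun j => (h.b_mem j).1, trivial, h.ok, trivial⟩, rfl⟩⟩

variable (W) in
/-- The empty request. -/
def Rq.nil : Rq W := ⟨0, 0, ⊥, Fin.elim0, Fin.elim0, Fin.elim0, fun _ => univ⟩

theorem valid_nil (p : Cond W) (rq : ℕ → Rq W) (n : ℕ) : Valid p rq n (Rq.nil W) :=
  ⟨bot_le, fun j => j.elim0, fun j => j.elim0, fun _ => ⟨univ_nonempty, fun j => j.elim0⟩⟩

end Pool.Agent.Work.MP_ee7661_gt.MA
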