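import Pool.Agent.Work.MP_ee7661_gt.MSeal0
import Mathlib.Order.Interval.Finset.Nat

/-! One step of the sealing construction. -/

namespace Pool.Agent.Work.MP_ee7661_gt.MA
open Set

variable {W : Type 1} [LinearOrder W] [OrderBot W]

variable (W) in
/-- States of the construction. -/
structure St where
  p : Cond W
  rq : ℕ → Rq W
  b : ℕ × ℕ → Node W
  c : Set W

/-- The values of the symbols at level `i`. -/
def St.ev (s : St W) (i : W) : Sym W → Prop := Sum.elim (lowEv s.p i) fun v => i ∈ (s.b v).a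

/-- The cost bound of a top. -/
def bq (rq : ℕ → Rq W) (v : ℕ × ℕ) : ℚ := if h : v.2 < (rq v.1).k then (rq v.1).q ⟨v.2, h⟩ else 0

omit [LinearOrder W] [OrderBot W] in
theorem bq_congr {rq rq' : ℕ → Rq W} {v : ℕ × ℕ} (h : rq' v.1 = rq v.1) : bq rq' v = bq rq v := by
  unfold bq; rw [h]

structure Inv (n : ℕ) (s : St W) : Prop where
  val : ∀ m < n, Valid s.p s.rq m (s.rq m)
  top : ∀ v, OK s.p s.rq n (.inr v) → s.b v ∈ s.p.T ∧ (s.b v).ht = s.p.ρ ∧ (s.b v).SB (bq s.rq v)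

structure Step (Mv : ℕ → Cond W → (ℕ × ℕ → Node W) → Cond W → Set W → Prop)
    (tup : ℕ → Finset (ℕ × ℕ)) (n : ℕ) (s : St W) (x : Rq W) (s' : St W) : Prop where
  le : s'.p ≤ s.p
  mv : Mv n s.p s.b s'.p s'.c
  rq : ∀ m < n, s'.rq m = s.rq m
  new : Valid s.p s.rq n x → s'.rq n = x
  res : ∀ v, OK s.p s.rq n (.inr v) → (s'.b v).res s.p.ρ = s.b v
  base : ∀ j : Fin (s'.rq n).k, (s'.b (n, j)).res (s'.rq n).ρ = (s'.rq n).b j
  blk : ∀ m < n, ∀ i ∈ Ico s.p.ρ s'.p.ρ, (s'.rq m).Blk m (s'.ev i)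
  blkn : ∀ i ∈ Ico (s'.rq n).ρ s'.p.ρ, (s'.rq n).Blk n (s'.ev i)
  nu : (∀ v ∈ tup n, OK s.p s.rq n (.inr v)) → (∀ v ∈ tup n, ∀ v' ∈ tup n, v.1 = v'.1 → v = v') →
    ∀ i ∈ Ico s.p.ρ s'.p.ρ, ∀ v ∈ tup n, ∀ v' ∈ tup n, v ≠ v' →
      (i ∈ (s'.b v).a ↔ i ∈ s'.c) ∨ (i ∈ (s'.b v').a ↔ i ∈ s'.c)

theorem fin_ok (p : Cond W) (rq : ℕ → Rq W) (n : ℕ) : {v | OK p rq n (.inr v)}.Finite :=
  ((finite_Iio n).biUnion fun m _ => (finite_Iio (rq m).k).image fun j => (m, j)).subset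
    fun v h => mem_biUnion (x := v.1) h.1 ⟨v.2, h.2, rfl⟩

theorem lift_old {n : ℕ} {s : St W} (hs : Inv n s) {p : Cond W} (hp : p ≤ s.p) {c : Set W}
    (hc : Dep p.G (Iio p.ρ) (· ∈ c)) (τ : Finset (ℕ × ℕ)) :
    ∃ t : ℕ × ℕ → Node W, (∀ v, OK s.p s.rq n (.inr v) →
      t v ∈ p.T ∧ (t v).ht = p.ρ ∧ (t v).res s.p.ρ = s.b v ∧ (t v).SB (bq s.rq v)) ∧
      ∀ i ∈ Ico s.p.ρ p.ρ,
        (∀ m < n, (s.rq m).Blk m (Sum.elim (lowEv p i) fun v => i ∈ (t v).a)) ∧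
        ((∀ v ∈ τ, OK s.p s.rq n (.inr v)) → (∀ v ∈ τ, ∀ v' ∈ τ, v.1 = v'.1 → v = v') →
          ∀ v ∈ τ, ∀ v' ∈ τ, v ≠ v' → (i ∈ (t v).a ↔ i ∈ c) ∨ (i ∈ (t v').a ↔ i ∈ c)) := by
  classical
  have hok : ∀ m < n, ∀ l, OK s.p s.rq n ((s.rq m).F l) := fun m hm l =>
    ((hs.val m hm).ok l).mono le_rfl hm.le fun _ _ => rfl
  have hsol := fun i pr => solve s.rq (lowEv p i) pr n fun m hm =>
    ⟨(hs.val m hm).onto, fun l v e => (show OK s.p s.rq m (.inr v) from e ▸ (hs.val m hm).ok l).1⟩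
  let pr : W → ℕ → ℕ × Prop := fun i m => (if h : ∃ j, (m, j) ∈ τ then h.choose else 0, i ∈ c)
  have hpr : (∀ v ∈ τ, ∀ v' ∈ τ, v.1 = v'.1 → v = v') → ∀ i, ∀ v ∈ τ, pr i v.1 = (v.2, i ∈ c) := by
    intro h i v hv
    have k : ∃ j, (v.1, j) ∈ τ := ⟨v.2, hv⟩
    exact Prod.ext ((dif_pos k).trans (congrArg Prod.snd (h _ k.choose_spec v hv rfl))) rfl
  refine p.richS (fin_ok s.p s.rq n) hp.ρ_le le_rfl s.b (bq s.rq)
    (fun v h => ⟨hp.T_sub (hs.top v h).1, (hs.top v h).2⟩)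
    (fun i => {π | (∀ m < n, (s.rq m).Blk m (Sum.elim (lowEv p i) π)) ∧
      ((∀ v ∈ τ, OK s.p s.rq n (.inr v)) → (∀ v ∈ τ, ∀ v' ∈ τ, v.1 = v'.1 → v = v') →
        ∀ v ∈ τ, ∀ v' ∈ τ, v ≠ v' → (π v ↔ i ∈ c) ∨ (π v' ↔ i ∈ c))}) ?_ (fun i => ⟨?_, ?_⟩) ?_
  · have k : Dep p.G (Iio p.ρ) fun i (m : Fin n) (l : Fin (s.rq m).l) (π : ℕ × ℕ → Prop) =>
        Sum.elim (lowEv p i) π ((s.rq m).F l) := by
      refine Dep.pi fun m => Dep.pi fun l => ?_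
      have := (hok m m.2 l).mono hp le_rfl fun _ _ => rfl
      rcases e : (s.rq m).F l with x | v
      · rw [e] at this
        exact this.dep_low.comp fun a (_ : ℕ × ℕ → Prop) => a
      · exact Dep.const _ _ fun π : ℕ × ℕ → Prop => π v
    refine ((k.comp₂ hc fun x y => {π : ℕ × ℕ → Prop | (∀ m : Fin n,
      (fun j : Fin (s.rq m).k => π (m, j)) ∈ (s.rq m).H fun l => x m l π) ∧
      ((∀ v ∈ τ, OK s.p s.rq n (.inr v)) → (∀ v ∈ τ, ∀ v' ∈ τ, v.1 = v'.1 → v = v') →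
        ∀ v ∈ τ, ∀ v' ∈ τ, v ≠ v' → (π v ↔ y) ∨ (π v' ↔ y))}).mono subset_rfl
      fun i hi => hi.2).congr fun i _ => Set.ext fun π => and_congr_left' ?_
    exact ⟨fun h m => h m m.2, fun h m hm => h ⟨m, hm⟩⟩
  · obtain ⟨π, hπ⟩ := hsol i (pr i)
    refine ⟨π, fun m hm => (hπ m hm).1, fun h1 h2 v hv _ _ _ => Or.inl ?_⟩
    have := (hπ v.1 (h1 v hv).1).2
    rw [hpr h2 i v hv] at this
    exact this (h1 v hv).2
  · intro u hu x
    obtain ⟨π, hπ⟩ := hsol i (Function.update (pr i) u.1 (u.2, x))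
    refine ⟨π, ⟨fun m hm => (hπ m hm).1, fun h1 h2 => ?_⟩, ?_⟩
    · have k : ∀ v ∈ τ, v.1 ≠ u.1 → (π v ↔ i ∈ c) := fun v hv e => by
        have := (hπ v.1 (h1 v hv).1).2
        rw [Function.update_of_ne e, hpr h2 i v hv] at this
        exact this (h1 v hv).2
      intro v hv v' hv' e
      by_cases e' : v.1 = u.1
      · exact Or.inr (k v' hv' fun e'' => e (h2 v hv v' hv' (e'.trans e''.symm)))
      · exact Or.inl (k v hv e')
    · have := (hπ u.1 hu.1).2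
      rw [Function.update_self] at this
      exact this hu.2
  · intro i π π' h k
    refine ⟨fun m hm => (k.1 m hm).congr (fun j hj => h (m, j) ⟨hm, hj⟩) fun l => ?_,
      fun h1 h2 v hv v' hv' e => ?_⟩
    · have := hok m hm l
      rcases e : (s.rq m).F l with x | v
      · exact Iff.rfl
      · rw [e] at this
        exact h v this
    · rw [h v (h1 v hv), h v' (h1 v' hv')]
      exact k.2 h1 h2 v hv v' hv' e

theorem step_exists (Mv : ℕ → Cond W → (ℕ × ℕ → Node W) → Cond W → Set W → Prop)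
    (hMv : ∀ n p b, ∃ p' c, p' ≤ p ∧ Dep p'.G (Iio p'.ρ) (· ∈ c) ∧ Mv n p b p' c)
    (tup : ℕ → Finset (ℕ × ℕ)) (n : ℕ) (s : St W) (x : Rq W) (hs : Inv n s) :
    ∃ s', Inv (n + 1) s' ∧ Step Mv tup n s x s' := by
  classical
  obtain ⟨p, c, hp, hc, hm⟩ := hMv n s.p s.b
  obtain ⟨t, t1, t2⟩ := lift_old hs hp hc (tup n)
  obtain ⟨r, hr, hx⟩ : ∃ r, Valid s.p s.rq n r ∧ (Valid s.p s.rq n x → r = x) := by
    by_cases h : Valid s.p s.rq n x
    exacts [⟨x, h, fun _ => rfl⟩, ⟨_, valid_nil _ _ _, fun k => absurd k h⟩]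
  obtain ⟨u, u1, u2⟩ := p.richI (Fin r.k) (hr.ρ_le.trans hp.ρ_le) le_rfl r.b r.q
    (fun j => ⟨hp.T_sub (hr.b_mem j).1, (hr.b_mem j).2⟩)
    (fun i => r.H fun l => Sum.elim (lowEv p i) (fun v => i ∈ (t v).a) (r.F l))
    ((Dep.comp (Dep.pi fun l => by
      have := hr.ok l
      rcases e : r.F l with y | v
      · rw [e] at this
        exact (this.mono (rq' := s.rq) hp le_rfl fun _ _ => rfl).dep_low
      · rw [e] at this
        exact Dep.mem (p.a_mem _ (t1 v this).1) _) r.H).mono subset_rfl fun i hi => hi.2)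
    fun i _ => hr.onto _
  let b : ℕ × ℕ → Node W := fun v =>
    if v.1 = n then (if h : v.2 < r.k then u ⟨v.2, h⟩ else t v) else t v
  have b1 : ∀ v : ℕ × ℕ, v.1 < n → b v = t v := fun v h => if_neg h.ne
  have b2 : ∀ j (h : j < r.k), b (n, j) = u ⟨j, h⟩ := fun j h => (if_pos rfl).trans (dif_pos h)
  let rq := Function.update s.rq n r
  have r1 : ∀ m < n, rq m = s.rq m := fun m h => Function.update_of_ne h.ne _ _
  have r2 : rq n = r := Function.update_self _ _ _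
  have e1 : ∀ i σ, OK s.p s.rq n σ → (St.ev ⟨p, rq, b, c⟩ i σ ↔
      Sum.elim (lowEv p i) (fun v => i ∈ (t v).a) σ) := by
    rintro i (y | v) h
    · exact Iff.rfl
    · exact iff_of_eq (congrArg (fun z : Node W => i ∈ z.a) (b1 v h.1))
  refine ⟨⟨p, rq, b, c⟩, ⟨fun m hm => ?_, fun v hv => ?_⟩, hp, hm, r1, fun h => r2.trans (hx h),
    fun v hv => ?_, ?_, fun m hm i hi => ?_, ?_, fun h1 h2 i hi v hv v' hv' e => ?_⟩
  · rcases (Nat.lt_succ_iff.1 hm).lt_or_eq with h | rfl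
    · show Valid p rq m (rq m)
      rw [r1 m h]
      exact (hs.val m h).mono hp le_rfl fun k hk => r1 k (hk.trans h)
    · show Valid p rq m (rq m)
      rw [r2]
      exact hr.mono hp le_rfl r1
  · obtain ⟨m, j⟩ := v
    show b _ ∈ p.T ∧ (b _).ht = p.ρ ∧ (b _).SB (bq rq _)
    have h2 : j < (rq m).k := hv.2
    rcases (Nat.lt_succ_iff.1 hv.1).lt_or_eq with h | h
    · rw [r1 m h] at h2
      rw [b1 _ h, bq_congr (rq := s.rq) (r1 m h)]
      have := t1 (m, j) ⟨h, h2⟩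
      exact ⟨this.1, this.2.1, this.2.2.2⟩
    · obtain rfl : m = n := h
      have h3 : bq rq (m, j) = r.q ⟨j, r2 ▸ h2⟩ := by
        rw [bq_congr (rq := fun _ => r) r2]
        exact dif_pos _
      rw [b2 j (r2 ▸ h2), h3]
      exact ⟨(u1 _).1, (u1 _).2.1, (u1 _).2.2.2⟩
  · show (b v).res _ = _
    rw [b1 v hv.1]
    exact (t1 v hv).2.2.1
  · show ∀ j : Fin (rq n).k, (b (n, j)).res (rq n).ρ = (rq n).b j
    rw [r2]
    intro j
    rw [b2 j j.2]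
    exact (u1 j).2.2.1
  · show (rq m).Blk m _
    rw [r1 m hm]
    exact ((t2 i hi).1 m hm).congr (fun j hj => e1 i _ ⟨hm, hj⟩) fun l =>
      e1 i _ (((hs.val m hm).ok l).mono le_rfl hm.le fun _ _ => rfl)
  · show ∀ i ∈ Ico (rq n).ρ p.ρ, (rq n).Blk n _
    rw [r2]
    intro i hi
    unfold Rq.Blk
    rw [funext fun l => propext (e1 i _ (hr.ok l))]
    convert u2 i hi using 2 with j
    exact iff_of_eq (congrArg (fun z : Node W => i ∈ z.a) (b2 j j.2))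
  · show (i ∈ (b v).a ↔ _) ∨ (i ∈ (b v').a ↔ _)
    rw [b1 v (h1 v hv).1, b1 v' (h1 v' hv').1]
    exact (t2 i hi).2 h1 h2 v hv v' hv' e

end Pool.Agent.Work.MP_ee7661_gt.MA
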