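import Pool.Agent.Work.MP_ee7661_gt.MTD
import Mathlib.Data.Set.Finite.Lemmas

/-! The Lindelöf space `Y` and the compact set `K` of `0`-`1` valued functions on it inside the
model: definitions, topology, compactness.

Plan: adapt `Space.lean` and `Main.lean` of this folder (there `Y = θ` and points are `kd.o j`;
here points are `td.st t`, not injective in `t`).  Definability inside the model goes through the
sets `td.Ev` (`App Ev (nd t) (st t)`), `td.T`, `td.θ`, and `E (o i) (st t) ↔ i ∈ a t`.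
Compactness: define `x ⊆ T` by recursion along `E` on `T` (`nd_lt`), as in `Space.isCompact` but
with nodes `t : N` as coordinates; every finite set of nodes is then `Good`, so `x` respects
`st t = st t'`, and `f y = 1 ↔ ∃ t ∈ x, App Ev t y` is the limit point. -/

namespace Pool.Agent.Work.MP_ee7661_gt.MA
open Pool.Agent.Lib.ZFModel Pool.Agent.Work.MP_63c7e0_lc Pool.Agent.Work.MP_3181e1_lc

variable {M : Type 1} {E : M → M → Prop} {J N : Type 1} [LinearOrder J] [LinearOrder N]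

set_option synthInstance.maxSize 100000

variable (zf : IsZF E) (td : TD E J N)

/-- The function `f` takes the value `1` at the point given by the node `t`. -/
def val (f : M) (t : N) : Prop := App E f (td.st t) (td.nat 1)

def IsY (Y : M) : Prop := ∀ y, E y Y ↔ ∃ t, y = td.st t

def IsK (Y K : M) : Prop := ∀ f, E f K ↔ IsFun E f Y (td.nat 2) ∧ ∀ F : Set N, F.Finite →
  (∀ t ∈ F, ¬ val td f t) ∨ ∃ i, ∀ t ∈ F, val td f t ↔ i ∈ td.a t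

def IsSig (K σ : M) : Prop := ∀ U, E U σ ↔ Sub E U K ∧ ∀ f, E f U → ∃ F : Set N, F.Finite ∧
  ∀ g, E g K → (∀ t ∈ F, val td f t ↔ val td g t) → E g U

def IsTau (Y K τ : M) : Prop := ∀ U, E U τ ↔ Sub E U Y ∧ ∀ t, E (td.st t) U →
  ∃ F : Set M, F.Finite ∧ (∀ f ∈ F, E f K) ∧
    ∀ u, (∀ f ∈ F, val td f t ↔ val td f u) → E (td.st u) U

include zf

theorem o_inj {i j : J} (h : td.o i = td.o j) : i = j := by
  rcases lt_trichotomy i j with h1 | h1 | h1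
  · exact absurd ((td.mem_o _ j).2 ⟨i, h1, h.symm⟩) (not_mem_self zf (td.o j))
  · exact h1
  · exact absurd ((td.mem_o _ i).2 ⟨j, h1, h⟩) (not_mem_self zf (td.o i))

theorem o_mem_o {i j : J} : E (td.o i) (td.o j) ↔ i < j := by
  exact (td.mem_o _ _).trans ⟨fun ⟨_, h, e⟩ => o_inj zf td e ▸ h, fun h => ⟨i, h, rfl⟩⟩

theorem o_mem_st {i : J} {t : N} : E (td.o i) (td.st t) ↔ i ∈ td.a t := by
  exact (td.mem_st _ _).trans ⟨fun ⟨_, h, e⟩ => o_inj zf td e ▸ h, fun h => ⟨i, h, rfl⟩⟩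

theorem nd_inj {s t : N} (h : td.nd s = td.nd t) : s = t := by
  rcases lt_trichotomy s t with h1 | h1 | h1
  · exact absurd (h ▸ (td.nd_lt s t).2 h1) (not_mem_self zf (td.nd t))
  · exact h1
  · exact absurd (h ▸ (td.nd_lt t s).2 h1) (not_mem_self zf (td.nd t))

theorem s1_Ev {t : N} {y : M} : App E td.Ev (td.nd t) y ↔ y = td.st t :=
  (td.app_Ev _ _).trans ⟨fun ⟨_, h, e⟩ => nd_inj zf td h ▸ e, fun h => ⟨t, rfl, h⟩⟩

theorem s1_fin_nd {F : M} (h : IsFin E F) : {t | E (td.nd t) F}.Finite :=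
  ((isFin_iff zf td.toND F).1 h).preimage (f := td.nd) fun _ _ _ _ h => nd_inj zf td h

theorem s1_rec [WellFoundedLT N] (H : M → M → Prop)
    [Dfn E fun v => ∃ x, (∀ c, E c (v 0) → E c td.T → (E c x ↔ H x c)) ∧ H x (v 0)]
    (hloc : ∀ x x' j, (∀ i < j, E (td.nd i) x ↔ E (td.nd i) x') → H x (td.nd j) → H x' (td.nd j)) :
    ∃ x, ∀ j, E (td.nd j) x ↔ H x (td.nd j) := by
  obtain ⟨y, hy⟩ := zf.sep td.T fun b =>
    ∃ x, (∀ c, E c b → E c td.T → (E c x ↔ H x c)) ∧ H x b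
  have hT : ∀ t, E (td.nd t) td.T := fun t => (td.mem_T _).2 ⟨t, rfl⟩
  have key : ∀ x x' j, (∀ i < j, E (td.nd i) x ↔ H x (td.nd i)) →
      (∀ i < j, E (td.nd i) x' ↔ H x' (td.nd i)) → ∀ i < j, E (td.nd i) x ↔ E (td.nd i) x' := by
    intro x x' j h h' i
    induction i using WellFoundedLT.induction with
    | ind i ih =>
      intro hi
      rw [h i hi, h' i hi]
      exact ⟨hloc _ _ i fun k hk => ih k hk (hk.trans hi),
        hloc _ _ i fun k hk => (ih k hk (hk.trans hi)).symm⟩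
  refine ⟨y, fun j => ?_⟩
  induction j using WellFoundedLT.induction with
  | ind j ih =>
    rw [hy]
    refine ⟨fun ⟨_, x, h1, h2⟩ => hloc _ _ j
      (key x y j (fun i hi => h1 _ ((td.nd_lt _ _).2 hi) (hT i)) ih) h2,
      fun h => ⟨hT j, y, fun c hc hc' => ?_, h⟩⟩
    obtain ⟨i, rfl⟩ := (td.mem_T _).1 hc'
    exact ih i ((td.nd_lt _ _).1 hc)

theorem exists_Y : ∃ Y, IsY td Y := by
  have := zf.nonempty
  obtain ⟨W, hW⟩ := zf.powerset td.θ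
  obtain ⟨Y, hY⟩ := zf.sep W fun y => ∃ x, App E td.Ev x y
  refine ⟨Y, fun y => (hY y).trans ⟨fun ⟨_, x, h⟩ => ?_, ?_⟩⟩
  · obtain ⟨t, -, h⟩ := (td.app_Ev _ _).1 h
    exact ⟨t, h⟩
  · rintro ⟨t, rfl⟩
    refine ⟨(hW _).2 fun x hx => ?_, _, (s1_Ev zf td).2 rfl⟩
    obtain ⟨i, -, rfl⟩ := (td.mem_st _ _).1 hx
    exact (td.mem_θ _).2 ⟨i, rfl⟩

variable {td} {Y : M} (hY : IsY td Y)
include hY

omit zf in
theorem s1_stY (t : N) : E (td.st t) Y := (hY _).2 ⟨t, rfl⟩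

theorem s1_fin_st {F : M} (h1 : Sub E F Y) (h2 : IsFin E F) :
    ∃ S : Set N, S.Finite ∧ ∀ y, E y F ↔ ∃ t ∈ S, y = td.st t := by
  have := ((isFin_iff zf td.toND F).1 h2).to_subtype
  choose t ht using fun y : {x | E x F} => (hY y.1).1 (h1 _ y.2)
  refine ⟨Set.range t, Set.finite_range t, fun y => ⟨fun hy => ⟨_, ⟨⟨y, hy⟩, rfl⟩, ht ⟨y, hy⟩⟩, ?_⟩⟩
  rintro ⟨_, ⟨z, rfl⟩, rfl⟩
  exact ht z ▸ z.2

theorem s1_app_iff {f : M} (hf : IsFun E f Y (td.nat 2)) (j : N) (b : M) :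
    App E f (td.st j) b ↔ (val td f j ∧ b = td.nat 1) ∨ (¬ val td f j ∧ b = td.nat 0) := by
  have h2 : ∀ {b}, App E f (td.st j) b → b = td.nat 0 ∨ b = td.nat 1 := fun h => by
    obtain ⟨m, hm, rfl⟩ := (td.mem_nat _ _).1 (hf.mem zf h).2
    obtain rfl | rfl : m = 0 ∨ m = 1 := by omega
    exacts [Or.inl rfl, Or.inr rfl]
  constructor
  · intro h
    rcases h2 h with rfl | rfl
    · exact Or.inr ⟨fun h' => absurd (nat_inj zf td.toND (hf.2.2 _ _ _ h h')) (by omega), rfl⟩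
    · exact Or.inl ⟨h, rfl⟩
  · rintro (⟨h, rfl⟩ | ⟨h, rfl⟩)
    · exact h
    · obtain ⟨b, hb⟩ := hf.2.1 _ (s1_stY hY j)
      rcases h2 hb with rfl | rfl
      exacts [hb, absurd hb h]

theorem s1_app_congr {f g : M} (hf : IsFun E f Y (td.nat 2)) (hg : IsFun E g Y (td.nat 2))
    {i j : N} : (∀ b, App E f (td.st i) b → App E g (td.st j) b) ↔ (val td f i ↔ val td g j) := by
  refine ⟨fun h => ⟨h _, fun h1 => by_contra fun h2 => ?_⟩, fun h b => ?_⟩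
  · have := h _ ((s1_app_iff zf hY hf i _).2 (Or.inr ⟨h2, rfl⟩))
    exact absurd (nat_inj zf td.toND (hg.2.2 _ _ _ this h1)) (by omega)
  · rw [s1_app_iff zf hY hf, s1_app_iff zf hY hg, h]; exact id

theorem s1_char (x : M) :
    ∃ f, IsFun E f Y (td.nat 2) ∧ ∀ j, val td f j ↔ E (td.st j) x := by
  have := zf.nonempty
  obtain ⟨f, h1, h2⟩ := exists_rel zf Y (td.nat 2) fun a b =>
    (E a x ∧ b = td.nat 1) ∨ (¬ E a x ∧ b = td.nat 0)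
  have h3 : ∀ m < 2, E (td.nat m) (td.nat 2) := fun m hm => (td.mem_nat _ _).2 ⟨m, hm, rfl⟩
  refine ⟨f, ⟨h1, fun a ha => ?_, fun a b b' hb hb' => ?_⟩, fun j => (h2 _ _).trans ⟨?_, ?_⟩⟩
  · by_cases h : E a x
    · exact ⟨_, (h2 _ _).2 ⟨ha, h3 1 (by omega), Or.inl ⟨h, rfl⟩⟩⟩
    · exact ⟨_, (h2 _ _).2 ⟨ha, h3 0 (by omega), Or.inr ⟨h, rfl⟩⟩⟩
  · obtain ⟨-, -, ⟨a1, rfl⟩ | ⟨a1, rfl⟩⟩ := (h2 _ _).1 hb <;>
      obtain ⟨-, -, ⟨a2, rfl⟩ | ⟨a2, rfl⟩⟩ := (h2 _ _).1 hb'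
    exacts [rfl, absurd a1 a2, absurd a2 a1, rfl]
  · rintro ⟨-, -, ⟨h, -⟩ | ⟨-, h⟩⟩
    · exact h
    · exact absurd (nat_inj zf td.toND h) (by omega)
  · exact fun h => ⟨s1_stY hY j, h3 1 (by omega), Or.inl ⟨h, rfl⟩⟩

theorem exists_K : ∃ K, IsK td Y K := by
  have := zf.nonempty
  obtain ⟨Z, hZ⟩ := exists_funs zf Y (td.nat 2)
  obtain ⟨K, hK⟩ := zf.sep Z fun f => IsFun E f Y (td.nat 2) ∧ ∀ F, Sub E F Y → IsFin E F →
    (∀ y, E y F → ¬ App E f y (td.nat 1)) ∨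
      ∃ i, E i td.θ ∧ ∀ y, E y F → (App E f y (td.nat 1) ↔ E i y)
  refine ⟨K, fun f => (hK f).trans ⟨fun h => ⟨h.2.1, fun F h1 => ?_⟩,
    fun h => ⟨hZ f h.1, h.1, fun F h1 h2 => ?_⟩⟩⟩
  · obtain ⟨G, h3, h4⟩ := exists_fin zf td.toND (h1.image td.st)
    refine (h.2.2 G (fun y hy => ?_) h3).imp (fun h5 t ht => h5 _ ((h4 _).2 ⟨t, ht, rfl⟩)) ?_
    · obtain ⟨j, -, rfl⟩ := (h4 y).1 hy
      exact s1_stY hY j
    · rintro ⟨i, hi, h5⟩
      obtain ⟨i, rfl⟩ := (td.mem_θ _).1 hi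
      exact ⟨i, fun t ht => (h5 _ ((h4 _).2 ⟨t, ht, rfl⟩)).trans (o_mem_st zf td)⟩
  · obtain ⟨S, h3, h4⟩ := s1_fin_st zf hY h1 h2
    refine (h.2 S h3).imp (fun h5 y hy => ?_) fun ⟨i, h5⟩ =>
      ⟨_, (td.mem_θ _).2 ⟨i, rfl⟩, fun y hy => ?_⟩
    · obtain ⟨t, ht, rfl⟩ := (h4 y).1 hy
      exact h5 t ht
    · obtain ⟨t, ht, rfl⟩ := (h4 y).1 hy
      exact (h5 t ht).trans (o_mem_st zf td).symm

variable {K : M} (hK : IsK td Y K)
include hK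

theorem exists_pt (i : J) : ∃ f, E f K ∧ ∀ t, val td f t ↔ i ∈ td.a t := by
  have := zf.nonempty
  obtain ⟨x, hx⟩ := zf.sep Y fun y => E (td.o i) y
  obtain ⟨f, h1, h2⟩ := s1_char zf hY x
  have h3 : ∀ t, val td f t ↔ i ∈ td.a t := fun t =>
    (h2 t).trans ((hx _).trans ((and_iff_right (s1_stY hY t)).trans (o_mem_st zf td)))
  exact ⟨f, (hK f).2 ⟨h1, fun _ _ => Or.inr ⟨i, fun t _ => h3 t⟩⟩, h3⟩

theorem exists_zero : ∃ f, E f K ∧ ∀ t, ¬ val td f t := by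
  obtain ⟨e, he⟩ := exists_empty zf
  obtain ⟨f, h1, h2⟩ := s1_char zf hY e
  have h3 : ∀ t, ¬ val td f t := fun t h => he _ ((h2 t).1 h)
  exact ⟨f, (hK f).2 ⟨h1, fun _ _ => Or.inl fun t _ => h3 t⟩, h3⟩

theorem K_ext {f g : M} (hf : E f K) (hg : E g K) (h : ∀ t, val td f t ↔ val td g t) : f = g := by
  have h1 := ((hK f).1 hf).1
  have h2 := ((hK g).1 hg).1
  refine fun_ext zf h1 h2 fun a b hab => ?_
  obtain ⟨j, rfl⟩ := (hY _).1 (h1.mem zf hab).1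
  exact (s1_app_congr zf hY h1 h2).2 (h j) b hab

theorem s1_sig : ∃ σ, IsSig td K σ ∧ ∀ U, E U σ ↔ Sub E U K ∧ ∀ f, E f U →
    ∃ F, Sub E F Y ∧ IsFin E F ∧
      ∀ g, E g K → (∀ y b, E y F → App E f y b → App E g y b) → E g U := by
  have := zf.nonempty
  obtain ⟨W, hW⟩ := zf.powerset K
  obtain ⟨σ, hσ⟩ := zf.sep W fun U => ∀ f, E f U → ∃ F, Sub E F Y ∧ IsFin E F ∧
    ∀ g, E g K → (∀ y b, E y F → App E f y b → App E g y b) → E g U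
  refine ⟨σ, fun U => ?_, fun U => by rw [hσ, hW]; rfl⟩
  rw [hσ, hW]
  refine and_congr_right fun hU => forall₂_congr fun f hf => ⟨?_, ?_⟩
  · rintro ⟨F, h1, h2, h3⟩
    obtain ⟨S, h4, h5⟩ := s1_fin_st zf hY h1 h2
    refine ⟨S, h4, fun g hg h => h3 g hg fun y b hy => ?_⟩
    obtain ⟨j, hj, rfl⟩ := (h5 _).1 hy
    exact (s1_app_congr zf hY ((hK f).1 (hU f hf)).1 ((hK g).1 hg).1).2 (h j hj) b
  · rintro ⟨F, h1, h2⟩
    obtain ⟨G, h3, h4⟩ := exists_fin zf td.toND (h1.image td.st)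
    refine ⟨G, fun y hy => ?_, h3, fun g hg h => h2 g hg fun j hj => ?_⟩
    · obtain ⟨j, -, rfl⟩ := (h4 y).1 hy
      exact s1_stY hY j
    · exact (s1_app_congr zf hY ((hK f).1 (hU f hf)).1 ((hK g).1 hg).1).1 fun b =>
        h _ b ((h4 _).2 ⟨j, hj, rfl⟩)

omit hK in
theorem s1_tau : ∃ τ, IsTau td Y K τ := by
  have := zf.nonempty
  obtain ⟨W, hW⟩ := zf.powerset Y
  obtain ⟨τ, hτ⟩ := zf.sep W fun U => ∀ a, E a U → ∃ F, Sub E F K ∧ IsFin E F ∧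
    ∀ b, E b Y → (∀ f, E f F → (App E f a (td.nat 1) ↔ App E f b (td.nat 1))) → E b U
  refine ⟨τ, fun U => ?_⟩
  rw [hτ, hW]
  refine and_congr_right fun hU => ⟨fun h i hi => ?_, fun h a ha => ?_⟩
  · obtain ⟨F, h1, h2, h3⟩ := h _ hi
    exact ⟨_, (isFin_iff zf td.toND F).1 h2, h1, fun j hj => h3 _ (s1_stY hY j) hj⟩
  · obtain ⟨i, rfl⟩ := (hY _).1 (hU a ha)
    obtain ⟨F, h1, h2, h3⟩ := h i ha
    obtain ⟨G, h4, h5⟩ := exists_fin zf td.toND h1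
    refine ⟨G, fun f hf => h2 f ((h5 f).1 hf), h4, fun b hb h6 => ?_⟩
    obtain ⟨j, rfl⟩ := (hY _).1 hb
    exact h3 j fun f hf => h6 f ((h5 f).2 hf)

omit zf hK in
theorem s1_isTop {τ : M} (hτ : IsTau td Y K τ) : IsTop E Y τ := by
  refine ⟨fun U hU => ((hτ U).1 hU).1, (hτ _).2 ⟨fun _ h => h, fun i _ =>
    ⟨∅, Set.finite_empty, fun _ h => h.elim, fun j _ => s1_stY hY j⟩⟩,
    fun U V W hU hV hW => ?_, fun S W hS hW => ?_⟩
  · obtain ⟨h1, h2⟩ := (hτ U).1 hU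
    obtain ⟨_, h4⟩ := (hτ V).1 hV
    refine (hτ W).2 ⟨fun x hx => h1 x ((hW x).1 hx).1, fun i hi => ?_⟩
    obtain ⟨F, a1, a2, a3⟩ := h2 i ((hW _).1 hi).1
    obtain ⟨G, b1, b2, b3⟩ := h4 i ((hW _).1 hi).2
    exact ⟨F ∪ G, a1.union b1, fun f hf => hf.elim (a2 f) (b2 f), fun j hj => (hW _).2
      ⟨a3 j fun f hf => hj f (Or.inl hf), b3 j fun f hf => hj f (Or.inr hf)⟩⟩
  · refine (hτ W).2 ⟨fun x hx => ?_, fun i hi => ?_⟩
    · obtain ⟨U, hU, hx⟩ := (hW x).1 hx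
      exact ((hτ U).1 (hS U hU)).1 x hx
    · obtain ⟨U, hU, hx⟩ := (hW _).1 hi
      obtain ⟨F, a1, a2, a3⟩ := ((hτ U).1 (hS U hU)).2 i hx
      exact ⟨F, a1, a2, fun j hj => (hW _).2 ⟨U, hU, a3 j hj⟩⟩

omit hK in
theorem s1_zeroDim {τ : M} (hτ : IsTau td Y K τ) : ZeroDim E Y τ := by
  have := zf.nonempty
  obtain ⟨B, hB⟩ := zf.sep τ fun b => Sub E b Y ∧ ∃ U, E U τ ∧ ∀ x, E x U ↔ E x Y ∧ ¬ E x b
  refine ⟨B, fun b hb => (hB b).1 hb, fun U a hU ha => ?_⟩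
  obtain ⟨h1, h2⟩ := (hτ U).1 hU
  obtain ⟨i, rfl⟩ := (hY _).1 (h1 a ha)
  obtain ⟨F, a1, a2, a3⟩ := h2 i ha
  obtain ⟨G, -, hG⟩ := exists_fin zf td.toND a1
  obtain ⟨b, hb⟩ := zf.sep Y fun y => ∀ f, E f G →
    (App E f (td.st i) (td.nat 1) ↔ App E f y (td.nat 1))
  obtain ⟨V, hV⟩ := zf.sep Y fun y => ¬ E y b
  have hb' : ∀ j, E (td.st j) b ↔ ∀ f ∈ F, val td f i ↔ val td f j := fun j => by
    rw [hb]; simp only [hG, s1_stY hY j, true_and]; rfl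
  have hc : ∀ j k, (∀ f ∈ F, val td f j ↔ val td f k) → (E (td.st j) b ↔ E (td.st k) b) :=
    fun j k h => by
      rw [hb', hb']; exact forall₂_congr fun f hf => by rw [h f hf]
  have hs : Sub E b Y := fun y hy => ((hb y).1 hy).1
  refine ⟨b, (hB b).2 ⟨(hτ b).2 ⟨hs, fun j hj => ⟨F, a1, a2, fun k hk => (hc j k hk).1 hj⟩⟩, hs, V,
    (hτ V).2 ⟨fun y hy => ((hV y).1 hy).1, fun j hj => ⟨F, a1, a2, fun k hk => (hV _).2
      ⟨s1_stY hY k, fun h => ((hV _).1 hj).2 ((hc j k hk).2 h)⟩⟩⟩, hV⟩,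
    (hb' i).2 fun _ _ => Iff.rfl, fun y hy => ?_⟩
  obtain ⟨j, rfl⟩ := (hY _).1 (hs y hy)
  exact a3 j ((hb' j).1 hy)

theorem s1_isT1 {τ : M} (hτ : IsTau td Y K τ) : IsT1 E Y τ := by
  have := zf.nonempty
  intro a s ha hs
  obtain ⟨i, rfl⟩ := (hY _).1 ha
  obtain ⟨V, hV⟩ := zf.sep Y fun y => ¬ E y s
  refine ⟨fun y hy => (hs y).1 hy ▸ ha, V, (hτ V).2 ⟨fun y hy => ((hV y).1 hy).1, fun j hj => ?_⟩,
    hV⟩
  obtain ⟨l, hl⟩ : ∃ l, ¬ (l ∈ td.a j ↔ l ∈ td.a i) := by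
    by_contra h
    refine ((hV _).1 hj).2 ((hs _).2 (zf.extensionality _ _ fun z => ?_))
    rw [td.mem_st, td.mem_st]
    exact exists_congr fun l => and_congr_left fun _ => not_not.1 fun h' => h ⟨l, h'⟩
  obtain ⟨f, a1, a2⟩ := exists_pt zf hY hK l
  refine ⟨{f}, Set.finite_singleton _, fun _ h => h ▸ a1, fun k hk =>
    (hV _).2 ⟨s1_stY hY k, fun h => hl ?_⟩⟩
  rw [← a2, ← a2, hk f rfl, val, val, (hs _).1 h]

theorem s1_isCont {τ : M} (hτ : IsTau td Y K τ) {f δ : M} (hf : E f K) :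
    IsCont E f Y τ (td.nat 2) δ := by
  have h := ((hK f).1 hf).1
  refine ⟨h, fun V U _ hU => (hτ U).2 ⟨fun a ha => ?_, fun i hi => ?_⟩⟩
  · obtain ⟨y, -, hy⟩ := (hU a).1 ha
    exact (h.mem zf hy).1
  · obtain ⟨y, h1, h2⟩ := (hU _).1 hi
    exact ⟨{f}, Set.finite_singleton _, fun _ h => h ▸ hf, fun j hj =>
      (hU _).2 ⟨y, h1, (s1_app_congr zf hY h h).2 (hj f rfl) y h2⟩⟩

theorem exists_top : ∃ τ σ, IsTau td Y K τ ∧ IsSig td K σ ∧ IsTop E Y τ ∧ IsT1 E Y τ ∧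
    ZeroDim E Y τ ∧ IsCpTwoSubspace E Y τ K σ := by
  obtain ⟨τ, hτ⟩ := s1_tau zf hY (K := K)
  obtain ⟨σ, hσ, hσ'⟩ := s1_sig zf hY hK
  obtain ⟨δ, hδ⟩ := zf.powerset (td.nat 2)
  exact ⟨τ, σ, hτ, hσ, s1_isTop hY hτ, s1_isT1 zf hY hK hτ, s1_zeroDim zf hY hτ,
    _, δ, isTwo zf td.toND, hδ, fun f hf => s1_isCont zf hY hK hτ hf, hσ'⟩

theorem isCompact [WellFoundedLT N] {σ : M} (hσ : IsSig td K σ) : IsCompactSp E K σ := by
  have := zf.nonempty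
  intro c hc hcov
  by_contra hn
  let G : M → M → Prop := fun x a => ∀ F V, Sub E F a → Sub E F td.T → IsFin E F → Sub E V c →
    IsFin E V → ∃ g, E g K ∧ (∀ i y, E i F → App E td.Ev i y → (App E g y (td.nat 1) ↔ E i x)) ∧
      (∀ y, App E td.Ev a y → ¬ App E g y (td.nat 1)) ∧ ∀ U, E U V → ¬ E g U
  have hG : ∀ x j, G x (td.nd j) ↔ ∀ (F : Set N) (V : Set M), F.Finite → (∀ i ∈ F, i < j) →
      V.Finite → (∀ U ∈ V, E U c) → ∃ g, E g K ∧ (∀ i ∈ F, val td g i ↔ E (td.nd i) x) ∧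
        ¬ val td g j ∧ ∀ U ∈ V, ¬ E g U := by
    refine fun x j => ⟨fun h F V h1 h2 h3 h4 => ?_, fun h F V h1 h0 h2 h3 h4 => ?_⟩
    · obtain ⟨F', a1, a2⟩ := exists_fin zf td.toND (h1.image td.nd)
      obtain ⟨V', a3, a4⟩ := exists_fin zf td.toND h3
      obtain ⟨g, b1, b2, b3, b4⟩ := h F' V' (fun y hy => by
        obtain ⟨i, hi, rfl⟩ := (a2 y).1 hy
        exact (td.nd_lt _ _).2 (h2 i hi)) (fun y hy => by
        obtain ⟨i, -, rfl⟩ := (a2 y).1 hy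
        exact (td.mem_T _).2 ⟨i, rfl⟩) a1 (fun U hU => h4 U ((a4 U).1 hU)) a3
      exact ⟨g, b1, fun i hi => b2 _ _ ((a2 _).2 ⟨i, hi, rfl⟩) ((s1_Ev zf td).2 rfl),
        b3 _ ((s1_Ev zf td).2 rfl), fun U hU => b4 U ((a4 U).2 hU)⟩
    · obtain ⟨g, b1, b2, b3, b4⟩ := h _ _ (s1_fin_nd zf td h2)
        (fun i hi => (td.nd_lt _ _).1 (h1 _ hi)) ((isFin_iff zf td.toND V).1 h4) h3
      refine ⟨g, b1, fun z y hz hy => ?_, fun y hy => (s1_Ev zf td).1 hy ▸ b3, b4⟩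
      obtain ⟨i, rfl⟩ := (td.mem_T _).1 (h0 z hz)
      exact (s1_Ev zf td).1 hy ▸ b2 i hz
  obtain ⟨x, hx⟩ := s1_rec zf td (fun x a => ¬ G x a) (by
    intro x x' j h h1 h2
    refine h1 ((hG x j).2 fun F V a1 a2 a3 a4 => ?_)
    obtain ⟨g, b1, b2, b3⟩ := (hG x' j).1 h2 F V a1 a2 a3 a4
    exact ⟨g, b1, fun i hi => (b2 i hi).trans (h i (a2 i hi)).symm, b3⟩)
  let Good : Set N → Prop := fun S => ∀ (F : Set N) (V : Set M), F.Finite → F ⊆ S → V.Finite →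
    (∀ U ∈ V, E U c) → ∃ g, E g K ∧ (∀ i ∈ F, val td g i ↔ E (td.nd i) x) ∧ ∀ U ∈ V, ¬ E g U
  have lim : ∀ S : Set N, (∀ i ∈ S, Good (Set.Iic i)) → Good S := by
    intro S h F V a1 a2 a3 a4
    rcases F.eq_empty_or_nonempty with rfl | hF
    · obtain ⟨V', a5, a6⟩ := exists_fin zf td.toND a3
      by_contra h1
      refine hn ⟨V', fun U hU => a4 U ((a6 U).1 hU), a5, fun g hg => by_contra fun h2 => ?_⟩
      exact h1 ⟨g, hg, fun _ h => h.elim, fun U hU h3 => h2 ⟨U, (a6 U).2 hU, h3⟩⟩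
    · obtain ⟨m, hm, h1⟩ := Set.exists_max_image F id a1 hF
      exact h m (a2 hm) F V a1 h1 a3 a4
  have step : ∀ j, Good (Set.Iic j) := by
    intro j
    induction j using WellFoundedLT.induction with
    | ind j ih =>
      intro F V a1 a2 a3 a4
      have fin : ∀ {g}, (∀ i ∈ F \ {j}, val td g i ↔ E (td.nd i) x) →
          (val td g j ↔ E (td.nd j) x) → ∀ i ∈ F, val td g i ↔ E (td.nd i) x := by
        intro g h1 h2 i hi
        by_cases h : i = j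
        · exact h ▸ h2
        · exact h1 i ⟨hi, h⟩
      have hlt : ∀ i ∈ F \ {j}, i < j := fun i hi => lt_of_le_of_ne (a2 hi.1) hi.2
      by_cases h : E (td.nd j) x
      · have h1 := (hx j).1 h
        rw [hG] at h1
        push Not at h1
        obtain ⟨F0, V0, b1, b2, b3, b4, b5⟩ := h1
        obtain ⟨g, c1, c2, c3⟩ := lim (Set.Iio j) ih (F \ {j} ∪ F0) (V ∪ V0)
          (a1.sdiff.union b1) (fun i hi => hi.elim (hlt i) (b2 i)) (a3.union b3)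
          fun U hU => hU.elim (a4 U) (b4 U)
        refine ⟨g, c1, fin (fun i hi => c2 i (Or.inl hi)) (iff_of_true (by_contra fun h2 => ?_) h),
          fun U hU => c3 U (Or.inl hU)⟩
        obtain ⟨U, hU, h3⟩ := b5 g c1 (fun i hi => c2 i (Or.inr hi)) h2
        exact c3 U (Or.inr hU) h3
      · obtain ⟨g, c1, c2, c3, c4⟩ := (hG x j).1 (not_not.1 ((hx j).not.1 h)) (F \ {j}) V
          a1.sdiff hlt a3 a4
        exact ⟨g, c1, fin c2 (iff_of_false c3 h), c4⟩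
  have all := lim Set.univ fun i _ => step i
  obtain ⟨x', hx'⟩ := zf.sep Y fun y => ∃ t, E t x ∧ App E td.Ev t y
  obtain ⟨f, h1, h2'⟩ := s1_char zf hY x'
  have h2 : ∀ j, val td f j ↔ E (td.nd j) x := fun j => by
    rw [h2', hx']
    refine ⟨fun ⟨_, t, h3, h4⟩ => ?_, fun h => ⟨s1_stY hY j, _, h, (s1_Ev zf td).2 rfl⟩⟩
    obtain ⟨u, rfl, h5⟩ := (td.app_Ev _ _).1 h4
    obtain ⟨g, -, c2, -⟩ := all {j, u} ∅ (Set.toFinite _) (Set.subset_univ _)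
      Set.finite_empty fun _ h => h.elim
    refine (c2 j (by simp)).1 ?_
    rw [val, h5]
    exact (c2 u (by simp)).2 h3
  have hf : E f K := (hK f).2 ⟨h1, fun F hF => by
    obtain ⟨g, c1, c2, -⟩ := all F ∅ hF (Set.subset_univ _) Set.finite_empty fun _ h => h.elim
    exact (((hK g).1 c1).2 F hF).imp (fun h t ht h3 => h t ht ((c2 t ht).2 ((h2 t).1 h3)))
      fun ⟨i, h⟩ => ⟨i, fun t ht => ((h2 t).trans (c2 t ht).symm).trans (h t ht)⟩⟩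
  obtain ⟨U, hU, hfU⟩ := hcov f hf
  obtain ⟨F, h3, h4⟩ := ((hσ U).1 (hc U hU)).2 f hfU
  obtain ⟨g, c1, c2, c3⟩ := all F {U} h3 (Set.subset_univ _) (Set.finite_singleton _)
    fun _ h => h ▸ hU
  exact c3 U rfl (h4 g c1 fun j hj => (h2 j).trans (c2 j hj).symm)

end Pool.Agent.Work.MP_ee7661_gt.MA
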