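import Pool.Agent.Work.MP_ee7661_gt.MTree
import Mathlib.Logic.Small.Basic
import Mathlib.SetTheory.Ordinal.Family
import Mathlib.Data.Rat.Encodable
import Mathlib.Data.Finite.Prod
import Mathlib.Data.Fintype.Prod

/-! The successor step, and smallness of the bounded parts of the tree forcing. -/

namespace Pool.Agent.Work.MP_ee7661_gt.MA
open Set

variable {W : Type 1} [LinearOrder W] [Om1 W]

theorem exists_succ [WellFoundedLT W] (a : W) : ∃ b, a < b ∧ ∀ i, i < b ↔ i ≤ a := by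
  obtain ⟨b, hb, hm⟩ := (wellFounded_lt (α := W)).has_min {b | a < b}
    (let ⟨b, hb⟩ := Om1.bdd {a} (countable_singleton a); ⟨b, hb a rfl⟩)
  exact ⟨b, hb, fun i => ⟨fun h => not_lt.1 fun h' => hm i h' h, fun h => h.trans_lt hb⟩⟩

theorem cnt_Iic (a : W) : (Iic a).Countable := by
  rw [← Iio_insert]; exact (Om1.cnt a).insert a

instance : Small.{0} W := Om1.small

instance : Small.{0} (Node W) :=
  small_of_injective (f := fun t : Node W => (t.ht, t.a, t.φ)) fun s t h => by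
    simp only [Prod.mk.injEq] at h
    exact Node.ext h.1 h.2.1 h.2.2

instance {α : Type 1} [Small.{0} α] : Small.{0} (Option α) :=
  small_of_injective (f := fun o : Option α => {a | o = some a}) fun o o' h => by
    rcases o with _ | a
    · rcases o' with _ | a'
      · rfl
      · exact absurd ((Set.ext_iff.1 h a').2 rfl) (by simp)
    · exact ((Set.ext_iff.1 h a).1 rfl).symm

/-- The one-step extension of a node. -/
def Node.snoc (t : Node W) (σ : W) (v : Prop) (q : ℚ) : Node W :=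
  ⟨σ, {i | i ∈ t.a ∨ (i = t.ht ∧ v)}, fun i => if i = t.ht then q else t.φ i⟩

variable [OrderBot W]

theorem Cond.small (ξ : Ordinal.{0}) : Small.{0} {p : Cond W | {β | p.c β ≠ none} ⊆ Iio ξ} := by
  refine small_of_injective (β := W × Set (Node W) × Set (Set W) × (Iio ξ → Option (Set W)))
    (f := fun p => (p.1.ρ, p.1.T, p.1.G, fun β => p.1.c β)) fun p q h => ?_
  simp only [Prod.mk.injEq] at h
  refine Subtype.ext (Cond.ext h.1 h.2.1 h.2.2.1 (funext fun β => ?_))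
  by_cases e : β < ξ
  · exact congrFun h.2.2.2 ⟨β, e⟩
  · exact (not_not.1 fun k => e (p.2 k)).trans (not_not.1 fun k => e (q.2 k)).symm

theorem Cond.exists_succ [WellFoundedLT W] (p : Cond W) : ∃ q ≤ p, p.ρ < q.ρ := by
  obtain ⟨σ, hσ, hs⟩ := MA.exists_succ p.ρ
  let N : Set (Node W) := {t | ∃ b ∈ p.T, b.ht = p.ρ ∧ ∃ (v : Prop) (q : ℚ),
    (∀ i < p.ρ, b.φ i < q) ∧ t = b.snoc σ v q}
  have hN : N.Countable := by
    have := p.T_cnt.to_subtype
    refine (countable_range fun x : p.T × Prop × ℚ => x.1.1.snoc σ x.2.1 x.2.2).mono ?_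
    rintro _ ⟨b, hb, -, v, q, -, rfl⟩
    exact ⟨(⟨b, hb⟩, v, q), rfl⟩
  have hres : ∀ b ∈ p.T, b.ht = p.ρ → ∀ v q, (b.snoc σ v q).res p.ρ = b := by
    intro b hb e v q
    refine Eq.trans (Node.res_congr (fun i hi => ?_) fun i hi => ?_) (e ▸ (p.wf b hb).res_self)
    · exact or_iff_left fun h => hi.ne (h.1.trans e)
    · exact if_neg fun h => hi.ne (h.trans e)
  have hwf : ∀ t ∈ N, t.WF := by
    rintro _ ⟨b, hb, e, v, q, hq, rfl⟩
    have w := p.wf b hb
    refine ⟨?_, fun i hi => ?_, fun i j hij hj => ?_, q + 1, q, lt_add_one q, fun i hi => ?_⟩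
    · rintro i (h | h)
      · exact (w.a_lt i h).trans (e ▸ hσ)
      · exact h.1 ▸ e ▸ hσ
    · have h1 : b.ht < i := (e ▸ hσ : b.ht < σ).trans_le hi
      exact (if_neg h1.ne').trans (w.φ_zero i h1.le)
    · have h1 : j ≤ b.ht := e ▸ (hs j).1 hj
      show (if i = b.ht then q else b.φ i) < if j = b.ht then q else b.φ j
      rw [if_neg (hij.trans_le h1).ne]
      split_ifs with h2
      · exact hq i (e ▸ hij.trans_le h1)
      · exact w.mono i j hij (lt_of_le_of_ne h1 h2)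
    · show (if i = b.ht then q else b.φ i) ≤ q
      split_ifs with h2
      · exact le_rfl
      · exact (hq i (lt_of_le_of_ne ((hs i).1 hi) (e ▸ h2))).le
  let G : Set (Set W) := insert (Iio p.ρ) (p.G ∪ Node.a '' N)
  have hG : ∀ g ∈ G, Dep p.G (Iio p.ρ) (· ∈ g) := by
    rintro g (rfl | hg | ⟨_, ⟨b, hb, e, v, q, -, rfl⟩, rfl⟩)
    · exact (Dep.const _ _ True).congr fun i hi => eq_true hi
    · exact Dep.mem hg _
    · exact (Dep.mem (p.a_mem b hb) _).congr fun i hi =>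
        propext (Node.mem_of_res (hres b hb e v q) hi).symm
  have hsub : p.G ⊆ G := fun g hg => Or.inr (Or.inl hg)
  have hle : ∀ t ∈ p.T ∪ N, t.ht ≤ σ := by
    rintro t (ht | ⟨b, -, -, v, q, -, rfl⟩)
    exacts [(p.ht_le t ht).trans hσ.le, le_rfl]
  have hrm : ∀ t ∈ p.T ∪ N, ∀ α ≤ t.ht, t.res α ∈ p.T ∪ N := by
    rintro t (ht | ht) α hα
    · exact Or.inl (p.res_mem t ht α hα)
    · rcases hα.lt_or_eq with h | rfl
      · obtain ⟨b, hb, e, v, q, -, rfl⟩ := ht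
        have h1 : α ≤ p.ρ := (hs α).1 h
        rw [← Node.res_res _ h1, hres b hb e]
        exact Or.inl (p.res_mem b hb α (e ▸ h1))
      · rw [(hwf t ht).res_self]; exact Or.inr ht
  have hrich : ∀ n ρ₁ ρ₂, ρ₁ < ρ₂ → ρ₂ ≤ σ → RichI (Fin n) (p.T ∪ N) G ρ₁ ρ₂ := by
    intro n ρ₁ ρ₂ h1 h2 b q hb R hR hO
    have h3 : ρ₁ ≤ p.ρ := (hs _).1 (h1.trans_le h2)
    have hb' : ∀ j, b j ∈ p.T ∧ (b j).ht = ρ₁ ∧ (b j).SB (q j) := fun j =>
      ⟨(hb j).1.elim id fun ⟨_, _, _, _, _, _, e⟩ =>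
        absurd ((hb j).2.1.symm.trans (congrArg Node.ht e)) (h1.trans_le h2).ne, (hb j).2⟩
    have key : ∀ ρ ≤ p.ρ, ρ ≤ ρ₂ → Dep p.G (Ico ρ₁ ρ) R := fun ρ a a' =>
      (hR.mono subset_rfl (Ico_subset_Ico_right a')).trans fun g hg =>
        (hG g hg).mono subset_rfl fun i hi => lt_of_lt_of_le hi.2 a
    rcases h2.lt_or_eq with h2 | rfl
    · obtain ⟨t, k1, k2⟩ := p.richI (Fin n) h1.le ((hs _).1 h2) b q hb' R
        (key _ ((hs _).1 h2) le_rfl) hO
      exact ⟨t, fun j => ⟨Or.inl (k1 j).1, (k1 j).2⟩, k2⟩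
    · obtain ⟨t, k1, k2⟩ := p.richI (Fin n) h3 le_rfl b q hb' R (key _ le_rfl hσ.le)
        fun i hi => hO i ⟨hi.1, hi.2.trans hσ⟩
      obtain ⟨π, hπ⟩ := (hO p.ρ ⟨h3, hσ⟩).1
      choose q' k3 k4 using fun j => (k1 j).2.2.2
      have k5 : ∀ j, ∀ i < p.ρ, (t j).φ i < (q' j + q j) / 2 := fun j i hi => by
        have := k4 j i ((k1 j).2.1 ▸ hi)
        have := k3 j
        linarith
      refine ⟨fun j => (t j).snoc ρ₂ (π j) ((q' j + q j) / 2), fun j =>
        ⟨Or.inr ⟨t j, (k1 j).1, (k1 j).2.1, _, _, k5 j, rfl⟩, rfl, ?_, (q' j + q j) / 2,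
          by have := k3 j; linarith, fun i hi => ?_⟩, fun i hi => ?_⟩
      · rw [← Node.res_res _ h3, hres _ (k1 j).1 (k1 j).2.1, (k1 j).2.2.1]
      · show (if i = (t j).ht then _ else (t j).φ i) ≤ _
        split_ifs with h2
        · exact le_rfl
        · exact (k5 j i (lt_of_le_of_ne ((hs i).1 hi) ((k1 j).2.1 ▸ h2))).le
      · rcases ((hs i).1 hi.2).lt_or_eq with h | rfl
        · convert k2 i ⟨hi.1, h⟩ using 2 with j
          exact (Node.mem_of_res (hres _ (k1 j).1 (k1 j).2.1 _ _) h).symm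
        · convert hπ using 2 with j
          exact ⟨fun h => h.elim (fun h => absurd ((p.wf _ (k1 j).1).a_lt _ h)
            (k1 j).2.1.not_gt) And.right, fun h => Or.inr ⟨(k1 j).2.1.symm, h⟩⟩
  let q₀ : Cond W := ⟨σ, p.T ∪ N, G, fun _ => none, p.T_cnt.union hN,
    (p.G_cnt.union (hN.image _)).insert _, by simp, fun t ht => ht.elim (p.wf t) (hwf t),
    hle, hrm, Or.inl p.root_mem, fun t ht => Or.inr (ht.elim (fun h => Or.inl (p.a_mem t h))
      fun h => Or.inr ⟨t, h, rfl⟩), fun α hα => ((hs α).1 hα).lt_or_eq.elim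
        (fun h => hsub (p.Iio_mem α h)) fun h => Or.inl (h ▸ rfl), (fun _ _ h => nomatch h), hrich⟩
  obtain ⟨r, h1, h2⟩ := Cond.amalg 0 p q₀ ⟨hσ.le, subset_union_left, fun t ht h => ht.elim id
    fun ⟨_, _, _, _, _, _, e⟩ => absurd ((congrArg Node.ht e).symm.trans_le h) hσ.not_ge, hsub, hG,
    fun β a h => by simp [Cond.res, Cond.withC] at h⟩ fun β h => absurd rfl h
  exact ⟨r, h2, hσ.trans_le h1.ρ_le⟩

end Pool.Agent.Work.MP_ee7661_gt.MA
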