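import Pool.Agent.Work.MP_ee7661_gt.MIface
import Mathlib.Data.Rat.Lemmas
import Mathlib.Algebra.Order.Field.Rat
import Mathlib.Order.Monotone.Basic
import Mathlib.Data.Set.Finite.Lattice
import Mathlib.Data.Fintype.EquivFin
import Mathlib.Tactic.Linarith
import Mathlib.Logic.Small.Set
import Mathlib.Data.Countable.Small

/-! The tree forcing: nodes, finite dependence, conditions and their order. -/

namespace Pool.Agent.Work.MP_ee7661_gt.MA
open Set

/-- `W` has the order type `ω₁`. -/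
class Om1 (W : Type 1) [LinearOrder W] : Prop where
  cnt : ∀ a : W, (Iio a).Countable
  bdd : ∀ S : Set W, S.Countable → ∃ a, ∀ x ∈ S, x < a
  small : Small.{0} W

/-- A node: a height, a set of levels below it, and a rational cost at each level below it. -/
@[ext] structure Node (W : Type 1) where
  ht : W
  a : Set W
  φ : W → ℚ

variable {W : Type 1}

/-- `h` is determined on `S` by the membership pattern in finitely many members of `G`. -/
def Dep {α : Sort*} (G : Set (Set W)) (S : Set W) (h : W → α) : Prop :=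
  ∃ F : Set (Set W), F.Finite ∧ F ⊆ G ∧ ∀ i ∈ S, ∀ j ∈ S, (∀ g ∈ F, i ∈ g ↔ j ∈ g) → h i = h j

namespace Dep
variable {α β : Sort*} {G G' : Set (Set W)} {S S' : Set W} {h : W → α}

theorem const (G : Set (Set W)) (S : Set W) (x : α) : Dep G S fun _ => x :=
  ⟨∅, finite_empty, empty_subset _, fun _ _ _ _ _ => rfl⟩

theorem mem {g : Set W} (hg : g ∈ G) (S : Set W) : Dep G S (· ∈ g) :=
  ⟨{g}, finite_singleton _, singleton_subset_iff.2 hg, fun _ _ _ _ h => propext (h g rfl)⟩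

theorem mono (hh : Dep G S h) (hG : G ⊆ G') (hS : S' ⊆ S) : Dep G' S' h :=
  let ⟨F, h1, h2, h3⟩ := hh
  ⟨F, h1, h2.trans hG, fun i hi j hj => h3 i (hS hi) j (hS hj)⟩

theorem congr {k : W → α} (hh : Dep G S h) (e : ∀ i ∈ S, k i = h i) : Dep G S k :=
  let ⟨F, h1, h2, h3⟩ := hh
  ⟨F, h1, h2, fun i hi j hj a => (e i hi).trans ((h3 i hi j hj a).trans (e j hj).symm)⟩

theorem comp (hh : Dep G S h) (f : α → β) : Dep G S fun i => f (h i) :=
  let ⟨F, h1, h2, h3⟩ := hh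
  ⟨F, h1, h2, fun i hi j hj a => congrArg f (h3 i hi j hj a)⟩

theorem comp₂ {γ : Sort*} {k : W → β} (hh : Dep G S h) (hk : Dep G S k) (f : α → β → γ) :
    Dep G S fun i => f (h i) (k i) :=
  let ⟨F, h1, h2, h3⟩ := hh
  let ⟨F', k1, k2, k3⟩ := hk
  ⟨F ∪ F', h1.union k1, union_subset h2 k2, fun i hi j hj a => by
    show f (h i) (k i) = f (h j) (k j)
    rw [h3 i hi j hj fun g hg => a g (Or.inl hg), k3 i hi j hj fun g hg => a g (Or.inr hg)]⟩

theorem pi {ι : Sort*} [Finite ι] {γ : ι → Sort*} {h : ∀ l, W → γ l} (hh : ∀ l, Dep G S (h l)) :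
    Dep G S fun i l => h l i := by
  choose F h1 h2 h3 using hh
  exact ⟨⋃ l, F l, finite_iUnion h1, iUnion_subset h2, fun i hi j hj a =>
    funext fun l => h3 l i hi j hj fun g hg => a g (mem_iUnion.2 ⟨l, hg⟩)⟩

theorem trans (hh : Dep G' S h) (hG : ∀ g ∈ G', Dep G S (· ∈ g)) : Dep G S h := by
  obtain ⟨F, h1, h2, h3⟩ := hh
  have := h1.to_subtype
  obtain ⟨F', k1, k2, k3⟩ := pi (h := fun (l : F) i => i ∈ l.1) fun l => hG l.1 (h2 l.2)
  exact ⟨F', k1, k2, fun i hi j hj a => h3 i hi j hj fun g hg =>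
    iff_of_eq (congrFun (k3 i hi j hj a) ⟨g, hg⟩)⟩

end Dep

/-- A nonempty set of patterns all of whose coordinate projections are onto. -/
def Onto {ι : Type*} (R : Set (ι → Prop)) : Prop :=
  R.Nonempty ∧ ∀ j (v : Prop), ∃ π ∈ R, (π j ↔ v)

variable [LinearOrder W]

namespace Node

/-- Restriction to the levels below `α`. -/
def res (t : Node W) (α : W) : Node W :=
  ⟨α, t.a ∩ Iio α, fun i => if i < α then t.φ i else 0⟩

/-- The costs are bounded strictly below `q`. -/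
def SB (t : Node W) (q : ℚ) : Prop := ∃ q' < q, ∀ i < t.ht, t.φ i ≤ q'

structure WF (t : Node W) : Prop where
  a_lt : ∀ i ∈ t.a, i < t.ht
  φ_zero : ∀ i, t.ht ≤ i → t.φ i = 0
  mono : ∀ i j, i < j → j < t.ht → t.φ i < t.φ j
  bdd : ∃ q, t.SB q

@[simp] theorem res_ht (t : Node W) (α : W) : (t.res α).ht = α := rfl

theorem mem_res {t : Node W} {α i : W} : i ∈ (t.res α).a ↔ i ∈ t.a ∧ i < α := Iff.rfl

theorem mem_res_lt {t : Node W} {α i : W} (h : i < α) : i ∈ (t.res α).a ↔ i ∈ t.a :=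
  and_iff_left h

theorem φ_res {t : Node W} {α i : W} (h : i < α) : (t.res α).φ i = t.φ i := if_pos h

theorem res_res (t : Node W) {α β : W} (h : α ≤ β) : (t.res β).res α = t.res α := by
  refine Node.ext rfl (Set.ext fun i => ⟨fun a => ⟨a.1.1, a.2⟩,
    fun a => ⟨⟨a.1, lt_of_lt_of_le a.2 h⟩, a.2⟩⟩) (funext fun i => ?_)
  by_cases hi : i < α
  · rw [φ_res hi, φ_res hi, φ_res (hi.trans_le h)]
  · exact (if_neg hi).trans (if_neg hi).symm

theorem WF.res_self {t : Node W} (h : t.WF) : t.res t.ht = t := by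
  refine Node.ext rfl (Set.ext fun i => ⟨fun a => a.1, fun a => ⟨a, h.a_lt i a⟩⟩)
    (funext fun i => ?_)
  by_cases hi : i < t.ht
  · exact φ_res hi
  · exact (if_neg hi).trans (h.φ_zero i (not_lt.1 hi)).symm

theorem SB.res {t : Node W} {q : ℚ} (h : t.SB q) {α : W} (hα : α ≤ t.ht) : (t.res α).SB q :=
  let ⟨q', h1, h2⟩ := h
  ⟨q', h1, fun i hi => (φ_res hi).trans_le (h2 i (lt_of_lt_of_le hi hα))⟩

theorem WF.res {t : Node W} (h : t.WF) {α : W} (hα : α ≤ t.ht) : (t.res α).WF where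
  a_lt _ hi := hi.2
  φ_zero _ hi := if_neg (not_lt.2 hi)
  mono i j hij hj := by
    have hj' : j < α := hj
    rw [φ_res hj', φ_res (hij.trans hj')]
    exact h.mono i j hij (lt_of_lt_of_le hj' hα)
  bdd := h.bdd.imp fun _ h => h.res hα

/-- Two nodes are equal on the levels below `α`. -/
theorem res_congr {s t : Node W} {α : W} (h1 : ∀ i < α, i ∈ s.a ↔ i ∈ t.a)
    (h2 : ∀ i < α, s.φ i = t.φ i) : s.res α = t.res α := by
  refine Node.ext rfl (Set.ext fun i => and_congr_left fun h => h1 i h) (funext fun i => ?_)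
  by_cases hi : i < α
  · rw [φ_res hi, φ_res hi, h2 i hi]
  · exact (if_neg hi).trans (if_neg hi).symm

theorem mem_of_res {s t : Node W} {α i : W} (h : t.res α = s) (hi : i < α) :
    i ∈ s.a ↔ i ∈ t.a := h ▸ mem_res_lt hi

theorem φ_of_res {s t : Node W} {α i : W} (h : t.res α = s) (hi : i < α) : s.φ i = t.φ i :=
  h ▸ φ_res hi

variable [OrderBot W]

variable (W) in
/-- The root. -/
def root : Node W := ⟨⊥, ∅, fun _ => 0⟩

theorem res_bot (t : Node W) : t.res ⊥ = root W :=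
  Node.ext rfl (Set.ext fun _ => ⟨fun a => absurd a.2 not_lt_bot, fun a => a.elim⟩)
    (funext fun _ => if_neg not_lt_bot)

theorem root_wf : (root W).WF :=
  ⟨fun _ h => h.elim, fun _ _ => rfl, fun _ _ _ h => absurd h not_lt_bot,
    1, 0, zero_lt_one, fun _ _ => le_rfl⟩

end Node

/-- Finite tuples of nodes can be lifted along every locally constant family of `Onto` relations,
with small increase of the costs. -/
def RichI (ι : Type) (T : Set (Node W)) (G : Set (Set W)) (ρ₁ ρ₂ : W) : Prop :=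
  ∀ (b : ι → Node W) (q : ι → ℚ), (∀ j, b j ∈ T ∧ (b j).ht = ρ₁ ∧ (b j).SB (q j)) →
    ∀ R : W → Set (ι → Prop), Dep G (Ico ρ₁ ρ₂) R → (∀ i ∈ Ico ρ₁ ρ₂, Onto (R i)) →
      ∃ t : ι → Node W,
        (∀ j, t j ∈ T ∧ (t j).ht = ρ₂ ∧ (t j).res ρ₁ = b j ∧ (t j).SB (q j)) ∧
        ∀ i ∈ Ico ρ₁ ρ₂, (fun j => i ∈ (t j).a) ∈ R i

theorem RichI.of_equiv {ι κ : Type} (e : ι ≃ κ) {T : Set (Node W)} {G : Set (Set W)} {ρ₁ ρ₂ : W}
    (h : RichI κ T G ρ₁ ρ₂) : RichI ι T G ρ₁ ρ₂ := by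
  intro b q hb R hR hO
  obtain ⟨t, h1, h2⟩ := h (fun j => b (e.symm j)) (fun j => q (e.symm j)) (fun j => hb _)
    (fun i => {π | (fun j => π (e j)) ∈ R i})
    (hR.comp fun S => {π : κ → Prop | (fun j => π (e j)) ∈ S})
    fun i hi => ⟨let ⟨π, hπ⟩ := (hO i hi).1; ⟨fun j => π (e.symm j), by simpa using hπ⟩,
      fun j v => let ⟨π, hπ, hv⟩ := (hO i hi).2 (e.symm j) v
        ⟨fun j => π (e.symm j), by simpa using hπ, hv⟩⟩
  exact ⟨fun j => t (e j), fun j => by simpa using h1 (e j), h2⟩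

variable [OrderBot W]

variable (W) in
/-- Conditions. -/
@[ext] structure Cond where
  ρ : W
  T : Set (Node W)
  G : Set (Set W)
  c : Ordinal.{0} → Option (Set W)
  T_cnt : T.Countable
  G_cnt : G.Countable
  c_cnt : {β | c β ≠ none}.Countable
  wf : ∀ t ∈ T, t.WF
  ht_le : ∀ t ∈ T, t.ht ≤ ρ
  res_mem : ∀ t ∈ T, ∀ α ≤ t.ht, t.res α ∈ T
  root_mem : Node.root W ∈ T
  a_mem : ∀ t ∈ T, t.a ∈ G
  Iio_mem : ∀ α < ρ, Iio α ∈ G
  c_dep : ∀ β a, c β = some a → Dep G (Iio ρ) (· ∈ a)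
  rich : ∀ n ρ₁ ρ₂, ρ₁ < ρ₂ → ρ₂ ≤ ρ → RichI (Fin n) T G ρ₁ ρ₂

namespace Cond

/-- `q` extends `p`. -/
structure Le (q p : Cond W) : Prop where
  ρ_le : p.ρ ≤ q.ρ
  T_sub : p.T ⊆ q.T
  T_end : ∀ t ∈ q.T, t.ht ≤ p.ρ → t ∈ p.T
  G_sub : p.G ⊆ q.G
  G_dep : ∀ g ∈ q.G, Dep p.G (Iio p.ρ) (· ∈ g)
  c_ext : ∀ β a, p.c β = some a → ∃ a', q.c β = some a' ∧ ∀ i < p.ρ, i ∈ a' ↔ i ∈ a

instance : Preorder (Cond W) where
  le := Le
  le_refl p := ⟨le_rfl, subset_rfl, fun _ h _ => h, subset_rfl, fun _ h => Dep.mem h _,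
    fun _ a h => ⟨a, h, fun _ _ => Iff.rfl⟩⟩
  le_trans r q p h h' := ⟨h'.ρ_le.trans h.ρ_le, h'.T_sub.trans h.T_sub,
    fun t ht a => h'.T_end t (h.T_end t ht (a.trans h'.ρ_le)) a, h'.G_sub.trans h.G_sub,
    fun g hg => ((h.G_dep g hg).mono subset_rfl (Iio_subset_Iio h'.ρ_le)).trans h'.G_dep,
    fun β a e => by
      obtain ⟨a', e', h1⟩ := h'.c_ext β a e
      obtain ⟨a'', e'', h2⟩ := h.c_ext β a' e'
      exact ⟨a'', e'', fun i hi => (h2 i (hi.trans_le h'.ρ_le)).trans (h1 i hi)⟩⟩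

theorem richI (p : Cond W) (ι : Type) [Finite ι] {ρ₁ ρ₂ : W} (h : ρ₁ ≤ ρ₂) (h' : ρ₂ ≤ p.ρ) :
    RichI ι p.T p.G ρ₁ ρ₂ := by
  rcases h.lt_or_eq with h | rfl
  · obtain ⟨n, ⟨e⟩⟩ := Finite.exists_equiv_fin ι
    exact (p.rich n _ _ h h').of_equiv e
  · intro b q hb R _ _
    exact ⟨b, fun j => ⟨(hb j).1, (hb j).2.1, (hb j).2.1 ▸ (p.wf _ (hb j).1).res_self,
      (hb j).2.2⟩, fun i hi => absurd hi.2 (not_lt.2 hi.1)⟩

/-- The condition `p` with other sections. -/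
def withC (p : Cond W) (c : Ordinal.{0} → Option (Set W)) (h1 : {β | c β ≠ none}.Countable)
    (h2 : ∀ β a, c β = some a → Dep p.G (Iio p.ρ) (· ∈ a)) : Cond W :=
  { p with c := c, c_cnt := h1, c_dep := h2 }

theorem le_withC {p q : Cond W} {c h1 h2} (h : q.ρ = p.ρ ∧ q.T = p.T ∧ q.G = p.G ∨ q ≤ p)
    (hc : ∀ β a, c β = some a → ∃ a', q.c β = some a' ∧ ∀ i < p.ρ, i ∈ a' ↔ i ∈ a) :
    q ≤ p.withC c h1 h2 := by
  rcases h with ⟨e1, e2, e3⟩ | h
  · exact ⟨e1.ge, e2.ge, fun t ht _ => e2 ▸ ht, e3.ge, fun g hg => Dep.mem (e3 ▸ hg) _, hc⟩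
  · exact ⟨h.ρ_le, h.T_sub, h.T_end, h.G_sub, h.G_dep, hc⟩

/-- Restriction of the sections. -/
noncomputable def res (ξ : Ordinal.{0}) (p : Cond W) : Cond W :=
  p.withC (fun β => if β < ξ then p.c β else none)
    (p.c_cnt.mono fun β h (e : p.c β = none) => h (by simp only [e, ite_self]))
    fun β a h => by
      by_cases hβ : β < ξ
      · exact p.c_dep β a ((if_pos hβ).symm.trans h)
      · simp [hβ] at h

/-- The section `β` is replaced. -/
noncomputable def set (p : Cond W) (β : Ordinal.{0}) (o : Option (Set W))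
    (h : ∀ a, o = some a → Dep p.G (Iio p.ρ) (· ∈ a)) : Cond W :=
  p.withC (Function.update p.c β o)
    ((p.c_cnt.insert β).mono fun γ hγ => by
      by_cases e : γ = β
      · exact Or.inl e
      · exact Or.inr (by simpa [e] using hγ))
    fun γ a e => by
      by_cases e' : γ = β
      · subst e'; exact h a (by simpa using e)
      · exact p.c_dep γ a (by simpa [e'] using e)

theorem set_c_self (p : Cond W) (β o h) : (p.set β o h).c β = o := Function.update_self _ _ _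

theorem set_c_ne (p : Cond W) {β γ o h} (e : γ ≠ β) : (p.set β o h).c γ = p.c γ :=
  Function.update_of_ne e _ _

theorem res_set (p : Cond W) (β o h) : (p.set β o h).res β = p.res β :=
  Cond.ext rfl rfl rfl (funext fun γ => by
    show (if γ < β then (p.set β o h).c γ else none) = if γ < β then p.c γ else none
    split_ifs with e
    exacts [p.set_c_ne e.ne, rfl])

/-- Cutting at the height of a weaker condition. -/
theorem dep_cut {p q : Cond W} (h : q ≤ p) {a : Set W} (ha : Dep p.G (Iio p.ρ) (· ∈ a)) :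
    Dep q.G (Iio q.ρ) (· ∈ a ∩ Iio p.ρ) := by
  rcases h.ρ_le.lt_or_eq with e | e
  · obtain ⟨F, h1, h2, h3⟩ := ha
    refine ⟨insert (Iio p.ρ) F, h1.insert _, insert_subset (q.Iio_mem _ e) (h2.trans h.G_sub),
      fun i _ j _ k => propext ?_⟩
    have k0 := k _ (mem_insert _ _)
    exact ⟨fun x => ⟨(h3 i x.2 j (k0.1 x.2) fun g hg => k g (Or.inr hg)).mp x.1, k0.1 x.2⟩,
      fun x => ⟨(h3 i (k0.2 x.2) j x.2 fun g hg => k g (Or.inr hg)).mpr x.1, k0.2 x.2⟩⟩
  · exact (ha.mono h.G_sub (Iio_subset_Iio e.ge)).congr fun i hi =>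
      propext (and_iff_left (e ▸ hi))

theorem amalg (ξ : Ordinal.{0}) (p q : Cond W) (h : q ≤ p.res ξ)
    (hq : {β | q.c β ≠ none} ⊆ Iio ξ) : ∃ r, r ≤ q ∧ r ≤ p := by
  have key : ∀ β a, q.c β = some a → β < ξ := fun β a e => hq (by simp [e])
  refine ⟨q.withC (fun β => if β < ξ then q.c β else (p.c β).map (· ∩ Iio p.ρ))
    ((q.c_cnt.union p.c_cnt).mono fun β hβ => ?_) fun β a e => ?_,
    ⟨le_rfl, subset_rfl, fun _ h _ => h, subset_rfl, fun _ h => Dep.mem h _,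
      fun β a e => ⟨a, (if_pos (key β a e)).trans e, fun _ _ => Iff.rfl⟩⟩,
    ⟨h.ρ_le, h.T_sub, h.T_end, h.G_sub, h.G_dep, fun β a e => ?_⟩⟩
  · by_cases e : β < ξ
    · exact Or.inl (by simpa [e] using hβ)
    · exact Or.inr (by simpa [e] using hβ)
  · by_cases e' : β < ξ
    · exact q.c_dep β a ((if_pos e').symm.trans e)
    · obtain ⟨a', e1, rfl⟩ := Option.map_eq_some_iff.1 ((if_neg e').symm.trans e)
      exact dep_cut h (p.c_dep β a' e1)
  · by_cases e' : β < ξ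
    · obtain ⟨a', e1, h1⟩ := h.c_ext β a ((if_pos e').trans e)
      exact ⟨a', (if_pos e').trans e1, h1⟩
    · exact ⟨a ∩ Iio p.ρ, (if_neg e').trans (by rw [e]; rfl), fun i hi => and_iff_left hi⟩

variable (W) in
/-- The trivial condition. -/
def triv : Cond W where
  ρ := ⊥
  T := {Node.root W}
  G := {∅}
  c _ := none
  T_cnt := countable_singleton _
  G_cnt := countable_singleton _
  c_cnt := by simp
  wf := by rintro _ rfl; exact Node.root_wf
  ht_le := by rintro _ rfl; exact le_rfl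
  res_mem := by
    rintro _ rfl α h
    obtain rfl : α = ⊥ := le_bot_iff.1 h
    exact Node.res_bot _
  root_mem := rfl
  a_mem := by rintro _ rfl; rfl
  Iio_mem _ h := absurd h not_lt_bot
  c_dep _ _ h := by cases h
  rich _ _ _ h h' := absurd (h.trans_le h') not_lt_bot

end Cond

end Pool.Agent.Work.MP_ee7661_gt.MA
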