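import Pool.Agent.Work.MP_ee7661_gt.Space
import Mathlib.SetTheory.Cardinal.Finite

/-! The space `Y` inside the model. -/

namespace Pool.Agent.Work.MP_ee7661_gt
open Pool.Agent.Lib.ZFModel Pool.Agent.Work.MP_63c7e0_lc Pool.Agent.Work.MP_3181e1_lc

variable {M : Type 1} {E : M → M → Prop} {J : Type} [LinearOrder J]

set_option synthInstance.maxSize 100000

variable (zf : IsZF E) {kd : KD E J} {K τ : M} (hK : IsK kd K) (hτ : IsTau kd K τ)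
include hτ

theorem isTop : IsTop E kd.θ τ := by
  refine ⟨fun U hU => ((hτ U).1 hU).1, (hτ _).2 ⟨fun _ h => h, fun i _ =>
    ⟨∅, Set.finite_empty, fun _ h => h.elim, fun j _ => oθ kd j⟩⟩,
    fun U V W hU hV hW => ?_, fun S W hS hW => ?_⟩
  · obtain ⟨h1, h2⟩ := (hτ U).1 hU
    obtain ⟨_, h4⟩ := (hτ V).1 hV
    refine (hτ W).2 ⟨fun x hx => h1 x ((hW x).1 hx).1, fun i hi => ?_⟩
    obtain ⟨F, a1, a2, a3⟩ := h2 i ((hW _).1 hi).1
    obtain ⟨G, b1, b2, b3⟩ := h4 i ((hW _).1 hi).2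
    exact ⟨F ∪ G, a1.union b1, fun f hf => hf.elim (a2 f) (b2 f), fun j hj => (hW _).2
      ⟨a3 j fun f hf => hj f (Or.inl hf), b3 j fun f hf => hj f (Or.inr hf)⟩⟩
  · refine (hτ W).2 ⟨fun x hx => ?_, fun i hi => ?_⟩
    · obtain ⟨U, hU, hx⟩ := (hW x).1 hx
      exact ((hτ U).1 (hS U hU)).1 x hx
    · obtain ⟨U, hU, hx⟩ := (hW _).1 hi
      obtain ⟨F, a1, a2, a3⟩ := ((hτ U).1 (hS U hU)).2 i hx
      exact ⟨F, a1, a2, fun j hj => (hW _).2 ⟨U, hU, a3 j hj⟩⟩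

include zf

theorem zeroDim : ZeroDim E kd.θ τ := by
  have := zf.nonempty
  obtain ⟨B, hB⟩ := zf.sep τ fun b => Sub E b kd.θ ∧ ∃ U, E U τ ∧ ∀ x, E x U ↔ E x kd.θ ∧ ¬ E x b
  refine ⟨B, fun b hb => (hB b).1 hb, fun U a hU ha => ?_⟩
  obtain ⟨h1, h2⟩ := (hτ U).1 hU
  obtain ⟨i, rfl⟩ := (kd.mem_θ _).1 (h1 a ha)
  obtain ⟨F, a1, a2, a3⟩ := h2 i ha
  obtain ⟨G, -, hG⟩ := exists_fin zf kd.toND a1
  obtain ⟨b, hb⟩ := zf.sep kd.θ fun y => ∀ f, E f G →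
    (App E f (kd.o i) (kd.nat 1) ↔ App E f y (kd.nat 1))
  obtain ⟨V, hV⟩ := zf.sep kd.θ fun y => ¬ E y b
  have hb' : ∀ j, E (kd.o j) b ↔ ∀ f ∈ F, val kd f i ↔ val kd f j := fun j => by
    rw [hb]; simp only [hG, oθ kd j, true_and]; rfl
  have hc : ∀ j k, (∀ f ∈ F, val kd f j ↔ val kd f k) → (E (kd.o j) b ↔ E (kd.o k) b) :=
    fun j k h => by
      rw [hb', hb']; exact forall₂_congr fun f hf => by rw [h f hf]
  have hs : Sub E b kd.θ := fun y hy => ((hb y).1 hy).1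
  refine ⟨b, (hB b).2 ⟨(hτ b).2 ⟨hs, fun j hj => ⟨F, a1, a2, fun k hk => (hc j k hk).1 hj⟩⟩, hs, V,
    (hτ V).2 ⟨fun y hy => ((hV y).1 hy).1, fun j hj => ⟨F, a1, a2, fun k hk => (hV _).2
      ⟨oθ kd k, fun h => ((hV _).1 hj).2 ((hc j k hk).2 h)⟩⟩⟩, hV⟩,
    (hb' i).2 fun _ _ => Iff.rfl, fun y hy => ?_⟩
  obtain ⟨j, rfl⟩ := (kd.mem_θ _).1 (hs y hy)
  exact a3 j ((hb' j).1 hy)

include hK

theorem isT1 : IsT1 E kd.θ τ := by
  have := zf.nonempty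
  intro a s ha hs
  obtain ⟨i, rfl⟩ := (kd.mem_θ _).1 ha
  obtain ⟨V, hV⟩ := zf.sep kd.θ fun y => ¬ E y s
  refine ⟨fun y hy => (hs y).1 hy ▸ ha, V, (hτ V).2 ⟨fun y hy => ((hV y).1 hy).1, fun j hj => ?_⟩,
    hV⟩
  have hij : j ≠ i := fun h => ((hV _).1 hj).2 ((hs _).2 (h ▸ rfl))
  obtain ⟨f, a1, a2, a3⟩ := exists_pt zf hK (max i j)
  refine ⟨{f}, Set.finite_singleton _, fun _ h => h ▸ a1, fun k hk => (hV _).2 ⟨oθ kd k, fun h => ?_⟩⟩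
  obtain rfl := o_inj zf kd ((hs _).1 h)
  have h1 := hk f rfl
  rcases lt_or_gt_of_ne hij with h2 | h2
  · rw [max_eq_left h2.le] at a2 a3
    exact h2.not_ge (a3 j (h1.2 a2))
  · rw [max_eq_right h2.le] at a2 a3
    exact h2.not_ge (a3 k (h1.1 a2))

theorem isCont {f δ : M} (hf : E f K) : IsCont E f kd.θ τ (kd.nat 2) δ := by
  have h := ((hK f).1 hf).1
  refine ⟨h, fun V U _ hU => (hτ U).2 ⟨fun a ha => ?_, fun i hi => ?_⟩⟩
  · obtain ⟨y, -, hy⟩ := (hU a).1 ha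
    exact (h.mem zf hy).1
  · obtain ⟨y, h1, h2⟩ := (hU _).1 hi
    exact ⟨{f}, Set.finite_singleton _, fun _ h => h ▸ hf, fun j hj =>
      (hU _).2 ⟨y, h1, (app_congr zf h h).2 (hj f rfl) y h2⟩⟩

omit zf hK hτ in
/-- The point `b` lies in the cone above `a`. -/
def Cone (E : M → M → Prop) (K one a b : M) : Prop := ∀ f, E f K →
  (App E f a one → App E f b one) ∧
    ∀ s, E s a ∨ s = a → App E f s one → App E f b one → App E f a one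

omit zf hK hτ in
instance [Nonempty M] (a b c d : (ℕ → M) → M) [Trm a] [Trm b] [Trm c] [Trm d] :
    Dfn E (fun v => Cone E (a v) (b v) (c v) (d v)) := by unfold Cone; infer_instance

omit zf hτ in
theorem cone_of_R {s t : J} (h : kd.R s t) : Cone E K (kd.nat 1) (kd.o s) (kd.o t) := by
  intro f hf
  have h1 := ((hK f).1 hf).2
  refine ⟨fun h2 => (h1 _ _ _ _ (kd.r1 s t h) h2 h2).elim id id, ?_⟩
  rintro a (ha | rfl) h2 h3
  · obtain ⟨i, hi, rfl⟩ := (kd.mem_o _ _).1 ha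
    exact (h1 _ _ _ _ (kd.r2 i s t hi.le h) h2 h3).elim id id
  · exact h2

theorem exists_cone {U : M} (hU : E U τ) {j : J} (hj : E (kd.o j) U) : ∃ u, kd.R j u ∧
    E (kd.o u) U ∧ ∀ b, E b kd.θ → Cone E K (kd.nat 1) (kd.o u) b → E b U := by
  obtain ⟨F, h1, h2, h3⟩ := ((hτ U).1 hU).2 j hj
  obtain ⟨α, hα⟩ : ∃ α, ∀ f ∈ F, (∃ s, val kd f s) → ∃ s ≤ α, val kd f s := by
    clear h2 h3
    induction F, h1 using Set.Finite.induction_on with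
    | empty => exact ⟨j, fun _ h => h.elim⟩
    | @insert f F _ _ ih =>
      obtain ⟨α, hα⟩ := ih
      by_cases h : ∃ s, val kd f s
      · obtain ⟨s, hs⟩ := h
        refine ⟨max α s, ?_⟩
        rintro g (rfl | hg) h
        · exact ⟨s, le_max_right _ _, hs⟩
        · obtain ⟨u, h4, h5⟩ := hα g hg h
          exact ⟨u, h4.trans (le_max_left _ _), h5⟩
      · refine ⟨α, ?_⟩
        rintro g (rfl | hg) h'
        exacts [absurd h' h, hα g hg h']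
  have := h1.to_subtype
  obtain ⟨t, ht⟩ := kd.clique j α (Nat.card F + 1)
  obtain ⟨i, hi, h4⟩ : ∃ i < Nat.card F + 1, ∀ f ∈ F, val kd f (t i) → val kd f j := by
    by_contra hc
    push Not at hc
    choose g g1 g2 g3 using fun i : Fin (Nat.card F + 1) => hc i i.2
    have := Nat.card_le_card_of_injective (fun i => (⟨g i, g1 i⟩ : F)) fun a b hab => by
      by_contra h
      have e : g a = g b := congrArg Subtype.val hab
      exact (((hK _).1 (h2 _ (g1 a))).2 _ _ _ _ ((ht a a.2).2.2 b b.2 fun h' => h (Fin.ext h'))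
        (g2 a) (e ▸ g2 b)).elim (g3 a) (g3 a)
    simp at this
  obtain ⟨h5, h6, -⟩ := ht i hi
  have key : ∀ k, Cone E K (kd.nat 1) (kd.o (t i)) (kd.o k) → E (kd.o k) U := by
    refine fun k hk => h3 k fun f hf => ⟨fun h => (hk f (h2 f hf)).1
      ((cone_of_R hK h6 f (h2 f hf)).1 h), fun h => h4 f hf ?_⟩
    obtain ⟨s, h7, h8⟩ := hα f hf ⟨k, h⟩
    refine (hk f (h2 f hf)).2 _ ?_ h8 h
    rcases (h7.trans h5).lt_or_eq with h9 | h9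
    · exact Or.inl ((o_mem_o zf kd).2 h9)
    · exact Or.inr (h9 ▸ rfl)
  refine ⟨t i, h6, key _ fun f _ => ⟨id, fun _ _ _ h => h⟩, fun b hb hc => ?_⟩
  obtain ⟨k, rfl⟩ := (kd.mem_θ _).1 hb
  exact key k hc

omit zf in
theorem isHL (zfc : IsZFC E) : IsHerLindelof E τ := by
  have zf := zfc.zf
  have := zf.nonempty
  intro c hc
  obtain ⟨δ, hδ⟩ := kd.refl (fun a _ _ => ∃ U, E U c ∧ E a U ∧
    ∀ b, E b kd.θ → Cone E K (kd.nat 1) a b → E b U) inferInstance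
  obtain ⟨ι, hι⟩ := kd.cnt δ
  obtain ⟨C, h1, h2, h3⟩ := countable_select zfc kd.toND hι c fun a U => E a U ∧
    ((∃ U, E U c ∧ E a U ∧ ∀ b, E b kd.θ → Cone E K (kd.nat 1) a b → E b U) →
      ∀ b, E b kd.θ → Cone E K (kd.nat 1) a b → E b U)
  refine ⟨C, h1, h2, fun U a hU ha => ?_⟩
  obtain ⟨j, rfl⟩ := (kd.mem_θ _).1 (((hτ U).1 (hc U hU)).1 a ha)
  rcases lt_or_ge j δ with h | h
  · obtain ⟨V, hV, h4, -⟩ := h3 _ ((o_mem_o zf kd).2 h) (by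
      by_cases h5 : ∃ U, E U c ∧ E (kd.o j) U ∧
          ∀ b, E b kd.θ → Cone E K (kd.nat 1) (kd.o j) b → E b U
      · obtain ⟨V, a1, a2, a3⟩ := h5
        exact ⟨V, a1, a2, fun _ => a3⟩
      · exact ⟨U, hU, ha, fun h => absurd h h5⟩)
    exact ⟨V, hV, h4⟩
  · obtain ⟨u', a1, a2⟩ := exists_cone zf hK hτ (hc U hU) ha
    obtain ⟨u, b1, ⟨V, b2, b3, b4⟩, b5⟩ := hδ 0 j u' h ⟨U, hU, a2⟩ (Or.inl a1)
    obtain ⟨W, hW, -, h4⟩ := h3 _ ((o_mem_o zf kd).2 b1) ⟨V, b2, b3, fun _ => b4⟩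
    exact ⟨W, hW, h4 ⟨V, b2, b3, b4⟩ _ (oθ kd j) (cone_of_R hK b5)⟩

omit zf hK hτ in
theorem KD.model [WellFoundedLT J] (zfc : IsZFC E) (kd : KD E J) :
    ∃ Y τ K σ : M, IsTop E Y τ ∧ IsT1 E Y τ ∧ ZeroDim E Y τ ∧ IsHerLindelof E τ ∧
      IsCpTwoSubspace E Y τ K σ ∧ IsCompactSp E K σ ∧ UncountableTightness E K σ := by
  have zf := zfc.zf
  obtain ⟨K, hK⟩ := exists_K zf kd
  obtain ⟨τ, hτ⟩ := exists_tau zf (kd := kd) (K := K)
  obtain ⟨σ, hσ, hσ'⟩ := exists_sig zf hK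
  obtain ⟨δ, hδ⟩ := zf.powerset (kd.nat 2)
  exact ⟨kd.θ, τ, K, σ, isTop hτ, isT1 zf hK hτ, zeroDim zf hτ, isHL hK hτ zfc,
    ⟨_, δ, isTwo zf kd.toND, hδ, fun f hf => isCont zf hK hτ hf, hσ'⟩, isCompact zf hK hσ,
    uncTight zf hK hσ⟩

end Pool.Agent.Work.MP_ee7661_gt
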