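import Pool.Agent.Work.MP_ee7661_gt.Data
import Mathlib.Data.Set.Finite.Lemmas

/-! The compact set `K` of `0`-`1` valued functions on `Y` inside the model. -/

namespace Pool.Agent.Work.MP_ee7661_gt
open Pool.Agent.Lib.ZFModel Pool.Agent.Work.MP_63c7e0_lc Pool.Agent.Work.MP_3181e1_lc

variable {M : Type 1} {E : M → M → Prop} {J : Type} [LinearOrder J]

set_option synthInstance.maxSize 100000

variable (zf : IsZF E) (kd : KD E J)

/-- The function `f` takes the value `1` at `j`. -/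
def val (f : M) (j : J) : Prop := App E f (kd.o j) (kd.nat 1)

theorem oθ (j : J) : E (kd.o j) kd.θ := (kd.mem_θ _).2 ⟨j, rfl⟩

def IsK (K : M) : Prop := ∀ f, E f K ↔ IsFun E f kd.θ (kd.nat 2) ∧
  ∀ a b c d, kd.Cl a b c d → val kd f a → val kd f b → val kd f c ∨ val kd f d

def IsSig (K σ : M) : Prop := ∀ U, E U σ ↔ Sub E U K ∧ ∀ f, E f U → ∃ F : Set J, F.Finite ∧
  ∀ g, E g K → (∀ j ∈ F, val kd f j ↔ val kd g j) → E g U

def IsTau (K τ : M) : Prop := ∀ U, E U τ ↔ Sub E U kd.θ ∧ ∀ i, E (kd.o i) U →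
  ∃ F : Set M, F.Finite ∧ (∀ f ∈ F, E f K) ∧
    ∀ j, (∀ f ∈ F, val kd f i ↔ val kd f j) → E (kd.o j) U

include zf

theorem o_inj {i j : J} (h : kd.o i = kd.o j) : i = j := by
  rcases lt_trichotomy i j with h1 | h1 | h1
  · exact absurd ((kd.mem_o _ j).2 ⟨i, h1, h.symm⟩) (not_mem_self zf (kd.o j))
  · exact h1
  · exact absurd ((kd.mem_o _ i).2 ⟨j, h1, h⟩) (not_mem_self zf (kd.o i))

theorem o_mem_o {i j : J} : E (kd.o i) (kd.o j) ↔ i < j :=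
  (kd.mem_o _ _).trans ⟨fun ⟨_, h, e⟩ => o_inj zf kd e ▸ h, fun h => ⟨i, h, rfl⟩⟩

theorem fin_idx {F : M} (h : IsFin E F) : {j | E (kd.o j) F}.Finite :=
  ((isFin_iff zf kd.toND F).1 h).preimage (f := kd.o) fun _ _ _ _ h => o_inj zf kd h

variable {kd} in
theorem app_iff {f : M} (hf : IsFun E f kd.θ (kd.nat 2)) (j : J) (b : M) :
    App E f (kd.o j) b ↔ (val kd f j ∧ b = kd.nat 1) ∨ (¬ val kd f j ∧ b = kd.nat 0) := by
  have h2 : ∀ {b}, App E f (kd.o j) b → b = kd.nat 0 ∨ b = kd.nat 1 := fun h => by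
    obtain ⟨m, hm, rfl⟩ := (kd.mem_nat _ _).1 (hf.mem zf h).2
    obtain rfl | rfl : m = 0 ∨ m = 1 := by omega
    exacts [Or.inl rfl, Or.inr rfl]
  constructor
  · intro h
    rcases h2 h with rfl | rfl
    · exact Or.inr ⟨fun h' => absurd (nat_inj zf kd.toND (hf.2.2 _ _ _ h h')) (by omega), rfl⟩
    · exact Or.inl ⟨h, rfl⟩
  · rintro (⟨h, rfl⟩ | ⟨h, rfl⟩)
    · exact h
    · obtain ⟨b, hb⟩ := hf.2.1 _ (oθ kd j)
      rcases h2 hb with rfl | rfl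
      exacts [hb, absurd hb h]

variable {kd} in
theorem app_congr {f g : M} (hf : IsFun E f kd.θ (kd.nat 2)) (hg : IsFun E g kd.θ (kd.nat 2))
    {i j : J} : (∀ b, App E f (kd.o i) b → App E g (kd.o j) b) ↔ (val kd f i ↔ val kd g j) := by
  refine ⟨fun h => ⟨h _, fun h1 => by_contra fun h2 => ?_⟩, fun h b => ?_⟩
  · have := h _ ((app_iff zf hf i _).2 (Or.inr ⟨h2, rfl⟩))
    exact absurd (nat_inj zf kd.toND (hg.2.2 _ _ _ this h1)) (by omega)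
  · rw [app_iff zf hf, app_iff zf hg, h]; exact id

theorem exists_char (x : M) :
    ∃ f, IsFun E f kd.θ (kd.nat 2) ∧ ∀ j, val kd f j ↔ E (kd.o j) x := by
  have := zf.nonempty
  obtain ⟨f, h1, h2⟩ := exists_rel zf kd.θ (kd.nat 2) fun a b =>
    (E a x ∧ b = kd.nat 1) ∨ (¬ E a x ∧ b = kd.nat 0)
  have h3 : ∀ m < 2, E (kd.nat m) (kd.nat 2) := fun m hm => (kd.mem_nat _ _).2 ⟨m, hm, rfl⟩
  refine ⟨f, ⟨h1, fun a ha => ?_, fun a b b' hb hb' => ?_⟩, fun j => (h2 _ _).trans ⟨?_, ?_⟩⟩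
  · by_cases h : E a x
    · exact ⟨_, (h2 _ _).2 ⟨ha, h3 1 (by omega), Or.inl ⟨h, rfl⟩⟩⟩
    · exact ⟨_, (h2 _ _).2 ⟨ha, h3 0 (by omega), Or.inr ⟨h, rfl⟩⟩⟩
  · obtain ⟨-, -, ⟨a1, rfl⟩ | ⟨a1, rfl⟩⟩ := (h2 _ _).1 hb <;>
      obtain ⟨-, -, ⟨a2, rfl⟩ | ⟨a2, rfl⟩⟩ := (h2 _ _).1 hb'
    exacts [rfl, absurd a1 a2, absurd a2 a1, rfl]
  · rintro ⟨-, -, ⟨h, -⟩ | ⟨-, h⟩⟩
    · exact h
    · exact absurd (nat_inj zf kd.toND h) (by omega)
  · exact fun h => ⟨oθ kd j, h3 1 (by omega), Or.inl ⟨h, rfl⟩⟩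

theorem exists_K : ∃ K, IsK kd K := by
  have := zf.nonempty
  obtain ⟨Z, hZ⟩ := exists_funs zf kd.θ (kd.nat 2)
  obtain ⟨K, hK⟩ := zf.sep Z fun f => IsFun E f kd.θ (kd.nat 2) ∧
    ∀ a b c d, Quad E kd.cl a b c d → App E f a (kd.nat 1) → App E f b (kd.nat 1) →
      App E f c (kd.nat 1) ∨ App E f d (kd.nat 1)
  refine ⟨K, fun f => (hK f).trans ⟨fun h => ⟨h.2.1, fun a b c d h1 => ?_⟩,
    fun h => ⟨hZ f h.1, h.1, fun a b c d h1 => ?_⟩⟩⟩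
  · exact h.2.2 _ _ _ _ ((kd.mem_cl _ _ _ _).2 ⟨a, b, c, d, h1, rfl, rfl, rfl, rfl⟩)
  · obtain ⟨i, j, k, l, h2, rfl, rfl, rfl, rfl⟩ := (kd.mem_cl _ _ _ _).1 h1
    exact h.2 i j k l h2

variable {kd} {K : M} (hK : IsK kd K)
include hK

theorem exists_sig : ∃ σ, IsSig kd K σ ∧ ∀ U, E U σ ↔ Sub E U K ∧ ∀ f, E f U →
    ∃ F, Sub E F kd.θ ∧ IsFin E F ∧
      ∀ g, E g K → (∀ y b, E y F → App E f y b → App E g y b) → E g U := by
  have := zf.nonempty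
  obtain ⟨W, hW⟩ := zf.powerset K
  obtain ⟨σ, hσ⟩ := zf.sep W fun U => ∀ f, E f U → ∃ F, Sub E F kd.θ ∧ IsFin E F ∧
    ∀ g, E g K → (∀ y b, E y F → App E f y b → App E g y b) → E g U
  refine ⟨σ, fun U => ?_, fun U => by rw [hσ, hW]; rfl⟩
  rw [hσ, hW]
  refine and_congr_right fun hU => forall₂_congr fun f hf => ⟨?_, ?_⟩
  · rintro ⟨F, h1, h2, h3⟩
    refine ⟨_, fin_idx zf kd h2, fun g hg h => h3 g hg fun y b hy => ?_⟩
    obtain ⟨j, rfl⟩ := (kd.mem_θ _).1 (h1 y hy)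
    exact (app_congr zf ((hK f).1 (hU f hf)).1 ((hK g).1 hg).1).2 (h j hy) b
  · rintro ⟨F, h1, h2⟩
    obtain ⟨G, h3, h4⟩ := exists_fin zf kd.toND (h1.image kd.o)
    refine ⟨G, fun y hy => ?_, h3, fun g hg h => h2 g hg fun j hj => ?_⟩
    · obtain ⟨j, -, rfl⟩ := (h4 y).1 hy
      exact oθ kd j
    · exact (app_congr zf ((hK f).1 (hU f hf)).1 ((hK g).1 hg).1).1 fun b =>
        h _ b ((h4 _).2 ⟨j, hj, rfl⟩)

omit hK in
theorem exists_tau : ∃ τ, IsTau kd K τ := by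
  have := zf.nonempty
  obtain ⟨W, hW⟩ := zf.powerset kd.θ
  obtain ⟨τ, hτ⟩ := zf.sep W fun U => ∀ a, E a U → ∃ F, Sub E F K ∧ IsFin E F ∧
    ∀ b, E b kd.θ → (∀ f, E f F → (App E f a (kd.nat 1) ↔ App E f b (kd.nat 1))) → E b U
  refine ⟨τ, fun U => ?_⟩
  rw [hτ, hW]
  refine and_congr_right fun hU => ⟨fun h i hi => ?_, fun h a ha => ?_⟩
  · obtain ⟨F, h1, h2, h3⟩ := h _ hi
    exact ⟨_, (isFin_iff zf kd.toND F).1 h2, h1, fun j hj => h3 _ (oθ kd j) hj⟩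
  · obtain ⟨i, rfl⟩ := (kd.mem_θ _).1 (hU a ha)
    obtain ⟨F, h1, h2, h3⟩ := h i ha
    obtain ⟨G, h4, h5⟩ := exists_fin zf kd.toND h1
    refine ⟨G, fun f hf => h2 f ((h5 f).1 hf), h4, fun b hb h6 => ?_⟩
    obtain ⟨j, rfl⟩ := (kd.mem_θ _).1 hb
    exact h3 j fun f hf => h6 f ((h5 f).2 hf)

theorem exists_pt (β : J) : ∃ f, E f K ∧ val kd f β ∧ ∀ j, val kd f j → β ≤ j := by
  obtain ⟨x, h1, h2, h3⟩ := kd.pt β
  obtain ⟨f, h4, h5⟩ := exists_char zf kd x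
  refine ⟨f, (hK f).2 ⟨h4, ?_⟩, (h5 _).2 h1, fun j hj => h2 j ((h5 j).1 hj)⟩
  simpa only [h5] using h3

variable [WellFoundedLT J]

omit hK in
theorem exists_rec (H : M → M → Prop)
    [Dfn E fun v => ∃ x, (∀ c, E c (v 0) → (E c x ↔ H x c)) ∧ H x (v 0)]
    (hloc : ∀ x x' j, (∀ i < j, E (kd.o i) x ↔ E (kd.o i) x') → H x (kd.o j) → H x' (kd.o j)) :
    ∃ x, ∀ j, E (kd.o j) x ↔ H x (kd.o j) := by
  obtain ⟨y, hy⟩ := zf.sep kd.θ fun b => ∃ x, (∀ c, E c b → (E c x ↔ H x c)) ∧ H x b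
  have key : ∀ x x' j, (∀ i < j, E (kd.o i) x ↔ H x (kd.o i)) →
      (∀ i < j, E (kd.o i) x' ↔ H x' (kd.o i)) → ∀ i < j, E (kd.o i) x ↔ E (kd.o i) x' := by
    intro x x' j h h' i
    induction i using WellFoundedLT.induction with
    | ind i ih =>
      intro hi
      rw [h i hi, h' i hi]
      exact ⟨hloc _ _ i fun k hk => ih k hk (hk.trans hi),
        hloc _ _ i fun k hk => (ih k hk (hk.trans hi)).symm⟩
  refine ⟨y, fun j => ?_⟩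
  induction j using WellFoundedLT.induction with
  | ind j ih =>
    rw [hy]
    refine ⟨fun ⟨_, x, h1, h2⟩ => hloc _ _ j (key x y j (fun i hi => h1 _ ((o_mem_o zf kd).2 hi)) ih)
      h2, fun h => ⟨oθ kd j, y, fun c hc => ?_, h⟩⟩
    obtain ⟨i, hi, rfl⟩ := (kd.mem_o _ _).1 hc
    exact ih i hi

theorem isCompact {σ : M} (hσ : IsSig kd K σ) : IsCompactSp E K σ := by
  have := zf.nonempty
  intro c hc hcov
  by_contra hn
  let G : M → M → Prop := fun x a => ∀ F V, Sub E F a → IsFin E F → Sub E V c → IsFin E V →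
    ∃ g, E g K ∧ (∀ i, E i F → (App E g i (kd.nat 1) ↔ E i x)) ∧ ¬ App E g a (kd.nat 1) ∧
      ∀ U, E U V → ¬ E g U
  have hG : ∀ x j, G x (kd.o j) ↔ ∀ (F : Set J) (V : Set M), F.Finite → (∀ i ∈ F, i < j) →
      V.Finite → (∀ U ∈ V, E U c) → ∃ g, E g K ∧ (∀ i ∈ F, val kd g i ↔ E (kd.o i) x) ∧
        ¬ val kd g j ∧ ∀ U ∈ V, ¬ E g U := by
    refine fun x j => ⟨fun h F V h1 h2 h3 h4 => ?_, fun h F V h1 h2 h3 h4 => ?_⟩
    · obtain ⟨F', a1, a2⟩ := exists_fin zf kd.toND (h1.image kd.o)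
      obtain ⟨V', a3, a4⟩ := exists_fin zf kd.toND h3
      obtain ⟨g, b1, b2, b3, b4⟩ := h F' V' (fun y hy => by
        obtain ⟨i, hi, rfl⟩ := (a2 y).1 hy
        exact (o_mem_o zf kd).2 (h2 i hi)) a1 (fun U hU => h4 U ((a4 U).1 hU)) a3
      exact ⟨g, b1, fun i hi => b2 _ ((a2 _).2 ⟨i, hi, rfl⟩), b3, fun U hU => b4 U ((a4 U).2 hU)⟩
    · obtain ⟨g, b1, b2, b3, b4⟩ := h _ _ (fin_idx zf kd h2)
        (fun i hi => (o_mem_o zf kd).1 (h1 _ hi)) ((isFin_iff zf kd.toND V).1 h4) h3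
      refine ⟨g, b1, fun y hy => ?_, b3, b4⟩
      obtain ⟨i, -, rfl⟩ := (kd.mem_o _ _).1 (h1 y hy)
      exact b2 i hy
  obtain ⟨x, hx⟩ := exists_rec zf (kd := kd) (fun x a => ¬ G x a) (by
    intro x x' j h h1 h2
    refine h1 ((hG x j).2 fun F V a1 a2 a3 a4 => ?_)
    obtain ⟨g, b1, b2, b3⟩ := (hG x' j).1 h2 F V a1 a2 a3 a4
    exact ⟨g, b1, fun i hi => (b2 i hi).trans (h i (a2 i hi)).symm, b3⟩)
  let Good : Set J → Prop := fun S => ∀ (F : Set J) (V : Set M), F.Finite → F ⊆ S → V.Finite →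
    (∀ U ∈ V, E U c) → ∃ g, E g K ∧ (∀ i ∈ F, val kd g i ↔ E (kd.o i) x) ∧ ∀ U ∈ V, ¬ E g U
  have lim : ∀ S : Set J, (∀ i ∈ S, Good (Set.Iic i)) → Good S := by
    intro S h F V a1 a2 a3 a4
    rcases F.eq_empty_or_nonempty with rfl | hF
    · obtain ⟨V', a5, a6⟩ := exists_fin zf kd.toND a3
      by_contra h1
      refine hn ⟨V', fun U hU => a4 U ((a6 U).1 hU), a5, fun g hg => by_contra fun h2 => ?_⟩
      exact h1 ⟨g, hg, fun _ h => h.elim, fun U hU h3 => h2 ⟨U, (a6 U).2 hU, h3⟩⟩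
    · obtain ⟨m, hm, h1⟩ := Set.exists_max_image F id a1 hF
      exact h m (a2 hm) F V a1 h1 a3 a4
  have step : ∀ j, Good (Set.Iic j) := by
    intro j
    induction j using WellFoundedLT.induction with
    | ind j ih =>
      intro F V a1 a2 a3 a4
      have fin : ∀ {g}, (∀ i ∈ F \ {j}, val kd g i ↔ E (kd.o i) x) →
          (val kd g j ↔ E (kd.o j) x) → ∀ i ∈ F, val kd g i ↔ E (kd.o i) x := by
        intro g h1 h2 i hi
        by_cases h : i = j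
        · exact h ▸ h2
        · exact h1 i ⟨hi, h⟩
      have hlt : ∀ i ∈ F \ {j}, i < j := fun i hi => lt_of_le_of_ne (a2 hi.1) hi.2
      by_cases h : E (kd.o j) x
      · have h1 := (hx j).1 h
        rw [hG] at h1
        push Not at h1
        obtain ⟨F0, V0, b1, b2, b3, b4, b5⟩ := h1
        obtain ⟨g, c1, c2, c3⟩ := lim (Set.Iio j) ih (F \ {j} ∪ F0) (V ∪ V0)
          (a1.sdiff.union b1) (fun i hi => hi.elim (hlt i) (b2 i)) (a3.union b3)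
          fun U hU => hU.elim (a4 U) (b4 U)
        refine ⟨g, c1, fin (fun i hi => c2 i (Or.inl hi)) (iff_of_true (by_contra fun h2 => ?_) h),
          fun U hU => c3 U (Or.inl hU)⟩
        obtain ⟨U, hU, h3⟩ := b5 g c1 (fun i hi => c2 i (Or.inr hi)) h2
        exact c3 U (Or.inr hU) h3
      · obtain ⟨g, c1, c2, c3, c4⟩ := (hG x j).1 (not_not.1 ((hx j).not.1 h)) (F \ {j}) V
          a1.sdiff hlt a3 a4
        exact ⟨g, c1, fin c2 (iff_of_false c3 h), c4⟩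
  have all := lim Set.univ fun i _ => step i
  obtain ⟨f, h1, h2⟩ := exists_char zf kd x
  have hf : E f K := (hK f).2 ⟨h1, fun a b c d h => by
    obtain ⟨g, c1, c2, -⟩ := all {a, b, c, d} ∅ (Set.toFinite _) (Set.subset_univ _)
      Set.finite_empty fun _ h => h.elim
    rw [h2, h2, h2, h2, ← c2 a (by simp), ← c2 b (by simp), ← c2 c (by simp), ← c2 d (by simp)]
    exact ((hK g).1 c1).2 a b c d h⟩
  obtain ⟨U, hU, hfU⟩ := hcov f hf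
  obtain ⟨F, h3, h4⟩ := ((hσ U).1 (hc U hU)).2 f hfU
  obtain ⟨g, c1, c2, c3⟩ := all F {U} h3 (Set.subset_univ _) (Set.finite_singleton _)
    fun _ h => h ▸ hU
  exact c3 U rfl (h4 g c1 fun j hj => (h2 j).trans (c2 j hj).symm)

theorem uncTight {σ : M} (hσ : IsSig kd K σ) : UncountableTightness E K σ := by
  have := zf.nonempty
  obtain ⟨e, he⟩ := exists_empty zf
  obtain ⟨p, p1, p2⟩ := exists_char zf kd e
  have p3 : ∀ j, ¬ val kd p j := fun j h => he _ ((p2 j).1 h)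
  have hp : E p K := (hK p).2 ⟨p1, fun a _ _ _ _ h => absurd h (p3 a)⟩
  obtain ⟨A, hA⟩ := zf.sep K fun f => ¬ f = p
  refine ⟨A, p, fun f hf => ((hA f).1 hf).1, hp, fun U hU hpU => ?_, fun B hB hc hcl => ?_⟩
  · obtain ⟨F, h1, h2⟩ := ((hσ U).1 hU).2 p hpU
    obtain ⟨β, hβ⟩ : ∃ β, ∀ j ∈ F, j < β := by
      rcases F.eq_empty_or_nonempty with rfl | hF
      · obtain ⟨β⟩ := kd.ne
        exact ⟨β, fun _ h => h.elim⟩
      · obtain ⟨m, -, hm⟩ := Set.exists_max_image F id h1 hF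
        obtain ⟨β, hβ⟩ := kd.nomax m
        exact ⟨β, fun j hj => lt_of_le_of_lt (hm j hj) hβ⟩
    obtain ⟨f, a1, a2, a3⟩ := exists_pt zf hK β
    exact ⟨f, h2 f a1 fun j hj => iff_of_false (p3 j) fun h => (hβ j hj).not_ge (a3 j h),
      (hA f).2 ⟨a1, fun h => p3 β (h ▸ a2)⟩⟩
  · obtain ⟨w, ι, hw, hι⟩ := hc
    rw [omega_eq zf kd.toND hw] at hι
    obtain ⟨δ, hδ⟩ := kd.refl (fun a n _ => ∃ f, App E ι f n ∧ App E f a (kd.nat 1) ∧
      ∀ a', E a' a → ¬ App E f a' (kd.nat 1)) inferInstance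
    obtain ⟨s, t, hst⟩ := kd.cover δ
    obtain ⟨U, hU⟩ := zf.sep K fun g =>
      ¬ App E g (kd.o s) (kd.nat 1) ∧ ¬ App E g (kd.o t) (kd.nat 1)
    obtain ⟨f, h1, h2⟩ := hcl U ((hσ U).2 ⟨fun g hg => ((hU g).1 hg).1, fun g hg =>
      ⟨{s, t}, Set.toFinite _, fun g' hg' h => (hU g').2 ⟨hg',
        fun h3 => ((hU g).1 hg).2.1 ((h s (by simp)).2 h3),
        fun h3 => ((hU g).1 hg).2.2 ((h t (by simp)).2 h3)⟩⟩⟩) ((hU p).2 ⟨hp, p3 s, p3 t⟩)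
    obtain ⟨h3, h4⟩ := (hA f).1 (hB f h2)
    have hf := (hK f).1 h3
    have : ∃ j, val kd f j := by
      by_contra h5
      refine h4 (fun_ext zf hf.1 p1 fun a b hab => ?_)
      obtain ⟨j, rfl⟩ := (kd.mem_θ _).1 (hf.1.mem zf hab).1
      exact (app_congr zf hf.1 p1).2 (iff_of_false (fun h => h5 ⟨j, h⟩) (p3 j)) b hab
    obtain ⟨j, h5, h6⟩ := (wellFounded_lt (α := J)).has_min {j | val kd f j} this
    obtain ⟨n, hn⟩ := hι.1.2.1 f h2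
    obtain ⟨k, rfl⟩ := (kd.mem_w _).1 (hι.1.mem zf hn).2
    have h7 : j ≤ δ := le_of_not_gt fun h => by
      obtain ⟨u, a1, ⟨f', a2, a3, -⟩, -⟩ := hδ k j j h.le ⟨f, hn, h5, fun a ha h8 => by
        obtain ⟨i, hi, rfl⟩ := (kd.mem_o _ _).1 ha
        exact h6 i h8 hi⟩ (Or.inr rfl)
      obtain rfl := hι.2 _ _ _ a2 hn
      exact h6 u a3 (a1.trans h)
    exact (hf.2 j j s t (hst j h7) h5 h5).elim ((hU f).1 h1).2.1 ((hU f).1 h1).2.2

end Pool.Agent.Work.MP_ee7661_gt
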